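import Pool.Agent.W_fc1c69_h34.ContactB

/-! LEMMA 3 (ABP at the top). -/

namespace FC34

open Complex MeasureTheory Metric Set

/-- LEMMA 3: `contactA` (regime A; `Sig (2T) ⊆ Sig (8T)`) or `exists_contactB` (regime B). -/
theorem lemma3 (q₁ l : ℝ) (hq : 0 ≤ q₁) (hl : 0 ≤ l) :
    ∃ c : ℝ, 0 < c ∧ ∃ T₀ : ℝ, 1 ≤ T₀ ∧
      ∀ (Λ : ℝ) (φ Q : ℂ → ℝ), Loc q₁ l Λ φ Q → ∀ (T : ℝ) (a y : ℂ), T₀ ≤ T →
        IsTop φ Λ T a y → 0 < ‖y - a‖ → ‖y - a‖ ≤ Λ / 50 → a ∈ ball (0 : ℂ) (2.5 * Λ) →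
        ENNReal.ofReal (c * ‖y - a‖ ^ 2) ≤
          volume (Sig φ Λ (8 * T) ∩ closedBall y (‖y - a‖ / 2)) := by
  obtain ⟨c, hc, T₀, hT₀, hB⟩ := exists_contactB q₁ l hq hl
  refine ⟨min c (1 / 1200), lt_min hc (by norm_num), T₀, hT₀, ?_⟩
  intro Λ φ Q h T a y hT hy hρ hd ha
  have hΛ := h.hΛ
  have hT0 : 0 < T := by linarith
  have hna : ‖a‖ < 2.5 * Λ := by
    rwa [mem_ball_zero_iff] at ha
  have hsub : closedBall y (‖y - a‖ / 2) ⊆ closedBall (0 : ℂ) (3 * Λ) := by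
    intro w hw
    rw [mem_closedBall, dist_eq_norm] at hw
    rw [mem_closedBall_zero_iff]
    have h2 := norm_add_le (w - y) y
    rw [sub_add_cancel] at h2
    have h3 := norm_add_le (y - a) a
    rw [sub_add_cancel] at h3
    linarith
  rcases le_or_gt ‖y - a‖ (T / Cv q₁ l) with hA | hA
  · refine le_trans ?_ ((contactA h hT0 hy hρ hsub hA).trans (measure_mono ?_))
    · refine ENNReal.ofReal_le_ofReal ?_
      exact mul_le_mul_of_nonneg_right (min_le_right _ _) (by positivity)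
    · exact inter_subset_inter_left _ (Sig_mono (by linarith))
  · refine le_trans ?_ (hB Λ φ Q h T a y hT hy hA (by linarith) hsub)
    refine ENNReal.ofReal_le_ofReal ?_
    exact mul_le_mul_of_nonneg_right (min_le_left _ _) (by positivity)

end FC34
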