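import Pool.Agent.W_fc1c69_h34.Growth
import Pool.Agent.W_fc1c69_h34.Lemma3

/-! THEOREM A_loc. -/

namespace FC34

open Complex MeasureTheory Metric Set

/-- (L3): for a suitable `M` (absolute), if `y` is a `4T`-top of `a`, `|y-a| ≤ Λ/50`,
`|a'-a| ≤ |y-a|/10`, `y'` a top of `a'` of slope `t = MT/8`, then `|y'-a'| ≤ |y-a|/10`.
Proof: `L2` with `η = 1/10`: the `8T`-top `y''` of `a'` has `|y''-a'| ≤ 1.3|y-a|`; `growth` for
`(8T, t)`: `|y'-a'| ≤ 2 √(40T/t) · 1.3 |y-a|`, `√(40T/t) = √(320/M)`. Here `|y''-a'| ≤ Λ/50` comes from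
the hypothesis `hMB` (tops of slope `≥ 100N`). `M = 320 * 26^2` works. -/
theorem exists_L3 (q₁ l N : ℝ) (hq : 0 ≤ q₁) (hl : 0 ≤ l) (hN : 0 ≤ N) :
    ∃ T₀ : ℝ, 1 ≤ T₀ ∧ ∀ (Λ : ℝ) (φ Q : ℂ → ℝ), Loc q₁ l Λ φ Q → MB φ Λ N →
      ∀ (T : ℝ) (a a' y y' : ℂ), T₀ ≤ T → a ∈ ball (0 : ℂ) (2 * Λ) →
        IsTop φ Λ (4 * T) a y → ‖a' - a‖ ≤ ‖y - a‖ / 10 →
        IsTop φ Λ (320 * 26 ^ 2 * T / 8) a' y' → ‖y' - a'‖ ≤ ‖y - a‖ / 10 := by
  obtain ⟨T₁, hT₁, hgr⟩ := growth q₁ l hq hl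
  refine ⟨max T₁ (25 * N), hT₁.trans (le_max_left _ _), ?_⟩
  intro Λ φ Q h hMB T a a' y y' hT ha hy ha' hy'
  have hT1 : T₁ ≤ T := (le_max_left _ _).trans hT
  have hTN : 25 * N ≤ T := (le_max_right _ _).trans hT
  have hT0 : 0 < T := by linarith
  have hΛ := h.hΛ
  have ha2 : a ∈ ball (0 : ℂ) (2.5 * Λ) := ball_subset_ball (by linarith) ha
  have hd1 : ‖y - a‖ ≤ Λ / 50 :=
    h.top_dist_le hMB hN (by linarith : 0 < 4 * T) (by linarith) ha2 hy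
  have ha'2 : a' ∈ ball (0 : ℂ) (2.5 * Λ) := by
    rw [mem_ball_zero_iff] at ha ⊢
    have h1 : ‖a'‖ ≤ ‖a' - a‖ + ‖a‖ := by
      simpa using norm_add_le (a' - a) a
    linarith
  obtain ⟨y'', hy''⟩ := h.exists_top (8 * T) a'
  have hd2 : ‖y'' - a'‖ ≤ Λ / 50 :=
    h.top_dist_le hMB hN (by linarith : 0 < 8 * T) (by linarith) ha'2 hy''
  have hd3 : ‖y'' - a'‖ ≤ (1 + 3 * (1 / 10)) * ‖y - a‖ :=
    h.L2 hT0 (by norm_num) hy (by linarith) hy''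
  have hd4 := hgr Λ φ Q h (8 * T) (320 * 26 ^ 2 * T / 8) a' y' y'' (by linarith)
    (by linarith) ha'2 hy'' hy' hd2
  have h26 : Real.sqrt (320 * 26 ^ 2 * T / 8 / (5 * (8 * T))) = 26 := by
    have h1 : 320 * 26 ^ 2 * T / 8 / (5 * (8 * T)) = 26 ^ 2 := by
      field_simp
      norm_num
    rw [h1]
    exact Real.sqrt_sq (by norm_num)
  rw [h26] at hd4
  linarith

/-- (L4): with `M = 320 · 26²`: for `a ∈ ball 0 (2Λ) \ Sig(MT)` there is `r`, `0 < r ≤ Λ/200`, with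
`closedBall a r` disjoint from `Sig T` and `|Sig(MT) ∩ closedBall a r| ≥ c r²`.
Proof: `y` a `4T`-top of `a`, `r = |y-a|/4 > 0` (else `a ∈ Sig(4T) ⊆ Sig(MT)`); `L1`. Every
`a' ∈ closedBall a (|y-a|/10)` has a `t`-top `y'` (`t = MT/8`), `|y'-a'| ≤ |y-a|/10` (`exists_L3`); if
`|y'-a'| = 0`, `a' ∈ Sig t ⊆ Sig(MT)`; otherwise `lemma3` for the slope `t`:
`|Sig(8t) ∩ closedBall y' (|y'-a'|/2)| ≥ c |y'-a'|²`, this ball is inside
`closedBall a' (1.5|y'-a'|) ⊆ closedBall a (|y-a|/4)`.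
`vitali_lower` with `S = closedBall a (|y-a|/10) \ Sig t`, `G = Sig(MT) ∩ closedBall a (|y-a|/4)`. -/
theorem exists_L4 (q₁ l N : ℝ) (hq : 0 ≤ q₁) (hl : 0 ≤ l) (hN : 0 ≤ N) :
    ∃ c : ℝ, 0 < c ∧ ∃ T₀ : ℝ, 1 ≤ T₀ ∧ ∀ (Λ : ℝ) (φ Q : ℂ → ℝ), Loc q₁ l Λ φ Q → MB φ Λ N →
      ∀ (T : ℝ) (a : ℂ), T₀ ≤ T → a ∈ ball (0 : ℂ) (2 * Λ) → a ∉ Sig φ Λ (320 * 26 ^ 2 * T) →
        ∃ r : ℝ, 0 < r ∧ r ≤ Λ / 200 ∧ Disjoint (closedBall a r) (Sig φ Λ T) ∧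
          ENNReal.ofReal (c * r ^ 2) ≤
            volume (Sig φ Λ (320 * 26 ^ 2 * T) ∩ closedBall a r) := by
  obtain ⟨T₁, hT₁, hL3⟩ := exists_L3 q₁ l N hq hl hN
  obtain ⟨c₃, hc₃, T₂, hT₂, hlem⟩ := lemma3 q₁ l hq hl
  obtain ⟨k, hk⟩ : ∃ k : ℝ, k = 4 * c₃ / 9 := ⟨_, rfl⟩
  have hk0 : 0 < k := by rw [hk]; positivity
  have hπ : 0 < Real.pi := Real.pi_pos
  refine ⟨k * (Real.pi * 16 / 100) / (25 * Real.pi + k), by positivity,
    max (max T₁ T₂) (25 * N), hT₁.trans ((le_max_left _ _).trans (le_max_left _ _)), ?_⟩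
  intro Λ φ Q h hMB T a hT ha haS
  have hTT₁ : T₁ ≤ T := ((le_max_left _ _).trans (le_max_left _ _)).trans hT
  have hTT₂ : T₂ ≤ T := ((le_max_right _ _).trans (le_max_left _ _)).trans hT
  have hTN : 25 * N ≤ T := (le_max_right _ _).trans hT
  have hT0 : 0 < T := by linarith
  have hΛ := h.hΛ
  have ha2 : a ∈ ball (0 : ℂ) (2.5 * Λ) := ball_subset_ball (by linarith) ha
  obtain ⟨y, hy⟩ := h.exists_top (4 * T) a
  have hd1 : ‖y - a‖ ≤ Λ / 50 :=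
    h.top_dist_le hMB hN (by linarith : 0 < 4 * T) (by linarith) ha2 hy
  have hpos : 0 < ‖y - a‖ := by
    rcases (norm_nonneg (y - a)).lt_or_eq with h1 | h1
    · exact h1
    · exact absurd (Sig_mono (by linarith) (hy.self_of_eq h1.symm)) haS
  refine ⟨‖y - a‖ / 4, by positivity, by linarith, ?_, ?_⟩
  · rw [Set.disjoint_left]
    intro x hx
    rw [mem_closedBall_iff_norm] at hx
    exact h.L1 hT0 hy hpos hx
  obtain ⟨t, ht⟩ : ∃ t : ℝ, t = 320 * 26 ^ 2 * T / 8 := ⟨_, rfl⟩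
  have ht8 : 8 * t = 320 * 26 ^ 2 * T := by rw [ht]; ring
  have htT : T ≤ t := by rw [ht]; linarith
  obtain ⟨G, hG⟩ : ∃ G : Set ℂ, G = Sig φ Λ (320 * 26 ^ 2 * T) ∩ closedBall a (‖y - a‖ / 4) :=
    ⟨_, rfl⟩
  obtain ⟨S, hS⟩ : ∃ S : Set ℂ, S = closedBall a (‖y - a‖ / 10) \ Sig φ Λ t := ⟨_, rfl⟩
  have hGm : MeasurableSet G := by
    rw [hG]
    exact ((h.isClosed_Sig _).inter isClosed_closedBall).measurableSet
  have hkey : ∀ a' ∈ S, ∃ r : ℝ, 0 < r ∧ r ≤ ‖y - a‖ ∧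
      ENNReal.ofReal (k * r ^ 2) ≤ volume (G ∩ closedBall a' r) := by
    intro a' ha'
    rw [hS] at ha'
    have ha'1 : ‖a' - a‖ ≤ ‖y - a‖ / 10 := by
      rw [← mem_closedBall_iff_norm]
      exact ha'.1
    obtain ⟨y', hy'⟩ := h.exists_top t a'
    have hd2 : ‖y' - a'‖ ≤ ‖y - a‖ / 10 :=
      hL3 Λ φ Q h hMB T a a' y y' hTT₁ ha hy ha'1 (ht ▸ hy')
    have hpos' : 0 < ‖y' - a'‖ := by
      rcases (norm_nonneg (y' - a')).lt_or_eq with h1 | h1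
      · exact h1
      · exact absurd (hy'.self_of_eq h1.symm) ha'.2
    have ha'2 : a' ∈ ball (0 : ℂ) (2.5 * Λ) := by
      rw [mem_ball_zero_iff] at ha ⊢
      have h1 : ‖a'‖ ≤ ‖a' - a‖ + ‖a‖ := by
        simpa using norm_add_le (a' - a) a
      linarith
    have h3 := hlem Λ φ Q h t a' y' (hTT₂.trans htT) hy' hpos' (by linarith) ha'2
    refine ⟨3 / 2 * ‖y' - a'‖, by positivity, by linarith, ?_⟩
    have h4 : k * (3 / 2 * ‖y' - a'‖) ^ 2 = c₃ * ‖y' - a'‖ ^ 2 := by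
      rw [hk]; ring
    rw [h4]
    refine h3.trans (measure_mono ?_)
    rw [ht8]
    intro x hx
    have hx2 : ‖x - y'‖ ≤ ‖y' - a'‖ / 2 := by
      rw [← mem_closedBall_iff_norm]
      exact hx.2
    have hx3 : ‖x - a'‖ ≤ 3 / 2 * ‖y' - a'‖ := by
      have h1 : ‖x - a'‖ ≤ ‖x - y'‖ + ‖y' - a'‖ := by
        simpa using norm_add_le (x - y') (y' - a')
      linarith
    have hx4 : ‖x - a‖ ≤ ‖y - a‖ / 4 := by
      have h1 : ‖x - a‖ ≤ ‖x - a'‖ + ‖a' - a‖ := by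
        simpa using norm_add_le (x - a') (a' - a)
      linarith
    rw [hG]
    exact ⟨⟨hx.1, mem_closedBall_iff_norm.2 hx4⟩, mem_closedBall_iff_norm.2 hx3⟩
  have hV := vitali_lower hk0 hGm hkey
  have hGf : volume G ≠ ⊤ := by
    refine ne_top_of_le_ne_top (measure_closedBall_lt_top (x := a) (r := ‖y - a‖ / 4)).ne
      (measure_mono ?_)
    rw [hG]
    exact inter_subset_right
  have hcov : volume (closedBall a (‖y - a‖ / 10)) ≤ volume S + volume G := by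
    refine (measure_mono ?_).trans (measure_union_le S G)
    intro x hx
    by_cases hxS : x ∈ Sig φ Λ t
    · right
      rw [hG]
      exact ⟨Sig_mono (by linarith) hxS, closedBall_subset_closedBall (by linarith) hx⟩
    · left
      rw [hS]
      exact ⟨hx, hxS⟩
  have hSf : volume S ≠ ⊤ := by
    refine ne_top_of_le_ne_top (measure_closedBall_lt_top (x := a) (r := ‖y - a‖ / 10)).ne
      (measure_mono ?_)
    rw [hS]
    exact diff_subset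
  -- pass to real numbers
  have hV' : k * (volume S).toReal ≤ 25 * Real.pi * (volume G).toReal := by
    have h1 := ENNReal.toReal_mono (ENNReal.mul_ne_top ENNReal.ofReal_ne_top hGf) hV
    rwa [ENNReal.toReal_mul, ENNReal.toReal_mul, ENNReal.toReal_ofReal hk0.le,
      ENNReal.toReal_ofReal (by positivity)] at h1
  have hvol : (volume (closedBall a (‖y - a‖ / 10))).toReal = Real.pi * (‖y - a‖ / 10) ^ 2 := by
    rw [Complex.volume_closedBall, ENNReal.toReal_mul, ENNReal.toReal_pow,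
      ENNReal.toReal_ofReal (by positivity)]
    simp
    ring
  have hcov' : Real.pi * (‖y - a‖ / 10) ^ 2 ≤ (volume S).toReal + (volume G).toReal := by
    rw [← hvol, ← ENNReal.toReal_add hSf hGf]
    exact ENNReal.toReal_mono (ENNReal.add_ne_top.2 ⟨hSf, hGf⟩) hcov
  rw [← hG]
  refine (ENNReal.ofReal_le_iff_le_toReal hGf).2 ?_
  rw [div_mul_eq_mul_div, div_le_iff₀ (by positivity)]
  have h5 : k * (Real.pi * (‖y - a‖ / 10) ^ 2) ≤
      k * ((volume S).toReal + (volume G).toReal) := mul_le_mul_of_nonneg_left hcov' hk0.le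
  have h6 : k * (Real.pi * 16 / 100) * (‖y - a‖ / 4) ^ 2 = k * (Real.pi * (‖y - a‖ / 10) ^ 2) := by
    ring
  rw [h6]
  linarith

/-- THEOREM A_loc.  Proof: `T_j = M^j T₀`. By `exists_L4` and `vitali_lower`
(`S = ball 0 Λ \ Sig(T_{j+1})`, `G = (Sig(T_{j+1}) \ Sig(T_j)) ∩ ball 0 (2Λ)`),
`c |ball 0 Λ \ Sig(T_{j+1})| ≤ 25π |(Sig(T_{j+1}) \ Sig(T_j)) ∩ ball 0 (2Λ)|`; the sets on the right are
disjoint subsets of `ball 0 (2Λ)`, the left side decreases in `j`; sum over `j < k`: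
`k c |ball 0 Λ \ Sig(T_k)| ≤ 25π · 4πΛ²`. -/
theorem A_loc (q₁ l N ε : ℝ) (hq : 0 ≤ q₁) (hl : 0 ≤ l) (hN : 0 ≤ N) (hε : 0 < ε) :
    ∃ K : ℝ, 0 < K ∧ ∀ (Λ : ℝ) (φ Q : ℂ → ℝ), Loc q₁ l Λ φ Q → MB φ Λ N →
      volume (ball (0 : ℂ) Λ \ Sig φ Λ K) ≤ ENNReal.ofReal (ε * Λ ^ 2) := by
  obtain ⟨c, hc, T₀, hT₀, hL4⟩ := exists_L4 q₁ l N hq hl hN
  have hπ : 0 < Real.pi := Real.pi_pos
  obtain ⟨k, hk⟩ := exists_nat_gt (100 * Real.pi ^ 2 / (c * ε))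
  obtain ⟨M, hM⟩ : ∃ M : ℝ, M = 320 * 26 ^ 2 := ⟨_, rfl⟩
  have hM1 : 1 ≤ M := by rw [hM]; norm_num
  have hTpos : ∀ j : ℕ, T₀ ≤ M ^ j * T₀ := fun j => by
    have h1 := one_le_pow₀ hM1 (n := j)
    nlinarith
  have hTm : ∀ i j : ℕ, i ≤ j → M ^ i * T₀ ≤ M ^ j * T₀ := fun i j hij => by
    have h1 := pow_le_pow_right₀ hM1 hij
    nlinarith
  refine ⟨M ^ k * T₀, by positivity, ?_⟩
  intro Λ φ Q h hMB
  have hΛ := h.hΛ
  -- the annuli
  have hstep : ∀ j : ℕ, ENNReal.ofReal c * volume (ball (0 : ℂ) Λ \ Sig φ Λ (M ^ (j + 1) * T₀)) ≤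
      ENNReal.ofReal (25 * Real.pi) * volume ((Sig φ Λ (M ^ (j + 1) * T₀) \
        Sig φ Λ (M ^ j * T₀)) ∩ ball (0 : ℂ) (2 * Λ)) := by
    intro j
    refine vitali_lower (Rm := Λ / 200) hc (((h.isClosed_Sig _).measurableSet.diff
      (h.isClosed_Sig _).measurableSet).inter measurableSet_ball) ?_
    intro a ha
    have hMT : M ^ (j + 1) * T₀ = 320 * 26 ^ 2 * (M ^ j * T₀) := by
      rw [pow_succ, hM]; ring
    obtain ⟨r, hr0, hr, hdis, hvol⟩ := hL4 Λ φ Q h hMB (M ^ j * T₀) a (hTpos j)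
      (ball_subset_ball (by linarith) ha.1) (by rw [← hMT]; exact ha.2)
    refine ⟨r, hr0, hr, hvol.trans (measure_mono ?_)⟩
    intro x hx
    refine ⟨⟨⟨by rw [hMT]; exact hx.1, fun hx2 => ?_⟩, ?_⟩, hx.2⟩
    · exact Set.disjoint_left.1 hdis hx.2 hx2
    · have h1 : ‖x - a‖ ≤ r := mem_closedBall_iff_norm.1 hx.2
      have h2 : ‖a‖ < Λ := mem_ball_zero_iff.1 ha.1
      rw [mem_ball_zero_iff]
      have h3 : ‖x‖ ≤ ‖x - a‖ + ‖a‖ := by
        simpa using norm_add_le (x - a) a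
      linarith
  have hsum : ∀ n : ℕ, ∑ j ∈ Finset.range n, volume ((Sig φ Λ (M ^ (j + 1) * T₀) \
        Sig φ Λ (M ^ j * T₀)) ∩ ball (0 : ℂ) (2 * Λ)) ≤
      volume (Sig φ Λ (M ^ n * T₀) ∩ ball (0 : ℂ) (2 * Λ)) := by
    intro n
    induction n with
    | zero => simp
    | succ n ih =>
      rw [Finset.sum_range_succ]
      have h1 : Sig φ Λ (M ^ (n + 1) * T₀) ∩ ball (0 : ℂ) (2 * Λ) =
          (Sig φ Λ (M ^ n * T₀) ∩ ball (0 : ℂ) (2 * Λ)) ∪ ((Sig φ Λ (M ^ (n + 1) * T₀) \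
          Sig φ Λ (M ^ n * T₀)) ∩ ball (0 : ℂ) (2 * Λ)) := by
        ext x
        have h2 : x ∈ Sig φ Λ (M ^ n * T₀) → x ∈ Sig φ Λ (M ^ (n + 1) * T₀) :=
          fun hx => Sig_mono (hTm n (n + 1) (Nat.le_succ n)) hx
        simp only [mem_inter_iff, mem_union, mem_diff]
        tauto
      have h3 : Disjoint (Sig φ Λ (M ^ n * T₀) ∩ ball (0 : ℂ) (2 * Λ))
          ((Sig φ Λ (M ^ (n + 1) * T₀) \ Sig φ Λ (M ^ n * T₀)) ∩ ball (0 : ℂ) (2 * Λ)) := by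
        rw [Set.disjoint_left]
        intro x hx hx2
        exact hx2.1.2 hx.1
      rw [h1, measure_union h3 (((h.isClosed_Sig _).measurableSet.diff
        (h.isClosed_Sig _).measurableSet).inter measurableSet_ball)]
      gcongr
  -- the sum of the steps
  have hmono : ∀ j < k, volume (ball (0 : ℂ) Λ \ Sig φ Λ (M ^ k * T₀)) ≤
      volume (ball (0 : ℂ) Λ \ Sig φ Λ (M ^ (j + 1) * T₀)) := by
    intro j hj
    refine measure_mono (diff_subset_diff_right ?_)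
    exact Sig_mono (hTm (j + 1) k hj)
  obtain ⟨s, hs⟩ : ∃ s, s = volume (ball (0 : ℂ) Λ \ Sig φ Λ (M ^ k * T₀)) := ⟨_, rfl⟩
  have htot : (k : ENNReal) * (ENNReal.ofReal c * s) ≤
      ENNReal.ofReal (25 * Real.pi) * volume (ball (0 : ℂ) (2 * Λ)) := by
    calc (k : ENNReal) * (ENNReal.ofReal c * s) =
          ∑ j ∈ Finset.range k, ENNReal.ofReal c * s := by
          rw [Finset.sum_const, Finset.card_range, nsmul_eq_mul]
      _ ≤ ∑ j ∈ Finset.range k, ENNReal.ofReal (25 * Real.pi) *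
          volume ((Sig φ Λ (M ^ (j + 1) * T₀) \ Sig φ Λ (M ^ j * T₀)) ∩ ball (0 : ℂ) (2 * Λ)) := by
          refine Finset.sum_le_sum fun j hj => ?_
          refine le_trans ?_ (hstep j)
          rw [hs]
          exact mul_le_mul_right (hmono j (Finset.mem_range.1 hj)) _
      _ = ENNReal.ofReal (25 * Real.pi) * ∑ j ∈ Finset.range k,
          volume ((Sig φ Λ (M ^ (j + 1) * T₀) \ Sig φ Λ (M ^ j * T₀)) ∩ ball (0 : ℂ) (2 * Λ)) := by
          rw [Finset.mul_sum]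
      _ ≤ _ := by
          refine mul_le_mul_right ((hsum k).trans (measure_mono inter_subset_right)) _
  rw [← hs]
  have hsf : s ≠ ⊤ := by
    rw [hs]
    exact ne_top_of_le_ne_top (measure_ball_lt_top (x := (0 : ℂ)) (r := Λ)).ne
      (measure_mono diff_subset)
  have hvol : (volume (ball (0 : ℂ) (2 * Λ))).toReal = Real.pi * (2 * Λ) ^ 2 := by
    rw [Complex.volume_ball, ENNReal.toReal_mul, ENNReal.toReal_pow,
      ENNReal.toReal_ofReal (by positivity)]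
    simp
    ring
  have htot' : (k : ℝ) * (c * s.toReal) ≤ 25 * Real.pi * (Real.pi * (2 * Λ) ^ 2) := by
    have h1 := ENNReal.toReal_mono (ENNReal.mul_ne_top ENNReal.ofReal_ne_top
      (measure_ball_lt_top (x := (0 : ℂ)) (r := 2 * Λ)).ne) htot
    rwa [ENNReal.toReal_mul, ENNReal.toReal_mul, ENNReal.toReal_mul, hvol,
      ENNReal.toReal_ofReal hc.le, ENNReal.toReal_ofReal (by positivity),
      ENNReal.toReal_natCast] at h1
  rw [← ENNReal.ofReal_toReal hsf]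
  refine ENNReal.ofReal_le_ofReal ?_
  rw [div_lt_iff₀ (by positivity)] at hk
  have hs0 : 0 ≤ s.toReal := ENNReal.toReal_nonneg
  by_contra hcon
  rw [not_le] at hcon
  have h7 : 0 < (k : ℝ) := by
    by_contra h8
    have h9 : (k : ℝ) = 0 := le_antisymm (not_lt.1 h8) (Nat.cast_nonneg k)
    rw [h9, zero_mul] at hk
    have h10 : 0 < 100 * Real.pi ^ 2 := by positivity
    linarith
  have h8 : (k : ℝ) * (c * (ε * Λ ^ 2)) < (k : ℝ) * (c * s.toReal) := by gcongr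
  have h9 : 100 * Real.pi ^ 2 * Λ ^ 2 < (k : ℝ) * (c * ε) * Λ ^ 2 := by
    have h10 : 0 < Λ ^ 2 := by positivity
    exact mul_lt_mul_of_pos_right hk h10
  have h10 : (k : ℝ) * (c * ε) * Λ ^ 2 = (k : ℝ) * (c * (ε * Λ ^ 2)) := by ring
  have h11 : 25 * Real.pi * (Real.pi * (2 * Λ) ^ 2) = 100 * Real.pi ^ 2 * Λ ^ 2 := by ring
  linarith

end FC34
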