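import Pool.Agent.W_fc1c69_h34.Defs4

/-! Finite atlas by compactness. -/

namespace FC34

open Complex MeasureTheory Metric Set

variable {M : Type*} [MetricSpace M] {Eig : ℝ → (M → ℝ) → Prop}

/-- The constants of a chart may be enlarged (the chart map is unchanged). -/
theorem IsoChart.exists_mono {q₁ l L q₁' l' L' : ℝ} (C : IsoChart M Eig q₁ l L) (h1 : q₁ ≤ q₁')
    (h2 : l ≤ l') (h3 : L ≤ L') : ∃ C' : IsoChart M Eig q₁' l' L', C'.c = C.c := by
  refine ⟨{
    c := C.c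
    q := C.q
    hq₁ := C.hq₁.trans h1
    hl := C.hl.trans h2
    hL := C.hL.trans h3
    lip := fun x hx y hy => (C.lip x hx y hy).trans
      (mul_le_mul_of_nonneg_right h3 (norm_nonneg _))
    antilip := fun x hx y hy => (C.antilip x hx y hy).trans
      (mul_le_mul_of_nonneg_right h3 dist_nonneg)
    surj := ?_
    qd := C.qd
    ql := fun x hx => (C.ql x hx).trans h2
    qb := fun x hx => ⟨(C.qb x hx).1, (C.qb x hx).2.trans h1⟩
    smooth := C.smooth
    pde := C.pde }, rfl⟩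
  intro x hx r hr hsub
  have hL0 : 0 < L := lt_of_lt_of_le one_pos C.hL
  exact (ball_subset_ball (div_le_div_of_nonneg_left hr.le hL0 h3)).trans (C.surj x hx r hr hsub)

/-- Finite atlas: `c '' ball 0 (1/2) ⊇ ball (c 0) (1/(2L))` is a neighbourhood of `p = c 0`. -/
theorem exists_finAtlas [CompactSpace M]
    (hchart : ∀ p : M, ∃ q₁ l L : ℝ, ∃ C : IsoChart M Eig q₁ l L, C.c 0 = p) :
    Nonempty (FinAtlas M Eig) := by
  classical
  choose q₁ l L C hC using hchart
  have hL0 : ∀ p, 0 < L p := fun p => lt_of_lt_of_le one_pos (C p).hL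
  have hcov : (univ : Set M) ⊆ ⋃ p : M, ball p ((1 / 2) / L p) := by
    intro p _
    rw [mem_iUnion]
    exact ⟨p, mem_ball_self (div_pos (by norm_num) (hL0 p))⟩
  obtain ⟨t, ht⟩ := isCompact_univ.elim_finite_subcover (fun p : M => ball p ((1 / 2) / L p))
    (fun p => isOpen_ball) hcov
  have hex : ∀ p ∈ t, ∃ C' : IsoChart M Eig (∑ p ∈ t, q₁ p) (∑ p ∈ t, l p) (∑ p ∈ t, L p),
      C'.c = (C p).c := fun p hp => (C p).exists_mono
    (Finset.single_le_sum (f := q₁) (fun p _ => (C p).hq₁) hp)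
    (Finset.single_le_sum (f := l) (fun p _ => (C p).hl) hp)
    (Finset.single_le_sum (f := L) (fun p _ => (hL0 p).le) hp)
  choose C' hC' using hex
  refine ⟨{
    q₁ := ∑ p ∈ t, q₁ p
    l := ∑ p ∈ t, l p
    L := ∑ p ∈ t, L p
    n := t.card
    C := fun i => C' (t.equivFin.symm i).1 (t.equivFin.symm i).2
    cover := ?_ }⟩
  intro p
  have hp := ht (mem_univ p)
  rw [mem_iUnion₂] at hp
  obtain ⟨x, hx, hpx⟩ := hp
  refine ⟨t.equivFin ⟨x, hx⟩, ?_⟩
  have h0 : (0 : ℂ) ∈ ball (0 : ℂ) 4 := mem_ball_self (by norm_num)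
  have h1 := (C x).surj 0 h0 (1 / 2) (by norm_num) (ball_subset_ball (by norm_num))
  rw [hC x] at h1
  obtain ⟨u, hu, hup⟩ := h1 hpx
  refine ⟨u, hu, ?_⟩
  have h2 : t.equivFin.symm (t.equivFin ⟨x, hx⟩) = ⟨x, hx⟩ := Equiv.symm_apply_apply _ _
  rw [hC' _ (t.equivFin.symm (t.equivFin ⟨x, hx⟩)).2, h2]
  exact hup

end FC34
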