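import Pool.Agent.W_fc1c69_h34.Scale

/-! Lower bound for the number of discs. -/

namespace FC34

open Complex MeasureTheory Metric Set

variable {M : Type*} [MetricSpace M] {Eig : ℝ → (M → ℝ) → Prop}

/-- The number of discs of a covering with radius `A/Λ` is at least `c Λ²`.
Proof: in one chart `k` (`n ≥ 1` since `M` is nonempty), the sets
`{y ∈ ball 0 (Λ/2) | pt y ∈ ball (x i) r}` cover `ball 0 (Λ/2)` and each has diameter
`≤ LΛ/0.9 · 2r ≤ 2.3 A L`, so area `≤ π (2.3AL)²`. -/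
theorem card_ge [Nonempty M] (𝒜 : FinAtlas M Eig) (A : ℝ) (hA : 0 < A) :
    ∃ c : ℝ, 0 < c ∧ ∀ (C₁ Λ : ℝ), 1 ≤ Λ → ∀ (ι : Type) [Fintype ι] (x : ι → M),
      IsCov M C₁ (A / Λ) x → c * Λ ^ 2 ≤ Fintype.card ι := by
  obtain ⟨k, -⟩ := 𝒜.cover (Classical.arbitrary M)
  have hL : 1 ≤ 𝒜.L := (𝒜.C k).hL
  have hL0 : 0 < 𝒜.L := by linarith
  set ρ : ℝ := 2 * A * 𝒜.L / 0.9 with hρ
  have hρ0 : 0 < ρ := by rw [hρ]; positivity
  refine ⟨1 / (4 * ρ ^ 2), by positivity, ?_⟩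
  intro C₁ Λ hΛ ι _ x hcov
  have hΛ0 : 0 < Λ := by linarith
  let D : ι → Set ℂ := fun i => {y | y ∈ ball (0 : ℂ) (Λ / 2) ∧
    (𝒜.C k).pt Λ y ∈ ball (x i) (A / Λ)}
  have hsub : ∀ y ∈ ball (0 : ℂ) (Λ / 2), y ∈ ball (0 : ℂ) (4 * Λ) := fun y hy =>
    ball_subset_ball (by linarith) hy
  have hcover : ball (0 : ℂ) (Λ / 2) ⊆ ⋃ i, D i := by
    intro y hy
    have h1 : (𝒜.C k).pt Λ y ∈ ⋃ i, ball (x i) (A / Λ) := by rw [hcov.1]; trivial
    obtain ⟨i, hi⟩ := mem_iUnion.1 h1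
    exact mem_iUnion.2 ⟨i, hy, hi⟩
  have hD : ∀ i, volume (D i) ≤ ENNReal.ofReal ρ ^ 2 * NNReal.pi := by
    intro i
    rcases (D i).eq_empty_or_nonempty with h | ⟨y₀, hy₀⟩
    · rw [h, measure_empty]; exact bot_le
    · have h1 : D i ⊆ closedBall y₀ ρ := by
        intro y hy
        rw [mem_closedBall, dist_eq_norm]
        have h2 := (𝒜.C k).le_dist_pt hΛ0 (hsub y hy.1) (hsub y₀ hy₀.1)
        have h3 : dist ((𝒜.C k).pt Λ y) ((𝒜.C k).pt Λ y₀) ≤ 2 * (A / Λ) := by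
          have e1 := mem_ball.1 hy.2
          have e2 := mem_ball.1 hy₀.2
          have e3 := dist_triangle_right ((𝒜.C k).pt Λ y) ((𝒜.C k).pt Λ y₀) (x i)
          linarith
        refine h2.trans ?_
        have h4 : 𝒜.L * Λ / 0.9 * dist ((𝒜.C k).pt Λ y) ((𝒜.C k).pt Λ y₀) ≤
            𝒜.L * Λ / 0.9 * (2 * (A / Λ)) :=
          mul_le_mul_of_nonneg_left h3 (by positivity)
        refine h4.trans (le_of_eq ?_)
        rw [hρ]
        field_simp
      refine (measure_mono h1).trans ?_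
      rw [Complex.volume_closedBall]
  have htot : volume (ball (0 : ℂ) (Λ / 2)) ≤
      (Fintype.card ι : ENNReal) * (ENNReal.ofReal ρ ^ 2 * NNReal.pi) := by
    refine (measure_mono hcover).trans ((measure_iUnion_fintype_le _ _).trans ?_)
    refine (Finset.sum_le_sum fun i _ => hD i).trans ?_
    rw [Finset.sum_const, nsmul_eq_mul, Finset.card_univ]
  rw [Complex.volume_ball] at htot
  have h5 : (ENNReal.ofReal (Λ / 2)) ^ 2 ≤ (Fintype.card ι : ENNReal) * ENNReal.ofReal ρ ^ 2 := by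
    rw [← mul_assoc] at htot
    exact (ENNReal.mul_le_mul_iff_left (by simpa using NNReal.pi_pos.ne') (by simp)).1 htot
  have h6 : ENNReal.ofReal ((Λ / 2) ^ 2) ≤ ENNReal.ofReal ((Fintype.card ι : ℝ) * ρ ^ 2) := by
    rw [ENNReal.ofReal_pow (by positivity), ENNReal.ofReal_mul (by positivity),
      ENNReal.ofReal_pow (by positivity), ENNReal.ofReal_natCast]
    exact h5
  have h7 : (Λ / 2) ^ 2 ≤ (Fintype.card ι : ℝ) * ρ ^ 2 :=
    (ENNReal.ofReal_le_ofReal_iff (by positivity)).1 h6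
  rw [div_mul_eq_mul_div, one_mul, div_le_iff₀ (by positivity)]
  linarith

end FC34
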