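import Pool.Agent.W_fc1c69_h34.Scale

/-! Number of bad discs in one chart. -/

namespace FC34

open Complex MeasureTheory Metric Set

variable {M : Type*} [MetricSpace M] {Eig : ℝ → (M → ℝ) → Prop}

/-- Number of discs whose small scaled ball misses `Sig`, one chart.
For `j` in the set: `x j = pt (x̂ j)`, `|x̂ j| < 0.56Λ`, `ball (x̂ j) (A/(2L)) ⊆ ball 0 Λ \ Sig`. These
balls have area `π(A/2L)²` and multiplicity `≤ C₁` (`y ∈ ball (x̂ j) (A/2L)` implies
`pt y ∈ ball (x j) (A/Λ)`). -/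
theorem card_bad_le {q₁ l L : ℝ} (C : IsoChart M Eig q₁ l L) {A C₁ Λ δ : ℝ} (hA : 0 < A)
    (hΛ : 1 ≤ Λ) (hAΛ : A ≤ 0.4 * Λ) (hC₁ : 0 ≤ C₁) {S : Set ℂ} (hS : IsClosed S)
    (hvol : volume (ball (0 : ℂ) Λ \ S) ≤ ENNReal.ofReal (δ * Λ ^ 2)) (hδ : 0 ≤ δ)
    {ι : Type} [Fintype ι] (x : ι → M) (hx : IsCov M C₁ (A / Λ) x)
    (J : Set ι) (xh : ι → ℂ) (hJ : ∀ j ∈ J, ‖xh j‖ < 0.56 * Λ ∧ C.pt Λ (xh j) = x j ∧
      Disjoint (ball (xh j) (A / (2 * L))) S) :
    (J.ncard : ℝ) * (Real.pi * (A / (2 * L)) ^ 2) ≤ C₁ * (δ * Λ ^ 2) := by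
  classical
  have hL := C.hL
  have hL0 : 0 < L := lt_of_lt_of_le one_pos hL
  have hΛ0 : 0 < Λ := lt_of_lt_of_le one_pos hΛ
  have hr : 0 < A / (2 * L) := by positivity
  have hr2 : A / (2 * L) ≤ 0.2 * Λ := by
    rw [div_le_iff₀ (by positivity)]
    nlinarith
  set r : ℝ := A / (2 * L) with hrdef
  let s : Finset ι := J.toFinite.toFinset
  have hs : ∀ j, j ∈ s ↔ j ∈ J := fun j => Set.Finite.mem_toFinset _
  have hcard : J.ncard = s.card := Set.ncard_eq_toFinset_card J
  -- the small balls lie in `ball 0 Λ \ S`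
  have hsub : ∀ j ∈ J, ball (xh j) r ⊆ ball (0 : ℂ) Λ \ S := by
    intro j hj y hy
    obtain ⟨h1, h2, h3⟩ := hJ j hj
    refine ⟨?_, fun hyS => (Set.disjoint_left.1 h3) hy hyS⟩
    rw [mem_ball_zero_iff]
    rw [mem_ball, dist_eq_norm] at hy
    have h4 : ‖y‖ ≤ ‖y - xh j‖ + ‖xh j‖ := by
      have := norm_add_le (y - xh j) (xh j)
      rwa [sub_add_cancel] at this
    nlinarith
  -- multiplicity
  have hmult : ∀ y ∈ ball (0 : ℂ) Λ, ((s.filter fun j => y ∈ ball (xh j) r).card : ℝ) ≤ C₁ := by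
    intro y hy
    refine le_trans ?_ (hx.2 (C.pt Λ y))
    rw [Nat.cast_le, ← Set.ncard_coe_finset]
    refine Set.ncard_le_ncard ?_ (Set.toFinite _)
    intro j hj
    rw [Finset.coe_filter, Set.mem_ofPred_eq] at hj
    obtain ⟨hj1, hj2⟩ := hj
    obtain ⟨h1, h2, h3⟩ := hJ j ((hs j).1 hj1)
    rw [Set.mem_ofPred_eq, mem_ball, ← h2]
    have hy4 : y ∈ ball (0 : ℂ) (4 * Λ) := ball_subset_ball (by linarith) hy
    have hx4 : xh j ∈ ball (0 : ℂ) (4 * Λ) := by
      rw [mem_ball_zero_iff]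
      linarith
    refine lt_of_le_of_lt (C.dist_pt_le hΛ0 hy4 hx4) ?_
    rw [mem_ball, dist_eq_norm] at hj2
    have h5 : 0.9 * L / Λ * ‖y - xh j‖ < 0.9 * L / Λ * r :=
      mul_lt_mul_of_pos_left hj2 (by positivity)
    refine h5.trans_le ?_
    have h6 : 0.9 * L / Λ * r = 0.45 * (A / Λ) := by
      rw [hrdef]
      field_simp
      norm_num
    rw [h6]
    have : 0 < A / Λ := by positivity
    linarith
  -- integrate
  have key : ∑ j ∈ s, volume (ball (xh j) r) ≤
      ENNReal.ofReal C₁ * volume (ball (0 : ℂ) Λ \ S) := by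
    calc ∑ j ∈ s, volume (ball (xh j) r)
        = ∑ j ∈ s, ∫⁻ y, (ball (xh j) r).indicator (1 : ℂ → ENNReal) y := by
          refine Finset.sum_congr rfl fun j _ => ?_
          rw [lintegral_indicator_one measurableSet_ball]
      _ = ∫⁻ y, ∑ j ∈ s, (ball (xh j) r).indicator (1 : ℂ → ENNReal) y := by
          rw [lintegral_finsetSum]
          intro j _
          exact measurable_one.indicator measurableSet_ball
      _ ≤ ∫⁻ y, (ball (0 : ℂ) Λ \ S).indicator (fun _ => ENNReal.ofReal C₁) y := by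
          refine lintegral_mono fun y => ?_
          by_cases hy : y ∈ ball (0 : ℂ) Λ \ S
          · rw [Set.indicator_of_mem hy]
            have h1 : ∑ j ∈ s, (ball (xh j) r).indicator (1 : ℂ → ENNReal) y =
                ((s.filter fun j => y ∈ ball (xh j) r).card : ENNReal) := by
              rw [Finset.card_filter, Nat.cast_sum]
              refine Finset.sum_congr rfl fun j _ => ?_
              by_cases hj : y ∈ ball (xh j) r
              · rw [Set.indicator_of_mem hj, if_pos hj, Pi.one_apply, Nat.cast_one]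
              · rw [Set.indicator_of_notMem hj, if_neg hj, Nat.cast_zero]
            show ∑ j ∈ s, (ball (xh j) r).indicator (1 : ℂ → ENNReal) y ≤ ENNReal.ofReal C₁
            rw [h1, ← ENNReal.ofReal_natCast]
            exact ENNReal.ofReal_le_ofReal (hmult y hy.1)
          · rw [Set.indicator_of_notMem hy]
            refine le_of_eq (Finset.sum_eq_zero fun j hj => ?_)
            rw [Set.indicator_of_notMem]
            exact fun h => hy (hsub j ((hs j).1 hj) h)
      _ = ENNReal.ofReal C₁ * volume (ball (0 : ℂ) Λ \ S) := by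
          rw [lintegral_indicator_const (measurableSet_ball.diff hS.measurableSet)]
  have hball : ∀ j, volume (ball (xh j) r) = ENNReal.ofReal (Real.pi * r ^ 2) := by
    intro j
    rw [Complex.volume_ball, ← ENNReal.ofReal_pow hr.le, mul_comm Real.pi,
      ENNReal.ofReal_mul (by positivity)]
    congr 1
    rw [← NNReal.coe_real_pi, ENNReal.ofReal_coe_nnreal]
  simp only [hball, Finset.sum_const, nsmul_eq_mul] at key
  have h1 : ENNReal.ofReal ((J.ncard : ℝ) * (Real.pi * r ^ 2)) ≤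
      ENNReal.ofReal (C₁ * (δ * Λ ^ 2)) := by
    rw [ENNReal.ofReal_mul (by positivity), ENNReal.ofReal_natCast, hcard,
      ENNReal.ofReal_mul hC₁]
    exact key.trans (mul_le_mul_right hvol _)
  exact (ENNReal.ofReal_le_ofReal_iff (by positivity)).1 h1

end FC34
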