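import Pool.Agent.W_fc1c69_h34.Defs

/-! Cut-off functions. -/

namespace FC34

open Complex MeasureTheory Metric Set

/-- Smooth cut-offs at every scale with `|∇χ| ≤ C/R`.  Proof: one fixed `ContDiffBump` (or
`Real.smoothTransition` of a function of `|z|²`) at scale `1`, composed with `z ↦ (z - ζ)/R`;
its derivative is continuous with compact support, hence bounded. -/
theorem exists_cutoff : ∃ C : ℝ, 1 ≤ C ∧ ∀ (ζ : ℂ) (R : ℝ), 0 < R →
    ∃ χ : ℂ → ℝ, ContDiff ℝ 3 χ ∧ (∀ z, 0 ≤ χ z) ∧ (∀ z, χ z ≤ 1) ∧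
      (∀ z ∈ closedBall ζ (0.36 * R), χ z = 1) ∧ (∀ z, z ∉ ball ζ (0.37 * R) → χ z = 0) ∧
      HasCompactSupport χ ∧ (∀ z, |px χ z| ≤ C / R) ∧ (∀ z, |py χ z| ≤ C / R) := by
  -- the fixed bump at scale one
  let f : ContDiffBump (0 : ℂ) := ⟨0.36, 0.37, by norm_num, by norm_num⟩
  have hfs : ContDiff ℝ 3 f := f.contDiff
  have hfc : Continuous (fderiv ℝ (f : ℂ → ℝ)) := hfs.continuous_fderiv (by norm_num)
  obtain ⟨C0, hC0⟩ := hfc.bounded_above_of_compact_support (f.hasCompactSupport.fderiv ℝ)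
  refine ⟨max 1 C0, le_max_left _ _, fun ζ R hR => ?_⟩
  have hRi : 0 < R⁻¹ := inv_pos.2 hR
  have hA : ∀ z : ℂ, HasFDerivAt (fun w : ℂ => R⁻¹ • (w - ζ))
      (R⁻¹ • ContinuousLinearMap.id ℝ ℂ) z := fun z =>
    ((hasFDerivAt_id z).sub_const ζ).const_smul R⁻¹
  have hder : ∀ z : ℂ, HasFDerivAt (fun w : ℂ => f (R⁻¹ • (w - ζ)))
      ((fderiv ℝ (f : ℂ → ℝ) (R⁻¹ • (z - ζ))).comp (R⁻¹ • ContinuousLinearMap.id ℝ ℂ)) z := by
    intro z
    have h1 : HasFDerivAt (f : ℂ → ℝ) (fderiv ℝ (f : ℂ → ℝ) (R⁻¹ • (z - ζ)))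
        (R⁻¹ • (z - ζ)) :=
      ((hfs.differentiable (by norm_num)) _).hasFDerivAt
    exact HasFDerivAt.comp (g := (f : ℂ → ℝ)) (f := fun w : ℂ => R⁻¹ • (w - ζ)) z h1 (hA z)
  have hbd : ∀ z v : ℂ, ‖v‖ = 1 →
      |fderiv ℝ (fun w : ℂ => f (R⁻¹ • (w - ζ))) z v| ≤ max 1 C0 / R := by
    intro z v hv
    rw [(hder z).fderiv]
    have h1 : ((fderiv ℝ (f : ℂ → ℝ) (R⁻¹ • (z - ζ))).comp
        (R⁻¹ • ContinuousLinearMap.id ℝ ℂ)) v =
        R⁻¹ * (fderiv ℝ (f : ℂ → ℝ) (R⁻¹ • (z - ζ))) v := by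
      simp
    rw [h1, abs_mul, abs_of_pos hRi, div_eq_inv_mul]
    refine mul_le_mul_of_nonneg_left ?_ hRi.le
    have h2 := (fderiv ℝ (f : ℂ → ℝ) (R⁻¹ • (z - ζ))).le_opNorm v
    rw [hv, mul_one, Real.norm_eq_abs] at h2
    exact h2.trans ((hC0 _).trans (le_max_right _ _))
  have hnorm : ∀ z : ℂ, dist (R⁻¹ • (z - ζ)) 0 = dist z ζ / R := by
    intro z
    rw [dist_zero_right, norm_smul, Real.norm_of_nonneg hRi.le, dist_eq_norm, div_eq_inv_mul]
  have hout : ∀ z, z ∉ ball ζ (0.37 * R) → f (R⁻¹ • (z - ζ)) = 0 := by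
    intro z hz
    refine f.zero_of_le_dist ?_
    rw [hnorm, le_div_iff₀ hR]
    rw [mem_ball, not_lt] at hz
    exact hz
  refine ⟨fun w => f (R⁻¹ • (w - ζ)), ?_, fun z => f.nonneg, fun z => f.le_one, ?_, hout, ?_,
    fun z => hbd z 1 (by simp), fun z => hbd z Complex.I (by simp)⟩
  · exact hfs.comp ((contDiff_id.sub contDiff_const).const_smul R⁻¹)
  · intro z hz
    refine f.one_of_mem_closedBall ?_
    rw [mem_closedBall, hnorm, div_le_iff₀ hR]
    exact hz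
  · refine HasCompactSupport.of_support_subset_isCompact (isCompact_closedBall ζ (0.37 * R)) ?_
    intro z hz
    by_contra hz2
    exact hz (hout z fun h => hz2 (ball_subset_closedBall h))

/-- A radial nonincreasing `C¹` cut-off: `∂̄χ(z) = -g(z) z` with `g ≥ 0` real, supported in the
annulus `R/8 ≤ |z| ≤ R/4`.  Proof: `χ(z) = η(|z|²/R²)` with `η` a nonincreasing `C¹` function,
`η = 1` on `t ≤ 1/64`, `η = 0` on `t ≥ 1/16` (e.g. the cubic `s²(3-2s)` of the clamped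
`s = (1/16 - t)/(3/64)`, or `Real.smoothTransition`); `∂̄|z|² = z`, `g = -η'(|z|²/R²)/R²`. -/
theorem exists_radial_cutoff {R : ℝ} (hR : 0 < R) :
    ∃ (χ : ℂ → ℝ) (g : ℂ → ℝ), ContDiff ℝ 1 χ ∧ (∀ z, 0 ≤ χ z) ∧ (∀ z, χ z ≤ 1) ∧
      (∀ z ∈ closedBall (0 : ℂ) (R / 8), χ z = 1) ∧ (∀ z, z ∉ ball (0 : ℂ) (R / 4) → χ z = 0) ∧
      HasCompactSupport χ ∧ Continuous g ∧ (∀ z, 0 ≤ g z) ∧
      (∀ z ∈ ball (0 : ℂ) (R / 8), g z = 0) ∧ (∀ z, z ∉ ball (0 : ℂ) (R / 4) → g z = 0) ∧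
      (∀ z, dbar (fun w => ((χ w : ℝ) : ℂ)) z = -((g z : ℝ) : ℂ) * z) := by
  set c1 : ℝ := 64 / (3 * R ^ 2) with hc1
  have hc1p : 0 < c1 := by positivity
  set s : ℂ → ℝ := fun z => 4 / 3 - c1 * (z.re ^ 2 + z.im ^ 2) with hs
  set ST : ℝ → ℝ := Real.smoothTransition with hST
  have hSTd : ∀ x, HasDerivAt ST (deriv ST x) x := fun x =>
    ((Real.smoothTransition.contDiff (n := 1)).differentiable (by norm_num) x).hasDerivAt
  have hSTc : Continuous (deriv ST) :=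
    (Real.smoothTransition.contDiff (n := 1)).continuous_deriv (by norm_num)
  have hSTn : ∀ x, 0 ≤ deriv ST x := fun x => Real.smoothTransition.monotone.deriv_nonneg
  have hsq : ∀ z : ℂ, z.re ^ 2 + z.im ^ 2 = ‖z‖ ^ 2 := by
    intro z
    rw [← Complex.normSq_eq_norm_sq, Complex.normSq_apply]
    ring
  -- `s ≥ 1` inside
  have hin : ∀ z ∈ closedBall (0 : ℂ) (R / 8), 1 ≤ s z := by
    intro z hz
    rw [mem_closedBall, dist_zero_right] at hz
    have h1 : ‖z‖ ^ 2 ≤ (R / 8) ^ 2 := pow_le_pow_left₀ (norm_nonneg _) hz 2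
    have h2 : c1 * ‖z‖ ^ 2 ≤ c1 * (R / 8) ^ 2 := mul_le_mul_of_nonneg_left h1 hc1p.le
    have h3 : c1 * (R / 8) ^ 2 = 1 / 3 := by
      rw [hc1]; field_simp; norm_num
    rw [hs]
    simp only
    rw [hsq]
    linarith
  -- `s ≤ 0` outside
  have hout : ∀ z, z ∉ ball (0 : ℂ) (R / 4) → s z ≤ 0 := by
    intro z hz
    rw [mem_ball, dist_zero_right, not_lt] at hz
    have h1 : (R / 4) ^ 2 ≤ ‖z‖ ^ 2 := pow_le_pow_left₀ (by positivity) hz 2
    have h2 : c1 * (R / 4) ^ 2 ≤ c1 * ‖z‖ ^ 2 := mul_le_mul_of_nonneg_left h1 hc1p.le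
    have h3 : c1 * (R / 4) ^ 2 = 4 / 3 := by
      rw [hc1]; field_simp; norm_num
    rw [hs]
    simp only
    rw [hsq]
    linarith
  have hd1 : ∀ x, 1 ≤ x → deriv ST x = 0 := by
    intro x hx
    refine IsLocalMax.deriv_eq_zero (Filter.Eventually.of_forall fun y => ?_)
    rw [hST, Real.smoothTransition.one_of_one_le hx]
    exact Real.smoothTransition.le_one y
  have hd0 : ∀ x, x ≤ 0 → deriv ST x = 0 := by
    intro x hx
    refine IsLocalMin.deriv_eq_zero (Filter.Eventually.of_forall fun y => ?_)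
    rw [hST, Real.smoothTransition.zero_of_nonpos hx]
    exact Real.smoothTransition.nonneg y
  have hsC : ContDiff ℝ 1 s := by
    rw [hs]
    have h1 : ContDiff ℝ 1 (fun z : ℂ => z.re) := Complex.reCLM.contDiff
    have h2 : ContDiff ℝ 1 (fun z : ℂ => z.im) := Complex.imCLM.contDiff
    exact contDiff_const.sub (contDiff_const.mul ((h1.pow 2).add (h2.pow 2)))
  have hsd : ∀ z : ℂ, HasFDerivAt s (-(c1 • (((2 : ℕ) * z.re ^ (2 - 1)) • Complex.reCLM +
      ((2 : ℕ) * z.im ^ (2 - 1)) • Complex.imCLM))) z := by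
    intro z
    have h1 : HasFDerivAt (fun w : ℂ => w.re ^ 2)
        (((2 : ℕ) * z.re ^ (2 - 1)) • Complex.reCLM) z := by
      have h := (Complex.reCLM.hasFDerivAt (x := z)).pow 2
      simpa using h
    have h2 : HasFDerivAt (fun w : ℂ => w.im ^ 2)
        (((2 : ℕ) * z.im ^ (2 - 1)) • Complex.imCLM) z := by
      have h := (Complex.imCLM.hasFDerivAt (x := z)).pow 2
      simpa using h
    exact ((h1.add h2).const_mul c1).const_sub (4 / 3)
  refine ⟨fun z => ST (s z), fun z => deriv ST (s z) * c1, ?_, fun z =>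
    Real.smoothTransition.nonneg _, fun z => Real.smoothTransition.le_one _, ?_, ?_, ?_, ?_, ?_,
    ?_, ?_, ?_⟩
  · exact (Real.smoothTransition.contDiff (n := 1)).comp hsC
  · intro z hz
    exact Real.smoothTransition.one_of_one_le (hin z hz)
  · intro z hz
    exact Real.smoothTransition.zero_of_nonpos (hout z hz)
  · refine HasCompactSupport.of_support_subset_isCompact
      (isCompact_closedBall (0 : ℂ) (R / 4)) ?_
    intro z hz
    by_contra hz2
    exact hz (Real.smoothTransition.zero_of_nonpos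
      (hout z fun h => hz2 (ball_subset_closedBall h)))
  · exact (hSTc.comp hsC.continuous).mul continuous_const
  · intro z
    exact mul_nonneg (hSTn _) hc1p.le
  · intro z hz
    simp only
    rw [hd1 _ (hin z (ball_subset_closedBall hz)), zero_mul]
  · intro z hz
    simp only
    rw [hd0 _ (hout z hz), zero_mul]
  · intro z
    have h1 : HasFDerivAt (fun w : ℂ => ST (s w)) (deriv ST (s z) •
        (-(c1 • (((2 : ℕ) * z.re ^ (2 - 1)) • Complex.reCLM +
          ((2 : ℕ) * z.im ^ (2 - 1)) • Complex.imCLM)))) z :=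
      (hSTd (s z)).comp_hasFDerivAt z (hsd z)
    have h2 : HasFDerivAt (fun w : ℂ => ((ST (s w) : ℝ) : ℂ)) (Complex.ofRealCLM.comp
        (deriv ST (s z) • (-(c1 • (((2 : ℕ) * z.re ^ (2 - 1)) • Complex.reCLM +
          ((2 : ℕ) * z.im ^ (2 - 1)) • Complex.imCLM))))) z :=
      Complex.ofRealCLM.hasFDerivAt.comp z h1
    unfold dbar px py
    rw [h2.fderiv]
    show _ = -((deriv ST (s z) * c1 : ℝ) : ℂ) * z
    generalize deriv ST (s z) = D
    simp only [ContinuousLinearMap.comp_apply, smul_apply,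
      neg_apply, add_apply, Complex.ofRealCLM_apply,
      Complex.reCLM_apply, Complex.imCLM_apply, Complex.one_re, Complex.one_im, Complex.I_re,
      Complex.I_im, smul_eq_mul]
    conv_rhs => rw [← Complex.re_add_im z]
    push_cast
    ring

end FC34
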