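import Pool.Agent.W_fc1c69_h34.Defs

/-! The representation formula `u(ζ) = -(1/π) ∫ ∂̄u(z)/(z-ζ) dA(z)` and the integrals of `1/|z-ζ|`. -/

namespace FC34

open Complex MeasureTheory Metric Set

private theorem Rep_ball0 (ρ : ℝ) : IntegrableOn (fun z : ℂ => 1 / ‖z‖) (ball (0 : ℂ) ρ) := by
  refine (integrableOn_fun_norm_addHaar (E := ℂ) volume (f := fun y : ℝ => 1 / y)).2 ?_
  have h1 : IntegrableOn (fun _ : ℝ => (1 : ℝ)) (Ioo 0 ρ) := by
    refine integrableOn_const ?_
    rw [Real.volume_Ioo]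
    exact ENNReal.ofReal_ne_top
  refine h1.congr_fun (fun y hy => ?_) measurableSet_Ioo
  have hy0 : y ≠ 0 := hy.1.ne'
  simp only [Complex.finrank_real_complex]
  norm_num
  field_simp

private theorem Rep_int0 {ρ : ℝ} (hρ : 0 ≤ ρ) :
    ∫ z in ball (0 : ℂ) ρ, 1 / ‖z‖ = 2 * Real.pi * ρ := by
  have h1 := integral_fun_norm_addHaar (E := ℂ) volume ((Iio ρ).indicator fun y : ℝ => 1 / y)
  have h2 : ∫ z in ball (0 : ℂ) ρ, 1 / ‖z‖ =
      ∫ z : ℂ, (Iio ρ).indicator (fun y : ℝ => 1 / y) ‖z‖ := by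
    rw [← integral_indicator measurableSet_ball]
    refine integral_congr_ae (Filter.Eventually.of_forall fun z => ?_)
    simp only [indicator, mem_ball, dist_zero_right, mem_Iio]
  have h3 : ∫ y in Ioi (0 : ℝ), y ^ (Module.finrank ℝ ℂ - 1) •
      (Iio ρ).indicator (fun y : ℝ => 1 / y) y = ρ := by
    have h4 : ∀ y ∈ Ioi (0 : ℝ), y ^ (Module.finrank ℝ ℂ - 1) •
        (Iio ρ).indicator (fun y : ℝ => 1 / y) y = (Ioo 0 ρ).indicator (fun _ => (1 : ℝ)) y := by
      intro y hy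
      have hy0 : y ≠ 0 := ne_of_gt hy
      simp only [Complex.finrank_real_complex]
      by_cases hyρ : y < ρ
      · rw [indicator_of_mem (show y ∈ Iio ρ from hyρ), indicator_of_mem (show y ∈ Ioo 0 ρ from
          ⟨hy, hyρ⟩)]
        norm_num
        field_simp
      · rw [indicator_of_notMem (show y ∉ Iio ρ from hyρ), indicator_of_notMem
          (show y ∉ Ioo 0 ρ from fun h => hyρ h.2), smul_zero]
    rw [setIntegral_congr_fun measurableSet_Ioi h4, setIntegral_indicator measurableSet_Ioo]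
    have h5 : Ioi (0 : ℝ) ∩ Ioo 0 ρ = Ioo 0 ρ := by
      ext y
      simp only [mem_inter_iff, mem_Ioi, mem_Ioo]
      tauto
    rw [h5, setIntegral_const, Real.volume_real_Ioo_of_le hρ]
    simp
  rw [h2, h1, h3, Complex.finrank_real_complex]
  have h6 : (volume : Measure ℂ).real (ball 0 1) = Real.pi := by
    rw [Measure.real, Complex.volume_ball]
    simp
  rw [h6]
  simp only [smul_eq_mul, nsmul_eq_mul]
  push_cast
  ring

private theorem Rep_ind (ζ : ℂ) (ρ : ℝ) :
    (ball ζ ρ).indicator (fun z : ℂ => 1 / ‖z - ζ‖) =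
      fun z => (ball (0 : ℂ) ρ).indicator (fun z : ℂ => 1 / ‖z‖) (z - ζ) := by
  funext z
  have h : z ∈ ball ζ ρ ↔ z - ζ ∈ ball (0 : ℂ) ρ := by
    rw [mem_ball, mem_ball, dist_zero_right, dist_eq_norm]
  by_cases hz : z ∈ ball ζ ρ
  · rw [indicator_of_mem hz, indicator_of_mem (h.1 hz)]
  · rw [indicator_of_notMem hz, indicator_of_notMem (fun h2 => hz (h.2 h2))]

theorem integrableOn_inv_ball (ζ : ℂ) (r : ℝ) :
    IntegrableOn (fun z : ℂ => 1 / ‖z - ζ‖) (ball ζ r) := by
  rw [← integrable_indicator_iff measurableSet_ball, Rep_ind]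
  exact ((integrable_indicator_iff measurableSet_ball).2 (Rep_ball0 r)).comp_sub_right ζ

private theorem Rep_int (ζ : ℂ) {ρ : ℝ} (hρ : 0 ≤ ρ) :
    ∫ z in ball ζ ρ, 1 / ‖z - ζ‖ = 2 * Real.pi * ρ := by
  rw [← integral_indicator measurableSet_ball, Rep_ind,
    integral_sub_right_eq_self (fun z => (ball (0 : ℂ) ρ).indicator (fun z : ℂ => 1 / ‖z‖) z),
    integral_indicator measurableSet_ball, Rep_int0 hρ]

private theorem Rep_sq_subset (ζ : ℂ) (r : ℝ) : sq ζ r ⊆ ball ζ (Real.sqrt 2 * r) := by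
  intro z hz
  obtain ⟨h1, h2⟩ := hz
  have hr : 0 < r := lt_of_le_of_lt (abs_nonneg _) h1
  rw [mem_ball, dist_eq_norm]
  have h3 : ‖z - ζ‖ ^ 2 < (Real.sqrt 2 * r) ^ 2 := by
    rw [← Complex.normSq_eq_norm_sq, Complex.normSq_apply, mul_pow, Real.sq_sqrt (by norm_num)]
    simp only [Complex.sub_re, Complex.sub_im]
    have h4 := sq_lt_sq' (by linarith [abs_lt.1 h1]) (abs_lt.1 h1).2
    have h5 := sq_lt_sq' (by linarith [abs_lt.1 h2]) (abs_lt.1 h2).2
    nlinarith
  exact lt_of_pow_lt_pow_left₀ 2 (by positivity) h3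

/-- `1/|z-ζ|` is integrable on the square. (E.g. polar coordinates, or Mathlib integrability of
`‖x‖ ^ (-1)` on balls in dimension 2.) -/
theorem integrableOn_inv_sq (ζ : ℂ) (r : ℝ) :
    IntegrableOn (fun z : ℂ => 1 / ‖z - ζ‖) (sq ζ r) :=
  (integrableOn_inv_ball ζ (Real.sqrt 2 * r)).mono_set (Rep_sq_subset ζ r)

/-- The square is contained in the disc of radius `√2 r` and `2π√2 ≤ 9`. -/
theorem setIntegral_inv_sq_le (ζ : ℂ) {r : ℝ} (hr : 0 ≤ r) :
    ∫ z in sq ζ r, 1 / ‖z - ζ‖ ≤ 9 * r := by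
  have h1 : ∫ z in sq ζ r, 1 / ‖z - ζ‖ ≤ ∫ z in ball ζ (Real.sqrt 2 * r), 1 / ‖z - ζ‖ := by
    refine setIntegral_mono_set (integrableOn_inv_ball ζ _)
      (Filter.Eventually.of_forall fun z => ?_) (Rep_sq_subset ζ r).eventuallyLE
    show 0 ≤ 1 / ‖z - ζ‖
    positivity
  rw [Rep_int ζ (by positivity)] at h1
  have h2 : Real.sqrt 2 ≤ 1.4143 := by
    rw [Real.sqrt_le_left (by norm_num)]
    norm_num
  have h3 := Real.pi_lt_d4
  have h4 : 2 * Real.pi * Real.sqrt 2 ≤ 9 := by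
    have h5 : Real.pi * Real.sqrt 2 ≤ 3.1416 * 1.4143 :=
      mul_le_mul h3.le h2 (Real.sqrt_nonneg 2) (by norm_num)
    nlinarith
  calc ∫ z in sq ζ r, 1 / ‖z - ζ‖ ≤ 2 * Real.pi * (Real.sqrt 2 * r) := h1
    _ = (2 * Real.pi * Real.sqrt 2) * r := by ring
    _ ≤ 9 * r := mul_le_mul_of_nonneg_right h4 hr

/-- `2π ≤ 7`. -/
theorem setIntegral_inv_ball_le (ζ : ℂ) {r : ℝ} (hr : 0 ≤ r) :
    ∫ z in ball ζ r, 1 / ‖z - ζ‖ ≤ 7 * r := by
  rw [Rep_int ζ hr]
  have h3 := Real.pi_lt_d4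
  exact mul_le_mul_of_nonneg_right (by linarith) hr

/-- A continuous compactly supported function divided by `z - ζ` is integrable. -/
theorem integrable_div {g : ℂ → ℂ} (hg : Continuous g) (hc : HasCompactSupport g) (ζ : ℂ) :
    Integrable (fun z : ℂ => g z / (z - ζ)) := by
  obtain ⟨R, hR⟩ := hc.isCompact.isBounded.subset_ball ζ
  obtain ⟨M, hM⟩ := hc.exists_bound_of_continuous hg
  have hsupp : Function.support (fun z : ℂ => g z / (z - ζ)) ⊆ ball ζ R := by
    intro z hz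
    apply hR
    apply subset_tsupport
    intro h0
    apply hz
    show g z / (z - ζ) = 0
    rw [h0, zero_div]
  rw [← integrableOn_iff_integrable_of_support_subset hsupp]
  refine Integrable.mono' ((integrableOn_inv_ball ζ R).const_mul M)
    ((hg.measurable.div (measurable_id.sub_const ζ)).aestronglyMeasurable)
    (Filter.Eventually.of_forall fun z => ?_)
  rw [norm_div, div_eq_mul_one_div]
  exact mul_le_mul_of_nonneg_right (hM z) (by positivity)

/-- the unit vector in the direction `θ` -/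
private noncomputable def Rep_ex (θ : ℝ) : ℂ := Real.cos θ + Real.sin θ * I

private theorem Rep_ex_cont : Continuous Rep_ex := by
  unfold Rep_ex
  fun_prop

private theorem Rep_ex_norm (θ : ℝ) : ‖Rep_ex θ‖ = 1 := by
  have : Rep_ex θ = Complex.exp (θ * I) := by
    rw [Complex.exp_mul_I, Rep_ex]
    push_cast
    rfl
  rw [this, Complex.norm_exp_ofReal_mul_I]

private theorem Rep_ex_deriv (θ : ℝ) : HasDerivAt Rep_ex (I * Rep_ex θ) θ := by
  have h1 : HasDerivAt (fun θ : ℝ => ((Real.cos θ : ℝ) : ℂ)) ((-Real.sin θ : ℝ) : ℂ) θ :=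
    (Real.hasDerivAt_cos θ).ofReal_comp
  have h2 : HasDerivAt (fun θ : ℝ => ((Real.sin θ : ℝ) : ℂ)) ((Real.cos θ : ℝ) : ℂ) θ :=
    (Real.hasDerivAt_sin θ).ofReal_comp
  have h3 := h1.add (h2.mul_const I)
  have h4 : ((-Real.sin θ : ℝ) : ℂ) + ((Real.cos θ : ℝ) : ℂ) * I = I * Rep_ex θ := by
    unfold Rep_ex
    push_cast
    linear_combination (-(Complex.sin θ)) * Complex.I_sq
  rw [h4] at h3
  exact h3

private theorem Rep_lin (A : ℂ →L[ℝ] ℂ) (x y : ℝ) : A (x + y * I) = x * A 1 + y * A I := by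
  have h : (x + y * I : ℂ) = x • (1 : ℂ) + y • I := by
    rw [Complex.real_smul, Complex.real_smul, mul_one]
  rw [h, map_add, map_smul, map_smul, Complex.real_smul, Complex.real_smul]

private theorem Rep_zero {u : ℂ → ℂ} (hu : ContDiff ℝ 1 u) (hc : HasCompactSupport u) :
    u 0 = -(1 / (Real.pi : ℂ)) * ∫ z, dbar u z / z := by
  obtain ⟨R, hR⟩ := hc.isCompact.isBounded.subset_closedBall (0 : ℂ)
  have hpi := Real.pi_pos
  have hu0 : ∀ z : ℂ, R < ‖z‖ → u z = 0 ∧ fderiv ℝ u z = 0 := by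
    intro z hz
    have h1 : z ∉ tsupport u := by
      intro h2
      have h3 := hR h2
      rw [mem_closedBall, dist_zero_right] at h3
      linarith
    refine ⟨image_eq_zero_of_notMem_tsupport h1, ?_⟩
    have h4 : z ∉ tsupport (fderiv ℝ u) := fun h5 => h1 (tsupport_fderiv_subset ℝ h5)
    exact image_eq_zero_of_notMem_tsupport h4
  have hfc : Continuous (fderiv ℝ u) := hu.continuous_fderiv one_ne_zero
  set F1 : ℝ × ℝ → ℂ := fun p => fderiv ℝ u (p.1 * Rep_ex p.2) (Rep_ex p.2) with hF1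
  set F2 : ℝ × ℝ → ℂ := fun p => fderiv ℝ u (p.1 * Rep_ex p.2) (I * Rep_ex p.2) with hF2
  have hexc := Rep_ex_cont
  have hz : Continuous (fun p : ℝ × ℝ => (p.1 : ℂ) * Rep_ex p.2) := by fun_prop
  have hF1c : Continuous F1 := (hfc.comp hz).clm_apply (hexc.comp continuous_snd)
  have hF2c : Continuous F2 :=
    (hfc.comp hz).clm_apply (continuous_const.mul (hexc.comp continuous_snd))
  have hnorm : ∀ p : ℝ × ℝ, 0 < p.1 → ‖(p.1 : ℂ) * Rep_ex p.2‖ = p.1 := by
    intro p hp
    rw [norm_mul, Rep_ex_norm, mul_one, Complex.norm_real, Real.norm_of_nonneg hp.le]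
  -- integrability
  have hint : ∀ F : ℝ × ℝ → ℂ, Continuous F → (∀ p : ℝ × ℝ, 0 < p.1 → R < p.1 → F p = 0) →
      IntegrableOn F (Ioi (0 : ℝ) ×ˢ Ioo (-Real.pi) Real.pi) := by
    intro F hFc hF0
    have h1 : IntegrableOn F (Icc (0 : ℝ) R ×ˢ Icc (-Real.pi) Real.pi) :=
      hFc.continuousOn.integrableOn_compact (isCompact_Icc.prod isCompact_Icc)
    refine h1.of_forall_diff_eq_zero (measurableSet_Ioi.prod measurableSet_Ioo) ?_
    rintro ⟨r, θ⟩ ⟨⟨h2, h3⟩, h4⟩
    refine hF0 (r, θ) h2 ?_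
    by_contra h5
    apply h4
    exact ⟨⟨le_of_lt h2, not_lt.1 h5⟩, ⟨h3.1.le, h3.2.le⟩⟩
  have hI1 := hint F1 hF1c (by
    intro p hp hpR
    show fderiv ℝ u (p.1 * Rep_ex p.2) (Rep_ex p.2) = 0
    rw [(hu0 _ (by rw [hnorm p hp]; exact hpR)).2]
    rfl)
  have hI2 := hint F2 hF2c (by
    intro p hp hpR
    show fderiv ℝ u (p.1 * Rep_ex p.2) (I * Rep_ex p.2) = 0
    rw [(hu0 _ (by rw [hnorm p hp]; exact hpR)).2]
    rfl)
  -- the integrand in polar coordinates
  have hpol : ∫ z, dbar u z / z =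
      ∫ p in Ioi (0 : ℝ) ×ˢ Ioo (-Real.pi) Real.pi, (1 / 2 * F1 p + (I / 2) * F2 p) := by
    rw [← Complex.integral_comp_polarCoord_symm]
    refine setIntegral_congr_fun (measurableSet_Ioi.prod measurableSet_Ioo) ?_
    rintro ⟨r, θ⟩ ⟨hr, hθ⟩
    have hr0 : (r : ℂ) ≠ 0 := Complex.ofReal_ne_zero.2 (ne_of_gt hr)
    simp only [Complex.polarCoord_symm_apply]
    have h1 : ((r : ℂ) * (((Real.cos θ : ℝ) : ℂ) + ((Real.sin θ : ℝ) : ℂ) * I)) =
        (r : ℂ) * Rep_ex θ := rfl
    rw [h1]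
    show r • (dbar u (r * Rep_ex θ) / (r * Rep_ex θ)) =
      1 / 2 * fderiv ℝ u (r * Rep_ex θ) (Rep_ex θ) +
        (I / 2) * fderiv ℝ u (r * Rep_ex θ) (I * Rep_ex θ)
    generalize hA : fderiv ℝ u (r * Rep_ex θ) = A
    have h2 : dbar u (r * Rep_ex θ) = (A 1 + I * A I) / 2 := by
      unfold dbar px py
      rw [hA]
    have h3 : A (Rep_ex θ) = Real.cos θ * A 1 + Real.sin θ * A I := Rep_lin A _ _
    have h4 : A (I * Rep_ex θ) = (-Real.sin θ) * A 1 + Real.cos θ * A I := by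
      have h5 : I * Rep_ex θ = ((-Real.sin θ : ℝ) : ℂ) + ((Real.cos θ : ℝ) : ℂ) * I := by
        unfold Rep_ex
        push_cast
        linear_combination (Complex.sin θ) * Complex.I_sq
      rw [h5, Rep_lin]
      push_cast
      ring
    have hcs : ((Real.cos θ : ℝ) : ℂ) ^ 2 + ((Real.sin θ : ℝ) : ℂ) ^ 2 = 1 := by
      have := Real.cos_sq_add_sin_sq θ
      exact_mod_cast this
    have hex : Rep_ex θ * (((Real.cos θ : ℝ) : ℂ) - ((Real.sin θ : ℝ) : ℂ) * I) = 1 := by
      unfold Rep_ex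
      linear_combination hcs - (((Real.sin θ : ℝ) : ℂ)) ^ 2 * Complex.I_sq
    have hex0 : Rep_ex θ ≠ 0 := left_ne_zero_of_mul_eq_one hex
    have h6 : r • (dbar u (r * Rep_ex θ) / (r * Rep_ex θ)) = dbar u (r * Rep_ex θ) *
        (((Real.cos θ : ℝ) : ℂ) - ((Real.sin θ : ℝ) : ℂ) * I) := by
      rw [Complex.real_smul]
      field_simp
      linear_combination (-(dbar u (r * Rep_ex θ))) * hex
    rw [h6, h2, h3, h4]
    linear_combination (((Real.sin θ : ℝ) : ℂ) / 2 * A I * (-1)) * Complex.I_sq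
  -- first integral
  have hJ1 : ∫ p in Ioi (0 : ℝ) ×ˢ Ioo (-Real.pi) Real.pi, F1 p = -(2 * Real.pi * u 0) := by
    have hI1' : Integrable F1 ((volume.restrict (Ioi (0 : ℝ))).prod
        (volume.restrict (Ioo (-Real.pi) Real.pi))) := by
      rw [Measure.prod_restrict, ← Measure.volume_eq_prod]
      exact hI1
    rw [Measure.volume_eq_prod, ← Measure.prod_restrict, integral_prod_symm _ hI1']
    have h1 : ∀ θ : ℝ, ∫ r in Ioi (0 : ℝ), F1 (r, θ) = -u 0 := by
      intro θ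
      have hd : ∀ r : ℝ, HasDerivAt (fun r : ℝ => u (r * Rep_ex θ)) (F1 (r, θ)) r := by
        intro r
        have h2 : HasDerivAt (fun r : ℝ => (r : ℂ) * Rep_ex θ) (Rep_ex θ) r := by
          have h3 := (Complex.ofRealCLM.hasDerivAt (x := r)).mul_const (Rep_ex θ)
          simpa using h3
        exact ((hu.differentiable one_ne_zero) _).hasFDerivAt.comp_hasDerivAt r h2
      have hcd : ContDiff ℝ 1 (fun r : ℝ => u (r * Rep_ex θ)) :=
        hu.comp (Complex.ofRealCLM.contDiff.mul contDiff_const)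
      have hcs : HasCompactSupport (fun r : ℝ => u (r * Rep_ex θ)) := by
        refine HasCompactSupport.intro (isCompact_Icc (a := -R) (b := R)) (fun r hr => ?_)
        refine (hu0 _ ?_).1
        rw [norm_mul, Rep_ex_norm, mul_one, Complex.norm_real, Real.norm_eq_abs]
        by_contra h4
        exact hr (abs_le.1 (not_lt.1 h4))
      have h5 := hcs.integral_Ioi_deriv_eq hcd 0
      have h6 : deriv (fun r : ℝ => u (r * Rep_ex θ)) = fun r => F1 (r, θ) :=
        funext fun r => (hd r).deriv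
      rw [h6] at h5
      rw [h5]
      simp
    simp only [h1]
    rw [setIntegral_const, Real.volume_real_Ioo_of_le (by linarith)]
    rw [Complex.real_smul]
    push_cast
    ring
  -- second integral
  have hJ2 : ∫ p in Ioi (0 : ℝ) ×ˢ Ioo (-Real.pi) Real.pi, F2 p = 0 := by
    have hI2' : Integrable F2 ((volume.restrict (Ioi (0 : ℝ))).prod
        (volume.restrict (Ioo (-Real.pi) Real.pi))) := by
      rw [Measure.prod_restrict, ← Measure.volume_eq_prod]
      exact hI2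
    rw [Measure.volume_eq_prod, ← Measure.prod_restrict, integral_prod _ hI2']
    have h1 : ∀ r ∈ Ioi (0 : ℝ), ∫ θ in Ioo (-Real.pi) Real.pi, F2 (r, θ) = 0 := by
      intro r hr
      have hd : ∀ θ : ℝ, HasDerivAt (fun θ : ℝ => u (r * Rep_ex θ)) (r * F2 (r, θ)) θ := by
        intro θ
        have h2 : HasDerivAt (fun θ : ℝ => (r : ℂ) * Rep_ex θ) (r * (I * Rep_ex θ)) θ :=
          (Rep_ex_deriv θ).const_mul _
        have h3 := ((hu.differentiable one_ne_zero) _).hasFDerivAt.comp_hasDerivAt θ h2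
        have h4 : fderiv ℝ u (r * Rep_ex θ) (r * (I * Rep_ex θ)) = r * F2 (r, θ) := by
          have h7 := (fderiv ℝ u (r * Rep_ex θ)).map_smul r (I * Rep_ex θ)
          rw [Complex.real_smul, Complex.real_smul] at h7
          exact h7
        rw [h4] at h3
        exact h3
      have hcont : Continuous (fun θ : ℝ => (r : ℂ) * F2 (r, θ)) :=
        continuous_const.mul (hF2c.comp (continuous_const.prodMk continuous_id))
      have h5 := intervalIntegral.integral_eq_sub_of_hasDerivAt (fun θ _ => hd θ)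
        (hcont.intervalIntegrable (-Real.pi) Real.pi)
      have h6 : Rep_ex Real.pi = Rep_ex (-Real.pi) := by
        unfold Rep_ex
        simp
      rw [h6, sub_self, intervalIntegral.integral_of_le (by linarith), integral_Ioc_eq_integral_Ioo,
        integral_const_mul] at h5
      rcases mul_eq_zero.1 h5 with h7 | h7
      · exact absurd h7 (Complex.ofReal_ne_zero.2 (ne_of_gt hr))
      · exact h7
    rw [setIntegral_congr_fun measurableSet_Ioi h1]
    simp
  rw [hpol, integral_add (hI1.const_mul _) (hI2.const_mul _), integral_const_mul,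
    integral_const_mul, hJ1, hJ2]
  have hpi0 : (Real.pi : ℂ) ≠ 0 := Complex.ofReal_ne_zero.2 hpi.ne'
  field_simp
  ring

/-- Representation formula. Proof: translate to `ζ = 0`. Polar coordinates
(`Complex.integral_comp_polarCoord_symm`): with `U(r,θ) = u(r e^{iθ})`,
`r · ∂̄u(r e^{iθ}) / (r e^{iθ}) = (1/2) (U_r + (i/r) U_θ)`. The integral of `U_θ` over `θ ∈ (-π, π)`
is `0` (periodicity), and `∫_0^∞ U_r dr = - u(0)` for each `θ`. The integrands are bounded and
compactly supported in `r`, so Fubini applies. Total: `∫ ∂̄u/z = (1/2) · 2π · (-u(0))`. -/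
theorem rep {u : ℂ → ℂ} (hu : ContDiff ℝ 1 u) (hc : HasCompactSupport u) (ζ : ℂ) :
    u ζ = -(1 / (Real.pi : ℂ)) * ∫ z, dbar u z / (z - ζ) := by
  have hcd : ContDiff ℝ 1 (fun z => u (z + ζ)) := hu.comp (contDiff_id.add contDiff_const)
  have hcs : HasCompactSupport (fun z => u (z + ζ)) :=
    hc.comp_homeomorph (Homeomorph.addRight ζ)
  have h1 := Rep_zero hcd hcs
  have h2 : ∀ z, dbar (fun z => u (z + ζ)) z = dbar u (z + ζ) := by
    intro z
    unfold dbar px py
    rw [fderiv_comp_add_right]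
  simp only [h2, zero_add] at h1
  rw [h1]
  congr 1
  rw [← integral_add_right_eq_self (fun z => dbar u z / (z - ζ)) ζ]
  simp only [add_sub_cancel_right]

end FC34
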