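import Pool.Agent.W_fc1c69_h34.Green
import Pool.Agent.W_fc1c69_h34.Rep
import Pool.Agent.W_fc1c69_h34.Cutoff

/-! Interior gradient estimate. -/

namespace FC34

open Complex MeasureTheory Metric Set

/-- the integral of a directional derivative of a compactly supported `C¹` function vanishes -/
theorem GradEst_int {w : ℂ → ℂ} (hw : ContDiff ℝ 1 w) (hc : HasCompactSupport w) (v : ℂ) :
    ∫ z, fderiv ℝ w z v = 0 := by
  have hcont : Continuous fun z => fderiv ℝ w z v :=
    (hw.continuous_fderiv one_ne_zero).clm_apply continuous_const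
  have hsup : HasCompactSupport fun z => fderiv ℝ w z v := hc.fderiv_apply ℝ v
  have h1 : Integrable (fun z => fderiv ℝ w z v) := hcont.integrable_of_hasCompactSupport hsup
  have h2 : Integrable w := hw.continuous.integrable_of_hasCompactSupport hc
  have h3 := integral_bilinear_hasLineDerivAt_right_eq_neg_left_of_integrable
    (μ := (volume : Measure ℂ)) (f := fun _ : ℂ => (1 : ℂ)) (f' := fun _ => (0 : ℂ)) (g := w)
    (g' := fun z => fderiv ℝ w z v) (v := v) (B := ContinuousLinearMap.mul ℝ ℂ)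
    (by simp) (by simpa using h1) (by simpa using h2)
    (fun x _ => (hasFDerivAt_const (1 : ℂ) x).hasLineDerivAt v)
    (fun x _ => ((hw.differentiable one_ne_zero x).hasFDerivAt).hasLineDerivAt v)
  simpa using h3

theorem GradEst_dz_int {w : ℂ → ℂ} (hw : ContDiff ℝ 1 w) (hc : HasCompactSupport w) :
    ∫ z, dz w z = 0 := by
  have hi : ∀ v : ℂ, Integrable (fun z => fderiv ℝ w z v) := fun v =>
    ((hw.continuous_fderiv one_ne_zero).clm_apply
      continuous_const).integrable_of_hasCompactSupport (hc.fderiv_apply ℝ v)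
  unfold dz px py
  have h1 : ∫ z, (fderiv ℝ w z 1 - Complex.I * fderiv ℝ w z Complex.I) / 2 =
      ((∫ z, fderiv ℝ w z 1) - Complex.I * ∫ z, fderiv ℝ w z Complex.I) / 2 := by
    rw [integral_div, integral_sub (hi 1) ((hi Complex.I).const_mul _), integral_const_mul]
  rw [h1, GradEst_int hw hc, GradEst_int hw hc]
  simp

theorem GradEst_mul {f g : ℂ → ℂ} {z : ℂ} (hf : DifferentiableAt ℝ f z)
    (hg : DifferentiableAt ℝ g z) (v : ℂ) :
    fderiv ℝ (fun w => f w * g w) z v = f z * fderiv ℝ g z v + g z * fderiv ℝ f z v := by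
  rw [fderiv_fun_mul hf hg]
  simp

theorem GradEst_dz_mul {f g : ℂ → ℂ} {z : ℂ} (hf : DifferentiableAt ℝ f z)
    (hg : DifferentiableAt ℝ g z) :
    dz (fun w => f w * g w) z = f z * dz g z + g z * dz f z := by
  unfold dz px py
  rw [GradEst_mul hf hg, GradEst_mul hf hg]
  ring

theorem GradEst_dbar_mul {f g : ℂ → ℂ} {z : ℂ} (hf : DifferentiableAt ℝ f z)
    (hg : DifferentiableAt ℝ g z) :
    dbar (fun w => f w * g w) z = f z * dbar g z + g z * dbar f z := by
  unfold dbar px py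
  rw [GradEst_mul hf hg, GradEst_mul hf hg]
  ring

theorem GradEst_ofReal {f : ℂ → ℝ} {z : ℂ} (hf : DifferentiableAt ℝ f z) (v : ℂ) :
    fderiv ℝ (fun w => ((f w : ℝ) : ℂ)) z v = ((fderiv ℝ f z v : ℝ) : ℂ) := by
  have h1 : HasFDerivAt (fun w => ((f w : ℝ) : ℂ)) (Complex.ofRealCLM.comp (fderiv ℝ f z)) z :=
    Complex.ofRealCLM.hasFDerivAt.comp z hf.hasFDerivAt
  rw [h1.fderiv]
  rfl

/-- `4 ∂̄∂ = Δ` -/
theorem GradEst_dbar_dz {ψ : ℂ → ℝ} (hψ : ContDiff ℝ 3 ψ) (z : ℂ) :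
    dbar (dz fun w => ((ψ w : ℝ) : ℂ)) z = ((lap ψ z : ℝ) : ℂ) / 4 := by
  set u : ℂ → ℂ := fun w => ((ψ w : ℝ) : ℂ) with hu
  have hu3 : ContDiff ℝ 3 u := Complex.ofRealCLM.contDiff.comp hψ
  have hu2 : ContDiff ℝ 2 u := hu3.of_le (by norm_num)
  set D := fderiv ℝ (fderiv ℝ u) z with hD
  have h1 : HasFDerivAt (fun w => fderiv ℝ u w 1) (D.flip 1) z := Green_d2 hu2 1 z
  have h2 : HasFDerivAt (fun w => fderiv ℝ u w Complex.I) (D.flip Complex.I) z :=
    Green_d2 hu2 Complex.I z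
  have h3 : HasFDerivAt (dz u) _ z :=
    (h1.sub (h2.const_mul Complex.I)).mul_const (2 : ℂ)⁻¹
  have h4 : ∀ v, fderiv ℝ (dz u) z v = (D v 1 - Complex.I * D v Complex.I) / 2 := by
    intro v
    rw [h3.fderiv]
    simp
    ring
  have h5 : dbar (dz u) z = (D 1 1 + D Complex.I Complex.I) / 4 := by
    unfold dbar px py
    rw [h4, h4, Green_symm hu2 z]
    linear_combination (-(D Complex.I Complex.I) / 4) * Complex.I_sq
  have hd : Differentiable ℝ ψ := hψ.differentiable (by norm_num)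
  have hf1 : ContDiff ℝ 2 (fderiv ℝ ψ) := hψ.fderiv_right (by norm_num)
  have hfv : ∀ v : ℂ, Differentiable ℝ fun w => fderiv ℝ ψ w v := fun v =>
    (hf1.clm_apply contDiff_const).differentiable (by norm_num)
  have h6 : ∀ v : ℂ, (fun w => fderiv ℝ u w v) = fun w => ((fderiv ℝ ψ w v : ℝ) : ℂ) :=
    fun v => funext fun w => GradEst_ofReal (hd w) v
  have h7 : ∀ v : ℂ, D v v = ((fderiv ℝ (fun w => fderiv ℝ ψ w v) z v : ℝ) : ℂ) := by
    intro v
    have h8 := Green_d2 hu2 v z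
    have h9 : D v v = fderiv ℝ (fun w => fderiv ℝ u w v) z v := by
      rw [h8.fderiv]
      rfl
    rw [h9, h6 v, GradEst_ofReal (hfv v z)]
  rw [h5, h7, h7]
  unfold lap px py
  push_cast
  ring

/-- the estimate at the origin -/
theorem GradEst_zero (q₁ s : ℝ) (hq : 0 ≤ q₁) (hs : 0 < s) :
    ∃ C : ℝ, 1 ≤ C ∧ ∀ (ψ Q : ℂ → ℝ) (m : ℝ), ContDiff ℝ 3 ψ →
      (∀ z ∈ ball (0 : ℂ) s, lap ψ z = - Q z * ψ z ∧ 0 ≤ Q z ∧ Q z ≤ q₁) →
      (∀ z ∈ ball (0 : ℂ) s, |ψ z| ≤ m) → qf ψ 0 ≤ C * m ^ 2 := by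
  obtain ⟨_, _, hcut⟩ := exists_cutoff
  obtain ⟨χ, hχ, hχ0, hχ1, hχin, hχout, hχc, -, -⟩ := hcut 0 s hs
  set X : ℂ → ℂ := fun w => ((χ w : ℝ) : ℂ) with hX
  have hX3 : ContDiff ℝ 3 X := Complex.ofRealCLM.contDiff.comp hχ
  have hXc : HasCompactSupport X := by
    refine hχc.mono fun z hz hz0 => hz ?_
    have h1 : χ z = 0 := hz0
    simp [hX, h1]
  have hXd : Differentiable ℝ X := hX3.differentiable (by norm_num)
  have hfX : ContDiff ℝ 2 (fderiv ℝ X) := hX3.fderiv_right (by norm_num)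
  have hdX : ContDiff ℝ 2 (dbar X) := by
    unfold dbar px py
    exact ((hfX.clm_apply contDiff_const).add
      (contDiff_const.mul (hfX.clm_apply contDiff_const))).div_const 2
  -- the kernel
  set g : ℂ → ℂ := fun z => dbar X z * z⁻¹ with hg
  have hg0 : ∀ z ∈ ball (0 : ℂ) (0.36 * s), dbar X z = 0 := by
    intro z hz
    have h1 : X =ᶠ[nhds z] fun _ => (1 : ℂ) := by
      filter_upwards [isOpen_ball.mem_nhds hz] with w hw
      rw [hX]
      simp only
      rw [hχin w (ball_subset_closedBall hw)]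
      simp
    unfold dbar px py
    rw [h1.fderiv_eq]
    simp
  have hg1 : ∀ z, z ∉ closedBall (0 : ℂ) (0.37 * s) → X =ᶠ[nhds z] fun _ => (0 : ℂ) := by
    intro z hz
    filter_upwards [isClosed_closedBall.isOpen_compl.mem_nhds hz] with w hw
    rw [hX]
    simp only
    rw [hχout w fun h => hw (ball_subset_closedBall h)]
    simp
  have hgz : ∀ z, z ∉ closedBall (0 : ℂ) (0.37 * s) → dbar X z = 0 := by
    intro z hz
    unfold dbar px py
    rw [(hg1 z hz).fderiv_eq]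
    simp
  have hgd : ContDiff ℝ 2 g := by
    rw [contDiff_iff_contDiffAt]
    intro z
    by_cases hz : z = 0
    · have h1 : g =ᶠ[nhds z] fun _ => (0 : ℂ) := by
        have h2 : z ∈ ball (0 : ℂ) (0.36 * s) := by
          rw [hz]
          exact mem_ball_self (by positivity)
        filter_upwards [isOpen_ball.mem_nhds h2] with w hw
        rw [hg]
        simp only
        rw [hg0 w hw, zero_mul]
      exact contDiffAt_const.congr_of_eventuallyEq h1
    · exact hdX.contDiffAt.mul (contDiffAt_inv ℝ hz)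
  have hgc : HasCompactSupport g := by
    refine HasCompactSupport.of_support_subset_isCompact
      (isCompact_closedBall (0 : ℂ) (0.37 * s)) ?_
    intro z hz
    by_contra hz2
    apply hz
    rw [hg]
    simp only
    rw [hgz z hz2, zero_mul]
  have hfg : ContDiff ℝ 1 (fderiv ℝ g) := hgd.fderiv_right (by norm_num)
  have hdg : Continuous (dz g) := by
    unfold dz px py
    exact (((hfg.continuous.clm_apply continuous_const).sub
      (continuous_const.mul (hfg.continuous.clm_apply continuous_const))).div_const 2)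
  have hdgz : ∀ z, z ∉ closedBall (0 : ℂ) (0.37 * s) → dz g z = 0 := by
    intro z hz
    have h1 : g =ᶠ[nhds z] fun _ => (0 : ℂ) := by
      filter_upwards [isClosed_closedBall.isOpen_compl.mem_nhds hz] with w hw
      rw [hg]
      simp only
      rw [hgz w hw, zero_mul]
    unfold dz px py
    rw [h1.fderiv_eq]
    simp
  have hdgc : HasCompactSupport (dz g) := by
    refine HasCompactSupport.of_support_subset_isCompact
      (isCompact_closedBall (0 : ℂ) (0.37 * s)) ?_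
    intro z hz
    by_contra hz2
    exact hz (hdgz z hz2)
  have hI1 : Integrable (dz g) := hdg.integrable_of_hasCompactSupport hdgc
  have hI2 : Integrable (fun z : ℂ => X z / (z - 0)) := integrable_div hX3.continuous hXc 0
  set K1 : ℝ := ∫ z, ‖dz g z‖ with hK1
  set K2 : ℝ := ∫ z, ‖X z / (z - 0)‖ with hK2
  have hK1p : 0 ≤ K1 := integral_nonneg fun z => norm_nonneg _
  have hK2p : 0 ≤ K2 := integral_nonneg fun z => norm_nonneg _
  set c : ℝ := 1 / Real.pi * (q₁ / 4 * K2 + K1) with hc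
  have hπ : 0 < Real.pi := Real.pi_pos
  have hcp : 0 ≤ c := by positivity
  refine ⟨4 * c ^ 2 + 1, by nlinarith [sq_nonneg c], ?_⟩
  intro ψ Q m hψ hpde hm
  have h0s : (0 : ℂ) ∈ ball (0 : ℂ) s := mem_ball_self hs
  have hm0 : 0 ≤ m := (abs_nonneg _).trans (hm 0 h0s)
  set Ψ : ℂ → ℂ := fun w => ((ψ w : ℝ) : ℂ) with hΨ
  have hΨ3 : ContDiff ℝ 3 Ψ := Complex.ofRealCLM.contDiff.comp hψ
  have hΨd : Differentiable ℝ Ψ := hΨ3.differentiable (by norm_num)
  have hfΨ : ContDiff ℝ 2 (fderiv ℝ Ψ) := hΨ3.fderiv_right (by norm_num)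
  have hdΨ : ContDiff ℝ 2 (dz Ψ) := by
    unfold dz px py
    exact ((hfΨ.clm_apply contDiff_const).sub
      (contDiff_const.mul (hfΨ.clm_apply contDiff_const))).div_const 2
  have hdΨd : Differentiable ℝ (dz Ψ) := hdΨ.differentiable (by norm_num)
  -- the representation formula
  have hv : ContDiff ℝ 1 (fun z => X z * dz Ψ z) :=
    (hX3.of_le (by norm_num)).mul (hdΨ.of_le (by norm_num))
  have hvc : HasCompactSupport (fun z => X z * dz Ψ z) := hXc.mul_right
  have hrep := rep hv hvc 0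
  have hX0 : X 0 = 1 := by
    rw [hX]
    simp only
    rw [hχin 0 (mem_closedBall_self (by positivity))]
    simp
  have hdb : ∀ z, dbar (fun z => X z * dz Ψ z) z / (z - 0) =
      X z / (z - 0) * (((lap ψ z : ℝ) : ℂ) / 4) + g z * dz Ψ z := by
    intro z
    rw [GradEst_dbar_mul (hXd z) (hdΨd z), GradEst_dbar_dz hψ z, hg]
    simp only
    rw [sub_zero, div_eq_mul_inv, div_eq_mul_inv]
    ring
  -- integration by parts
  have hgd' : Differentiable ℝ g := hgd.differentiable (by norm_num)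
  have hprod : ContDiff ℝ 1 (fun z => g z * Ψ z) :=
    (hgd.of_le (by norm_num)).mul (hΨ3.of_le (by norm_num))
  have hprodc : HasCompactSupport (fun z => g z * Ψ z) := hgc.mul_right
  have hparts := GradEst_dz_int hprod hprodc
  have hI3 : Integrable (fun z => g z * dz Ψ z) :=
    (hgd.continuous.mul hdΨ.continuous).integrable_of_hasCompactSupport hgc.mul_right
  have hI4 : Integrable (fun z => Ψ z * dz g z) :=
    (hΨ3.continuous.mul hdg).integrable_of_hasCompactSupport hdgc.mul_left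
  have hparts2 : ∫ z, g z * dz Ψ z = -∫ z, Ψ z * dz g z := by
    have h1 : (fun z => dz (fun w => g w * Ψ w) z) = fun z => g z * dz Ψ z + Ψ z * dz g z :=
      funext fun z => GradEst_dz_mul (hgd' z) (hΨd z)
    have h2 : ∫ z, (g z * dz Ψ z + Ψ z * dz g z) = 0 := by
      rw [← h1]
      exact hparts
    rw [integral_add hI3 hI4] at h2
    exact eq_neg_of_add_eq_zero_left h2
  -- bounds
  have hsub : closedBall (0 : ℂ) (0.37 * s) ⊆ ball (0 : ℂ) s :=
    closedBall_subset_ball (by linarith)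
  have hb1 : ‖∫ z, Ψ z * dz g z‖ ≤ m * K1 := by
    rw [hK1, ← integral_const_mul]
    refine norm_integral_le_of_norm_le (hI1.norm.const_mul m) (Filter.Eventually.of_forall ?_)
    intro z
    show ‖Ψ z * dz g z‖ ≤ m * ‖dz g z‖
    rw [norm_mul]
    by_cases hz : z ∈ closedBall (0 : ℂ) (0.37 * s)
    · refine mul_le_mul_of_nonneg_right ?_ (norm_nonneg _)
      rw [hΨ]
      simp only
      rw [Complex.norm_real, Real.norm_eq_abs]
      exact hm z (hsub hz)
    · rw [hdgz z hz]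
      simp
  have hlapc : Continuous (fun z => ((lap ψ z : ℝ) : ℂ) / 4) := by
    have h1 : (fun z => ((lap ψ z : ℝ) : ℂ) / 4) = fun z => dbar (dz Ψ) z :=
      funext fun z => (GradEst_dbar_dz hψ z).symm
    rw [h1]
    have h2 : ContDiff ℝ 1 (fderiv ℝ (dz Ψ)) := hdΨ.fderiv_right (by norm_num)
    unfold dbar px py
    exact (((h2.continuous.clm_apply continuous_const).add
      (continuous_const.mul (h2.continuous.clm_apply continuous_const))).div_const 2)
  have hb2' : ∀ z, ‖X z / (z - 0) * (((lap ψ z : ℝ) : ℂ) / 4)‖ ≤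
      m * (q₁ / 4) * ‖X z / (z - 0)‖ := by
    intro z
    rw [norm_mul, mul_comm]
    by_cases hz : z ∈ closedBall (0 : ℂ) (0.37 * s)
    · refine mul_le_mul_of_nonneg_right ?_ (norm_nonneg _)
      obtain ⟨h1, h2, h3⟩ := hpde z (hsub hz)
      rw [h1, norm_div, Complex.norm_real, Real.norm_eq_abs, abs_mul, abs_neg, abs_of_nonneg h2]
      have h4 : ‖(4 : ℂ)‖ = 4 := by norm_num
      rw [h4]
      have h5 : Q z * |ψ z| ≤ q₁ * m := mul_le_mul h3 (hm z (hsub hz)) (abs_nonneg _) hq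
      linarith
    · have h1 : X z = 0 := (hg1 z hz).eq_of_nhds
      rw [h1]
      simp
  have hI5 : Integrable (fun z => X z / (z - 0) * (((lap ψ z : ℝ) : ℂ) / 4)) := by
    refine Integrable.mono' (hI2.norm.const_mul (m * (q₁ / 4))) ?_
      (Filter.Eventually.of_forall hb2')
    exact hI2.aestronglyMeasurable.mul hlapc.aestronglyMeasurable
  have hb2 : ‖∫ z, X z / (z - 0) * (((lap ψ z : ℝ) : ℂ) / 4)‖ ≤ m * (q₁ / 4) * K2 := by
    rw [hK2, ← integral_const_mul]
    exact norm_integral_le_of_norm_le (hI2.norm.const_mul _) (Filter.Eventually.of_forall hb2')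
  have hmain : ‖dz Ψ 0‖ ≤ c * m := by
    have h1 : dz Ψ 0 = X 0 * dz Ψ 0 := by rw [hX0, one_mul]
    have h2 : X 0 * dz Ψ 0 = -(1 / (Real.pi : ℂ)) *
        ((∫ z, X z / (z - 0) * (((lap ψ z : ℝ) : ℂ) / 4)) + -∫ z, Ψ z * dz g z) := by
      rw [← hparts2, ← integral_add hI5 hI3]
      have h3 : (fun z => dbar (fun z => X z * dz Ψ z) z / (z - 0)) = fun z =>
          X z / (z - 0) * (((lap ψ z : ℝ) : ℂ) / 4) + g z * dz Ψ z := funext hdb
      rw [← h3]
      exact hrep
    rw [h1, h2, norm_mul, norm_neg, norm_div, norm_one, Complex.norm_real, Real.norm_eq_abs,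
      abs_of_pos hπ, hc]
    have h4 : ‖(∫ z, X z / (z - 0) * (((lap ψ z : ℝ) : ℂ) / 4)) + -∫ z, Ψ z * dz g z‖ ≤
        m * (q₁ / 4) * K2 + m * K1 := by
      refine (norm_add_le _ _).trans ?_
      rw [norm_neg]
      exact add_le_add hb2 hb1
    calc 1 / Real.pi * ‖(∫ z, X z / (z - 0) * (((lap ψ z : ℝ) : ℂ) / 4)) + -∫ z, Ψ z * dz g z‖
        ≤ 1 / Real.pi * (m * (q₁ / 4) * K2 + m * K1) :=
          mul_le_mul_of_nonneg_left h4 (by positivity)
      _ = 1 / Real.pi * (q₁ / 4 * K2 + K1) * m := by ring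
  have hgrad : (px ψ 0) ^ 2 + (py ψ 0) ^ 2 = 4 * ‖dz Ψ 0‖ ^ 2 := by
    have hd : Differentiable ℝ ψ := hψ.differentiable (by norm_num)
    have h1 : dz Ψ 0 = (((px ψ 0 : ℝ) : ℂ) - Complex.I * ((py ψ 0 : ℝ) : ℂ)) / 2 := by
      unfold dz px py
      rw [GradEst_ofReal (hd 0), GradEst_ofReal (hd 0)]
    rw [h1, ← Complex.normSq_eq_norm_sq, Complex.normSq_apply]
    simp
    ring
  have hsq : ‖dz Ψ 0‖ ^ 2 ≤ (c * m) ^ 2 := pow_le_pow_left₀ (norm_nonneg _) hmain 2
  have hψ0 : (ψ 0) ^ 2 ≤ m ^ 2 := by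
    rw [← sq_abs (ψ 0)]
    exact pow_le_pow_left₀ (abs_nonneg _) (hm 0 h0s) 2
  unfold qf
  rw [hgrad]
  nlinarith

/-- Interior gradient estimate at unit scale: `|∇ψ(x)|² + ψ(x)² ≤ C sup_{ball x s} |ψ|²`.
Proof: `χ` = cut-off at centre `x` and scale `s` (`exists_cutoff`), `U = ∂(χψ)` (`dz` of the complex
valued function `χψ`, `C²`, compactly supported), `∂̄U = Δ(χψ)/4 = (χΔψ + 2∇χ·∇ψ + ψΔχ)/4`. `rep` at `x`:
`U(x) = -(1/π)∫ ∂̄U/(z-x)`, `U(x) = ∂ψ(x)`.  The term with `∇χ·∇ψ`: integrate by parts (`Green`),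
`∫ (∇χ·∇ψ) k = -∫ ψ div(k ∇χ)`, `k = 1/(z-x)` is smooth on the support of `∇χ` (`|z-x| ≥ 0.36 s`).
So `|∇ψ(x)| ≤ C(q₁, s) m`. -/
theorem grad_est (q₁ s : ℝ) (hq : 0 ≤ q₁) (hs : 0 < s) (hs1 : s ≤ 1) :
    ∃ C : ℝ, 1 ≤ C ∧ ∀ (ψ Q : ℂ → ℝ) (x : ℂ) (m : ℝ), ContDiff ℝ 3 ψ →
      (∀ z ∈ ball x s, lap ψ z = - Q z * ψ z ∧ 0 ≤ Q z ∧ Q z ≤ q₁) →
      (∀ z ∈ ball x s, |ψ z| ≤ m) → qf ψ x ≤ C * m ^ 2 := by
  obtain ⟨C, hC, h⟩ := GradEst_zero q₁ s hq hs
  have _ := hs1
  refine ⟨C, hC, fun ψ Q x m hψ hpde hm => ?_⟩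
  have hmem : ∀ z ∈ ball (0 : ℂ) s, z + x ∈ ball x s := by
    intro z hz
    rw [mem_ball, dist_zero_right] at hz
    rw [mem_ball, dist_eq_norm, add_sub_cancel_right]
    exact hz
  have h1 := h (fun z => ψ (z + x)) (fun z => Q (z + x)) m
    (hψ.comp (contDiff_id.add contDiff_const)) ?_ (fun z hz => hm _ (hmem z hz))
  · have h2 : qf (fun z => ψ (z + x)) 0 = qf ψ x := by
      unfold qf px py
      rw [fderiv_comp_add_right, zero_add]
      simp only [zero_add]
    rw [← h2]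
    exact h1
  · intro z hz
    obtain ⟨h2, h3, h4⟩ := hpde _ (hmem z hz)
    refine ⟨?_, h3, h4⟩
    rw [← h2]
    have e1 : px (fun z => ψ (z + x)) = fun z => px ψ (z + x) :=
      funext fun w => by unfold px; rw [fderiv_comp_add_right]
    have e2 : py (fun z => ψ (z + x)) = fun z => py ψ (z + x) :=
      funext fun w => by unfold py; rw [fderiv_comp_add_right]
    unfold lap
    rw [e1, e2]
    congr 1
    · unfold px
      rw [fderiv_comp_add_right (f := fun z => fderiv ℝ ψ z 1)]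
    · unfold py
      rw [fderiv_comp_add_right (f := fun z => fderiv ℝ ψ z Complex.I)]

end FC34
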