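import Pool.Agent.W_fc1c69_h34.MBAll
import Pool.Agent.W_fc1c69_h34.GradEst

/-! Small eigenvalues. -/

namespace FC34

open Complex MeasureTheory Metric Set

variable {M : Type*} [MetricSpace M] {Eig : ℝ → (M → ℝ) → Prop}

/-- Small `λ`: all discs of radius `A/√λ` are good, uniformly for `√λ ≤ Λ₀`.
Proof: `Λ = Lam λ ≤ Λ₀' = max 1 Λ₀`; `mb_all` with `s` so small that `closedBall x̂ (sΛ)` plus the unit
of the gradient estimate stays in the disc: the disc contains `pt '' ball x̂ t`,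
`t = AΛ/(√λ · 0.9 L)·... ≥ A/L·c`; take `s = min (1/8) (t₀/(4Λ₀'))`, `grad_est` with radius
`min 1 (t₀/4)`. `V ≤ q(y) e^{NΛ₀'} ≤ C m² e^{NΛ₀'}` and `φ² ≤ V` everywhere on `M`
(every point of `M` is in some chart). -/
theorem good_small [ConnectedSpace M] (𝒜 : FinAtlas M Eig) (A Λ₀ : ℝ) (hA : 0 < A) :
    ∃ K' : ℝ, 1 ≤ K' ∧ ∀ (lam : ℝ) (φ : M → ℝ), 0 < lam → Real.sqrt lam ≤ Λ₀ → Eig lam φ →
      (∃ p, φ p ≠ 0) → ∀ p : M, Good K' φ p (A / Real.sqrt lam) := by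
  obtain ⟨p₀⟩ := (inferInstance : Nonempty M)
  obtain ⟨i₀, -, -, -⟩ := 𝒜.cover p₀
  have hL : 1 ≤ 𝒜.L := (𝒜.C i₀).hL
  have hq : 0 ≤ 𝒜.q₁ := (𝒜.C i₀).hq₁
  obtain ⟨Λ₁, hΛ₁⟩ : ∃ Λ₁ : ℝ, Λ₁ = max 1 Λ₀ := ⟨_, rfl⟩
  have hΛ₁1 : 1 ≤ Λ₁ := by rw [hΛ₁]; exact le_max_left _ _
  have hΛ₁2 : Λ₀ ≤ Λ₁ := by rw [hΛ₁]; exact le_max_right _ _
  obtain ⟨t, ht⟩ : ∃ t : ℝ, t = A / Λ₁ / (4 * 𝒜.L) := ⟨_, rfl⟩
  have ht0 : 0 < t := by rw [ht]; positivity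
  have htL : 4 * (𝒜.L * t) = A / Λ₁ := by rw [ht]; field_simp
  obtain ⟨s, hs⟩ : ∃ s : ℝ, s = min (1 / 8) t := ⟨_, rfl⟩
  obtain ⟨s₂, hs₂⟩ : ∃ s₂ : ℝ, s₂ = min 1 t := ⟨_, rfl⟩
  have hs0 : 0 < s := by rw [hs]; positivity
  have hs8 : s ≤ 1 / 8 := by rw [hs]; exact min_le_left _ _
  have hst : s ≤ t := by rw [hs]; exact min_le_right _ _
  have hs₂0 : 0 < s₂ := by rw [hs₂]; positivity
  have hs₂1 : s₂ ≤ 1 := by rw [hs₂]; exact min_le_left _ _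
  have hs₂t : s₂ ≤ t := by rw [hs₂]; exact min_le_right _ _
  obtain ⟨N, hN, hmb⟩ := mb_all 𝒜 hs0 hs8
  obtain ⟨C, hC, hgrad⟩ := grad_est 𝒜.q₁ s₂ hq hs₂0 hs₂1
  have hK1 : 1 ≤ 2 * C * Real.exp (N * Λ₁) := by
    have h1 : 1 ≤ Real.exp (N * Λ₁) := Real.one_le_exp (by positivity)
    nlinarith
  refine ⟨2 * C * Real.exp (N * Λ₁), hK1, ?_⟩
  intro lam φ hlam hlam₀ hEig hne p
  have hsq : 0 < Real.sqrt lam := Real.sqrt_pos.2 hlam
  have hΛ1 : 1 ≤ Lam lam := le_max_left _ _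
  have hΛle : Lam lam ≤ Λ₁ := max_le hΛ₁1 (hlam₀.trans hΛ₁2)
  have hΛ0 : 0 < Lam lam := by linarith
  choose ψ Q hψ hQ using fun k => (𝒜.C k).exists_scaled hlam hEig
  obtain ⟨V, hV, hVle, hVy⟩ := hmb lam φ hlam hEig hne ψ Q hψ hQ
  -- every value is at most `√V`
  have hall : ∀ p'' : M, (φ p'') ^ 2 ≤ V := by
    intro p''
    obtain ⟨j, w, hw, hp⟩ := 𝒜.exists_pt hΛ0 p''
    have hw4 : w ∈ ball (0 : ℂ) (4 * Lam lam) := ball_subset_ball (by linarith) hw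
    have hw3 : w ∈ closedBall (0 : ℂ) (3 * Lam lam) :=
      closedBall_subset_closedBall (by linarith) (ball_subset_closedBall hw)
    rw [← hp, ← (hψ j).2 w hw4]
    refine le_trans ?_ (hVle j w hw3)
    unfold qf
    nlinarith [sq_nonneg (px (ψ j) w), sq_nonneg (py (ψ j) w)]
  obtain ⟨i, x, hx, hp⟩ := 𝒜.exists_pt hΛ0 p
  have hx25 : x ∈ closedBall (0 : ℂ) (2.5 * Lam lam) :=
    closedBall_subset_closedBall (by linarith) (ball_subset_closedBall hx)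
  obtain ⟨y, hy, hVy'⟩ := hVy i x hx25
  have hxn : ‖x‖ < 0.56 * Lam lam := mem_ball_zero_iff.1 hx
  have hyn : ‖y - x‖ ≤ s * Lam lam := mem_closedBall_iff_norm.1 hy
  have hzn : ∀ z ∈ ball y s₂, ‖z - x‖ < s * Lam lam + s₂ := by
    intro z hz
    have h1 : ‖z - y‖ < s₂ := mem_ball_iff_norm.1 hz
    have h2 : ‖z - x‖ ≤ ‖z - y‖ + ‖y - x‖ := by
      simpa using norm_add_le (z - y) (y - x)
    linarith
  have hz4 : ∀ z ∈ ball y s₂, z ∈ ball (0 : ℂ) (4 * Lam lam) := by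
    intro z hz
    have h1 := hzn z hz
    have h2 : ‖z‖ ≤ ‖z - x‖ + ‖x‖ := by
      simpa using norm_add_le (z - x) x
    rw [mem_ball_zero_iff]
    have h3 : s * Lam lam ≤ 1 / 8 * Lam lam := mul_le_mul_of_nonneg_right hs8 hΛ0.le
    linarith
  have hqpos : 0 < qf (ψ i) y := by
    by_contra h
    have h1 : qf (ψ i) y * Real.exp (N * Lam lam) ≤ 0 :=
      mul_nonpos_of_nonpos_of_nonneg (not_lt.1 h) (Real.exp_pos _).le
    linarith
  -- a point with a large value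
  obtain ⟨z, hz, hzv⟩ : ∃ z ∈ ball y s₂, qf (ψ i) y < 2 * C * (ψ i z) ^ 2 := by
    by_contra hcon
    push Not at hcon
    have h1 := hgrad (ψ i) (Q i) y (Real.sqrt (qf (ψ i) y / (2 * C))) (hψ i).1
      (fun z hz => ⟨(hQ i).pde z (hz4 z hz), (hQ i).hQ z (hz4 z hz)⟩)
      (fun z hz => by
        refine Real.abs_le_sqrt ?_
        rw [le_div_iff₀ (by positivity)]
        have h2 := hcon z hz
        linarith)
    rw [Real.sq_sqrt (by positivity)] at h1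
    have h3 : C * (qf (ψ i) y / (2 * C)) = qf (ψ i) y / 2 := by field_simp
    rw [h3] at h1
    linarith
  have hzφ : ψ i z = φ ((𝒜.C i).pt (Lam lam) z) := (hψ i).2 z (hz4 z hz)
  have hfin : V ≤ 2 * C * Real.exp (N * Λ₁) * (ψ i z) ^ 2 := by
    have h1 : Real.exp (N * Lam lam) ≤ Real.exp (N * Λ₁) :=
      Real.exp_le_exp.2 (mul_le_mul_of_nonneg_left hΛle hN)
    calc V ≤ qf (ψ i) y * Real.exp (N * Lam lam) := hVy'
      _ ≤ qf (ψ i) y * Real.exp (N * Λ₁) := mul_le_mul_of_nonneg_left h1 hqpos.le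
      _ ≤ (2 * C * (ψ i z) ^ 2) * Real.exp (N * Λ₁) :=
        mul_le_mul_of_nonneg_right hzv.le (Real.exp_pos _).le
      _ = _ := by ring
  refine ⟨(𝒜.C i).pt (Lam lam) z, ?_, ?_, ?_⟩
  · rw [mem_ball, ← hp]
    refine ((𝒜.C i).dist_pt_le hΛ0 (hz4 z hz)
      (ball_subset_ball (by linarith) hx)).trans_lt ?_
    have h1 := hzn z hz
    have h2 : 0.9 * 𝒜.L / Lam lam * ‖z - x‖ ≤ 0.9 * 𝒜.L / Lam lam * (s * Lam lam + s₂) :=
      mul_le_mul_of_nonneg_left h1.le (by positivity)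
    have h3 : 0.9 * 𝒜.L / Lam lam * (s * Lam lam + s₂) = 0.9 * 𝒜.L * (s + s₂ / Lam lam) := by
      field_simp
    have h4 : s₂ / Lam lam ≤ t := (div_le_self hs₂0.le hΛ1).trans hs₂t
    have h5 : 0.9 * 𝒜.L * (s + s₂ / Lam lam) ≤ 0.9 * 𝒜.L * (2 * t) :=
      mul_le_mul_of_nonneg_left (by linarith) (by positivity)
    have h6 : 0 < 𝒜.L * t := by positivity
    have h7 : A / Λ₁ ≤ A / Real.sqrt lam :=
      div_le_div_of_nonneg_left hA.le hsq (hlam₀.trans hΛ₁2)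
    linarith
  · intro h
    rw [← hzφ] at h
    rw [h] at hfin
    simp at hfin
    linarith
  · intro p'' _
    rw [← hzφ]
    refine abs_le_of_sq_le_sq ?_ (by positivity)
    have h1 := hall p''
    rw [mul_pow, sq_abs]
    have h2 : 2 * C * Real.exp (N * Λ₁) * (ψ i z) ^ 2 ≤
        (2 * C * Real.exp (N * Λ₁)) ^ 2 * (ψ i z) ^ 2 := by
      refine mul_le_mul_of_nonneg_right ?_ (sq_nonneg _)
      nlinarith
    linarith

end FC34
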