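import Pool.Agent.W_fc1c69_h34.GoodSig
import Pool.Agent.W_fc1c69_h34.GoodSmall
import Pool.Agent.W_fc1c69_h34.CountA
import Pool.Agent.W_fc1c69_h34.CountB
import Pool.Agent.W_fc1c69_h34.ALoc
import Pool.Agent.W_fc1c69_h34.Atlas

/-! THE ABSTRACT THEOREM. -/

namespace FC34

open Complex MeasureTheory Metric Set

variable {M : Type*} [MetricSpace M] {Eig : ℝ → (M → ℝ) → Prop}

theorem Abstract_good_mono {K K' : ℝ} (h : K ≤ K') {φ : M → ℝ} {p : M} {r : ℝ}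
    (hg : Good K φ p r) : Good K' φ p r := by
  obtain ⟨p', hp', h0, hb⟩ := hg
  exact ⟨p', hp', h0, fun p'' hp'' => (hb p'' hp'').trans
    (mul_le_mul_of_nonneg_right h (abs_nonneg _))⟩

/-- The nonvanishing and the hypothesis MB in one chart. -/
theorem Abstract_loc {q₁ l Λ N V : ℝ} {ψ Q : ℂ → ℝ} (h : PreLoc q₁ l Λ ψ Q) (hV : 0 < V)
    (h1 : ∀ w ∈ closedBall (0 : ℂ) (3 * Λ), qf ψ w ≤ V)
    (h2 : ∀ x ∈ closedBall (0 : ℂ) (2.5 * Λ),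
      ∃ y ∈ closedBall x ((1 / 100) * Λ), V ≤ qf ψ y * Real.exp (N * Λ)) :
    Loc q₁ l Λ ψ Q ∧ MB ψ Λ N := by
  have hΛ := h.hΛ
  have hsub : ∀ x ∈ ball (0 : ℂ) (2.5 * Λ), ∀ y ∈ closedBall x ((1 / 100) * Λ),
      y ∈ closedBall (0 : ℂ) (3 * Λ) := by
    intro x hx y hy
    rw [mem_ball_zero_iff] at hx
    rw [mem_closedBall_iff_norm] at hy
    rw [mem_closedBall_zero_iff]
    have h3 : ‖y‖ ≤ ‖y - x‖ + ‖x‖ := by simpa using norm_add_le (y - x) x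
    linarith
  constructor
  · refine h.toLoc ?_
    have h0 : (0 : ℂ) ∈ ball (0 : ℂ) (2.5 * Λ) := mem_ball_self (by linarith)
    obtain ⟨y, hy, hVy⟩ := h2 0 (ball_subset_closedBall h0)
    refine ⟨y, hsub 0 h0 y hy, ?_⟩
    by_contra hcon
    rw [not_lt] at hcon
    have h3 : qf ψ y * Real.exp (N * Λ) ≤ 0 :=
      mul_nonpos_of_nonpos_of_nonneg hcon (Real.exp_pos _).le
    linarith
  · intro x hx
    obtain ⟨y, hy, hVy⟩ := h2 x (ball_subset_closedBall hx)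
    refine ⟨y, ?_, hsub x hx y hy, fun w hw => (h1 w hw).trans hVy⟩
    rw [mem_closedBall_iff_norm] at hy ⊢
    linarith

/-- THE ABSTRACT THEOREM: at most the fraction `ε` of the discs is not `K`-good.
Proof: finite atlas; `mb_all` (`s = 1/100`) gives `N`, hence MB(N) in each chart and (as `V > 0`) the
nonvanishing; `ε' = ` small multiple of `ε`, `K₁` from `A_loc`; `good_of_sig` gives `K', Λ₀`; for
`√λ ≤ max(Λ₀, 2.5A, 1)` use `good_small`; for larger `λ`, `Λ = √λ`: every `x i` is `pt (x̂ i)` in some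
chart `k(i)`; if `ball (x̂ i) (A/2L)` meets `Sig` the disc is good; the others are counted by
`card_bad_le` for each chart, and compared with `card_ge`. -/
theorem abstract_theorem [CompactSpace M] [ConnectedSpace M]
    (hchart : ∀ p : M, ∃ q₁ l L : ℝ, ∃ C : IsoChart M Eig q₁ l L, C.c 0 = p)
    (A C₁ ε : ℝ) (hA : 0 < A) (hε : 0 < ε) :
    ∃ K : ℝ, 1 ≤ K ∧ ∀ (lam : ℝ) (φ : M → ℝ), 0 < lam → Eig lam φ → (∃ p, φ p ≠ 0) →
      ∀ (ι : Type) [Fintype ι] (x : ι → M), IsCov M C₁ (A / Real.sqrt lam) x →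
        ({i | ¬ Good K φ (x i) (A / Real.sqrt lam)}.ncard : ℝ) ≤ ε * Fintype.card ι := by
  classical
  obtain ⟨𝒜⟩ := exists_finAtlas hchart
  obtain ⟨p₀⟩ : Nonempty M := inferInstance
  obtain ⟨i₀, _⟩ := 𝒜.cover p₀
  have hq₁ : 0 ≤ 𝒜.q₁ := (𝒜.C i₀).hq₁
  have hl : 0 ≤ 𝒜.l := (𝒜.C i₀).hl
  have hL : 1 ≤ 𝒜.L := (𝒜.C i₀).hL
  obtain ⟨N, hN, hmb⟩ := mb_all 𝒜 (s := 1 / 100) (by norm_num) (by norm_num)
  obtain ⟨c, hc, hge⟩ := card_ge 𝒜 A hA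
  rcases lt_or_ge C₁ 0 with hC₁ | hC₁
  · -- no covering
    refine ⟨1, le_rfl, ?_⟩
    intro lam φ _ _ _ ι _ x hx
    exfalso
    have h1 := hx.2 p₀
    have h2 : (0 : ℝ) ≤ ({i | p₀ ∈ ball (x i) (A / Real.sqrt lam)}.ncard : ℝ) := Nat.cast_nonneg _
    linarith
  have hπ : 0 < Real.pi := Real.pi_pos
  obtain ⟨a, ha⟩ : ∃ a : ℝ, a = Real.pi * (A / (2 * 𝒜.L)) ^ 2 := ⟨_, rfl⟩
  have ha0 : 0 < a := by rw [ha]; positivity
  obtain ⟨δ, hδ⟩ : ∃ δ : ℝ, δ = ε * c * a / ((𝒜.n + 1) * (C₁ + 1)) := ⟨_, rfl⟩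
  have hδ0 : 0 < δ := by rw [hδ]; positivity
  obtain ⟨K₁, hK₁, hloc⟩ := A_loc 𝒜.q₁ 𝒜.l N δ hq₁ hl hN hδ0
  obtain ⟨K', Λ₀, hK', hΛ₀, hgood⟩ := good_of_sig 𝒜 A K₁ hA hK₁
  obtain ⟨K'', hK'', hsmall⟩ := good_small 𝒜 A (max Λ₀ (2.5 * A)) hA
  refine ⟨max K' K'', hK'.trans (le_max_left _ _), ?_⟩
  intro lam φ hlam hE hφ ι _ x hx
  rcases le_or_gt (Real.sqrt lam) (max Λ₀ (2.5 * A)) with hs | hs
  · have h1 : {i | ¬ Good (max K' K'') φ (x i) (A / Real.sqrt lam)} = ∅ := by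
      rw [Set.eq_empty_iff_forall_notMem]
      intro i hi
      exact hi (Abstract_good_mono (le_max_right _ _) (hsmall lam φ hlam hs hE hφ (x i)))
    rw [h1, Set.ncard_empty]
    push_cast
    positivity
  have hs1 : Λ₀ ≤ Real.sqrt lam := (le_max_left _ _).trans hs.le
  have hs2 : 2.5 * A ≤ Real.sqrt lam := (le_max_right _ _).trans hs.le
  have hs3 : 1 ≤ Real.sqrt lam := hΛ₀.trans hs1
  have hLam : Lam lam = Real.sqrt lam := max_eq_right hs3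
  have hΛ0 : 0 < Real.sqrt lam := by linarith
  choose ψ Q hψ hQ using fun k : Fin 𝒜.n => (𝒜.C k).exists_scaled hlam hE
  obtain ⟨V, hV, hV1, hV2⟩ := hmb lam φ hlam hE hφ ψ Q hψ hQ
  have hlocMB : ∀ k, Loc 𝒜.q₁ 𝒜.l (Lam lam) (ψ k) (Q k) ∧ MB (ψ k) (Lam lam) N :=
    fun k => Abstract_loc (hQ k) hV (hV1 k) (hV2 k)
  have hvol : ∀ k, volume (ball (0 : ℂ) (Lam lam) \ Sig (ψ k) (Lam lam) K₁) ≤
      ENNReal.ofReal (δ * (Lam lam) ^ 2) :=
    fun k => hloc (Lam lam) (ψ k) (Q k) (hlocMB k).1 (hlocMB k).2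
  choose kk xh hxh hpt using fun i : ι => 𝒜.exists_pt hΛ0 (x i)
  simp only [hLam] at hψ hQ hlocMB hvol
  obtain ⟨r, hr⟩ : ∃ r : ℝ, r = A / Real.sqrt lam := ⟨_, rfl⟩
  rw [← hr] at hx ⊢
  -- bad discs
  have hbad : ∀ i, ¬ Good (max K' K'') φ (x i) r →
      Disjoint (ball (xh i) (A / (2 * 𝒜.L))) (Sig (ψ (kk i)) (Real.sqrt lam) K₁) := by
    intro i hi
    rw [Set.disjoint_left]
    intro z hz hzS
    apply hi
    rw [mem_ball, dist_eq_norm] at hz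
    have h1 := hgood lam φ hlam hs1 hE (kk i) (ψ (kk i)) (Q (kk i))
    rw [hLam] at h1
    have h2 := h1 (hψ _) (hQ _) (hlocMB (kk i)).1.nz (xh i) z (mem_ball_zero_iff.1 (hxh i)) hzS hz
    rw [hpt i, ← hr] at h2
    exact Abstract_good_mono (le_max_left _ _) h2
  have hJ : ∀ k : Fin 𝒜.n,
      (({i | ¬ Good (max K' K'') φ (x i) r ∧ kk i = k} : Set ι).ncard : ℝ) * a ≤
        C₁ * (δ * (Real.sqrt lam) ^ 2) := by
    intro k
    rw [ha]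
    refine card_bad_le (𝒜.C k) hA hs3 (by linarith) hC₁ ((hlocMB k).1.isClosed_Sig K₁) (hvol k)
      hδ0.le x (by rw [← hr]; exact hx) _ xh ?_
    rintro j ⟨hj1, rfl⟩
    exact ⟨mem_ball_zero_iff.1 (hxh j), hpt j, hbad j hj1⟩
  have hcard : (({i | ¬ Good (max K' K'') φ (x i) r} : Set ι).ncard : ℝ) ≤
      ∑ k : Fin 𝒜.n, (({i | ¬ Good (max K' K'') φ (x i) r ∧ kk i = k} : Set ι).ncard : ℝ) := by
    have h1 : ({i | ¬ Good (max K' K'') φ (x i) r} : Set ι).ncard =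
        ∑ k : Fin 𝒜.n, ({i | ¬ Good (max K' K'') φ (x i) r ∧ kk i = k} : Set ι).ncard := by
      rw [Set.ncard_eq_toFinset_card', Finset.card_eq_sum_card_fiberwise (f := kk)
        (t := Finset.univ) (fun _ _ => Finset.mem_coe.2 (Finset.mem_univ _))]
      refine Finset.sum_congr rfl fun k _ => ?_
      rw [Set.ncard_eq_toFinset_card']
      congr 1
      ext i
      simp
    rw [h1]
    push_cast
    exact le_rfl
  have hsum : (({i | ¬ Good (max K' K'') φ (x i) r} : Set ι).ncard : ℝ) * a ≤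
      𝒜.n * (C₁ * (δ * (Real.sqrt lam) ^ 2)) := by
    calc (({i | ¬ Good (max K' K'') φ (x i) r} : Set ι).ncard : ℝ) * a ≤
        (∑ k : Fin 𝒜.n,
          (({i | ¬ Good (max K' K'') φ (x i) r ∧ kk i = k} : Set ι).ncard : ℝ)) * a :=
          mul_le_mul_of_nonneg_right hcard ha0.le
      _ = ∑ k : Fin 𝒜.n,
          (({i | ¬ Good (max K' K'') φ (x i) r ∧ kk i = k} : Set ι).ncard : ℝ) * a := by
          rw [Finset.sum_mul]
      _ ≤ ∑ k : Fin 𝒜.n, C₁ * (δ * (Real.sqrt lam) ^ 2) := Finset.sum_le_sum fun k _ => hJ k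
      _ = 𝒜.n * (C₁ * (δ * (Real.sqrt lam) ^ 2)) := by
          rw [Finset.sum_const, Finset.card_univ, Fintype.card_fin, nsmul_eq_mul]
  have hfin := hge C₁ (Real.sqrt lam) hs3 ι x (by rw [← hr]; exact hx)
  have hΛ2 : 0 < (Real.sqrt lam) ^ 2 := by positivity
  have hn0 : (0 : ℝ) ≤ 𝒜.n := Nat.cast_nonneg _
  have h3 : (𝒜.n : ℝ) * (C₁ * (δ * (Real.sqrt lam) ^ 2)) ≤ ε * (c * (Real.sqrt lam) ^ 2) * a := by
    have h4 : (𝒜.n : ℝ) * C₁ ≤ (𝒜.n + 1) * (C₁ + 1) := by nlinarith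
    have h5 : δ * (((𝒜.n : ℝ) + 1) * (C₁ + 1)) = ε * c * a := by
      rw [hδ]
      field_simp
    calc (𝒜.n : ℝ) * (C₁ * (δ * (Real.sqrt lam) ^ 2)) =
        (𝒜.n * C₁) * (δ * (Real.sqrt lam) ^ 2) := by ring
      _ ≤ ((𝒜.n + 1) * (C₁ + 1)) * (δ * (Real.sqrt lam) ^ 2) :=
          mul_le_mul_of_nonneg_right h4 (by positivity)
      _ = (δ * (((𝒜.n : ℝ) + 1) * (C₁ + 1))) * (Real.sqrt lam) ^ 2 := by ring
      _ = ε * (c * (Real.sqrt lam) ^ 2) * a := by rw [h5]; ring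
  have h6 : (({i | ¬ Good (max K' K'') φ (x i) r} : Set ι).ncard : ℝ) ≤
      ε * (c * (Real.sqrt lam) ^ 2) := le_of_mul_le_mul_right (hsum.trans h3) ha0
  exact h6.trans (mul_le_mul_of_nonneg_left hfin hε.le)

end FC34
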