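import Pool.Agent.W_fc1c69_h34.Defs

/-! The radial barrier `-β/|x-a|`. -/

namespace FC34

open Complex MeasureTheory Metric Set

theorem Barrier_norm_pos {a z : ℂ} (h : z ≠ a) : 0 < ‖z - a‖ :=
  norm_pos_iff.mpr (sub_ne_zero.mpr h)

theorem Barrier_hasFDerivAt_norm {a z : ℂ} (h : z ≠ a) :
    HasFDerivAt (fun x : ℂ => ‖x - a‖) ((1 / ‖z - a‖) • (innerSL ℝ (z - a))) z := by
  have hp := Barrier_norm_pos h
  have h1 : HasFDerivAt (fun x : ℂ => x - a) (ContinuousLinearMap.id ℝ ℂ) z :=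
    (hasFDerivAt_id z).sub_const a
  have h2 := h1.norm_sq
  have h3 := h2.sqrt (by positivity)
  have e1 : (fun x : ℂ => Real.sqrt (‖x - a‖ ^ 2)) = fun x : ℂ => ‖x - a‖ := by
    funext x
    exact Real.sqrt_sq (norm_nonneg _)
  rw [e1] at h3
  refine h3.congr_fderiv ?_
  rw [Real.sqrt_sq hp.le]
  ext v
  simp
  field_simp

theorem Barrier_inner_one (w : ℂ) : (innerSL ℝ w) (1 : ℂ) = w.re := by
  simp [Complex.inner]

theorem Barrier_inner_I (w : ℂ) : (innerSL ℝ w) Complex.I = w.im := by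
  simp [Complex.inner]

theorem Barrier_hasFDerivAt (β : ℝ) {a z : ℂ} (h : z ≠ a) :
    HasFDerivAt (fun x : ℂ => -β / ‖x - a‖)
      ((β / ‖z - a‖ ^ 2) • ((1 / ‖z - a‖) • (innerSL ℝ (z - a)))) z := by
  have hp := Barrier_norm_pos h
  have h1 : HasDerivAt (fun s : ℝ => -β / s) (β / ‖z - a‖ ^ 2) ‖z - a‖ := by
    have := (hasDerivAt_const (‖z - a‖) (-β)).div (hasDerivAt_id (‖z - a‖)) hp.ne'
    refine this.congr_deriv ?_
    simp
  exact HasDerivAt.comp_hasFDerivAt (f := fun x : ℂ => ‖x - a‖) z h1 (Barrier_hasFDerivAt_norm h)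

theorem Barrier_px (β : ℝ) {a z : ℂ} (h : z ≠ a) :
    px (fun x : ℂ => -β / ‖x - a‖) z = β * (z - a).re / ‖z - a‖ ^ 3 := by
  have hp := Barrier_norm_pos h
  unfold px
  rw [(Barrier_hasFDerivAt β h).fderiv]
  simp only [smul_apply, Barrier_inner_one, smul_eq_mul]
  field_simp

theorem Barrier_py (β : ℝ) {a z : ℂ} (h : z ≠ a) :
    py (fun x : ℂ => -β / ‖x - a‖) z = β * (z - a).im / ‖z - a‖ ^ 3 := by
  have hp := Barrier_norm_pos h
  unfold py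
  rw [(Barrier_hasFDerivAt β h).fderiv]
  simp only [smul_apply, Barrier_inner_I, smul_eq_mul]
  field_simp

theorem Barrier_cube (β : ℝ) {a z : ℂ} (h : z ≠ a) :
    HasFDerivAt (fun x : ℂ => β / ‖x - a‖ ^ 3)
      ((-3 * β / ‖z - a‖ ^ 4) • ((1 / ‖z - a‖) • (innerSL ℝ (z - a)))) z := by
  have hp := Barrier_norm_pos h
  have h1 : HasDerivAt (fun s : ℝ => β / s ^ 3) (-3 * β / ‖z - a‖ ^ 4) ‖z - a‖ := by
    have := (hasDerivAt_const (‖z - a‖) β).div (hasDerivAt_pow 3 (‖z - a‖)) (by positivity)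
    refine this.congr_deriv ?_
    field_simp
    ring
  exact HasDerivAt.comp_hasFDerivAt (h₂ := fun s : ℝ => β / s ^ 3) (f := fun x : ℂ => ‖x - a‖) z
    h1 (Barrier_hasFDerivAt_norm h)

theorem Barrier_pxx (β : ℝ) {a z : ℂ} (h : z ≠ a) :
    px (px (fun x : ℂ => -β / ‖x - a‖)) z =
      β / ‖z - a‖ ^ 3 - 3 * β * (z - a).re ^ 2 / ‖z - a‖ ^ 5 := by
  have hp := Barrier_norm_pos h
  have ev : px (fun x : ℂ => -β / ‖x - a‖) =ᶠ[nhds z]
      fun x : ℂ => (x - a).re * (β / ‖x - a‖ ^ 3) := by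
    filter_upwards [isOpen_ne.mem_nhds h] with x hx
    rw [Barrier_px β hx]
    ring
  have hre : HasFDerivAt (fun x : ℂ => (x - a).re) Complex.reCLM z := by
    have := (Complex.reCLM.hasFDerivAt (x := z)).sub_const a.re
    simpa using this
  have hm := hre.fun_mul (Barrier_cube β h)
  have e : px (px (fun x : ℂ => -β / ‖x - a‖)) z =
      fderiv ℝ (px (fun x : ℂ => -β / ‖x - a‖)) z 1 := rfl
  rw [e, ev.fderiv_eq, hm.fderiv]
  simp only [add_apply, smul_apply, Barrier_inner_one,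
    smul_eq_mul, Complex.reCLM_apply, Complex.one_re]
  field_simp
  ring

theorem Barrier_pyy (β : ℝ) {a z : ℂ} (h : z ≠ a) :
    py (py (fun x : ℂ => -β / ‖x - a‖)) z =
      β / ‖z - a‖ ^ 3 - 3 * β * (z - a).im ^ 2 / ‖z - a‖ ^ 5 := by
  have hp := Barrier_norm_pos h
  have ev : py (fun x : ℂ => -β / ‖x - a‖) =ᶠ[nhds z]
      fun x : ℂ => (x - a).im * (β / ‖x - a‖ ^ 3) := by
    filter_upwards [isOpen_ne.mem_nhds h] with x hx
    rw [Barrier_py β hx]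
    ring
  have hre : HasFDerivAt (fun x : ℂ => (x - a).im) Complex.imCLM z := by
    have := (Complex.imCLM.hasFDerivAt (x := z)).sub_const a.im
    simpa using this
  have hm := hre.fun_mul (Barrier_cube β h)
  have e : py (py (fun x : ℂ => -β / ‖x - a‖)) z =
      fderiv ℝ (py (fun x : ℂ => -β / ‖x - a‖)) z Complex.I := rfl
  rw [e, ev.fderiv_eq, hm.fderiv]
  simp only [add_apply, smul_apply, Barrier_inner_I,
    smul_eq_mul, Complex.imCLM_apply, Complex.I_im]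
  field_simp
  ring

theorem contDiffAt_barrier (β : ℝ) {a z : ℂ} (h : z ≠ a) :
    ContDiffAt ℝ 2 (fun x : ℂ => -β / ‖x - a‖) z := by
  have hp := Barrier_norm_pos h
  have h1 : ContDiffAt ℝ 2 (fun x : ℂ => x - a) z := contDiffAt_id.sub contDiffAt_const
  have h2 : ContDiffAt ℝ 2 (fun x : ℂ => ‖x - a‖) z := h1.norm ℝ (sub_ne_zero.mpr h)
  exact contDiffAt_const.div h2 hp.ne'

/-- `Δ(-β/r) = -β/r³` in the plane. -/
theorem lap_barrier (β : ℝ) {a z : ℂ} (h : z ≠ a) :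
    lap (fun x : ℂ => -β / ‖x - a‖) z = -β / ‖z - a‖ ^ 3 := by
  have hp := Barrier_norm_pos h
  have e1 : ‖z - a‖ ^ 2 = (z - a).re ^ 2 + (z - a).im ^ 2 := by
    rw [← Complex.normSq_eq_norm_sq, Complex.normSq_apply]
    ring
  unfold lap
  rw [Barrier_pxx β h, Barrier_pyy β h]
  have e2 : β / ‖z - a‖ ^ 3 - 3 * β * (z - a).re ^ 2 / ‖z - a‖ ^ 5 +
      (β / ‖z - a‖ ^ 3 - 3 * β * (z - a).im ^ 2 / ‖z - a‖ ^ 5) =
      2 * β / ‖z - a‖ ^ 3 - 3 * β * ((z - a).re ^ 2 + (z - a).im ^ 2) / ‖z - a‖ ^ 5 := by ring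
  rw [e2, ← e1]
  field_simp
  ring

/-- Real inequality behind the Taylor bound: with `w = 2σ + σ² + τ²`,
`1 - (1+w)^{-1/2} ≤ w/2 - 3w²/8 + 5w³/16`, and `w/2 - 3w²/8 = σ - σ² + τ²/2 + O(ρ³)`. -/
theorem inv_sqrt_taylor {σ τ : ℝ} (h : σ ^ 2 + τ ^ 2 ≤ 1 / 16) :
    1 - 1 / Real.sqrt ((1 + σ) ^ 2 + τ ^ 2) ≤
      σ + (1 / 2) * (-2 * σ ^ 2 + τ ^ 2) + 6 * (Real.sqrt (σ ^ 2 + τ ^ 2)) ^ 3 := by
  set ρ : ℝ := Real.sqrt (σ ^ 2 + τ ^ 2) with hρ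
  have hρ0 : 0 ≤ ρ := Real.sqrt_nonneg _
  have hρ2 : ρ ^ 2 = σ ^ 2 + τ ^ 2 := Real.sq_sqrt (by positivity)
  have hρ4 : ρ ≤ 1 / 4 := by nlinarith
  have hσ : |σ| ≤ ρ := by
    apply abs_le_of_sq_le_sq _ hρ0
    nlinarith [sq_nonneg τ]
  obtain ⟨hσ1, hσ2⟩ := abs_le.mp hσ
  obtain ⟨w, hw⟩ : ∃ w : ℝ, w = 2 * σ + ρ ^ 2 := ⟨_, rfl⟩
  have e1 : (1 + σ) ^ 2 + τ ^ 2 = 1 + w := by
    rw [hw, hρ2]
    ring
  have hwl : -(9 / 16) ≤ w := by nlinarith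
  have hwu : w ≤ 9 / 16 := by nlinarith
  rw [e1]
  have hs : 0 < Real.sqrt (1 + w) := Real.sqrt_pos.mpr (by linarith)
  have hs2 : Real.sqrt (1 + w) ^ 2 = 1 + w := Real.sq_sqrt (by linarith)
  have key : 1 - w / 2 + 3 * w ^ 2 / 8 - 5 * w ^ 3 / 16 ≤ 1 / Real.sqrt (1 + w) := by
    rw [le_div_iff₀ hs]
    apply le_of_abs_le
    apply abs_le_of_sq_le_sq _ zero_le_one
    rw [mul_pow, hs2]
    have e2 : 1 ^ 2 - (1 - w / 2 + 3 * w ^ 2 / 8 - 5 * w ^ 3 / 16) ^ 2 * (1 + w) =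
        w ^ 4 / 256 * (140 - 56 * w + 35 * w ^ 2 - 25 * w ^ 3) := by ring
    have h3 : w ^ 3 ≤ 1 := by
      have : w ^ 3 ≤ |w| ^ 3 := by
        rw [← abs_pow]
        exact le_abs_self _
      have h4 : |w| ≤ 1 := abs_le.mpr ⟨by linarith, by linarith⟩
      have h5 : |w| ^ 3 ≤ 1 := pow_le_one₀ (abs_nonneg _) h4
      linarith
    have h6 : 0 ≤ w ^ 4 / 256 * (140 - 56 * w + 35 * w ^ 2 - 25 * w ^ 3) := by
      apply mul_nonneg (by positivity)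
      nlinarith [sq_nonneg w]
    linarith
  have hw3 : w ^ 3 ≤ (9 / 4 * ρ) ^ 3 := by
    have h4 : |w| ≤ 9 / 4 * ρ := abs_le.mpr ⟨by nlinarith, by nlinarith⟩
    calc w ^ 3 ≤ |w| ^ 3 := by
          rw [← abs_pow]
          exact le_abs_self _
      _ ≤ (9 / 4 * ρ) ^ 3 := pow_le_pow_left₀ (abs_nonneg _) h4 3
  have e3 : w / 2 - 3 * w ^ 2 / 8 = σ + (1 / 2) * (-2 * σ ^ 2 + τ ^ 2) -
      3 / 2 * (σ * ρ ^ 2) - 3 / 8 * ρ ^ 4 := by
    have ht : τ ^ 2 = ρ ^ 2 - σ ^ 2 := by linarith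
    rw [hw, ht]
    ring
  have h7 : -(σ * ρ ^ 2) ≤ ρ ^ 3 := by nlinarith [sq_nonneg ρ]
  have h8 : 0 ≤ ρ ^ 4 := by positivity
  have h9 : 0 ≤ ρ ^ 3 := by positivity
  have h10 : (9 / 4 * ρ) ^ 3 = 729 / 64 * ρ ^ 3 := by ring
  nlinarith

/-- Taylor bound for the barrier at `z = a + r e`, `|e| = 1`; `x - z = e (s + i t)`. -/
theorem barrier_taylor {β r : ℝ} (hβ : 0 < β) (hr : 0 < r) {a z x e : ℂ} (he : ‖e‖ = 1)
    (hz : z - a = (r : ℂ) * e) (hx : ‖x - z‖ ≤ r / 4) :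
    -β / ‖x - a‖ - -β / ‖z - a‖ ≤
      (β / r ^ 2) * ((starRingEnd ℂ) e * (x - z)).re +
      (β / r ^ 3 / 2) * (-2 * (((starRingEnd ℂ) e * (x - z)).re) ^ 2 +
        (((starRingEnd ℂ) e * (x - z)).im) ^ 2) +
      6 * (β / r ^ 4) * ‖x - z‖ ^ 3 := by
  obtain ⟨w, hw⟩ : ∃ w : ℂ, w = (starRingEnd ℂ) e * (x - z) := ⟨_, rfl⟩
  rw [← hw]
  have he2 : e * (starRingEnd ℂ) e = 1 := by
    rw [Complex.mul_conj, Complex.normSq_eq_norm_sq, he]
    norm_num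
  have hxz : x - z = e * w := by
    rw [hw, ← mul_assoc, he2, one_mul]
  have hxa : x - a = e * ((r : ℂ) + w) := by
    have : x - a = (x - z) + (z - a) := by ring
    rw [this, hxz, hz]
    ring
  have hnw : ‖x - z‖ = ‖w‖ := by rw [hxz, norm_mul, he, one_mul]
  have hna : ‖x - a‖ = ‖(r : ℂ) + w‖ := by rw [hxa, norm_mul, he, one_mul]
  have hnz : ‖z - a‖ = r := by
    rw [hz, norm_mul, he, mul_one, Complex.norm_real, Real.norm_of_nonneg hr.le]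
  have hw2 : ‖w‖ ^ 2 = w.re ^ 2 + w.im ^ 2 := by
    rw [← Complex.normSq_eq_norm_sq, Complex.normSq_apply]
    ring
  rw [hnw] at hx
  have hs : (w.re / r) ^ 2 + (w.im / r) ^ 2 = (‖w‖ / r) ^ 2 := by
    rw [div_pow, div_pow, div_pow, hw2]
    ring
  have hle : ‖w‖ / r ≤ 1 / 4 := by
    rw [div_le_iff₀ hr]
    linarith
  have hge : 0 ≤ ‖w‖ / r := by positivity
  have ht := inv_sqrt_taylor (σ := w.re / r) (τ := w.im / r) (by rw [hs]; nlinarith)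
  rw [hs, Real.sqrt_sq hge] at ht
  have hn : ‖x - a‖ = r * Real.sqrt ((1 + w.re / r) ^ 2 + (w.im / r) ^ 2) := by
    rw [hna]
    have e1 : ‖(r : ℂ) + w‖ ^ 2 = (r + w.re) ^ 2 + w.im ^ 2 := by
      rw [← Complex.normSq_eq_norm_sq, Complex.normSq_apply]
      simp
      ring
    have e2 : (r * Real.sqrt ((1 + w.re / r) ^ 2 + (w.im / r) ^ 2)) ^ 2 =
        (r + w.re) ^ 2 + w.im ^ 2 := by
      rw [mul_pow, Real.sq_sqrt (by positivity)]
      field_simp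
    have e3 : 0 ≤ r * Real.sqrt ((1 + w.re / r) ^ 2 + (w.im / r) ^ 2) := by positivity
    nlinarith [norm_nonneg ((r : ℂ) + w), sq_nonneg (‖(r : ℂ) + w‖ -
      r * Real.sqrt ((1 + w.re / r) ^ 2 + (w.im / r) ^ 2)), e1, e2,
      (pow_left_inj₀ (norm_nonneg ((r : ℂ) + w)) e3 two_ne_zero).mp (e1.trans e2.symm)]
  rw [hn, hnz, hnw]
  have hfac : -β / (r * Real.sqrt ((1 + w.re / r) ^ 2 + (w.im / r) ^ 2)) - -β / r =
      β / r * (1 - 1 / Real.sqrt ((1 + w.re / r) ^ 2 + (w.im / r) ^ 2)) := by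
    rw [neg_div, neg_div, mul_sub, mul_one, div_mul_div_comm, mul_one]
    ring
  rw [hfac]
  calc β / r * (1 - 1 / Real.sqrt ((1 + w.re / r) ^ 2 + (w.im / r) ^ 2))
      ≤ β / r * (w.re / r + 1 / 2 * (-2 * (w.re / r) ^ 2 + (w.im / r) ^ 2) +
          6 * (‖w‖ / r) ^ 3) := mul_le_mul_of_nonneg_left ht (by positivity)
    _ = _ := by
        field_simp

end FC34
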