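import Pool.Agent.W_fc1c69_h34.Green

/-! Weighted energy inequalities (3), (4). -/

namespace FC34

open Complex MeasureTheory Metric Set

theorem Weighted_px_mul {u v : ℂ → ℝ} {z : ℂ} (hu : DifferentiableAt ℝ u z)
    (hv : DifferentiableAt ℝ v z) :
    px (fun w => u w * v w) z = px u z * v z + u z * px v z := by
  have h := (hu.hasFDerivAt.mul hv.hasFDerivAt).fderiv
  unfold px
  have h' : fderiv ℝ (fun w => u w * v w) z = u z • fderiv ℝ v z + v z • fderiv ℝ u z := h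
  rw [h']
  simp only [ContinuousLinearMap.add_apply, ContinuousLinearMap.smul_apply, smul_eq_mul]
  ring

theorem Weighted_fd_mul {χ : ℂ → ℝ} {b : ℂ → ℂ} {z : ℂ} (hu : DifferentiableAt ℝ χ z)
    (hv : DifferentiableAt ℝ b z) (e : ℂ) :
    fderiv ℝ (fun w => (χ w : ℂ) * b w) z e =
      ((fderiv ℝ χ z e : ℝ) : ℂ) * b z + (χ z : ℂ) * fderiv ℝ b z e := by
  have h1 : HasFDerivAt (fun w => (χ w : ℂ)) (Complex.ofRealCLM.comp (fderiv ℝ χ z)) z :=
    Complex.ofRealCLM.hasFDerivAt.comp z hu.hasFDerivAt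
  have h := (h1.mul hv.hasFDerivAt).fderiv
  have h' : fderiv ℝ (fun w => (χ w : ℂ) * b w) z = (χ z : ℂ) • fderiv ℝ b z +
      b z • Complex.ofRealCLM.comp (fderiv ℝ χ z) := h
  rw [h']
  simp only [ContinuousLinearMap.add_apply, ContinuousLinearMap.smul_apply, smul_eq_mul,
    ContinuousLinearMap.comp_apply, Complex.ofRealCLM_apply]
  ring

theorem Weighted_cont_px {E : Type*} [NormedAddCommGroup E] [NormedSpace ℝ E] {u : ℂ → E}
    (hu : ContDiff ℝ 1 u) : Continuous (px u) :=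
  (hu.continuous_fderiv one_ne_zero).clm_apply continuous_const

theorem Weighted_cont_py {E : Type*} [NormedAddCommGroup E] [NormedSpace ℝ E] {u : ℂ → E}
    (hu : ContDiff ℝ 1 u) : Continuous (py u) :=
  (hu.continuous_fderiv one_ne_zero).clm_apply continuous_const

theorem Weighted_contDiff_px {u : ℂ → ℝ} (hu : ContDiff ℝ 2 u) : ContDiff ℝ 1 (px u) :=
  (hu.fderiv_right (m := 1) (by norm_num)).clm_apply contDiff_const

theorem Weighted_cs {E F : Type*} [NormedAddCommGroup E] [NormedSpace ℝ E] [Zero F] {u : ℂ → E}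
    (hu : HasCompactSupport u) (g : (ℂ →L[ℝ] E) → F) (hg : g 0 = 0) :
    HasCompactSupport (fun z => g (fderiv ℝ u z)) :=
  (hu.fderiv (𝕜 := ℝ)).comp_left hg

/-- Weighted one-step inequality (proofs row 213, (4)): if `g_x`-equation `f_xx + κ f_x = G` holds
(`f : ℂ → ℝ` is `C²`), then for every `C¹` compactly supported `χ`
`κ² ∫ χ² f_x² ≤ 2 ∫ χ² G² + 2 ∫ χ_x² f_x²`.
Proof: multiply by `χ² f_x` and integrate; `∫ χ² f_xx f_x = - ∫ χ χ_x f_x²`
(`∫ ∂_x(χ² f_x²) = 0`, `integral_px_eq_zero`); then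
`κ ∫χ²f_x² = ∫χ² G f_x + ∫ χχ_x f_x² ≤ (κ/4 + κ/4) ∫χ²f_x² + (1/κ)∫χ²G² + (1/κ)∫χ_x² f_x²`. -/
theorem weighted_fx {κ : ℝ} (hκ : 0 < κ) {f G χ : ℂ → ℝ} (hf : ContDiff ℝ 2 f)
    (hG : Continuous G) (hχ : ContDiff ℝ 1 χ) (hc : HasCompactSupport χ)
    (h : ∀ z, px (px f) z + κ * px f z = G z) :
    κ ^ 2 * ∫ z, (χ z) ^ 2 * (px f z) ^ 2 ≤
      2 * (∫ z, (χ z) ^ 2 * (G z) ^ 2) + 2 * ∫ z, (px χ z) ^ 2 * (px f z) ^ 2 := by
  have hpf := Weighted_contDiff_px hf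
  have hcx := Weighted_cont_px hχ
  have hw : ContDiff ℝ 1 (fun z => (χ z * χ z) * (px f z * px f z)) :=
    (hχ.mul hχ).mul (hpf.mul hpf)
  have hwc : HasCompactSupport (fun z => (χ z * χ z) * (px f z * px f z)) :=
    (hc.mul_right (f' := χ)).mul_right
  have h0 := integral_px_eq_zero hw hwc
  have hpw : ∀ z, px (fun z => (χ z * χ z) * (px f z * px f z)) z =
      2 * χ z * px χ z * (px f z) ^ 2 + 2 * (χ z) ^ 2 * px f z * (G z - κ * px f z) := by
    intro z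
    have d1 : DifferentiableAt ℝ χ z := (hχ.differentiable one_ne_zero) z
    have d2 : DifferentiableAt ℝ (px f) z := (hpf.differentiable one_ne_zero) z
    have e1 : px (fun z => (χ z * χ z) * (px f z * px f z)) z =
        px (fun z => χ z * χ z) z * (px f z * px f z) +
          (χ z * χ z) * px (fun z => px f z * px f z) z :=
      Weighted_px_mul (u := fun z => χ z * χ z) (v := fun z => px f z * px f z)
        (d1.mul d1) (d2.mul d2)
    rw [e1, Weighted_px_mul d1 d1, Weighted_px_mul d2 d2]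
    have h1 : px (px f) z = G z - κ * px f z := by
      have := h z
      linarith
    rw [h1]
    ring
  have i1 : Integrable (fun z => (χ z) ^ 2 * (px f z) ^ 2) := by
    refine Continuous.integrable_of_hasCompactSupport
      ((hχ.continuous.pow 2).mul (hpf.continuous.pow 2)) ?_
    have h1 : (fun z => (χ z) ^ 2 * (px f z) ^ 2) = fun z => χ z * (χ z * (px f z) ^ 2) := by
      funext z
      ring
    rw [h1]
    exact hc.mul_right
  have i2 : Integrable (fun z => (χ z) ^ 2 * (G z) ^ 2) := by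
    refine Continuous.integrable_of_hasCompactSupport
      ((hχ.continuous.pow 2).mul (hG.pow 2)) ?_
    have h1 : (fun z => (χ z) ^ 2 * (G z) ^ 2) = fun z => χ z * (χ z * (G z) ^ 2) := by
      funext z
      ring
    rw [h1]
    exact hc.mul_right
  have hcpx : HasCompactSupport (px χ) := Weighted_cs hc (fun L => L 1) rfl
  have i3 : Integrable (fun z => (px χ z) ^ 2 * (px f z) ^ 2) := by
    refine Continuous.integrable_of_hasCompactSupport
      ((hcx.pow 2).mul (hpf.continuous.pow 2)) ?_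
    have h1 : (fun z => (px χ z) ^ 2 * (px f z) ^ 2) =
        fun z => px χ z * (px χ z * (px f z) ^ 2) := by
      funext z
      ring
    rw [h1]
    exact hcpx.mul_right
  have i4 : Integrable (px (fun z => (χ z * χ z) * (px f z * px f z))) :=
    Continuous.integrable_of_hasCompactSupport (Weighted_cont_px hw)
      (Weighted_cs hwc (fun L => L 1) rfl)
  have hle : ∫ z, κ ^ 2 * ((χ z) ^ 2 * (px f z) ^ 2) ≤
      ∫ z, ((2 * ((χ z) ^ 2 * (G z) ^ 2) + 2 * ((px χ z) ^ 2 * (px f z) ^ 2)) -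
        κ * px (fun z => (χ z * χ z) * (px f z * px f z)) z) := by
    refine integral_mono (i1.const_mul _) (((i2.const_mul 2).add (i3.const_mul 2)).sub
      (i4.const_mul κ)) ?_
    intro z
    show κ ^ 2 * ((χ z) ^ 2 * (px f z) ^ 2) ≤
      (2 * ((χ z) ^ 2 * (G z) ^ 2) + 2 * ((px χ z) ^ 2 * (px f z) ^ 2)) -
        κ * px (fun z => (χ z * χ z) * (px f z * px f z)) z
    rw [hpw z]
    nlinarith [sq_nonneg (κ * χ z * px f z - 2 * χ z * G z),
      sq_nonneg (κ * χ z * px f z - 2 * px χ z * px f z)]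
  have e1 : ∫ z, ((2 * ((χ z) ^ 2 * (G z) ^ 2) + 2 * ((px χ z) ^ 2 * (px f z) ^ 2)) -
        κ * px (fun z => (χ z * χ z) * (px f z * px f z)) z) =
      (2 * (∫ z, (χ z) ^ 2 * (G z) ^ 2) + 2 * ∫ z, (px χ z) ^ 2 * (px f z) ^ 2) -
        κ * ∫ z, px (fun z => (χ z * χ z) * (px f z * px f z)) z := by
    have j1 : Integrable (fun z => 2 * ((χ z) ^ 2 * (G z) ^ 2) +
        2 * ((px χ z) ^ 2 * (px f z) ^ 2)) := (i2.const_mul 2).add (i3.const_mul 2)
    have j2 : Integrable (fun z => κ * px (fun z => (χ z * χ z) * (px f z * px f z)) z) :=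
      i4.const_mul κ
    rw [integral_sub j1 j2, integral_add (i2.const_mul 2) (i3.const_mul 2), integral_const_mul, integral_const_mul,
      integral_const_mul]
  rw [e1, h0, mul_zero, sub_zero, integral_const_mul] at hle
  exact hle

/-- Weighted energy (proofs row 213, (3)): for `C²` `b` and `C²` compactly supported real `χ`,
`∫ χ²|∂b|² ≤ 4 ∫ χ²|∂̄b|² + 2 ∫ |b|² (χ_x² + χ_y²)`.
Proof: `u = χ b`, `∂u = χ ∂b + b ∂χ`, `∂̄u = χ ∂̄b + b ∂̄χ`, `|∂χ|² = |∂̄χ|² = (χ_x²+χ_y²)/4`,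
`∫|∂u|² = ∫|∂̄u|²` (`integral_normSq_dz_eq`), `|χ∂b|² ≤ 2|∂u|² + 2|b∂χ|²`,
`|∂̄u|² ≤ 2|χ∂̄b|²+2|b∂̄χ|²`: total `4∫χ²|∂̄b|² + 6·(1/4)∫|b|²|∇χ|²`. -/
theorem weighted_dz {b : ℂ → ℂ} {χ : ℂ → ℝ} (hb : ContDiff ℝ 2 b) (hχ : ContDiff ℝ 2 χ)
    (hc : HasCompactSupport χ) :
    ∫ z, (χ z) ^ 2 * ‖dz b z‖ ^ 2 ≤ 4 * (∫ z, (χ z) ^ 2 * ‖dbar b z‖ ^ 2) +
      2 * ∫ z, ‖b z‖ ^ 2 * ((px χ z) ^ 2 + (py χ z) ^ 2) := by
  have hχ1 : ContDiff ℝ 1 χ := hχ.of_le (by norm_num)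
  have hb1 : ContDiff ℝ 1 b := hb.of_le (by norm_num)
  have hcχ : ContDiff ℝ 2 (fun z => (χ z : ℂ)) := Complex.ofRealCLM.contDiff.comp hχ
  set u : ℂ → ℂ := fun z => (χ z : ℂ) * b z with hu
  have hu2 : ContDiff ℝ 2 u := hcχ.mul hb
  have hu1 : ContDiff ℝ 1 u := hu2.of_le (by norm_num)
  have hccχ : HasCompactSupport (fun z => (χ z : ℂ)) :=
    hc.comp_left (g := fun x : ℝ => (x : ℂ)) Complex.ofReal_zero
  have huc : HasCompactSupport u := hccχ.mul_right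
  have hen := integral_normSq_dz_eq hu2 huc
  have hpx : ∀ z, px u z = ((px χ z : ℝ) : ℂ) * b z + (χ z : ℂ) * px b z := fun z =>
    Weighted_fd_mul ((hχ1.differentiable one_ne_zero) z) ((hb1.differentiable one_ne_zero) z) 1
  have hpy : ∀ z, py u z = ((py χ z : ℝ) : ℂ) * b z + (χ z : ℂ) * py b z := fun z =>
    Weighted_fd_mul ((hχ1.differentiable one_ne_zero) z) ((hb1.differentiable one_ne_zero) z)
      Complex.I
  set e : ℂ → ℂ := fun z => b z * ((((px χ z : ℝ) : ℂ) - Complex.I * ((py χ z : ℝ) : ℂ)) / 2)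
    with he
  set e' : ℂ → ℂ := fun z => b z * ((((px χ z : ℝ) : ℂ) + Complex.I * ((py χ z : ℝ) : ℂ)) / 2)
    with he'
  have hdz : ∀ z, dz u z = (χ z : ℂ) * dz b z + e z := by
    intro z
    simp only [dz, hpx, hpy, he]
    ring
  have hdb : ∀ z, dbar u z = (χ z : ℂ) * dbar b z + e' z := by
    intro z
    simp only [dbar, hpx, hpy, he']
    ring
  have hn : ∀ x y : ℝ, ‖(((x : ℝ) : ℂ) - Complex.I * ((y : ℝ) : ℂ)) / 2‖ ^ 2 =
      (x ^ 2 + y ^ 2) / 4 := by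
    intro x y
    rw [← Complex.normSq_eq_norm_sq, Complex.normSq_div, Complex.normSq_apply]
    simp
    ring
  have hn' : ∀ x y : ℝ, ‖(((x : ℝ) : ℂ) + Complex.I * ((y : ℝ) : ℂ)) / 2‖ ^ 2 =
      (x ^ 2 + y ^ 2) / 4 := by
    intro x y
    rw [← Complex.normSq_eq_norm_sq, Complex.normSq_div, Complex.normSq_apply]
    simp
    ring
  have hene : ∀ z, ‖e z‖ ^ 2 = ‖b z‖ ^ 2 * ((px χ z) ^ 2 + (py χ z) ^ 2) / 4 := by
    intro z
    simp only [he]
    rw [norm_mul, mul_pow, hn]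
    ring
  have hene' : ∀ z, ‖e' z‖ ^ 2 = ‖b z‖ ^ 2 * ((px χ z) ^ 2 + (py χ z) ^ 2) / 4 := by
    intro z
    simp only [he']
    rw [norm_mul, mul_pow, hn']
    ring
  have hpar : ∀ x y : ℂ, ‖x‖ ^ 2 ≤ 2 * ‖x + y‖ ^ 2 + 2 * ‖y‖ ^ 2 := by
    intro x y
    have h1 : ‖x‖ ≤ ‖x + y‖ + ‖y‖ := by
      have := norm_sub_le (x + y) y
      rwa [add_sub_cancel_right] at this
    have h2 := norm_nonneg x
    have h3 := norm_nonneg y
    have h4 := norm_nonneg (x + y)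
    nlinarith [sq_nonneg (‖x + y‖ - ‖y‖)]
  have hpar' : ∀ x y : ℂ, ‖x + y‖ ^ 2 ≤ 2 * ‖x‖ ^ 2 + 2 * ‖y‖ ^ 2 := by
    intro x y
    have h1 := norm_add_le x y
    have h2 := norm_nonneg x
    have h3 := norm_nonneg y
    have h4 := norm_nonneg (x + y)
    nlinarith [sq_nonneg (‖x‖ - ‖y‖)]
  have hχn : ∀ z (x : ℂ), ‖(χ z : ℂ) * x‖ ^ 2 = (χ z) ^ 2 * ‖x‖ ^ 2 := by
    intro z x
    rw [norm_mul, mul_pow, Complex.norm_real, Real.norm_eq_abs, sq_abs]
  have cdz : ∀ {w : ℂ → ℂ}, ContDiff ℝ 1 w → Continuous (dz w) := by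
    intro w hw
    exact ((Weighted_cont_px hw).sub (continuous_const.mul (Weighted_cont_py hw))).div_const 2
  have cdb : ∀ {w : ℂ → ℂ}, ContDiff ℝ 1 w → Continuous (dbar w) := by
    intro w hw
    exact ((Weighted_cont_px hw).add (continuous_const.mul (Weighted_cont_py hw))).div_const 2
  have i1 : Integrable (fun z => (χ z) ^ 2 * ‖dz b z‖ ^ 2) := by
    refine Continuous.integrable_of_hasCompactSupport
      ((hχ.continuous.pow 2).mul ((cdz hb1).norm.pow 2)) ?_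
    have h1 : (fun z => (χ z) ^ 2 * ‖dz b z‖ ^ 2) = fun z => χ z * (χ z * ‖dz b z‖ ^ 2) := by
      funext z
      ring
    rw [h1]
    exact hc.mul_right
  have i2 : Integrable (fun z => (χ z) ^ 2 * ‖dbar b z‖ ^ 2) := by
    refine Continuous.integrable_of_hasCompactSupport
      ((hχ.continuous.pow 2).mul ((cdb hb1).norm.pow 2)) ?_
    have h1 : (fun z => (χ z) ^ 2 * ‖dbar b z‖ ^ 2) = fun z => χ z * (χ z * ‖dbar b z‖ ^ 2) := by
      funext z
      ring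
    rw [h1]
    exact hc.mul_right
  have i3 : Integrable (fun z => ‖b z‖ ^ 2 * ((px χ z) ^ 2 + (py χ z) ^ 2)) := by
    refine Continuous.integrable_of_hasCompactSupport
      ((hb.continuous.norm.pow 2).mul (((Weighted_cont_px hχ1).pow 2).add
        ((Weighted_cont_py hχ1).pow 2))) ?_
    exact (Weighted_cs hc (fun L => (L 1) ^ 2 + (L Complex.I) ^ 2) (by simp)).mul_left
  have i4 : Integrable (fun z => ‖dz u z‖ ^ 2) := by
    refine Continuous.integrable_of_hasCompactSupport ((cdz hu1).norm.pow 2) ?_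
    exact Weighted_cs huc (fun L => ‖(L 1 - Complex.I * L Complex.I) / 2‖ ^ 2) (by simp)
  have i5 : Integrable (fun z => ‖dbar u z‖ ^ 2) := by
    refine Continuous.integrable_of_hasCompactSupport ((cdb hu1).norm.pow 2) ?_
    exact Weighted_cs huc (fun L => ‖(L 1 + Complex.I * L Complex.I) / 2‖ ^ 2) (by simp)
  have hA : ∫ z, (χ z) ^ 2 * ‖dz b z‖ ^ 2 ≤ 2 * (∫ z, ‖dz u z‖ ^ 2) +
      (1 / 2) * ∫ z, ‖b z‖ ^ 2 * ((px χ z) ^ 2 + (py χ z) ^ 2) := by
    rw [← integral_const_mul, ← integral_const_mul,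
      ← integral_add (i4.const_mul 2) (i3.const_mul (1 / 2))]
    refine integral_mono i1 ((i4.const_mul 2).add (i3.const_mul (1 / 2))) ?_
    intro z
    show (χ z) ^ 2 * ‖dz b z‖ ^ 2 ≤ 2 * ‖dz u z‖ ^ 2 +
      1 / 2 * (‖b z‖ ^ 2 * ((px χ z) ^ 2 + (py χ z) ^ 2))
    have h1 := hpar ((χ z : ℂ) * dz b z) (e z)
    rw [hχn, ← hdz, hene] at h1
    linarith
  have hB : ∫ z, ‖dbar u z‖ ^ 2 ≤ 2 * (∫ z, (χ z) ^ 2 * ‖dbar b z‖ ^ 2) +
      (1 / 2) * ∫ z, ‖b z‖ ^ 2 * ((px χ z) ^ 2 + (py χ z) ^ 2) := by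
    rw [← integral_const_mul, ← integral_const_mul,
      ← integral_add (i2.const_mul 2) (i3.const_mul (1 / 2))]
    refine integral_mono i5 ((i2.const_mul 2).add (i3.const_mul (1 / 2))) ?_
    intro z
    show ‖dbar u z‖ ^ 2 ≤ 2 * ((χ z) ^ 2 * ‖dbar b z‖ ^ 2) +
      1 / 2 * (‖b z‖ ^ 2 * ((px χ z) ^ 2 + (py χ z) ^ 2))
    have h1 := hpar' ((χ z : ℂ) * dbar b z) (e' z)
    rw [hχn, ← hdb, hene'] at h1
    linarith
  have hC : 0 ≤ ∫ z, ‖b z‖ ^ 2 * ((px χ z) ^ 2 + (py χ z) ^ 2) :=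
    integral_nonneg fun z => by positivity
  rw [hen] at hA
  linarith

end FC34
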