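import Pool.Agent.W_fc1c69_h34.Pointwise
import Pool.Agent.W_fc1c69_h34.Weighted
import Pool.Agent.W_fc1c69_h34.Cutoff

/-! Base step of Lemma P: at scale `R/4` the energies are bounded. -/

namespace FC34

open Complex MeasureTheory Metric Set

theorem Base_cont_px {E : Type*} [NormedAddCommGroup E] [NormedSpace ℝ E] {u : ℂ → E}
    (hu : ContDiff ℝ 1 u) : Continuous (px u) := by
  show Continuous (fun z => fderiv ℝ u z 1)
  exact (hu.continuous_fderiv (by norm_num)).clm_apply continuous_const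

theorem Base_cont_py {E : Type*} [NormedAddCommGroup E] [NormedSpace ℝ E] {u : ℂ → E}
    (hu : ContDiff ℝ 1 u) : Continuous (py u) := by
  show Continuous (fun z => fderiv ℝ u z Complex.I)
  exact (hu.continuous_fderiv (by norm_num)).clm_apply continuous_const

theorem Base_cont_dz {u : ℂ → ℂ} (hu : ContDiff ℝ 1 u) : Continuous (dz u) := by
  show Continuous (fun z => (px u z - Complex.I * py u z) / 2)
  have h1 := Base_cont_px hu
  have h2 := Base_cont_py hu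
  fun_prop

theorem Base_cont_dbar {u : ℂ → ℂ} (hu : ContDiff ℝ 1 u) : Continuous (dbar u) := by
  show Continuous (fun z => (px u z + Complex.I * py u z) / 2)
  have h1 := Base_cont_px hu
  have h2 := Base_cont_py hu
  fun_prop

/-- `|Re(e^{iκy} u_x)|² ≤ 2(|∂u|² + |∂̄u|²)`. -/
theorem Base_G_le (u : ℂ → ℂ) (κ : ℝ) (z : ℂ) :
    ((Complex.exp (Complex.I * ((κ * z.im : ℝ) : ℂ)) * px u z).re) ^ 2 ≤
      2 * ‖dz u z‖ ^ 2 + 2 * ‖dbar u z‖ ^ 2 := by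
  have h1 : |(Complex.exp (Complex.I * ((κ * z.im : ℝ) : ℂ)) * px u z).re| ≤ ‖px u z‖ := by
    refine (Complex.abs_re_le_norm _).trans ?_
    rw [norm_mul, mul_comm Complex.I, Complex.norm_exp_ofReal_mul_I, one_mul]
  have h2 : px u z = dz u z + dbar u z := by
    unfold dz dbar
    ring
  have h3 : ‖px u z‖ ≤ ‖dz u z‖ + ‖dbar u z‖ := by
    rw [h2]; exact norm_add_le _ _
  have h4 := h1.trans h3
  have h5 : ((Complex.exp (Complex.I * ((κ * z.im : ℝ) : ℂ)) * px u z).re) ^ 2 ≤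
      (‖dz u z‖ + ‖dbar u z‖) ^ 2 := by
    rw [← sq_abs]
    exact pow_le_pow_left₀ (abs_nonneg _) h4 2
  nlinarith [sq_nonneg (‖dz u z‖ - ‖dbar u z‖)]

/-- Integral of a function bounded by `K` on a ball of radius `0.37R` and vanishing outside. -/
theorem Base_int_le {g : ℂ → ℝ} {K R : ℝ} {ζ : ℂ} (hK : 0 ≤ K) (hR : 0 < R)
    (hg : Integrable g) (h1 : ∀ z ∈ ball ζ (0.37 * R), g z ≤ K)
    (h2 : ∀ z, z ∉ ball ζ (0.37 * R) → g z = 0) : ∫ z, g z ≤ K * R ^ 2 := by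
  have hvol : (volume (ball ζ (0.37 * R))).toReal = Real.pi * (0.37 * R) ^ 2 := by
    rw [Complex.volume_ball]
    rw [ENNReal.toReal_mul, ENNReal.toReal_pow, ENNReal.toReal_ofReal (by positivity)]
    simp [mul_comm]
  have hfin : volume (ball ζ (0.37 * R)) ≠ ⊤ := measure_ball_lt_top.ne
  rw [← setIntegral_eq_integral_of_forall_compl_eq_zero h2]
  have h3 : ∫ z in ball ζ (0.37 * R), g z ≤ ∫ z in ball ζ (0.37 * R), K := by
    refine setIntegral_mono_on hg.integrableOn ?_ measurableSet_ball h1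
    exact integrableOn_const hfin
  refine h3.trans ?_
  rw [setIntegral_const, smul_eq_mul, Measure.real, hvol, mul_comm]
  have hpi : Real.pi * (0.37 * R) ^ 2 ≤ R ^ 2 := by
    have := Real.pi_lt_d2
    have h4 : Real.pi * (0.37 * R) ^ 2 = (Real.pi * 0.1369) * R ^ 2 := by ring
    rw [h4]
    have h5 : Real.pi * 0.1369 ≤ 1 := by nlinarith
    nlinarith [sq_nonneg R]
  exact mul_le_mul_of_nonneg_left hpi hK

theorem Base_sq_subset {ζ z : ℂ} {R : ℝ} (hR : 0 < R) (hz : z ∈ sq ζ (R / 4)) :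
    z ∈ closedBall ζ (0.36 * R) := by
  obtain ⟨h1, h2⟩ := hz
  rw [mem_closedBall, dist_eq_norm]
  have h3 : ‖z - ζ‖ ^ 2 ≤ (0.36 * R) ^ 2 := by
    rw [← Complex.normSq_eq_norm_sq, Complex.normSq_apply, Complex.sub_re, Complex.sub_im]
    have e1 : (z.re - ζ.re) * (z.re - ζ.re) ≤ (R / 4) ^ 2 := by
      rw [← pow_two, ← sq_abs]
      exact pow_le_pow_left₀ (abs_nonneg _) h1.le 2
    have e2 : (z.im - ζ.im) * (z.im - ζ.im) ≤ (R / 4) ^ 2 := by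
      rw [← pow_two, ← sq_abs]
      exact pow_le_pow_left₀ (abs_nonneg _) h2.le 2
    nlinarith [sq_nonneg R]
  exact le_of_sq_le_sq h3 (by positivity)

theorem Base_sq_meas (ζ : ℂ) (r : ℝ) : MeasurableSet (sq ζ r) := by
  have h : IsOpen (sq ζ r) := by
    have : sq ζ r = {z : ℂ | |z.re - ζ.re| < r} ∩ {z : ℂ | |z.im - ζ.im| < r} := rfl
    rw [this]
    refine IsOpen.inter ?_ ?_
    · exact isOpen_lt (by fun_prop) continuous_const
    · exact isOpen_lt (by fun_prop) continuous_const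
  exact h.measurableSet

/-- Localisation: the integral over the square is at most the weighted integral. -/
theorem Base_loc {g χ : ℂ → ℝ} {ζ : ℂ} {R : ℝ} (hR : 0 < R) (hg : Continuous g)
    (hg0 : ∀ z, 0 ≤ g z) (hχ : Continuous χ) (hc : HasCompactSupport χ)
    (h1 : ∀ z ∈ closedBall ζ (0.36 * R), χ z = 1) :
    ∫ z in sq ζ (R / 4), g z ≤ ∫ z, (χ z) ^ 2 * g z := by
  have hcs : HasCompactSupport (fun z => (χ z) ^ 2 * g z) := by
    have : (fun z => (χ z) ^ 2 * g z) = fun z => χ z * (χ z * g z) := by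
      funext z; ring
    rw [this]
    exact hc.mul_right
  have hint : Integrable (fun z => (χ z) ^ 2 * g z) :=
    Continuous.integrable_of_hasCompactSupport (by fun_prop) hcs
  have e : ∫ z in sq ζ (R / 4), g z = ∫ z in sq ζ (R / 4), (χ z) ^ 2 * g z := by
    refine setIntegral_congr_fun (Base_sq_meas _ _) ?_
    intro z hz
    simp only
    rw [h1 z (Base_sq_subset hR hz)]
    ring
  rw [e]
  refine setIntegral_le_integral hint ?_
  exact Filter.Eventually.of_forall fun z => mul_nonneg (sq_nonneg _) (hg0 z)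

theorem Base_arith {q κ X Y Z W A B Cχ F : ℝ} (hκ1 : 1 ≤ κ) (hκ2 : 80 * q ^ 2 ≤ κ)
    (hX : 0 ≤ X)
    (h1 : κ ^ 2 * X ≤ 2 * W + 2 * A) (h2 : W ≤ 2 * Z + 2 * Y) (h3 : Z ≤ 4 * Y + 2 * B)
    (hA : A ≤ 4 * Cχ ^ 2 * F ^ 2)
    (hY : Y ≤ 2 * (q / κ) ^ 2 * X + 1 / 2 * F ^ 2) :
    Z ≤ 2 * (10 * F ^ 2 + 8 * B + 8 * Cχ ^ 2 * F ^ 2) / 10 + 2 * F ^ 2 + 2 * B ∧
      κ ^ 2 * X ≤ 2 * (10 * F ^ 2 + 8 * B + 8 * Cχ ^ 2 * F ^ 2) := by
  have hκ0 : 0 < κ := by linarith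
  have k1 : 40 * (q / κ) ^ 2 * X ≤ κ ^ 2 / 2 * X := by
    refine mul_le_mul_of_nonneg_right ?_ hX
    rw [div_pow]
    have k2 : 40 * (q ^ 2 / κ ^ 2) = (40 * q ^ 2) / κ ^ 2 := by ring
    rw [k2, div_le_iff₀ (by positivity)]
    have k3 : 1 ≤ κ ^ 2 := by nlinarith
    have k4 : κ ≤ κ ^ 2 := by nlinarith
    have k5 : κ ^ 2 ≤ κ ^ 2 * κ ^ 2 := by nlinarith
    nlinarith
  have k6 : κ ^ 2 * X ≤ 2 * (10 * F ^ 2 + 8 * B + 8 * Cχ ^ 2 * F ^ 2) := by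
    nlinarith
  refine ⟨?_, k6⟩
  nlinarith

/-- Base step.  Proof: `χ` from `exists_cutoff` at centre `ζ`; `X = ∫χ²f_x²`, `Y = ∫χ²|∂̄b|²`.
`supp χ ⊆ ball ζ (0.37R) ⊆ ball 0 (7R/8)`, area `≤ R²`.
`weighted_fx` with `G = Re(e^{iκy} b_x)` (`re_px_bb`), `G² ≤ |b_x|² ≤ 2(|∂b|²+|∂̄b|²)` (`b_x = ∂b+∂̄b`):
`κ²X ≤ 4∫χ²|∂b|² + 4Y + 2(C/R)²(2C_f)²R²`; `weighted_dz`: `∫χ²|∂b|² ≤ 4Y + 4(C/R)²C_b²R²`;
`SS.normSq_dbar_le`: `Y ≤ 2(q₁/κ)²X + (C_f η₀)²/2`. So `κ²X ≤ 40 (q₁/κ)² X + C'`, and for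
`κ ≥ P ≥ P₀` with `40 q₁² ≤ κ⁴/2` the first term is absorbed. Finally
`sq ζ (R/4) ⊆ closedBall ζ (0.36R)` where `χ = 1` (`√2/4 < 0.36`). -/
theorem base_step (q₁ C₇ c₁ : ℝ) (hq : 0 ≤ q₁) (hc : 0 < c₁) :
    ∃ C : ℝ, 0 ≤ C ∧ ∃ P₀ : ℝ, 1 ≤ P₀ ∧ ∀ (η₀ P R : ℝ) (φ Q : ℂ → ℝ), η₀ ≤ 1 → P₀ ≤ P → c₁ ≤ R →
      SS q₁ C₇ η₀ P R φ Q → ∀ ζ ∈ ball (0 : ℂ) (R / 2),
        (∫ z in sq ζ (R / 4), ‖dz (bb P (kap P (Q 0)) φ) z‖ ^ 2) ≤ C ∧
        kap P (Q 0) ^ 2 * (∫ z in sq ζ (R / 4), (px (ff P φ) z) ^ 2) ≤ C := by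
  obtain ⟨Cχ, hCχ, hcut⟩ := exists_cutoff
  set F : ℝ := Cf q₁ C₇ c₁ with hF
  set B : ℝ := 2 * Cχ ^ 2 * (Cb q₁ C₇) ^ 2 with hB
  have hB0 : 0 ≤ B := by positivity
  have hF0 : 0 ≤ F := by
    rw [hF]; unfold Cf Cb; positivity
  refine ⟨2 * (10 * F ^ 2 + 8 * B + 8 * Cχ ^ 2 * F ^ 2) + 2 * F ^ 2 + 2 * B, by positivity,
    1 + 80 * q₁ ^ 2, by nlinarith [sq_nonneg q₁], ?_⟩
  intro η₀ P R φ Q hη1 hP hcR hSS ζ hζ
  have hR : 0 < R := hSS.hR
  obtain ⟨χ, hχ, hχ0, hχ1, hχone, hχzero, hχc, hχx, hχy⟩ := hcut ζ R hR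
  set κ : ℝ := kap P (Q 0) with hκdef
  have hP1 : 1 ≤ P := hSS.hP
  have hQ0 : 0 ≤ Q 0 := (hSS.hQ 0 (by simpa using hR)).1
  have hκP : P ≤ κ := le_kap (by linarith) hQ0
  have hκ1 : 1 ≤ κ := by linarith
  have hκ2 : 80 * q₁ ^ 2 ≤ κ := by linarith
  have hκ0 : 0 < κ := by linarith
  set b : ℂ → ℂ := bb P κ φ with hb
  set f : ℂ → ℝ := ff P φ with hf
  have hbC : ContDiff ℝ 2 b := contDiff_bb hSS.smooth
  have hfC : ContDiff ℝ 3 f := contDiff_ff hSS.smooth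
  have hbC1 : ContDiff ℝ 1 b := hbC.of_le (by norm_num)
  have hfC1 : ContDiff ℝ 1 f := hfC.of_le (by norm_num)
  have hχC1 : ContDiff ℝ 1 χ := hχ.of_le (by norm_num)
  have cχ : Continuous χ := hχ.continuous
  have cb : Continuous b := hbC.continuous
  have cdz : Continuous (dz b) := Base_cont_dz hbC1
  have cdb : Continuous (dbar b) := Base_cont_dbar hbC1
  have cfx : Continuous (px f) := Base_cont_px hfC1
  have cbx : Continuous (px b) := Base_cont_px hbC1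
  have cχx : Continuous (px χ) := Base_cont_px hχC1
  have cχy : Continuous (py χ) := Base_cont_py hχC1
  -- the derivatives of χ vanish outside the ball
  have hfd : ∀ z, z ∉ ball ζ (0.37 * R) → fderiv ℝ χ z = 0 := by
    intro z hz
    have hmin : IsLocalMin χ z := by
      refine Filter.Eventually.of_forall fun w => ?_
      rw [hχzero z hz]; exact hχ0 w
    exact hmin.fderiv_eq_zero
  have hpx0 : ∀ z, z ∉ ball ζ (0.37 * R) → px χ z = 0 := by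
    intro z hz; unfold px; rw [hfd z hz]; simp
  have hpy0 : ∀ z, z ∉ ball ζ (0.37 * R) → py χ z = 0 := by
    intro z hz; unfold py; rw [hfd z hz]; simp
  -- the ball is inside the good balls
  have hsub : ∀ z ∈ ball ζ (0.37 * R), z ∈ ball (0 : ℂ) (7 / 8 * R) := by
    intro z hz
    rw [mem_ball, dist_zero_right] at *
    rw [dist_eq_norm] at hz
    calc ‖z‖ = ‖(z - ζ) + ζ‖ := by ring_nf
      _ ≤ ‖z - ζ‖ + ‖ζ‖ := norm_add_le _ _
      _ < 7 / 8 * R := by nlinarith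
  have hsub1 : ∀ z ∈ ball ζ (0.37 * R), z ∈ ball (0 : ℂ) R := by
    intro z hz
    have := hsub z hz
    rw [mem_ball, dist_zero_right] at *
    nlinarith
  -- integrability
  have int1 : ∀ g : ℂ → ℝ, Continuous g → (∀ z, z ∉ ball ζ (0.37 * R) → g z = 0) →
      Integrable g := by
    intro g hg h0
    refine Continuous.integrable_of_hasCompactSupport hg ?_
    refine HasCompactSupport.intro (isCompact_closedBall ζ (0.37 * R)) ?_
    intro z hz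
    exact h0 z fun h => hz (ball_subset_closedBall h)
  set G : ℂ → ℝ := fun z => (Complex.exp (Complex.I * ((κ * z.im : ℝ) : ℂ)) * px b z).re with hG
  have cG : Continuous G := by
    rw [hG]
    refine Complex.continuous_re.comp ?_
    refine Continuous.mul ?_ cbx
    fun_prop
  have iX : Integrable (fun z => (χ z) ^ 2 * (px f z) ^ 2) :=
    int1 _ (by fun_prop) fun z hz => by rw [hχzero z hz]; ring
  have iY : Integrable (fun z => (χ z) ^ 2 * ‖dbar b z‖ ^ 2) :=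
    int1 _ (by fun_prop) fun z hz => by rw [hχzero z hz]; ring
  have iZ : Integrable (fun z => (χ z) ^ 2 * ‖dz b z‖ ^ 2) :=
    int1 _ (by fun_prop) fun z hz => by rw [hχzero z hz]; ring
  have iW : Integrable (fun z => (χ z) ^ 2 * (G z) ^ 2) :=
    int1 _ (by fun_prop) fun z hz => by rw [hχzero z hz]; ring
  have iA : Integrable (fun z => (px χ z) ^ 2 * (px f z) ^ 2) :=
    int1 _ (by fun_prop) fun z hz => by rw [hpx0 z hz]; ring
  have iB : Integrable (fun z => ‖b z‖ ^ 2 * ((px χ z) ^ 2 + (py χ z) ^ 2)) :=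
    int1 _ (by fun_prop) fun z hz => by rw [hpx0 z hz, hpy0 z hz]; ring
  have H1 : κ ^ 2 * ∫ z, (χ z) ^ 2 * (px f z) ^ 2 ≤
      2 * (∫ z, (χ z) ^ 2 * (G z) ^ 2) + 2 * ∫ z, (px χ z) ^ 2 * (px f z) ^ 2 := by
    refine weighted_fx hκ0 (hfC.of_le (by norm_num)) cG hχC1 hχc ?_
    intro z
    exact re_px_bb hSS.smooth z
  have H2 : ∫ z, (χ z) ^ 2 * (G z) ^ 2 ≤
      2 * (∫ z, (χ z) ^ 2 * ‖dz b z‖ ^ 2) + 2 * ∫ z, (χ z) ^ 2 * ‖dbar b z‖ ^ 2 := by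
    rw [← integral_const_mul, ← integral_const_mul, ← integral_add (iZ.const_mul 2) (iY.const_mul 2)]
    refine integral_mono iW ((iZ.const_mul 2).add (iY.const_mul 2)) ?_
    intro z
    have := Base_G_le b κ z
    have h0 := sq_nonneg (χ z)
    show (χ z) ^ 2 * (G z) ^ 2 ≤ 2 * ((χ z) ^ 2 * ‖dz b z‖ ^ 2) + 2 * ((χ z) ^ 2 * ‖dbar b z‖ ^ 2)
    calc (χ z) ^ 2 * (G z) ^ 2 ≤ (χ z) ^ 2 * (2 * ‖dz b z‖ ^ 2 + 2 * ‖dbar b z‖ ^ 2) :=
          mul_le_mul_of_nonneg_left this h0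
      _ = _ := by ring
  have H3 := weighted_dz hbC (hχ.of_le (by norm_num)) hχc
  have HB : ∫ z, ‖b z‖ ^ 2 * ((px χ z) ^ 2 + (py χ z) ^ 2) ≤ B := by
    have hK : ∀ z ∈ ball ζ (0.37 * R), ‖b z‖ ^ 2 * ((px χ z) ^ 2 + (py χ z) ^ 2) ≤
        B / R ^ 2 := by
      intro z hz
      have e1 : ‖b z‖ ≤ Cb q₁ C₇ := hSS.norm_bb_le (hsub1 z hz)
      have e2 : ‖b z‖ ^ 2 ≤ (Cb q₁ C₇) ^ 2 := pow_le_pow_left₀ (norm_nonneg _) e1 2
      have e3 : (px χ z) ^ 2 ≤ (Cχ / R) ^ 2 := by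
        rw [← sq_abs]; exact pow_le_pow_left₀ (abs_nonneg _) (hχx z) 2
      have e4 : (py χ z) ^ 2 ≤ (Cχ / R) ^ 2 := by
        rw [← sq_abs]; exact pow_le_pow_left₀ (abs_nonneg _) (hχy z) 2
      calc ‖b z‖ ^ 2 * ((px χ z) ^ 2 + (py χ z) ^ 2) ≤
          (Cb q₁ C₇) ^ 2 * ((Cχ / R) ^ 2 + (Cχ / R) ^ 2) := by
            refine mul_le_mul e2 (add_le_add e3 e4) (by positivity) (by positivity)
        _ = B / R ^ 2 := by rw [hB]; ring
    have := Base_int_le (K := B / R ^ 2) (by positivity) hR iB hK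
      (fun z hz => by rw [hpx0 z hz, hpy0 z hz]; ring)
    rwa [div_mul_cancel₀ _ (by positivity)] at this
  have HA : ∫ z, (px χ z) ^ 2 * (px f z) ^ 2 ≤ 4 * Cχ ^ 2 * F ^ 2 := by
    have hK : ∀ z ∈ ball ζ (0.37 * R), (px χ z) ^ 2 * (px f z) ^ 2 ≤
        4 * Cχ ^ 2 * F ^ 2 / R ^ 2 := by
      intro z hz
      have e1 : |px f z| ≤ 2 * F := hSS.abs_px_ff_le hc hcR (hsub z hz)
      have e2 : (px f z) ^ 2 ≤ (2 * F) ^ 2 := by
        rw [← sq_abs]; exact pow_le_pow_left₀ (abs_nonneg _) e1 2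
      have e3 : (px χ z) ^ 2 ≤ (Cχ / R) ^ 2 := by
        rw [← sq_abs]; exact pow_le_pow_left₀ (abs_nonneg _) (hχx z) 2
      calc (px χ z) ^ 2 * (px f z) ^ 2 ≤ (Cχ / R) ^ 2 * (2 * F) ^ 2 :=
            mul_le_mul e3 e2 (by positivity) (by positivity)
        _ = _ := by ring
    have := Base_int_le (K := 4 * Cχ ^ 2 * F ^ 2 / R ^ 2) (by positivity) hR iA hK
      (fun z hz => by rw [hpx0 z hz]; ring)
    rwa [div_mul_cancel₀ _ (by positivity)] at this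
  have HY : ∫ z, (χ z) ^ 2 * ‖dbar b z‖ ^ 2 ≤
      2 * (q₁ / κ) ^ 2 * (∫ z, (χ z) ^ 2 * (px f z) ^ 2) + 1 / 2 * F ^ 2 := by
    have hK : ∀ z ∈ ball ζ (0.37 * R), (χ z) ^ 2 * ‖dbar b z‖ ^ 2 -
        2 * (q₁ / κ) ^ 2 * ((χ z) ^ 2 * (px f z) ^ 2) ≤ (1 / 2 * F ^ 2) / R ^ 2 := by
      intro z hz
      have e1 := hSS.normSq_dbar_le hc hcR (hsub z hz)
      have h0 := sq_nonneg (χ z)
      have h01 : (χ z) ^ 2 ≤ 1 := by
        have := hχ0 z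
        have := hχ1 z
        nlinarith
      have hη0 := hSS.hη
      have e2 : (1 / 2 : ℝ) * (F * η₀ / R) ^ 2 ≤ (1 / 2 * F ^ 2) / R ^ 2 := by
        have e3 : (1 / 2 : ℝ) * (F * η₀ / R) ^ 2 = (1 / 2 * F ^ 2) / R ^ 2 * η₀ ^ 2 := by ring
        rw [e3]
        have e4 : η₀ ^ 2 ≤ 1 := by nlinarith
        have e5 : 0 ≤ (1 / 2 * F ^ 2) / R ^ 2 := by positivity
        nlinarith
      have e6 := mul_le_mul_of_nonneg_left e1 h0
      have e7 : (χ z) ^ 2 * ((1 / 2 : ℝ) * (F * η₀ / R) ^ 2) ≤ (1 / 2 : ℝ) * (F * η₀ / R) ^ 2 := by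
        have : 0 ≤ (1 / 2 : ℝ) * (F * η₀ / R) ^ 2 := by positivity
        nlinarith
      have e8 : (χ z) ^ 2 * (2 * (q₁ / κ) ^ 2 * (px f z) ^ 2 + (1 / 2) * (F * η₀ / R) ^ 2) =
        2 * (q₁ / κ) ^ 2 * ((χ z) ^ 2 * (px f z) ^ 2) +
          (χ z) ^ 2 * ((1 / 2 : ℝ) * (F * η₀ / R) ^ 2) := by ring
      linarith
    have iD : Integrable (fun z => (χ z) ^ 2 * ‖dbar b z‖ ^ 2 -
        2 * (q₁ / κ) ^ 2 * ((χ z) ^ 2 * (px f z) ^ 2)) := iY.sub (iX.const_mul _)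
    have := Base_int_le (K := (1 / 2 * F ^ 2) / R ^ 2) (by positivity) hR iD hK
      (fun z hz => by rw [hχzero z hz]; ring)
    rw [div_mul_cancel₀ _ (by positivity), integral_sub iY (iX.const_mul _),
      integral_const_mul] at this
    linarith
  have hX0 : 0 ≤ ∫ z, (χ z) ^ 2 * (px f z) ^ 2 :=
    integral_nonneg fun z => by positivity
  have H3' : ∫ z, (χ z) ^ 2 * ‖dz b z‖ ^ 2 ≤ 4 * (∫ z, (χ z) ^ 2 * ‖dbar b z‖ ^ 2) + 2 * B := by
    linarith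
  obtain ⟨R1, R2⟩ := Base_arith hκ1 hκ2 hX0 H1 H2 H3' HA HY
  have L1 : ∫ z in sq ζ (R / 4), ‖dz b z‖ ^ 2 ≤ ∫ z, (χ z) ^ 2 * ‖dz b z‖ ^ 2 :=
    Base_loc hR (by fun_prop) (fun z => by positivity) cχ hχc hχone
  have L2 : ∫ z in sq ζ (R / 4), (px f z) ^ 2 ≤ ∫ z, (χ z) ^ 2 * (px f z) ^ 2 :=
    Base_loc hR (by fun_prop) (fun z => by positivity) cχ hχc hχone
  have hpos : 0 ≤ 10 * F ^ 2 + 8 * B + 8 * Cχ ^ 2 * F ^ 2 := by positivity
  refine ⟨?_, ?_⟩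
  · refine (L1.trans R1).trans ?_
    linarith
  · have := mul_le_mul_of_nonneg_left L2 (sq_nonneg κ)
    refine (this.trans R2).trans ?_
    nlinarith [sq_nonneg F]

end FC34
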