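import Pool.Agent.W_fc1c69_h34.Scale

/-! Comparison of `q` between two charts. -/

namespace FC34

open Complex MeasureTheory Metric Set

variable {M : Type*} [MetricSpace M] {Eig : ℝ → (M → ℝ) → Prop}

theorem Transfer_apply (D : ℂ →L[ℝ] ℝ) (v : ℂ) : D v = v.re * D 1 + v.im * D Complex.I := by
  have hv : v = v.re • (1 : ℂ) + v.im • Complex.I := by
    apply Complex.ext <;> simp
  conv_lhs => rw [hv, map_add, map_smul, map_smul]
  rfl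

theorem Transfer_norm (D : ℂ →L[ℝ] ℝ) : (D 1) ^ 2 + (D Complex.I) ^ 2 = ‖D‖ ^ 2 := by
  set S : ℝ := (D 1) ^ 2 + (D Complex.I) ^ 2 with hS
  have hS0 : 0 ≤ S := by positivity
  apply le_antisymm
  · have h1 := D.le_opNorm ⟨D 1, D Complex.I⟩
    rw [Transfer_apply] at h1
    have h2 : ‖(⟨D 1, D Complex.I⟩ : ℂ)‖ ^ 2 = S := by
      rw [← Complex.normSq_eq_norm_sq, Complex.normSq_apply]
      simp only [hS]
      ring
    have h3 : D 1 * D 1 + D Complex.I * D Complex.I = S := by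
      rw [hS]
      ring
    have h4 : ‖D 1 * D 1 + D Complex.I * D Complex.I‖ = S := by
      rw [h3, Real.norm_eq_abs, abs_of_nonneg hS0]
    have h5 : S ≤ ‖D‖ * ‖(⟨D 1, D Complex.I⟩ : ℂ)‖ := by
      rw [← h4]
      exact h1
    rcases hS0.eq_or_lt with h6 | h6
    · rw [← h6]
      positivity
    · have h7 : S ^ 2 ≤ ‖D‖ ^ 2 * S := by
        calc S ^ 2 ≤ (‖D‖ * ‖(⟨D 1, D Complex.I⟩ : ℂ)‖) ^ 2 := pow_le_pow_left₀ hS0 h5 2
          _ = ‖D‖ ^ 2 * S := by rw [mul_pow, h2]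
      have h8 : S * S ≤ ‖D‖ ^ 2 * S := by
        calc S * S = S ^ 2 := by ring
          _ ≤ ‖D‖ ^ 2 * S := h7
      exact le_of_mul_le_mul_right h8 h6
  · have h1 : ‖D‖ ≤ Real.sqrt S := by
      refine D.opNorm_le_bound (Real.sqrt_nonneg _) fun v => ?_
      rw [Transfer_apply, Real.norm_eq_abs]
      refine abs_le_of_sq_le_sq ?_ (by positivity)
      have h2 : ‖v‖ ^ 2 = v.re ^ 2 + v.im ^ 2 := by
        rw [← Complex.normSq_eq_norm_sq, Complex.normSq_apply]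
        ring
      rw [mul_pow, Real.sq_sqrt hS0, h2, hS]
      nlinarith [sq_nonneg (v.re * D Complex.I - v.im * D 1)]
    calc ‖D‖ ^ 2 ≤ (Real.sqrt S) ^ 2 := pow_le_pow_left₀ (norm_nonneg _) h1 2
      _ = S := Real.sq_sqrt hS0

theorem Transfer_lip {f : ℂ → ℝ} {D : ℂ →L[ℝ] ℝ} {x : ℂ} (h : HasFDerivAt f D x) {ε : ℝ}
    (hε : 0 < ε) : ∃ δ : ℝ, 0 < δ ∧ ∀ y, ‖y - x‖ < δ → ‖f y - f x‖ ≤ (‖D‖ + ε) * ‖y - x‖ := by
  have h1 : ∀ᶠ y in nhds x, ‖f y - f x - D (y - x)‖ ≤ ε * ‖y - x‖ :=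
    h.isLittleO.def hε
  obtain ⟨δ, hδ, h2⟩ := Metric.eventually_nhds_iff.1 h1
  refine ⟨δ, hδ, fun y hy => ?_⟩
  have h3 := h2 (show dist y x < δ by rwa [dist_eq_norm])
  have h4 : f y - f x = (f y - f x - D (y - x)) + D (y - x) := by ring
  rw [h4, add_mul]
  have h5 := norm_add_le (f y - f x - D (y - x)) (D (y - x))
  have h6 := D.le_opNorm (y - x)
  linarith

/-- Comparison of `q` between two charts at the same point: `q_i ≤ L⁴ q_j`.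
Proof: `|∇ψ_i(x)| ≤ L² |∇ψ_j(x')|`: for `x₁` near `x` the point `pt_i x₁` is `pt_j x₁'` with `x₁'` near
`x'` (`ball_subset` for chart `j`) and `|x₁' - x'| ≤ L² |x₁ - x|` (`dist_pt_le`, `le_dist_pt`), and
`ψ_i(x₁) - ψ_i(x) = ψ_j(x₁') - ψ_j(x')`. -/
theorem qf_transfer {q₁ l L : ℝ} (C C' : IsoChart M Eig q₁ l L) {φ : M → ℝ} {Λ : ℝ} (hΛ : 1 ≤ Λ)
    {ψ ψ' : ℂ → ℝ} (h : IsScaled C φ Λ ψ) (h' : IsScaled C' φ Λ ψ') {x x' : ℂ}
    (hx : x ∈ ball (0 : ℂ) (4 * Λ)) (hx' : x' ∈ ball (0 : ℂ) (4 * Λ))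
    (hp : C.pt Λ x = C'.pt Λ x') : qf ψ x ≤ L ^ 4 * qf ψ' x' := by
  have hΛ0 : 0 < Λ := by linarith
  have hL := C.hL
  have hL0 : 0 < L := by linarith
  have hd : HasFDerivAt ψ (fderiv ℝ ψ x) x := (h.1.differentiable (by norm_num) x).hasFDerivAt
  have hd' : HasFDerivAt ψ' (fderiv ℝ ψ' x') x' :=
    (h'.1.differentiable (by norm_num) x').hasFDerivAt
  -- the comparison of the gradients
  have key : ‖fderiv ℝ ψ x‖ ≤ L ^ 2 * ‖fderiv ℝ ψ' x'‖ := by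
    refine le_of_forall_pos_le_add fun ε hε => ?_
    obtain ⟨δ, hδ, hlip⟩ := Transfer_lip hd' (ε := ε / L ^ 2) (by positivity)
    have hx'n : ‖x'‖ < 4 * Λ := by simpa using hx'
    set r : ℝ := min δ (4 * Λ - ‖x'‖) with hr
    have hr0 : 0 < r := lt_min hδ (by linarith)
    have hsub : ball x' r ⊆ ball (0 : ℂ) (4 * Λ) := by
      intro y hy
      rw [mem_ball, dist_eq_norm] at hy
      rw [mem_ball_zero_iff]
      have h1 : ‖y‖ ≤ ‖y - x'‖ + ‖x'‖ := by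
        have := norm_add_le (y - x') x'
        rwa [sub_add_cancel] at this
      have h2 : r ≤ 4 * Λ - ‖x'‖ := min_le_right _ _
      linarith
    have hLL : L ^ 2 * ‖fderiv ℝ ψ' x'‖ + ε = L ^ 2 * (‖fderiv ℝ ψ' x'‖ + ε / L ^ 2) := by
      field_simp
    rw [hLL]
    refine hd.le_of_lip' (by positivity) ?_
    have h1 : ∀ᶠ y in nhds x, y ∈ ball (0 : ℂ) (4 * Λ) := isOpen_ball.mem_nhds hx
    have h2 : ∀ᶠ y in nhds x, y ∈ ball x (r / L ^ 2) :=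
      isOpen_ball.mem_nhds (mem_ball_self (by positivity))
    filter_upwards [h1, h2] with y hy hy2
    rw [mem_ball, dist_eq_norm] at hy2
    have h3 := C.dist_pt_le hΛ0 hy hx
    have h4 : dist (C.pt Λ y) (C'.pt Λ x') < 0.9 * r / (Λ * L) := by
      rw [← hp]
      refine h3.trans_lt ?_
      have h5 : 0.9 * L / Λ * ‖y - x‖ < 0.9 * L / Λ * (r / L ^ 2) :=
        mul_lt_mul_of_pos_left hy2 (by positivity)
      have h6 : 0.9 * L / Λ * (r / L ^ 2) = 0.9 * r / (Λ * L) := by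
        field_simp
      rwa [h6] at h5
    obtain ⟨y', hy', hyy⟩ := C'.ball_subset hΛ0 hr0 hsub h4
    have h7 := C'.le_dist_pt hΛ0 (hsub hy') hx'
    rw [hyy, ← hp] at h7
    have h8 : ‖y' - x'‖ ≤ L ^ 2 * ‖y - x‖ := by
      have h9 : L * Λ / 0.9 * dist (C.pt Λ y) (C.pt Λ x) ≤
          L * Λ / 0.9 * (0.9 * L / Λ * ‖y - x‖) :=
        mul_le_mul_of_nonneg_left h3 (by positivity)
      have h10 : L * Λ / 0.9 * (0.9 * L / Λ * ‖y - x‖) = L ^ 2 * ‖y - x‖ := by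
        field_simp
      linarith
    have h11 : ψ y - ψ x = ψ' y' - ψ' x' := by
      rw [h.2 y hy, h.2 x hx, h'.2 y' (hsub hy'), h'.2 x' hx', hyy, hp]
    rw [h11]
    rw [mem_ball, dist_eq_norm] at hy'
    refine (hlip y' (hy'.trans_le (min_le_left _ _))).trans ?_
    calc (‖fderiv ℝ ψ' x'‖ + ε / L ^ 2) * ‖y' - x'‖
        ≤ (‖fderiv ℝ ψ' x'‖ + ε / L ^ 2) * (L ^ 2 * ‖y - x‖) :=
          mul_le_mul_of_nonneg_left h8 (by positivity)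
      _ = L ^ 2 * (‖fderiv ℝ ψ' x'‖ + ε / L ^ 2) * ‖y - x‖ := by ring
  have hval : ψ x = ψ' x' := by rw [h.2 x hx, h'.2 x' hx', hp]
  have e1 : qf ψ x = ‖fderiv ℝ ψ x‖ ^ 2 + ψ x ^ 2 := by
    rw [← Transfer_norm]
    rfl
  have e2 : qf ψ' x' = ‖fderiv ℝ ψ' x'‖ ^ 2 + ψ' x' ^ 2 := by
    rw [← Transfer_norm]
    rfl
  rw [e1, e2, hval]
  have h1 : ‖fderiv ℝ ψ x‖ ^ 2 ≤ L ^ 4 * ‖fderiv ℝ ψ' x'‖ ^ 2 := by
    calc ‖fderiv ℝ ψ x‖ ^ 2 ≤ (L ^ 2 * ‖fderiv ℝ ψ' x'‖) ^ 2 :=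
          pow_le_pow_left₀ (norm_nonneg _) key 2
      _ = L ^ 4 * ‖fderiv ℝ ψ' x'‖ ^ 2 := by ring
  have h2 : (1 : ℝ) ≤ L ^ 4 := one_le_pow₀ hL
  have h3 : ψ' x' ^ 2 ≤ L ^ 4 * ψ' x' ^ 2 := le_mul_of_one_le_left (sq_nonneg _) h2
  linarith

end FC34
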