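import Pool.Agent.W_fc1c69_h34.MBStep
import Pool.Agent.W_fc1c69_h34.Transfer

/-! Chains of charts. -/

namespace FC34

open Complex MeasureTheory Metric Set

variable {M : Type*} [MetricSpace M] {Eig : ℝ → (M → ℝ) → Prop}

/-- The property of a pair of charts used in the chain: from some point of chart `i` with
`V ≤ q e^{N₁Λ}` to all points of chart `j`. -/
def Chain (𝒜 : FinAtlas M Eig) (s : ℝ) (i j : Fin 𝒜.n) : Prop :=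
  ∀ N₁ : ℝ, ∃ N₂ : ℝ, ∀ (lam : ℝ) (φ : M → ℝ), 0 < lam → Eig lam φ →
    ∀ (ψ Q : Fin 𝒜.n → ℂ → ℝ), (∀ k, IsScaled (𝒜.C k) φ (Lam lam) (ψ k)) →
      (∀ k, PreLoc 𝒜.q₁ 𝒜.l (Lam lam) (ψ k) (Q k)) → ∀ V : ℝ, 0 < V →
      (∀ k, ∀ w ∈ closedBall (0 : ℂ) (3 * Lam lam), qf (ψ k) w ≤ V) →
      (∃ y ∈ closedBall (0 : ℂ) (2.5 * Lam lam), V ≤ qf (ψ i) y * Real.exp (N₁ * Lam lam)) →
      ∀ x ∈ closedBall (0 : ℂ) (2.5 * Lam lam),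
        ∃ y ∈ closedBall x (s * Lam lam), V ≤ qf (ψ j) y * Real.exp (N₂ * Lam lam)

theorem Chain_Lam (lam : ℝ) : 1 ≤ Lam lam := le_max_left _ _

theorem Chain_pt {q₁ l L Λ : ℝ} (hΛ : 0 < Λ) (C : IsoChart M Eig q₁ l L) {u : ℂ}
    (hu : u ∈ ball (0 : ℂ) (1 / 2)) : ‖((Λ / 0.9 : ℝ) : ℂ) * u‖ < 0.56 * Λ ∧
      C.pt Λ (((Λ / 0.9 : ℝ) : ℂ) * u) = C.c u := by
  rw [mem_ball_zero_iff] at hu
  constructor
  · rw [norm_mul, Complex.norm_real, Real.norm_eq_abs, abs_of_pos (by positivity)]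
    have h1 : Λ / 0.9 * ‖u‖ ≤ Λ / 0.9 * (1 / 2) :=
      mul_le_mul_of_nonneg_left hu.le (by positivity)
    have h2 : Λ / 0.9 * (1 / 2) < 0.56 * Λ := by
      rw [div_mul_eq_mul_div, div_lt_iff₀ (by norm_num)]
      nlinarith
    linarith
  · rw [IsoChart.pt, ← mul_assoc, ← Complex.ofReal_mul]
    have h1 : 0.9 / Λ * (Λ / 0.9) = 1 := by
      field_simp
    rw [h1, Complex.ofReal_one, one_mul]

/-- `Chain` inside one chart: `mb_chart`. -/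
theorem chain_self (𝒜 : FinAtlas M Eig) {s : ℝ} (hs : 0 < s) (hs' : s ≤ 1 / 8) (i : Fin 𝒜.n) :
    Chain 𝒜 s i i := by
  intro N₁
  obtain ⟨N₂, -, hN₂⟩ := mb_chart 𝒜.q₁ 𝒜.l s N₁ (𝒜.C i).hq₁ (𝒜.C i).hl hs hs'
  refine ⟨N₂, ?_⟩
  intro lam φ _hlam _hE ψ Q _hψ hQ V hV hmax hex x hx
  obtain ⟨y, hy, hyV⟩ := hex
  have hΛ := Chain_Lam lam
  have hloc : Loc 𝒜.q₁ 𝒜.l (Lam lam) (ψ i) (Q i) := by
    refine (hQ i).toLoc ⟨y, ?_, ?_⟩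
    · exact closedBall_subset_closedBall (by linarith) hy
    · by_contra hne
      have h1 : qf (ψ i) y * Real.exp (N₁ * Lam lam) ≤ 0 :=
        mul_nonpos_of_nonpos_of_nonneg (not_lt.1 hne) (Real.exp_pos _).le
      linarith
  exact hN₂ (Lam lam) (ψ i) (Q i) hloc V hV (hmax i) ⟨y, hy, hyV⟩ x hx

theorem chain_trans (𝒜 : FinAtlas M Eig) {s : ℝ} (hs : 0 < s) (hs' : s ≤ 1 / 8)
    {i j k : Fin 𝒜.n} (h1 : Chain 𝒜 s i j) (h2 : Chain 𝒜 s j k) : Chain 𝒜 s i k := by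
  intro N₁
  obtain ⟨N₂, hN₂⟩ := h1 N₁
  obtain ⟨N₃, hN₃⟩ := h2 N₂
  refine ⟨N₃, ?_⟩
  intro lam φ hlam hE ψ Q hψ hQ V hV hmax hex x hx
  have hΛ := Chain_Lam lam
  have h0 : (0 : ℂ) ∈ closedBall (0 : ℂ) (2.5 * Lam lam) := by
    rw [mem_closedBall, dist_self]
    nlinarith
  obtain ⟨y, hy, hyV⟩ := hN₂ lam φ hlam hE ψ Q hψ hQ V hV hmax hex 0 h0
  refine hN₃ lam φ hlam hE ψ Q hψ hQ V hV hmax ⟨y, ?_, hyV⟩ x hx
  refine closedBall_subset_closedBall ?_ hy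
  nlinarith

/-- Overlapping charts: if `c_i u = c_j u'` with `u, u' ∈ ball 0 (1/2)` then `Chain i j`.
Proof: first `chain_self i` with `s' = min s (1/(2L²))`: at `x = uΛ/0.9` there is
`y ∈ closedBall x (s'Λ)`, `V ≤ q_i(y) e^{NΛ}`; `dist (pt_i y) (pt_i x) ≤ 0.9 L s'`, so
(`ball_subset` for chart `j` at `x' = u'Λ/0.9`, radius `Λ`) `pt_i y = pt_j y'`, `|y' - x'| < Λ`,
`|y'| ≤ 1.56Λ`; `qf_transfer`: `V ≤ q_j(y') e^{NΛ} L⁴`, `L⁴ ≤ e^{4 log L Λ}`; then `chain_self j`. -/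
theorem chain_overlap (𝒜 : FinAtlas M Eig) {s : ℝ} (hs : 0 < s) (hs' : s ≤ 1 / 8)
    {i j : Fin 𝒜.n} {u u' : ℂ} (hu : u ∈ ball (0 : ℂ) (1 / 2)) (hu' : u' ∈ ball (0 : ℂ) (1 / 2))
    (h : (𝒜.C i).c u = (𝒜.C j).c u') : Chain 𝒜 s i j := by
  intro N₁
  have hL : 1 ≤ 𝒜.L := (𝒜.C i).hL
  have hL0 : 0 < 𝒜.L := by linarith
  have hs1 : 0 < min s (1 / (2 * 𝒜.L ^ 2)) := lt_min hs (by positivity)
  have hs2 : min s (1 / (2 * 𝒜.L ^ 2)) ≤ 1 / 8 := (min_le_left _ _).trans hs'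
  obtain ⟨N, hN⟩ := chain_self 𝒜 hs1 hs2 i N₁
  obtain ⟨N₂, hN₂⟩ := chain_self 𝒜 hs hs' j (N + 4 * Real.log 𝒜.L)
  refine ⟨N₂, ?_⟩
  intro lam φ hlam hE ψ Q hψ hQ V hV hmax hex x₀ hx₀
  have hΛ := Chain_Lam lam
  refine hN₂ lam φ hlam hE ψ Q hψ hQ V hV hmax ?_ x₀ hx₀
  set Λ := Lam lam with hΛdef
  have hΛ0 : 0 < Λ := by linarith
  set s' := min s (1 / (2 * 𝒜.L ^ 2)) with hs'def
  obtain ⟨hx1, hx2⟩ := Chain_pt hΛ0 (𝒜.C i) hu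
  obtain ⟨hx1', hx2'⟩ := Chain_pt hΛ0 (𝒜.C j) hu'
  set x : ℂ := ((Λ / 0.9 : ℝ) : ℂ) * u with hxdef
  set x' : ℂ := ((Λ / 0.9 : ℝ) : ℂ) * u' with hxdef'
  have hxb : x ∈ closedBall (0 : ℂ) (2.5 * Λ) := by
    rw [mem_closedBall_zero_iff]
    linarith
  obtain ⟨y, hy, hyV⟩ := hN lam φ hlam hE ψ Q hψ hQ V hV hmax hex x hxb
  rw [mem_closedBall, dist_eq_norm] at hy
  have hy4 : ‖y‖ ≤ ‖x‖ + s' * Λ := by
    have := norm_le_norm_add_norm_sub' y x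
    linarith
  have hs'Λ : s' * Λ ≤ 1 / 8 * Λ := mul_le_mul_of_nonneg_right hs2 hΛ0.le
  have hyb : y ∈ ball (0 : ℂ) (4 * Λ) := by
    rw [mem_ball_zero_iff]
    linarith
  have hxb4 : x ∈ ball (0 : ℂ) (4 * Λ) := by
    rw [mem_ball_zero_iff]
    linarith
  have hd := (𝒜.C i).dist_pt_le hΛ0 hyb hxb4
  have hd2 : dist ((𝒜.C i).pt Λ y) ((𝒜.C i).pt Λ x) ≤ 0.9 * 𝒜.L * s' := by
    refine hd.trans ?_
    have h1 : 0.9 * 𝒜.L / Λ * ‖y - x‖ ≤ 0.9 * 𝒜.L / Λ * (s' * Λ) :=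
      mul_le_mul_of_nonneg_left hy (by positivity)
    refine h1.trans (le_of_eq ?_)
    field_simp
  have hd3 : 0.9 * 𝒜.L * s' < 0.9 * Λ / (Λ * 𝒜.L) := by
    have h1 : s' ≤ 1 / (2 * 𝒜.L ^ 2) := min_le_right _ _
    have h2 : 0.9 * 𝒜.L * s' ≤ 0.9 * 𝒜.L * (1 / (2 * 𝒜.L ^ 2)) :=
      mul_le_mul_of_nonneg_left h1 (by positivity)
    have h3 : 0.9 * 𝒜.L * (1 / (2 * 𝒜.L ^ 2)) = 0.45 / 𝒜.L := by
      field_simp
      norm_num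
    have h4 : 0.9 * Λ / (Λ * 𝒜.L) = 0.9 / 𝒜.L := by
      field_simp
    rw [h4]
    refine lt_of_le_of_lt (h2.trans_eq h3) ?_
    exact div_lt_div_of_pos_right (by norm_num) hL0
  have hsub : ball x' Λ ⊆ ball (0 : ℂ) (4 * Λ) := by
    refine ball_subset_ball' ?_
    rw [dist_zero_right]
    linarith
  have hmem : (𝒜.C i).pt Λ y ∈ ball ((𝒜.C j).pt Λ x') (0.9 * Λ / (Λ * 𝒜.L)) := by
    rw [mem_ball, hx2', ← h, ← hx2]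
    exact lt_of_le_of_lt hd2 hd3
  obtain ⟨y', hy', hyy⟩ := (𝒜.C j).ball_subset hΛ0 hΛ0 hsub hmem
  have hyb' : y' ∈ ball (0 : ℂ) (4 * Λ) := hsub hy'
  have htr := qf_transfer (𝒜.C i) (𝒜.C j) hΛ (hψ i) (hψ j) hyb hyb' hyy.symm
  refine ⟨y', ?_, ?_⟩
  · rw [mem_closedBall_zero_iff]
    rw [mem_ball, dist_eq_norm] at hy'
    have := norm_le_norm_add_norm_sub' y' x'
    linarith
  · have hlog : 0 ≤ Real.log 𝒜.L := Real.log_nonneg hL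
    have h1 : 𝒜.L ^ 4 ≤ Real.exp (4 * Real.log 𝒜.L * Λ) := by
      have h2 : 𝒜.L ^ 4 = Real.exp (4 * Real.log 𝒜.L) := by
        rw [mul_comm, Real.exp_mul, Real.exp_log hL0]
        norm_cast
      rw [h2]
      apply Real.exp_le_exp.2
      nlinarith
    have h3 : 0 ≤ qf (ψ j) y' := by
      rw [qf]
      positivity
    calc V ≤ qf (ψ i) y * Real.exp (N * Λ) := hyV
      _ ≤ (𝒜.L ^ 4 * qf (ψ j) y') * Real.exp (N * Λ) :=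
          mul_le_mul_of_nonneg_right htr (Real.exp_pos _).le
      _ ≤ (Real.exp (4 * Real.log 𝒜.L * Λ) * qf (ψ j) y') * Real.exp (N * Λ) :=
          mul_le_mul_of_nonneg_right (mul_le_mul_of_nonneg_right h1 h3) (Real.exp_pos _).le
      _ = qf (ψ j) y' * Real.exp ((N + 4 * Real.log 𝒜.L) * Λ) := by
          rw [add_mul, Real.exp_add]
          ring

end FC34
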