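import Pool.Agent.W_fc1c69_h34.Tops

/-! Contact points of the paraboloids under the cone at its top (proofs row 214, Lemma 3). -/

namespace FC34

open Complex MeasureTheory Metric Set

/-- `exp (v - Φ - (T/2ρ)|x-b|²)` up to a constant: `z` is a contact point for `b` iff it maximises
this function over `closedBall y (ρ/2)`. -/
noncomputable def Eb (φ : ℂ → ℝ) (T ρ : ℝ) (a b x : ℂ) : ℝ :=
  qf φ x * Real.exp (-(T * ‖x - a‖) - T / (2 * ρ) * ‖x - b‖ ^ 2)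

/-- `z` is a contact point for the parameter `b` (`y` the top, `ρ = ‖y - a‖`). -/
def IsContact (φ : ℂ → ℝ) (T : ℝ) (a y b z : ℂ) : Prop :=
  z ∈ closedBall y (‖y - a‖ / 2) ∧
    ∀ x ∈ closedBall y (‖y - a‖ / 2), Eb φ T ‖y - a‖ a b x ≤ Eb φ T ‖y - a‖ a b z

variable {φ Q : ℂ → ℝ} {q₁ l Λ T : ℝ} {a y b b' z z' x : ℂ}

theorem Loc.exists_contact (h : Loc q₁ l Λ φ Q) (T : ℝ) (a y b : ℂ) :
    ∃ z, IsContact φ T a y b z := by
  have hcont : Continuous (fun x => Eb φ T ‖y - a‖ a b x) := by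
    unfold Eb
    have := h.continuous_qf
    fun_prop
  have hne : (closedBall y (‖y - a‖ / 2)).Nonempty :=
    ⟨y, mem_closedBall_self (by positivity)⟩
  obtain ⟨z, hz, hmax⟩ := (isCompact_closedBall y (‖y - a‖ / 2)).exists_isMaxOn hne
    hcont.continuousOn
  exact ⟨z, hz, fun x hx => hmax hx⟩

theorem contact_y_le (hc : IsContact φ T a y b z) :
    qf φ y * Real.exp (-(T * ‖y - a‖) - T / (2 * ‖y - a‖) * ‖y - b‖ ^ 2) ≤
      qf φ z * Real.exp (-(T * ‖z - a‖) - T / (2 * ‖y - a‖) * ‖z - b‖ ^ 2) := by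
  have := hc.2 y (mem_closedBall_self (by positivity))
  simpa [Eb] using this

/-- `|z - b| ≤ |y - b|` for a contact point, if `y` is a top and `closedBall y (ρ/2)` is in the
domain. Proof: `Eb(y) ≤ Eb(z)` and `q(z) ≤ q(y) e^{T(|z-a| - ρ)}`. -/
theorem IsContact.near (h : Loc q₁ l Λ φ Q) (hT : 0 < T) (hy : IsTop φ Λ T a y)
    (hρ : 0 < ‖y - a‖) (hd : closedBall y (‖y - a‖ / 2) ⊆ closedBall (0 : ℂ) (3 * Λ))
    (hc : IsContact φ T a y b z) : ‖z - b‖ ≤ ‖y - b‖ ∧ 0 < qf φ z := by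
  have h1 := contact_y_le hc
  have hqy : 0 < qf φ y := h.top_pos hy
  have h2 := hy.2 z (hd hc.1)
  constructor
  · have h3 : qf φ y * Real.exp (-(T * ‖y - a‖) - T / (2 * ‖y - a‖) * ‖y - b‖ ^ 2) ≤
        qf φ y * Real.exp (-(T * ‖y - a‖) - T / (2 * ‖y - a‖) * ‖z - b‖ ^ 2) := by
      refine h1.trans ?_
      calc qf φ z * Real.exp (-(T * ‖z - a‖) - T / (2 * ‖y - a‖) * ‖z - b‖ ^ 2)
          ≤ (qf φ y * Real.exp (T * (‖z - a‖ - ‖y - a‖))) *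
            Real.exp (-(T * ‖z - a‖) - T / (2 * ‖y - a‖) * ‖z - b‖ ^ 2) :=
            mul_le_mul_of_nonneg_right h2 (Real.exp_pos _).le
        _ = _ := by
            rw [mul_assoc, ← Real.exp_add]
            congr 2
            ring
    have h4 := le_of_mul_le_mul_left h3 hqy
    rw [Real.exp_le_exp] at h4
    have hk : 0 < T / (2 * ‖y - a‖) := by positivity
    have h5 : ‖z - b‖ ^ 2 ≤ ‖y - b‖ ^ 2 := by
      have : T / (2 * ‖y - a‖) * ‖z - b‖ ^ 2 ≤ T / (2 * ‖y - a‖) * ‖y - b‖ ^ 2 := by linarith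
      exact le_of_mul_le_mul_left this hk
    exact (sq_le_sq₀ (norm_nonneg _) (norm_nonneg _)).1 h5
  · by_contra hcon
    push Not at hcon
    have h6 : qf φ z * Real.exp (-(T * ‖z - a‖) - T / (2 * ‖y - a‖) * ‖z - b‖ ^ 2) ≤ 0 :=
      mul_nonpos_of_nonpos_of_nonneg hcon (Real.exp_pos _).le
    have h7 : 0 < qf φ y * Real.exp (-(T * ‖y - a‖) - T / (2 * ‖y - a‖) * ‖y - b‖ ^ 2) :=
      mul_pos hqy (Real.exp_pos _)
    linarith

/-- `v(x) ≤ v(z) + T(|x-a| - |z-a|) + Tρ/800` on the whole domain, for a contact point `z` of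
`b ∈ closedBall y (ρ/20)`. -/
theorem IsContact.global (h : Loc q₁ l Λ φ Q) (hT : 0 < T) (hy : IsTop φ Λ T a y)
    (hρ : 0 < ‖y - a‖) (hd : closedBall y (‖y - a‖ / 2) ⊆ closedBall (0 : ℂ) (3 * Λ))
    (hb : ‖b - y‖ ≤ ‖y - a‖ / 20) (hc : IsContact φ T a y b z) (hx : x ∈ closedBall (0 : ℂ) (3 * Λ)) :
    qf φ x ≤ qf φ z * Real.exp (T * (‖x - a‖ - ‖z - a‖) + T * ‖y - a‖ / 800) := by
  have h1 := contact_y_le hc
  have hqz : 0 < qf φ z := (hc.near h hT hy hρ hd).2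
  have h2 := hy.2 x hx
  have h3 : qf φ y ≤ qf φ z * Real.exp (-(T * ‖z - a‖) + T * ‖y - a‖ + T * ‖y - a‖ / 800) := by
    have h4 : T / (2 * ‖y - a‖) * ‖y - b‖ ^ 2 ≤ T * ‖y - a‖ / 800 := by
      have hb' : ‖y - b‖ ≤ ‖y - a‖ / 20 := by rw [norm_sub_rev]; exact hb
      have h5 : ‖y - b‖ ^ 2 ≤ (‖y - a‖ / 20) ^ 2 :=
        pow_le_pow_left₀ (norm_nonneg _) hb' 2
      calc T / (2 * ‖y - a‖) * ‖y - b‖ ^ 2 ≤ T / (2 * ‖y - a‖) * (‖y - a‖ / 20) ^ 2 :=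
            mul_le_mul_of_nonneg_left h5 (by positivity)
        _ = T * ‖y - a‖ / 800 := by field_simp; ring
    have h6 : 0 ≤ T / (2 * ‖y - a‖) * ‖z - b‖ ^ 2 := by positivity
    calc qf φ y = (qf φ y * Real.exp (-(T * ‖y - a‖) - T / (2 * ‖y - a‖) * ‖y - b‖ ^ 2)) *
          Real.exp (T * ‖y - a‖ + T / (2 * ‖y - a‖) * ‖y - b‖ ^ 2) := by
          rw [mul_assoc, ← Real.exp_add]
          have : -(T * ‖y - a‖) - T / (2 * ‖y - a‖) * ‖y - b‖ ^ 2 +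
            (T * ‖y - a‖ + T / (2 * ‖y - a‖) * ‖y - b‖ ^ 2) = 0 := by ring
          rw [this, Real.exp_zero, mul_one]
      _ ≤ (qf φ z * Real.exp (-(T * ‖z - a‖) - T / (2 * ‖y - a‖) * ‖z - b‖ ^ 2)) *
          Real.exp (T * ‖y - a‖ + T / (2 * ‖y - a‖) * ‖y - b‖ ^ 2) :=
          mul_le_mul_of_nonneg_right h1 (Real.exp_pos _).le
      _ = qf φ z * Real.exp (-(T * ‖z - a‖) - T / (2 * ‖y - a‖) * ‖z - b‖ ^ 2 +
          (T * ‖y - a‖ + T / (2 * ‖y - a‖) * ‖y - b‖ ^ 2)) := by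
          rw [mul_assoc, ← Real.exp_add]
      _ ≤ _ := by
          apply mul_le_mul_of_nonneg_left _ hqz.le
          rw [Real.exp_le_exp]
          linarith
  calc qf φ x ≤ qf φ y * Real.exp (T * (‖x - a‖ - ‖y - a‖)) := h2
    _ ≤ (qf φ z * Real.exp (-(T * ‖z - a‖) + T * ‖y - a‖ + T * ‖y - a‖ / 800)) *
        Real.exp (T * (‖x - a‖ - ‖y - a‖)) :=
        mul_le_mul_of_nonneg_right h3 (Real.exp_pos _).le
    _ = _ := by
        rw [mul_assoc, ← Real.exp_add]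
        congr 2
        ring

/-- `v(x) ≤ v(z) + T(|x-a| - |z-a|) + (T/2ρ)(|x-b|² - |z-b|²)` on `closedBall y (ρ/2)`. -/
theorem IsContact.local_le (hc : IsContact φ T a y b z) (hx : x ∈ closedBall y (‖y - a‖ / 2)) :
    qf φ x ≤ qf φ z * Real.exp (T * (‖x - a‖ - ‖z - a‖) +
      T / (2 * ‖y - a‖) * (‖x - b‖ ^ 2 - ‖z - b‖ ^ 2)) := by
  have h1 := hc.2 x hx
  simp only [Eb] at h1
  calc qf φ x = (qf φ x * Real.exp (-(T * ‖x - a‖) - T / (2 * ‖y - a‖) * ‖x - b‖ ^ 2)) *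
        Real.exp (T * ‖x - a‖ + T / (2 * ‖y - a‖) * ‖x - b‖ ^ 2) := by
        rw [mul_assoc, ← Real.exp_add]
        have : -(T * ‖x - a‖) - T / (2 * ‖y - a‖) * ‖x - b‖ ^ 2 +
          (T * ‖x - a‖ + T / (2 * ‖y - a‖) * ‖x - b‖ ^ 2) = 0 := by ring
        rw [this, Real.exp_zero, mul_one]
    _ ≤ (qf φ z * Real.exp (-(T * ‖z - a‖) - T / (2 * ‖y - a‖) * ‖z - b‖ ^ 2)) *
        Real.exp (T * ‖x - a‖ + T / (2 * ‖y - a‖) * ‖x - b‖ ^ 2) :=
        mul_le_mul_of_nonneg_right h1 (Real.exp_pos _).le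
    _ = _ := by
        rw [mul_assoc, ← Real.exp_add]
        congr 2
        ring

/-- (i): a contact point of `b ∈ closedBall y (ρ/20)` is in `Sig (1.55 T)`.
Proof: `|z-y| ≤ ρ/10`. For `x ∈ closedBall y (ρ/2)`:
`|x-b|² - |z-b|² ≤ |x-z| (|x-b| + |z-b|) ≤ 0.6 ρ |x-z|` and `local_le`; for other `x`:
`|x-z| ≥ 0.4ρ` and `global`. -/
theorem IsContact.mem_Sig (h : Loc q₁ l Λ φ Q) (hT : 0 < T) (hy : IsTop φ Λ T a y)
    (hρ : 0 < ‖y - a‖) (hd : closedBall y (‖y - a‖ / 2) ⊆ closedBall (0 : ℂ) (3 * Λ))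
    (hb : ‖b - y‖ ≤ ‖y - a‖ / 20) (hc : IsContact φ T a y b z) : z ∈ Sig φ Λ (1.55 * T) := by
  have hnear := hc.near h hT hy hρ hd
  have hzb : ‖z - b‖ ≤ ‖y - a‖ / 20 := by
    have := hnear.1
    rw [norm_sub_rev y b] at this
    linarith
  refine ⟨hd hc.1, fun x hx => ?_⟩
  have htri : ‖x - a‖ - ‖z - a‖ ≤ ‖x - z‖ := by
    have := norm_sub_norm_le (x - a) (z - a)
    rwa [sub_sub_sub_cancel_right] at this
  have hxz : 0 ≤ ‖x - z‖ := norm_nonneg _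
  by_cases hxy : x ∈ closedBall y (‖y - a‖ / 2)
  · refine (hc.local_le hxy).trans ?_
    apply mul_le_mul_of_nonneg_left _ hnear.2.le
    rw [Real.exp_le_exp]
    have hxy' : ‖x - y‖ ≤ ‖y - a‖ / 2 := by
      rw [mem_closedBall, dist_eq_norm] at hxy
      exact hxy
    have hxb : ‖x - b‖ ≤ 0.55 * ‖y - a‖ := by
      have h1 : x - b = (x - y) + (y - b) := by ring
      have h2 : ‖x - b‖ ≤ ‖x - y‖ + ‖y - b‖ := by
        rw [h1]; exact norm_add_le _ _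
      rw [norm_sub_rev y b] at h2
      linarith
    have hdiff : ‖x - b‖ - ‖z - b‖ ≤ ‖x - z‖ := by
      have := norm_sub_norm_le (x - b) (z - b)
      rwa [sub_sub_sub_cancel_right] at this
    have hsq : ‖x - b‖ ^ 2 - ‖z - b‖ ^ 2 ≤ ‖x - z‖ * (0.6 * ‖y - a‖) := by
      have e1 : ‖x - b‖ ^ 2 - ‖z - b‖ ^ 2 = (‖x - b‖ - ‖z - b‖) * (‖x - b‖ + ‖z - b‖) := by ring
      rw [e1]
      have e2 : 0 ≤ ‖x - b‖ + ‖z - b‖ := by positivity
      calc (‖x - b‖ - ‖z - b‖) * (‖x - b‖ + ‖z - b‖) ≤ ‖x - z‖ * (‖x - b‖ + ‖z - b‖) :=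
            mul_le_mul_of_nonneg_right hdiff e2
        _ ≤ ‖x - z‖ * (0.6 * ‖y - a‖) := by
            apply mul_le_mul_of_nonneg_left _ hxz
            linarith
    have hk : T / (2 * ‖y - a‖) * (‖x - b‖ ^ 2 - ‖z - b‖ ^ 2) ≤ 0.3 * T * ‖x - z‖ := by
      calc T / (2 * ‖y - a‖) * (‖x - b‖ ^ 2 - ‖z - b‖ ^ 2)
          ≤ T / (2 * ‖y - a‖) * (‖x - z‖ * (0.6 * ‖y - a‖)) :=
            mul_le_mul_of_nonneg_left hsq (by positivity)
        _ = 0.3 * T * ‖x - z‖ := by field_simp; ring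
    have hT2 : T * (‖x - a‖ - ‖z - a‖) ≤ T * ‖x - z‖ := mul_le_mul_of_nonneg_left htri hT.le
    have hT3 : 0 ≤ T * ‖x - z‖ := by positivity
    nlinarith
  · refine (hc.global h hT hy hρ hd hb hx).trans ?_
    apply mul_le_mul_of_nonneg_left _ hnear.2.le
    rw [Real.exp_le_exp]
    have hxy' : ‖y - a‖ / 2 < ‖x - y‖ := by
      rw [mem_closedBall, dist_eq_norm, not_le] at hxy
      exact hxy
    have hzy : ‖z - y‖ ≤ ‖y - a‖ / 10 := by
      have h1 : z - y = (z - b) + (b - y) := by ring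
      have h2 : ‖z - y‖ ≤ ‖z - b‖ + ‖b - y‖ := by
        rw [h1]; exact norm_add_le _ _
      linarith
    have hxz' : 0.4 * ‖y - a‖ ≤ ‖x - z‖ := by
      have h1 : x - y = (x - z) + (z - y) := by ring
      have h2 : ‖x - y‖ ≤ ‖x - z‖ + ‖z - y‖ := by
        rw [h1]; exact norm_add_le _ _
      linarith
    have hT2 : T * (‖x - a‖ - ‖z - a‖) ≤ T * ‖x - z‖ := mul_le_mul_of_nonneg_left htri hT.le
    have hT3 : T * (0.4 * ‖y - a‖) ≤ T * ‖x - z‖ := mul_le_mul_of_nonneg_left hxz' hT.le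
    have hT4 : 0 ≤ T * ‖x - z‖ := by positivity
    nlinarith

end FC34
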