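import Pool.Agent.W_fc1c69_h34.R1

/-! The second derivative test. -/

namespace FC34

open Complex MeasureTheory Metric Set

lemma secondTest_one {g : ℝ → ℝ} {c : ℝ} (hmin : IsLocalMin g 0)
    (hc : ContinuousAt g 0) (hd : HasDerivAt (deriv g) c 0) : 0 ≤ c := by
  by_contra hneg
  have hneg' : c < 0 := not_le.mp hneg
  have h0 : deriv g 0 = 0 := hmin.deriv_eq_zero
  have hdd : deriv (deriv g) 0 = c := hd.deriv
  have hmax : IsLocalMax g 0 := isLocalMax_of_deriv_deriv_neg (by rw [hdd]; exact hneg') h0 hc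
  have heq : g =ᶠ[nhds 0] fun _ => g 0 := by
    filter_upwards [hmin, hmax] with t h1 h2
    exact le_antisymm h2 h1
  have h1 : deriv g =ᶠ[nhds 0] fun _ => 0 := by
    have := heq.deriv
    simpa using this
  have h2 : deriv (deriv g) 0 = 0 := by
    rw [h1.deriv_eq]; simp
  rw [hdd] at h2
  linarith

lemma secondTest_fderiv2 {F : ℂ → ℝ} {z : ℂ} (hF : ContDiffAt ℝ 2 F z) :
    DifferentiableAt ℝ (fderiv ℝ F) z :=
  (hF.fderiv_right (m := 1) (by norm_num)).differentiableAt (by norm_num)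

lemma secondTest_apply {F : ℂ → ℝ} {z : ℂ} (hF : ContDiffAt ℝ 2 F z) (v w : ℂ) :
    fderiv ℝ (fun y => fderiv ℝ F y v) z w = fderiv ℝ (fderiv ℝ F) z w v := by
  have h1 := (secondTest_fderiv2 hF).hasFDerivAt
  have h2 := h1.clm_apply (hasFDerivAt_const v z)
  rw [h2.fderiv]
  simp

/-- Second derivative test at a local minimum of a `C²` function: the gradient vanishes and the
Hessian is nonnegative. Proof: one variable along the line `z + t w`. -/
theorem hess_nonneg_of_isLocalMin {F : ℂ → ℝ} {z : ℂ} (hF : ContDiffAt ℝ 2 F z)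
    (hmin : IsLocalMin F z) (w : ℂ) :
    px F z = 0 ∧ py F z = 0 ∧
      0 ≤ w.re ^ 2 * px (px F) z + 2 * w.re * w.im * px (py F) z + w.im ^ 2 * py (py F) z := by
  have hf0 : fderiv ℝ F z = 0 := hmin.fderiv_eq_zero
  refine ⟨by simp [px, hf0], by simp [py, hf0], ?_⟩
  -- the line
  have hline : ∀ t : ℝ, HasDerivAt (fun t : ℝ => z + (t : ℂ) * w) w t := by
    intro t
    have h1 : HasDerivAt (fun t : ℝ => (t : ℂ)) 1 t := Complex.ofRealCLM.hasDerivAt
    have h2 := (h1.mul_const w).const_add z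
    simpa using h2
  have hcont : Filter.Tendsto (fun t : ℝ => z + (t : ℂ) * w) (nhds 0) (nhds z) := by
    have h1 := (hline 0).continuousAt
    have h2 : (fun t : ℝ => z + (t : ℂ) * w) 0 = z := by simp
    have h3 : Filter.Tendsto (fun t : ℝ => z + (t : ℂ) * w) (nhds 0)
      (nhds ((fun t : ℝ => z + (t : ℂ) * w) 0)) := h1
    rwa [h2] at h3
  have hev : ∀ᶠ y in nhds z, DifferentiableAt ℝ F y := by
    have h1 : ∀ᶠ y in nhds z, ContDiffAt ℝ 2 F y := hF.eventually (by norm_num)
    filter_upwards [h1] with y hy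
    exact hy.differentiableAt (by norm_num)
  have hgd : ∀ᶠ t : ℝ in nhds 0, HasDerivAt (fun t : ℝ => F (z + (t : ℂ) * w))
      (fderiv ℝ F (z + (t : ℂ) * w) w) t := by
    filter_upwards [hcont.eventually hev] with t ht
    exact ht.hasFDerivAt.comp_hasDerivAt t (hline t)
  have hderiv : deriv (fun t : ℝ => F (z + (t : ℂ) * w)) =ᶠ[nhds 0]
      fun t : ℝ => fderiv ℝ F (z + (t : ℂ) * w) w := by
    filter_upwards [hgd] with t ht
    exact ht.deriv
  have hz0 : z + ((0 : ℝ) : ℂ) * w = z := by simp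
  have hdd : HasDerivAt (fun t : ℝ => fderiv ℝ F (z + (t : ℂ) * w) w)
      (fderiv ℝ (fderiv ℝ F) z w w) 0 := by
    have h1 : HasFDerivAt (fderiv ℝ F) (fderiv ℝ (fderiv ℝ F) z) (z + ((0 : ℝ) : ℂ) * w) := by
      rw [hz0]; exact (secondTest_fderiv2 hF).hasFDerivAt
    have h2 := h1.comp_hasDerivAt (0 : ℝ) (hline 0)
    have h3 := h2.clm_apply (hasDerivAt_const (0 : ℝ) w)
    simpa using h3
  have hdd' : HasDerivAt (deriv (fun t : ℝ => F (z + (t : ℂ) * w)))
      (fderiv ℝ (fderiv ℝ F) z w w) 0 := hdd.congr_of_eventuallyEq hderiv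
  have hming : IsLocalMin (fun t : ℝ => F (z + (t : ℂ) * w)) 0 := by
    have h1 : ∀ᶠ y in nhds z, F z ≤ F y := hmin
    have h2 := hcont.eventually h1
    show ∀ᶠ t : ℝ in nhds 0, F (z + ((0 : ℝ) : ℂ) * w) ≤ F (z + (t : ℂ) * w)
    rw [hz0]
    exact h2
  have hcg : ContinuousAt (fun t : ℝ => F (z + (t : ℂ) * w)) 0 :=
    hgd.self_of_nhds.continuousAt
  have key := secondTest_one hming hcg hdd'
  -- expand
  have hsym : ∀ a b : ℂ, fderiv ℝ (fderiv ℝ F) z a b = fderiv ℝ (fderiv ℝ F) z b a := by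
    intro a b
    exact (hF.isSymmSndFDerivAt (by simp)) a b
  have hw : w = w.re • (1 : ℂ) + w.im • Complex.I := by
    apply Complex.ext <;> simp
  have hxx : px (px F) z = fderiv ℝ (fderiv ℝ F) z 1 1 := secondTest_apply hF 1 1
  have hxy : px (py F) z = fderiv ℝ (fderiv ℝ F) z 1 Complex.I := secondTest_apply hF Complex.I 1
  have hyy : py (py F) z = fderiv ℝ (fderiv ℝ F) z Complex.I Complex.I :=
    secondTest_apply hF Complex.I Complex.I
  have hexp : fderiv ℝ (fderiv ℝ F) z w w =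
      w.re ^ 2 * px (px F) z + 2 * w.re * w.im * px (py F) z + w.im ^ 2 * py (py F) z := by
    rw [hxx, hxy, hyy]
    conv_lhs => rw [hw]
    simp only [map_add, map_smul, add_apply, smul_apply,
      smul_eq_mul]
    rw [hsym Complex.I 1]
    ring
  rw [← hexp]
  exact key

/-- Consequence: if `log q - G` has a local maximum at `z`, then `-Cv ≤ ΔG(z)` and the gradients
agree. -/
theorem lap_ge_of_isLocalMax {q₁ l : ℝ} {φ Q G : ℂ → ℝ} (hl : 0 ≤ l) {z : ℂ}
    (hφ : ContDiff ℝ 3 φ)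
    (hpde : ∀ᶠ w in nhds z, lap φ w = - Q w * φ w) (hQd : DifferentiableAt ℝ Q z)
    (hQl : ‖fderiv ℝ Q z‖ ≤ l) (hQ0 : 0 ≤ Q z) (hQ1 : Q z ≤ q₁) (hq : 0 < qf φ z)
    (hG : ContDiffAt ℝ 2 G z)
    (hmax : ∀ᶠ w in nhds z, qf φ w ≤ qf φ z * Real.exp (G w - G z)) :
    -Cv q₁ l ≤ lap G z := by
  have hR1 := lap_log_qf_ge hl hφ hpde hQd hQl hQ0 hQ1 hq
  have hlog : ContDiffAt ℝ 2 (fun w => Real.log (qf φ w)) z :=
    (contDiff_qf hφ).contDiffAt.log hq.ne'
  have hF : ContDiffAt ℝ 2 (fun w => G w - Real.log (qf φ w)) z := hG.sub hlog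
  have hpos : ∀ᶠ w in nhds z, 0 < qf φ w :=
    (contDiff_qf hφ).continuous.continuousAt.eventually (lt_mem_nhds hq)
  have hmin : IsLocalMin (fun w => G w - Real.log (qf φ w)) z := by
    show ∀ᶠ w in nhds z, G z - Real.log (qf φ z) ≤ G w - Real.log (qf φ w)
    filter_upwards [hmax, hpos] with w h1 h2
    have h3 := Real.log_le_log h2 h1
    rw [Real.log_mul hq.ne' (Real.exp_pos _).ne', Real.log_exp] at h3
    linarith
  obtain ⟨-, -, h1⟩ := hess_nonneg_of_isLocalMin hF hmin 1
  obtain ⟨-, -, h2⟩ := hess_nonneg_of_isLocalMin hF hmin Complex.I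
  simp only [Complex.one_re, Complex.one_im, Complex.I_re, Complex.I_im] at h1 h2
  have hsub : ∀ v w : ℂ, fderiv ℝ (fderiv ℝ (fun w => G w - Real.log (qf φ w))) z v w =
      fderiv ℝ (fderiv ℝ G) z v w - fderiv ℝ (fderiv ℝ (fun w => Real.log (qf φ w))) z v w := by
    intro v w
    have hevG : ∀ᶠ y in nhds z, DifferentiableAt ℝ G y := by
      have h1 : ∀ᶠ y in nhds z, ContDiffAt ℝ 2 G y := hG.eventually (by norm_num)
      filter_upwards [h1] with y hy
      exact hy.differentiableAt (by norm_num)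
    have hevL : ∀ᶠ y in nhds z, DifferentiableAt ℝ (fun w => Real.log (qf φ w)) y := by
      have h1 : ∀ᶠ y in nhds z, ContDiffAt ℝ 2 (fun w => Real.log (qf φ w)) y :=
        hlog.eventually (by norm_num)
      filter_upwards [h1] with y hy
      exact hy.differentiableAt (by norm_num)
    have he : fderiv ℝ (fun w => G w - Real.log (qf φ w)) =ᶠ[nhds z]
        fun y => fderiv ℝ G y - fderiv ℝ (fun w => Real.log (qf φ w)) y := by
      filter_upwards [hevG, hevL] with y h1 h2
      exact fderiv_fun_sub h1 h2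
    rw [he.fderiv_eq, fderiv_fun_sub (secondTest_fderiv2 hG) (secondTest_fderiv2 hlog)]
    rfl
  have e1 : px (px (fun w => G w - Real.log (qf φ w))) z =
      px (px G) z - px (px (fun w => Real.log (qf φ w))) z := by
    have a1 : px (px (fun w => G w - Real.log (qf φ w))) z = _ := secondTest_apply hF 1 1
    have a2 : px (px G) z = _ := secondTest_apply hG 1 1
    have a3 : px (px (fun w => Real.log (qf φ w))) z = _ := secondTest_apply hlog 1 1
    rw [a1, a2, a3]
    exact hsub 1 1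
  have e2 : py (py (fun w => G w - Real.log (qf φ w))) z =
      py (py G) z - py (py (fun w => Real.log (qf φ w))) z := by
    have a1 : py (py (fun w => G w - Real.log (qf φ w))) z = _ :=
      secondTest_apply hF Complex.I Complex.I
    have a2 : py (py G) z = _ := secondTest_apply hG Complex.I Complex.I
    have a3 : py (py (fun w => Real.log (qf φ w))) z = _ :=
      secondTest_apply hlog Complex.I Complex.I
    rw [a1, a2, a3]
    exact hsub Complex.I Complex.I
  rw [e1, e2] at h1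
  rw [e1, e2] at h2
  unfold lap at hR1 ⊢
  nlinarith

end FC34
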