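import Pool.Agent.W_fc1c69_h34.Contact
import Pool.Agent.W_fc1c69_h34.SecondTest

/-! Regime A of Lemma 3: `ρ ≤ T/Cv`, by the area inequality. -/

namespace FC34

open Complex MeasureTheory Metric Set

/-! ### calculus -/

theorem ContactA_ev {F : ℂ → ℝ} {z : ℂ} (hF : ContDiffAt ℝ 2 F z) :
    ∀ᶠ x in nhds z, DifferentiableAt ℝ F x := by
  have h1 : ∀ᶠ x in nhds z, ContDiffAt ℝ 2 F x := hF.eventually (by norm_num)
  filter_upwards [h1] with x hx
  exact hx.differentiableAt (by norm_num)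

theorem ContactA_d2 {F : ℂ → ℝ} {z : ℂ} (hF : ContDiffAt ℝ 2 F z) (v : ℂ) :
    DifferentiableAt ℝ (fun x => fderiv ℝ F x v) z :=
  (secondTest_fderiv2 hF).clm_apply (differentiableAt_const v)

theorem ContactA_lin1 {F G : ℂ → ℝ} {z : ℂ} (hF : DifferentiableAt ℝ F z)
    (hG : DifferentiableAt ℝ G z) (c d : ℝ) (v : ℂ) :
    fderiv ℝ (fun x => c * F x + d * G x) z v = c * fderiv ℝ F z v + d * fderiv ℝ G z v := by
  rw [((hF.hasFDerivAt.const_mul c).fun_add (hG.hasFDerivAt.const_mul d)).fderiv]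
  simp

theorem ContactA_lin2 {F G : ℂ → ℝ} {z : ℂ} (hF : ContDiffAt ℝ 2 F z)
    (hG : ContDiffAt ℝ 2 G z) (c d : ℝ) (v w : ℂ) :
    fderiv ℝ (fun y => fderiv ℝ (fun x => c * F x + d * G x) y v) z w =
      c * fderiv ℝ (fun y => fderiv ℝ F y v) z w + d * fderiv ℝ (fun y => fderiv ℝ G y v) z w := by
  have h1 : (fun y => fderiv ℝ (fun x => c * F x + d * G x) y v) =ᶠ[nhds z]
      fun y => c * fderiv ℝ F y v + d * fderiv ℝ G y v := by
    filter_upwards [ContactA_ev hF, ContactA_ev hG] with y h1 h2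
    exact ContactA_lin1 h1 h2 c d v
  rw [h1.fderiv_eq, ContactA_lin1 (ContactA_d2 hF v) (ContactA_d2 hG v)]

theorem ContactA_inner (w v : ℂ) : (inner ℝ w v : ℝ) = w.re * v.re + w.im * v.im := by
  simp [Complex.inner]
  ring

theorem ContactA_nsq (c : ℝ) (b x v : ℂ) : fderiv ℝ (fun x => c * ‖x - b‖ ^ 2) x v =
    2 * c * ((x - b).re * v.re + (x - b).im * v.im) := by
  have h1 : HasFDerivAt (fun x : ℂ => x - b) (ContinuousLinearMap.id ℝ ℂ) x :=
    (hasFDerivAt_id x).sub_const b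
  rw [(h1.norm_sq.const_mul c).fderiv]
  simp only [smul_apply, ContinuousLinearMap.comp_apply, ContinuousLinearMap.id_apply,
    innerSL_apply_apply, ContactA_inner, nsmul_eq_mul, smul_eq_mul]
  push_cast
  ring

theorem ContactA_nsq2 (c : ℝ) (b x v w : ℂ) :
    fderiv ℝ (fun y => fderiv ℝ (fun x => c * ‖x - b‖ ^ 2) y v) x w =
      2 * c * (w.re * v.re + w.im * v.im) := by
  have h1 : (fun y => fderiv ℝ (fun x => c * ‖x - b‖ ^ 2) y v) =
      fun y => 2 * c * ((y - b).re * v.re + (y - b).im * v.im) :=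
    funext fun y => ContactA_nsq c b y v
  have h0 : HasFDerivAt (fun y : ℂ => y - b) (ContinuousLinearMap.id ℝ ℂ) x :=
    (hasFDerivAt_id x).sub_const b
  have h2 : HasFDerivAt (fun y : ℂ => (y - b).re) (Complex.reCLM.comp
      (ContinuousLinearMap.id ℝ ℂ)) x := Complex.reCLM.hasFDerivAt.comp x h0
  have h3 : HasFDerivAt (fun y : ℂ => (y - b).im) (Complex.imCLM.comp
      (ContinuousLinearMap.id ℝ ℂ)) x := Complex.imCLM.hasFDerivAt.comp x h0
  rw [h1, (((h2.mul_const v.re).fun_add (h3.mul_const v.im)).const_mul (2 * c)).fderiv]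
  simp
  ring

theorem ContactA_norm {a x : ℂ} (hx : x ≠ a) : HasFDerivAt (fun x => ‖x - a‖)
    ((1 / ‖x - a‖) • innerSL ℝ (x - a)) x := by
  have h1 : HasFDerivAt (fun x : ℂ => x - a) (ContinuousLinearMap.id ℝ ℂ) x :=
    (hasFDerivAt_id x).sub_const a
  have h0 : ‖x - a‖ ≠ 0 := norm_ne_zero_iff.2 (sub_ne_zero.2 hx)
  have h2 := h1.norm_sq.sqrt (pow_ne_zero 2 h0)
  have h3 : (fun x => √(‖x - a‖ ^ 2)) = fun x => ‖x - a‖ :=
    funext fun x => Real.sqrt_sq (norm_nonneg _)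
  rw [h3] at h2
  refine h2.congr_fderiv ?_
  ext v
  rw [Real.sqrt_sq (norm_nonneg _)]
  simp only [smul_apply, ContinuousLinearMap.comp_apply, ContinuousLinearMap.id_apply,
    innerSL_apply_apply, nsmul_eq_mul, smul_eq_mul]
  push_cast
  field_simp

theorem ContactA_norm1 {a x : ℂ} (hx : x ≠ a) (v : ℂ) : fderiv ℝ (fun x => ‖x - a‖) x v =
    ((x - a).re * v.re + (x - a).im * v.im) / ‖x - a‖ := by
  rw [(ContactA_norm hx).fderiv]
  simp only [smul_apply, innerSL_apply_apply, ContactA_inner, smul_eq_mul]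
  ring

theorem ContactA_norm2 {a x : ℂ} (hx : x ≠ a) (v w : ℂ) :
    fderiv ℝ (fun y => fderiv ℝ (fun x => ‖x - a‖) y v) x w =
      (w.re * v.re + w.im * v.im) / ‖x - a‖ - ((x - a).re * v.re + (x - a).im * v.im) *
        ((x - a).re * w.re + (x - a).im * w.im) / ‖x - a‖ ^ 3 := by
  have hne : ∀ᶠ y in nhds x, y ≠ a := isOpen_ne.mem_nhds hx
  have h1 : (fun y => fderiv ℝ (fun x => ‖x - a‖) y v) =ᶠ[nhds x]
      fun y => ((y - a).re * v.re + (y - a).im * v.im) / ‖y - a‖ := by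
    filter_upwards [hne] with y hy
    exact ContactA_norm1 hy v
  have hn0 : ‖x - a‖ ≠ 0 := norm_ne_zero_iff.2 (sub_ne_zero.2 hx)
  have h0 : HasFDerivAt (fun y : ℂ => y - a) (ContinuousLinearMap.id ℝ ℂ) x :=
    (hasFDerivAt_id x).sub_const a
  have h2 : HasFDerivAt (fun y : ℂ => (y - a).re) (Complex.reCLM.comp
      (ContinuousLinearMap.id ℝ ℂ)) x := Complex.reCLM.hasFDerivAt.comp x h0
  have h3 : HasFDerivAt (fun y : ℂ => (y - a).im) (Complex.imCLM.comp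
      (ContinuousLinearMap.id ℝ ℂ)) x := Complex.imCLM.hasFDerivAt.comp x h0
  have h4 := (h2.mul_const v.re).fun_add (h3.mul_const v.im)
  have h6 : HasFDerivAt (fun y : ℂ => (‖y - a‖)⁻¹)
      ((-(‖x - a‖ ^ 2)⁻¹) • ((1 / ‖x - a‖) • innerSL ℝ (x - a))) x :=
    (hasDerivAt_inv hn0).comp_hasFDerivAt x (ContactA_norm hx)
  have h5 := h4.fun_mul h6
  have h7 : (fun y : ℂ => ((y - a).re * v.re + (y - a).im * v.im) / ‖y - a‖) =
      fun y => ((y - a).re * v.re + (y - a).im * v.im) * (‖y - a‖)⁻¹ :=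
    funext fun y => div_eq_mul_inv _ _
  rw [h1.fderiv_eq, h7, h5.fderiv]
  simp only [smul_apply, add_apply, ContinuousLinearMap.comp_apply,
    ContinuousLinearMap.id_apply, innerSL_apply_apply, ContactA_inner, smul_eq_mul,
    Complex.reCLM_apply, Complex.imCLM_apply]
  field_simp
  ring

theorem ContactA_det (M : ℂ →L[ℝ] ℂ) :
    M.det = (M 1).re * (M Complex.I).im - (M Complex.I).re * (M 1).im := by
  rw [ContinuousLinearMap.det, ← LinearMap.det_toMatrix Complex.basisOneI, Matrix.det_fin_two]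
  simp [LinearMap.toMatrix_apply]

/-- The set of contact points for parameters in `closedBall y (ρ/20)`. -/
def ContactSet (φ : ℂ → ℝ) (T : ℝ) (a y : ℂ) : Set ℂ :=
  {z | ∃ b ∈ closedBall y (‖y - a‖ / 20), IsContact φ T a y b z}

theorem Loc.isCompact_contactSet {q₁ l Λ T : ℝ} {φ Q : ℂ → ℝ} (h : Loc q₁ l Λ φ Q) (a y : ℂ) :
    IsCompact (ContactSet φ T a y) := by
  have hq := h.continuous_qf
  have hE : ∀ f g : ℂ × ℂ → ℂ, Continuous f → Continuous g →
      Continuous fun w => Eb φ T ‖y - a‖ a (f w) (g w) := by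
    intro f g hf hg
    unfold Eb
    exact (hq.comp hg).mul (by fun_prop)
  have hK : IsCompact {w : ℂ × ℂ | w ∈ closedBall y (‖y - a‖ / 20) ×ˢ closedBall y (‖y - a‖ / 2) ∧
      ∀ x ∈ closedBall y (‖y - a‖ / 2), Eb φ T ‖y - a‖ a w.1 x ≤ Eb φ T ‖y - a‖ a w.1 w.2} := by
    refine IsCompact.of_isClosed_subset
      ((isCompact_closedBall y (‖y - a‖ / 20)).prod (isCompact_closedBall y (‖y - a‖ / 2))) ?_
      (fun w hw => hw.1)
    have h1 : {w : ℂ × ℂ | w ∈ closedBall y (‖y - a‖ / 20) ×ˢ closedBall y (‖y - a‖ / 2) ∧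
        ∀ x ∈ closedBall y (‖y - a‖ / 2), Eb φ T ‖y - a‖ a w.1 x ≤ Eb φ T ‖y - a‖ a w.1 w.2} =
        (closedBall y (‖y - a‖ / 20) ×ˢ closedBall y (‖y - a‖ / 2)) ∩
          ⋂ x ∈ closedBall y (‖y - a‖ / 2),
            {w : ℂ × ℂ | Eb φ T ‖y - a‖ a w.1 x ≤ Eb φ T ‖y - a‖ a w.1 w.2} := by
      ext w
      simp only [mem_ofPred_eq, mem_inter_iff, mem_iInter]
    rw [h1]
    refine (isClosed_closedBall.prod isClosed_closedBall).inter ?_
    exact isClosed_biInter fun x _ => isClosed_le (hE _ _ continuous_fst continuous_const)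
      (hE _ _ continuous_fst continuous_snd)
  have h2 : ContactSet φ T a y = Prod.snd '' {w : ℂ × ℂ |
      w ∈ closedBall y (‖y - a‖ / 20) ×ˢ closedBall y (‖y - a‖ / 2) ∧
      ∀ x ∈ closedBall y (‖y - a‖ / 2), Eb φ T ‖y - a‖ a w.1 x ≤ Eb φ T ‖y - a‖ a w.1 w.2} := by
    ext z
    constructor
    · rintro ⟨b, hb, hz, hx⟩
      exact ⟨(b, z), ⟨⟨hb, hz⟩, hx⟩, rfl⟩
    · rintro ⟨⟨b, z'⟩, ⟨⟨hb, hz⟩, hx⟩, rfl⟩
      exact ⟨b, hb, hz, hx⟩
  rw [h2]
  exact hK.image continuous_snd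

/-- `H(x) = T|x-a| - log q(x)`; the contact map is `β(z) = z + (ρ/T) ∇H(z)`. -/
noncomputable def HH (φ : ℂ → ℝ) (T : ℝ) (a x : ℂ) : ℝ := T * ‖x - a‖ - Real.log (qf φ x)

noncomputable def betaMap (φ : ℂ → ℝ) (T ρ : ℝ) (a z : ℂ) : ℂ :=
  z + ((ρ / T * px (HH φ T a) z : ℝ) : ℂ) + ((ρ / T * py (HH φ T a) z : ℝ) : ℂ) * Complex.I

theorem ContactA_HH {φ : ℂ → ℝ} {T : ℝ} {a z : ℂ} (hφ : ContDiff ℝ 3 φ) (hza : z ≠ a)
    (hq : 0 < qf φ z) : ContDiffAt ℝ 2 (HH φ T a) z := by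
  have hN : ContDiffAt ℝ 2 (fun x : ℂ => ‖x - a‖) z :=
    (contDiffAt_id.sub contDiffAt_const).norm ℝ (sub_ne_zero.2 hza)
  have hL : ContDiffAt ℝ 2 (fun x => Real.log (qf φ x)) z :=
    (contDiff_qf hφ).contDiffAt.log hq.ne'
  exact (contDiffAt_const.mul hN).sub hL

theorem ContactA_near {q₁ l Λ T : ℝ} {φ Q : ℂ → ℝ} {a y b z : ℂ} (h : Loc q₁ l Λ φ Q)
    (hT : 0 < T) (hy : IsTop φ Λ T a y) (hρ : 0 < ‖y - a‖)
    (hd : closedBall y (‖y - a‖ / 2) ⊆ closedBall (0 : ℂ) (3 * Λ))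
    (hb : ‖b - y‖ ≤ ‖y - a‖ / 20) (hc : IsContact φ T a y b z) :
    z ≠ a ∧ 0 < qf φ z ∧ ‖z - y‖ ≤ ‖y - a‖ / 10 ∧ 9 / 10 * ‖y - a‖ ≤ ‖z - a‖ := by
  obtain ⟨h1, h2⟩ := hc.near h hT hy hρ hd
  have h3 : ‖z - y‖ ≤ ‖y - a‖ / 10 := by
    have h4 : z - y = (z - b) + (b - y) := by ring
    have h5 := norm_add_le (z - b) (b - y)
    rw [← h4] at h5
    have h6 : ‖y - b‖ = ‖b - y‖ := norm_sub_rev y b
    linarith
  have h7 : 9 / 10 * ‖y - a‖ ≤ ‖z - a‖ := by
    have h4 : y - a = (y - z) + (z - a) := by ring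
    have h5 := norm_add_le (y - z) (z - a)
    rw [← h4, norm_sub_rev y z] at h5
    linarith
  refine ⟨?_, h2, h3, h7⟩
  rintro rfl
  rw [sub_self, norm_zero] at h7
  linarith

/-- At a contact point `z` of `b` (with `|b-y| ≤ ρ/20`, so that `z` is interior and `q(z) > 0`) the
function `H(x) + (T/2ρ)|x-b|²` has a local minimum; hence `β(z) = b` and the Hessian of `H` is
`≥ -T/ρ`. -/
theorem IsContact.beta_eq {q₁ l Λ T : ℝ} {φ Q : ℂ → ℝ} {a y b z : ℂ} (h : Loc q₁ l Λ φ Q)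
    (hT : 0 < T) (hy : IsTop φ Λ T a y) (hρ : 0 < ‖y - a‖)
    (hd : closedBall y (‖y - a‖ / 2) ⊆ closedBall (0 : ℂ) (3 * Λ))
    (hb : ‖b - y‖ ≤ ‖y - a‖ / 20) (hc : IsContact φ T a y b z) :
    betaMap φ T ‖y - a‖ a z = b ∧
      ∀ w : ℂ, -(T / ‖y - a‖) * ‖w‖ ^ 2 ≤ w.re ^ 2 * px (px (HH φ T a)) z +
        2 * w.re * w.im * px (py (HH φ T a)) z + w.im ^ 2 * py (py (HH φ T a)) z := by
  obtain ⟨hza, hq, hzy, -⟩ := ContactA_near h hT hy hρ hd hb hc
  have hHH := ContactA_HH (T := T) h.smooth hza hq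
  have hG : ContDiffAt ℝ 2 (fun x : ℂ => T / (2 * ‖y - a‖) * ‖x - b‖ ^ 2) z :=
    contDiffAt_const.mul ((contDiffAt_id.sub contDiffAt_const).norm_sq ℝ)
  have hF : ContDiffAt ℝ 2 (fun x => 1 * HH φ T a x + 1 *
      (T / (2 * ‖y - a‖) * ‖x - b‖ ^ 2)) z :=
    (contDiffAt_const.mul hHH).add (contDiffAt_const.mul hG)
  have hmin : IsLocalMin (fun x => 1 * HH φ T a x + 1 *
      (T / (2 * ‖y - a‖) * ‖x - b‖ ^ 2)) z := by
    have h1 : ∀ᶠ x in nhds z, x ∈ closedBall y (‖y - a‖ / 2) := by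
      have h2 : z ∈ ball y (‖y - a‖ / 2) := by
        rw [mem_ball, dist_eq_norm]
        linarith
      filter_upwards [isOpen_ball.mem_nhds h2] with x hx
      exact ball_subset_closedBall hx
    have h3 : ∀ᶠ x in nhds z, 0 < qf φ x :=
      h.continuous_qf.continuousAt.eventually (lt_mem_nhds hq)
    show ∀ᶠ x in nhds z, 1 * HH φ T a z + 1 * (T / (2 * ‖y - a‖) * ‖z - b‖ ^ 2) ≤
      1 * HH φ T a x + 1 * (T / (2 * ‖y - a‖) * ‖x - b‖ ^ 2)
    filter_upwards [h1, h3] with x hx hqx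
    have h4 := hc.2 x hx
    unfold Eb at h4
    have h5 := Real.log_le_log (mul_pos hqx (Real.exp_pos _)) h4
    rw [Real.log_mul hqx.ne' (Real.exp_pos _).ne', Real.log_mul hq.ne' (Real.exp_pos _).ne',
      Real.log_exp, Real.log_exp] at h5
    unfold HH
    linarith
  have hc1 : ∀ v : ℂ, fderiv ℝ (fun x => 1 * HH φ T a x + 1 *
      (T / (2 * ‖y - a‖) * ‖x - b‖ ^ 2)) z v = fderiv ℝ (HH φ T a) z v +
        T / ‖y - a‖ * ((z - b).re * v.re + (z - b).im * v.im) := by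
    intro v
    rw [ContactA_lin1 (hHH.differentiableAt (by norm_num)) (hG.differentiableAt (by norm_num)),
      ContactA_nsq]
    ring
  have hc2 : ∀ v w : ℂ, fderiv ℝ (fun y' => fderiv ℝ (fun x => 1 * HH φ T a x + 1 *
      (T / (2 * ‖y - a‖) * ‖x - b‖ ^ 2)) y' v) z w =
        fderiv ℝ (fun y' => fderiv ℝ (HH φ T a) y' v) z w +
        T / ‖y - a‖ * (w.re * v.re + w.im * v.im) := by
    intro v w
    rw [ContactA_lin2 hHH hG, ContactA_nsq2]
    ring
  have hρ0 : ‖y - a‖ ≠ 0 := hρ.ne'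
  have hT0 : T ≠ 0 := hT.ne'
  obtain ⟨p1, p2, -⟩ := hess_nonneg_of_isLocalMin hF hmin 1
  unfold px at p1
  unfold py at p2
  rw [hc1] at p1 p2
  simp only [Complex.one_re, Complex.one_im, Complex.I_re, Complex.I_im] at p1 p2
  constructor
  · have e1 : px (HH φ T a) z = -(T / ‖y - a‖ * (z - b).re) := by
      unfold px
      linarith
    have e2 : py (HH φ T a) z = -(T / ‖y - a‖ * (z - b).im) := by
      unfold py
      linarith
    unfold betaMap
    rw [e1, e2]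
    have e3 : ‖y - a‖ / T * -(T / ‖y - a‖ * (z - b).re) = -(z - b).re := by
      field_simp
    have e4 : ‖y - a‖ / T * -(T / ‖y - a‖ * (z - b).im) = -(z - b).im := by
      field_simp
    rw [e3, e4]
    apply Complex.ext
    · simp
    · simp
  · intro w
    obtain ⟨-, -, p3⟩ := hess_nonneg_of_isLocalMin hF hmin w
    have e1 : px (px (fun x => 1 * HH φ T a x + 1 *
        (T / (2 * ‖y - a‖) * ‖x - b‖ ^ 2))) z = px (px (HH φ T a)) z + T / ‖y - a‖ := by
      have := hc2 1 1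
      simp only [Complex.one_re, Complex.one_im] at this
      unfold px
      rw [this]
      ring
    have e2 : px (py (fun x => 1 * HH φ T a x + 1 *
        (T / (2 * ‖y - a‖) * ‖x - b‖ ^ 2))) z = px (py (HH φ T a)) z := by
      have := hc2 Complex.I 1
      simp only [Complex.one_re, Complex.one_im, Complex.I_re, Complex.I_im] at this
      unfold px py
      rw [this]
      ring
    have e3 : py (py (fun x => 1 * HH φ T a x + 1 *
        (T / (2 * ‖y - a‖) * ‖x - b‖ ^ 2))) z = py (py (HH φ T a)) z + T / ‖y - a‖ := by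
      have := hc2 Complex.I Complex.I
      simp only [Complex.I_re, Complex.I_im] at this
      unfold py
      rw [this]
      ring
    rw [e1, e2, e3] at p3
    have e4 : ‖w‖ ^ 2 = w.re ^ 2 + w.im ^ 2 := by
      rw [← Complex.normSq_eq_norm_sq, Complex.normSq_apply]
      ring
    rw [e4]
    linarith

/-- Upper bound for `ΔH` at a point with `q > 0` of the domain: `ΔH ≤ T/|z-a| + Cv`
(`Δ|x-a| = 1/|x-a|`, `lap_log_qf_ge`). -/
theorem Loc.lap_HH_le {q₁ l Λ T : ℝ} {φ Q : ℂ → ℝ} {a z : ℂ} (h : Loc q₁ l Λ φ Q)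
    (hz : z ∈ ball (0 : ℂ) (4 * Λ)) (hza : z ≠ a) (hq : 0 < qf φ z) :
    lap (HH φ T a) z ≤ T / ‖z - a‖ + Cv q₁ l := by
  have hN : ContDiffAt ℝ 2 (fun x : ℂ => ‖x - a‖) z :=
    (contDiffAt_id.sub contDiffAt_const).norm ℝ (sub_ne_zero.2 hza)
  have hL : ContDiffAt ℝ 2 (fun x => Real.log (qf φ x)) z :=
    (contDiff_qf h.smooth).contDiffAt.log hq.ne'
  have hHH : HH φ T a = fun x => T * ‖x - a‖ + (-1) * Real.log (qf φ x) := by
    funext x
    unfold HH
    ring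
  have hR1 : -Cv q₁ l ≤ lap (fun w => Real.log (qf φ w)) z := by
    refine lap_log_qf_ge h.hl h.smooth ?_ (h.hQd z hz) ?_ (h.hQ z hz).1 (h.hQ z hz).2 hq
    · filter_upwards [isOpen_ball.mem_nhds hz] with w hw
      exact h.pde w hw
    · refine (h.hQl z hz).trans ?_
      exact div_le_self h.hl h.hΛ
  have e1 : px (px (HH φ T a)) z = T * (1 / ‖z - a‖ - (z - a).re * (z - a).re / ‖z - a‖ ^ 3) -
      px (px fun w => Real.log (qf φ w)) z := by
    have := ContactA_lin2 hN hL T (-1) 1 1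
    rw [ContactA_norm2 hza] at this
    simp only [Complex.one_re, Complex.one_im] at this
    rw [hHH]
    unfold px
    rw [this]
    ring
  have e2 : py (py (HH φ T a)) z = T * (1 / ‖z - a‖ - (z - a).im * (z - a).im / ‖z - a‖ ^ 3) -
      py (py fun w => Real.log (qf φ w)) z := by
    have := ContactA_lin2 hN hL T (-1) Complex.I Complex.I
    rw [ContactA_norm2 hza] at this
    simp only [Complex.I_re, Complex.I_im] at this
    rw [hHH]
    unfold py
    rw [this]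
    ring
  have hn0 : ‖z - a‖ ≠ 0 := norm_ne_zero_iff.2 (sub_ne_zero.2 hza)
  have e3 : (z - a).re * (z - a).re + (z - a).im * (z - a).im = ‖z - a‖ ^ 2 := by
    rw [← Complex.normSq_eq_norm_sq, Complex.normSq_apply]
  have e4 : (z - a).re * (z - a).re / ‖z - a‖ ^ 3 + (z - a).im * (z - a).im / ‖z - a‖ ^ 3 =
      1 / ‖z - a‖ := by
    rw [← add_div, e3]
    field_simp
  have e5 : lap (HH φ T a) z = T / ‖z - a‖ - lap (fun w => Real.log (qf φ w)) z := by
    unfold lap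
    rw [e1, e2]
    have e6 : T * (1 / ‖z - a‖ - (z - a).re * (z - a).re / ‖z - a‖ ^ 3) +
        T * (1 / ‖z - a‖ - (z - a).im * (z - a).im / ‖z - a‖ ^ 3) = T / ‖z - a‖ := by
      have e7 : T * (1 / ‖z - a‖ - (z - a).re * (z - a).re / ‖z - a‖ ^ 3) +
        T * (1 / ‖z - a‖ - (z - a).im * (z - a).im / ‖z - a‖ ^ 3) = T * (1 / ‖z - a‖ +
          1 / ‖z - a‖ - ((z - a).re * (z - a).re / ‖z - a‖ ^ 3 +
            (z - a).im * (z - a).im / ‖z - a‖ ^ 3)) := by ring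
      rw [e7, e4]
      ring
    linarith
  rw [e5]
  linarith

/-- The determinant of the derivative of the contact map at a contact point is between `0` and `9`
if `ρ ≤ T/Cv`: with `M = Id + (ρ/T) D²H ≥ 0`, `tr M ≤ 2 + (ρ/T)(T/(0.9ρ) + Cv) ≤ 4.2`,
`0 ≤ det M ≤ (tr M/2)² ≤ 9`. -/
theorem IsContact.exists_fderiv {q₁ l Λ T : ℝ} {φ Q : ℂ → ℝ} {a y b z : ℂ}
    (h : Loc q₁ l Λ φ Q)
    (hT : 0 < T) (hy : IsTop φ Λ T a y) (hρ : 0 < ‖y - a‖) (hA : ‖y - a‖ ≤ T / Cv q₁ l)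
    (hd : closedBall y (‖y - a‖ / 2) ⊆ closedBall (0 : ℂ) (3 * Λ))
    (hb : ‖b - y‖ ≤ ‖y - a‖ / 20) (hc : IsContact φ T a y b z) :
    ∃ M : ℂ →L[ℝ] ℂ, HasFDerivAt (betaMap φ T ‖y - a‖ a) M z ∧ |M.det| ≤ 9 := by
  obtain ⟨hza, hq, hzy, hzl⟩ := ContactA_near h hT hy hρ hd hb hc
  have hHH := ContactA_HH (T := T) h.smooth hza hq
  have hz4 : z ∈ ball (0 : ℂ) (4 * Λ) := by
    have h1 := hd hc.1
    have h2 := h.hΛ
    rw [mem_closedBall] at h1
    rw [mem_ball]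
    linarith
  have hlap := h.lap_HH_le (T := T) hz4 hza hq
  obtain ⟨-, hpos⟩ := hc.beta_eq h hT hy hρ hd hb
  have hCv : 0 < Cv q₁ l := by
    have h1 := h.hq
    have h2 := h.hl
    unfold Cv
    positivity
  set r : ℝ := ‖y - a‖ / T with hr
  have hr0 : 0 < r := div_pos hρ hT
  have hrT : r * (T / ‖y - a‖) = 1 := by
    rw [hr]
    field_simp
  set Dx : ℂ →L[ℝ] ℝ := fderiv ℝ (px (HH φ T a)) z with hDx
  set Dy : ℂ →L[ℝ] ℝ := fderiv ℝ (py (HH φ T a)) z with hDy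
  have hdx : HasFDerivAt (px (HH φ T a)) Dx z := (ContactA_d2 hHH 1).hasFDerivAt
  have hdy : HasFDerivAt (py (HH φ T a)) Dy z := (ContactA_d2 hHH Complex.I).hasFDerivAt
  have hsym : Dx Complex.I = Dy 1 := by
    have e1 : Dx Complex.I = fderiv ℝ (fderiv ℝ (HH φ T a)) z Complex.I 1 :=
      secondTest_apply hHH 1 Complex.I
    have e2 : Dy 1 = fderiv ℝ (fderiv ℝ (HH φ T a)) z 1 Complex.I :=
      secondTest_apply hHH Complex.I 1
    rw [e1, e2]
    exact (hHH.isSymmSndFDerivAt (by simp)) Complex.I 1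
  refine ⟨ContinuousLinearMap.id ℝ ℂ + Complex.ofRealCLM.comp (r • Dx) +
    Complex.I • Complex.ofRealCLM.comp (r • Dy), ?_, ?_⟩
  · have h1 : HasFDerivAt (fun z => ((r * px (HH φ T a) z : ℝ) : ℂ))
        (Complex.ofRealCLM.comp (r • Dx)) z :=
      Complex.ofRealCLM.hasFDerivAt.comp z (hdx.const_mul r)
    have h2 : HasFDerivAt (fun z => ((r * py (HH φ T a) z : ℝ) : ℂ))
        (Complex.ofRealCLM.comp (r • Dy)) z :=
      Complex.ofRealCLM.hasFDerivAt.comp z (hdy.const_mul r)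
    exact ((hasFDerivAt_id z).fun_add h1).fun_add (h2.mul_const Complex.I)
  · rw [ContactA_det]
    simp only [add_apply, smul_apply, ContinuousLinearMap.id_apply,
      ContinuousLinearMap.comp_apply, Complex.ofRealCLM_apply, smul_eq_mul, Complex.add_re,
      Complex.add_im, Complex.mul_re, Complex.mul_im, Complex.one_re, Complex.one_im,
      Complex.I_re, Complex.I_im, Complex.ofReal_re, Complex.ofReal_im]
    have hA1 : Dx 1 = px (px (HH φ T a)) z := rfl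
    have hB1 : Dy 1 = px (py (HH φ T a)) z := rfl
    have hC1 : Dy Complex.I = py (py (HH φ T a)) z := rfl
    rw [hsym, hA1, hB1, hC1]
    have hlap2 : px (px (HH φ T a)) z + py (py (HH φ T a)) z ≤ T / ‖z - a‖ + Cv q₁ l := hlap
    generalize px (px (HH φ T a)) z = Hx at hpos hlap2
    generalize py (py (HH φ T a)) z = Hy at hpos hlap2
    generalize px (py (HH φ T a)) z = Hm at hpos
    have hp : ∀ s t : ℝ, 0 ≤ (1 + r * Hx) * s ^ 2 + 2 * (r * Hm) * (s * t) +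
        (1 + r * Hy) * t ^ 2 := by
      intro s t
      have h1 := hpos (⟨s, t⟩ : ℂ)
      have h2 : ‖(⟨s, t⟩ : ℂ)‖ ^ 2 = s ^ 2 + t ^ 2 := by
        rw [← Complex.normSq_eq_norm_sq, Complex.normSq_apply]
        ring
      rw [h2] at h1
      have h3 := mul_le_mul_of_nonneg_left h1 hr0.le
      have h4 : r * (-(T / ‖y - a‖) * (s ^ 2 + t ^ 2)) = -(s ^ 2 + t ^ 2) := by
        calc r * (-(T / ‖y - a‖) * (s ^ 2 + t ^ 2)) =
            -(r * (T / ‖y - a‖)) * (s ^ 2 + t ^ 2) := by ring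
          _ = -(s ^ 2 + t ^ 2) := by rw [hrT]; ring
      rw [h4] at h3
      nlinarith
    have hA0 : 0 ≤ 1 + r * Hx := by
      have := hp 1 0
      nlinarith
    have hC0 : 0 ≤ 1 + r * Hy := by
      have := hp 0 1
      nlinarith
    have hdisc : (r * Hm) ^ 2 ≤ (1 + r * Hx) * (1 + r * Hy) := by
      have h1 : ∀ s : ℝ, 0 ≤ (1 + r * Hx) * (s * s) + 2 * (r * Hm) * s + (1 + r * Hy) := by
        intro s
        have := hp s 1
        nlinarith
      have h2 := discrim_le_zero h1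
      unfold discrim at h2
      nlinarith
    have htr : (1 + r * Hx) + (1 + r * Hy) ≤ 4.2 := by
      have h1 : r * (Hx + Hy) ≤ r * (T / ‖z - a‖ + Cv q₁ l) :=
        mul_le_mul_of_nonneg_left hlap2 hr0.le
      have h2 : r * (T / ‖z - a‖) ≤ 10 / 9 := by
        have h3 : 0 < ‖z - a‖ := by linarith
        have h4 : r * (T / ‖z - a‖) = ‖y - a‖ / ‖z - a‖ := by
          rw [hr]
          field_simp
        rw [h4, div_le_iff₀ h3]
        linarith
      have h5 : r * Cv q₁ l ≤ 1 := by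
        rw [hr, div_mul_eq_mul_div, div_le_one hT]
        rwa [le_div_iff₀ hCv] at hA
      rw [mul_add] at h1
      norm_num
      linarith
    have hAC : (1 + r * Hx) * (1 + r * Hy) ≤ 9 := by
      nlinarith [sq_nonneg ((1 + r * Hx) - (1 + r * Hy))]
    rw [abs_le]
    constructor
    · nlinarith [sq_nonneg (r * Hm)]
    · nlinarith [sq_nonneg (r * Hm)]

/-- REGIME A. By `MeasureTheory.addHaar_image_le_lintegral_abs_det_fderiv`:
`π (ρ/20)² ≤ |β(Z)| ≤ 9 |Z|`, and `Z ⊆ Sig (2T) ∩ closedBall y (ρ/2)`; `π/3600 ≥ 1/1200`. -/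
theorem contactA {q₁ l Λ T : ℝ} {φ Q : ℂ → ℝ} {a y : ℂ} (h : Loc q₁ l Λ φ Q) (hT : 0 < T)
    (hy : IsTop φ Λ T a y) (hρ : 0 < ‖y - a‖)
    (hd : closedBall y (‖y - a‖ / 2) ⊆ closedBall (0 : ℂ) (3 * Λ))
    (hA : ‖y - a‖ ≤ T / Cv q₁ l) :
    ENNReal.ofReal (1 / 1200 * ‖y - a‖ ^ 2) ≤
      volume (Sig φ Λ (2 * T) ∩ closedBall y (‖y - a‖ / 2)) := by
  have hZ := h.isCompact_contactSet (T := T) a y
  have hb' : ∀ b ∈ closedBall y (‖y - a‖ / 20), ‖b - y‖ ≤ ‖y - a‖ / 20 := by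
    intro b hb
    rwa [mem_closedBall, dist_eq_norm] at hb
  have hex : ∀ z ∈ ContactSet φ T a y, ∃ M : ℂ →L[ℝ] ℂ,
      HasFDerivAt (betaMap φ T ‖y - a‖ a) M z ∧ |M.det| ≤ 9 := by
    rintro z ⟨b, hb, hc⟩
    exact hc.exists_fderiv h hT hy hρ hA hd (hb' b hb)
  choose! f' hf' using hex
  have h1 := addHaar_image_le_lintegral_abs_det_fderiv volume hZ.measurableSet
    (fun z hz => (hf' z hz).1.hasFDerivWithinAt)
  have h2 : (∫⁻ z in ContactSet φ T a y, ENNReal.ofReal |(f' z).det|) ≤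
      ENNReal.ofReal 9 * volume (ContactSet φ T a y) := by
    rw [← setLIntegral_const]
    exact setLIntegral_mono' hZ.measurableSet fun z hz => ENNReal.ofReal_le_ofReal (hf' z hz).2
  have h3 : closedBall y (‖y - a‖ / 20) ⊆
      betaMap φ T ‖y - a‖ a '' ContactSet φ T a y := by
    intro b hb
    obtain ⟨z, hz⟩ := h.exists_contact T a y b
    exact ⟨z, ⟨b, hb, hz⟩, (hz.beta_eq h hT hy hρ hd (hb' b hb)).1⟩
  have h4 : ContactSet φ T a y ⊆ Sig φ Λ (2 * T) ∩ closedBall y (‖y - a‖ / 2) := by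
    rintro z ⟨b, hb, hc⟩
    refine ⟨Sig_mono (by linarith) (hc.mem_Sig h hT hy hρ hd (hb' b hb)), hc.1⟩
  have h5 : volume (closedBall y (‖y - a‖ / 20)) ≤
      ENNReal.ofReal 9 * volume (ContactSet φ T a y) :=
    (measure_mono h3).trans (h1.trans h2)
  have h6 : ENNReal.ofReal 9 * ENNReal.ofReal (1 / 1200 * ‖y - a‖ ^ 2) ≤
      volume (closedBall y (‖y - a‖ / 20)) := by
    rw [Complex.volume_closedBall, ← ENNReal.ofReal_mul (by norm_num),
      ← ENNReal.ofReal_pow (by positivity)]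
    have h7 : (NNReal.pi : ENNReal) = ENNReal.ofReal Real.pi := by
      rw [← NNReal.coe_real_pi, ENNReal.ofReal_coe_nnreal]
    rw [h7, ← ENNReal.ofReal_mul (by positivity)]
    refine ENNReal.ofReal_le_ofReal ?_
    have h8 := Real.pi_gt_three
    nlinarith [sq_nonneg ‖y - a‖]
  have h7 : ENNReal.ofReal (1 / 1200 * ‖y - a‖ ^ 2) ≤ volume (ContactSet φ T a y) := by
    have h8 := h6.trans h5
    rwa [ENNReal.mul_le_mul_iff_right (by simp) ENNReal.ofReal_ne_top] at h8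
  exact h7.trans (measure_mono h4)

end FC34
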