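import Pool.Agent.W_fc1c69_h34.Defs

/-! Translation, rotation and normalisation. -/

namespace FC34

open Complex MeasureTheory Metric Set

variable {φ : ℂ → ℝ}

lemma transport_aff (z₀ e z : ℂ) :
    HasFDerivAt (fun w : ℂ => z₀ + e * w) (ContinuousLinearMap.mul ℝ ℂ e) z := by
  have h := ((ContinuousLinearMap.mul ℝ ℂ e).hasFDerivAt (x := z)).const_add z₀
  simpa using h

lemma transport_decomp (L : ℂ →L[ℝ] ℝ) (e : ℂ) :
    L e = e.re * L 1 + e.im * L Complex.I := by
  have h : e = e.re • (1 : ℂ) + e.im • Complex.I := by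
    apply Complex.ext <;> simp
  conv_lhs => rw [h]
  rw [map_add, map_smul, map_smul, smul_eq_mul, smul_eq_mul]

lemma transport_fderiv {u : ℂ → ℝ} (hu : Differentiable ℝ u) (z₀ e z v : ℂ) :
    fderiv ℝ (fun w => u (z₀ + e * w)) z v = fderiv ℝ u (z₀ + e * z) (e * v) := by
  have h1 : HasFDerivAt u (fderiv ℝ u (z₀ + e * z)) (z₀ + e * z) := (hu _).hasFDerivAt
  have h2 := h1.comp z (transport_aff z₀ e z)
  have h3 : fderiv ℝ (fun w => u (z₀ + e * w)) z =
      (fderiv ℝ u (z₀ + e * z)).comp (ContinuousLinearMap.mul ℝ ℂ e) := h2.fderiv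
  rw [h3]
  rfl

lemma transport_px {u : ℂ → ℝ} (hu : Differentiable ℝ u) (z₀ e z : ℂ) :
    px (fun w => u (z₀ + e * w)) z =
      e.re * px u (z₀ + e * z) + e.im * py u (z₀ + e * z) := by
  unfold px py
  rw [transport_fderiv hu, mul_one, transport_decomp]

lemma transport_py {u : ℂ → ℝ} (hu : Differentiable ℝ u) (z₀ e z : ℂ) :
    py (fun w => u (z₀ + e * w)) z =
      -e.im * px u (z₀ + e * z) + e.re * py u (z₀ + e * z) := by
  unfold px py
  rw [transport_fderiv hu, transport_decomp]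
  simp

lemma transport_comp_diff {u : ℂ → ℝ} (hu : Differentiable ℝ u) (z₀ e : ℂ) :
    Differentiable ℝ (fun w => u (z₀ + e * w)) := by
  intro z
  exact ((hu (z₀ + e * z)).hasFDerivAt.comp z (transport_aff z₀ e z)).differentiableAt

lemma transport_px_lin {u v : ℂ → ℝ} (hu : Differentiable ℝ u) (hv : Differentiable ℝ v)
    (s a b : ℝ) (z : ℂ) :
    px (fun w => s * (a * u w + b * v w)) z = s * (a * px u z + b * px v z) := by
  unfold px
  have h := ((((hu z).hasFDerivAt.const_mul a).add ((hv z).hasFDerivAt.const_mul b)).const_mul s)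
  have h2 : fderiv ℝ (fun w => s * (a * u w + b * v w)) z =
      s • (a • fderiv ℝ u z + b • fderiv ℝ v z) := h.fderiv
  rw [h2]
  simp
  ring

lemma transport_py_lin {u v : ℂ → ℝ} (hu : Differentiable ℝ u) (hv : Differentiable ℝ v)
    (s a b : ℝ) (z : ℂ) :
    py (fun w => s * (a * u w + b * v w)) z = s * (a * py u z + b * py v z) := by
  unfold py
  have h := ((((hu z).hasFDerivAt.const_mul a).add ((hv z).hasFDerivAt.const_mul b)).const_mul s)
  have h2 : fderiv ℝ (fun w => s * (a * u w + b * v w)) z =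
      s • (a • fderiv ℝ u z + b • fderiv ℝ v z) := h.fderiv
  rw [h2]
  simp
  ring

lemma transport_px_smul {u : ℂ → ℝ} (hu : Differentiable ℝ u) (s : ℝ) (z : ℂ) :
    px (fun w => s * u w) z = s * px u z := by
  unfold px
  have h2 : fderiv ℝ (fun w => s * u w) z = s • fderiv ℝ u z :=
    ((hu z).hasFDerivAt.const_mul s).fderiv
  rw [h2]
  simp

lemma transport_py_smul {u : ℂ → ℝ} (hu : Differentiable ℝ u) (s : ℝ) (z : ℂ) :
    py (fun w => s * u w) z = s * py u z := by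
  unfold py
  have h2 : fderiv ℝ (fun w => s * u w) z = s • fderiv ℝ u z :=
    ((hu z).hasFDerivAt.const_mul s).fderiv
  rw [h2]
  simp

lemma transport_diff_px (hφ : ContDiff ℝ 3 φ) : Differentiable ℝ (px φ) := by
  have h1 : ContDiff ℝ 2 (fderiv ℝ φ) := hφ.fderiv_right (by norm_num)
  have h2 : ContDiff ℝ 2 (px φ) := h1.clm_apply contDiff_const
  exact h2.differentiable (by norm_num)

lemma transport_diff_py (hφ : ContDiff ℝ 3 φ) : Differentiable ℝ (py φ) := by
  have h1 : ContDiff ℝ 2 (fderiv ℝ φ) := hφ.fderiv_right (by norm_num)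
  have h2 : ContDiff ℝ 2 (py φ) := h1.clm_apply contDiff_const
  exact h2.differentiable (by norm_num)

theorem px_comp_affine (hφ : ContDiff ℝ 3 φ) (s : ℝ) (z₀ e z : ℂ) :
    px (fun w => s * φ (z₀ + e * w)) z = s * (e.re * px φ (z₀ + e * z) + e.im * py φ (z₀ + e * z)) := by
  have hd : Differentiable ℝ φ := hφ.differentiable (by norm_num)
  rw [transport_px_smul (u := fun w => φ (z₀ + e * w)) (transport_comp_diff hd z₀ e),
    transport_px hd]

theorem py_comp_affine (hφ : ContDiff ℝ 3 φ) (s : ℝ) (z₀ e z : ℂ) :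
    py (fun w => s * φ (z₀ + e * w)) z =
      s * (-e.im * px φ (z₀ + e * z) + e.re * py φ (z₀ + e * z)) := by
  have hd : Differentiable ℝ φ := hφ.differentiable (by norm_num)
  rw [transport_py_smul (u := fun w => φ (z₀ + e * w)) (transport_comp_diff hd z₀ e),
    transport_py hd]

lemma transport_norm {e : ℂ} (he : ‖e‖ = 1) : e.re ^ 2 + e.im ^ 2 = 1 := by
  have h := Complex.sq_norm e
  rw [he, Complex.normSq_apply] at h
  nlinarith

theorem qf_comp_affine (hφ : ContDiff ℝ 3 φ) (s : ℝ) (z₀ z : ℂ) {e : ℂ} (he : ‖e‖ = 1) :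
    qf (fun w => s * φ (z₀ + e * w)) z = s ^ 2 * qf φ (z₀ + e * z) := by
  have h := transport_norm he
  unfold qf
  rw [px_comp_affine hφ, py_comp_affine hφ]
  linear_combination (s ^ 2 * (px φ (z₀ + e * z) ^ 2 + py φ (z₀ + e * z) ^ 2)) * h

theorem lap_comp_affine (hφ : ContDiff ℝ 3 φ) (s : ℝ) (z₀ z : ℂ) {e : ℂ} (he : ‖e‖ = 1) :
    lap (fun w => s * φ (z₀ + e * w)) z = s * lap φ (z₀ + e * z) := by
  have h := transport_norm he
  have hx := transport_diff_px hφ
  have hy := transport_diff_py hφ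
  have e1 : px (fun w => s * φ (z₀ + e * w)) =
      fun z => s * (e.re * px φ (z₀ + e * z) + e.im * py φ (z₀ + e * z)) :=
    funext fun z => px_comp_affine hφ s z₀ e z
  have e2 : py (fun w => s * φ (z₀ + e * w)) =
      fun z => s * (-e.im * px φ (z₀ + e * z) + e.re * py φ (z₀ + e * z)) :=
    funext fun z => py_comp_affine hφ s z₀ e z
  unfold lap
  rw [e1, e2, transport_px_lin (u := fun z => px φ (z₀ + e * z)) (v := fun z => py φ (z₀ + e * z))
    (transport_comp_diff hx z₀ e) (transport_comp_diff hy z₀ e),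
    transport_py_lin (u := fun z => px φ (z₀ + e * z)) (v := fun z => py φ (z₀ + e * z))
    (transport_comp_diff hx z₀ e) (transport_comp_diff hy z₀ e),
    transport_px hx, transport_px hy, transport_py hx, transport_py hy]
  linear_combination (s * (px (px φ) (z₀ + e * z) + py (py φ) (z₀ + e * z))) * h

lemma transport_ball {z₀ e z : ℂ} {R : ℝ} (he : ‖e‖ = 1) (hz : z ∈ ball (0 : ℂ) R) :
    z₀ + e * z ∈ ball z₀ R := by
  rw [mem_ball_zero_iff] at hz
  rw [mem_ball, dist_eq_norm]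
  have : z₀ + e * z - z₀ = e * z := by ring
  rw [this, norm_mul, he, one_mul]
  exact hz

/-- From a point `z₀` with `q(z₀) > 0`, a direction `e` and the bound
`q(x) ≤ q(z₀) exp(2P e·(x-z₀) + C₇)` on `ball z₀ R` to the normalised situation. Here
`e·(x - z₀) = Re(conj e * (x - z₀))`, and `x = z₀ + e w`, `w = conj e (x - z₀)`. -/
theorem SS_of_general {q₁ C₇ η₀ P R : ℝ} {Q : ℂ → ℝ} (hφ : ContDiff ℝ 3 φ) (hP : 1 ≤ P)
    (hR : 0 < R) (hη : 0 ≤ η₀) {z₀ e : ℂ} (he : ‖e‖ = 1) (hq0 : 0 < qf φ z₀)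
    (hQ : ∀ z ∈ ball z₀ R, 0 ≤ Q z ∧ Q z ≤ q₁)
    (hQ0 : ∀ z ∈ ball z₀ R, |Q z - Q z₀| ≤ η₀ * P / R)
    (pde : ∀ z ∈ ball z₀ R, lap φ z = - Q z * φ z)
    (top : ∀ z ∈ ball z₀ R, qf φ z ≤ qf φ z₀ *
      Real.exp (2 * P * ((starRingEnd ℂ) e * (z - z₀)).re + C₇)) :
    SS q₁ C₇ η₀ P R (fun w => (1 / Real.sqrt (qf φ z₀)) * φ (z₀ + e * w))
      (fun w => Q (z₀ + e * w)) ∧
    qf (fun w => (1 / Real.sqrt (qf φ z₀)) * φ (z₀ + e * w)) 0 = 1 := by
  have hs2 : (1 / Real.sqrt (qf φ z₀)) ^ 2 * qf φ z₀ = 1 := by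
    rw [div_pow, one_pow, Real.sq_sqrt hq0.le]
    field_simp
  refine ⟨⟨hP, hR, hη, ?_, ?_, ?_, ?_, ?_⟩, ?_⟩
  · have h1 : ContDiff ℝ 3 (fun w : ℂ => z₀ + e * w) := by fun_prop
    exact contDiff_const.mul (hφ.comp h1)
  · intro z hz
    exact hQ _ (transport_ball he hz)
  · intro z hz
    have := hQ0 _ (transport_ball he hz)
    simpa using this
  · intro z hz
    rw [lap_comp_affine hφ _ _ _ he, pde _ (transport_ball he hz)]
    ring
  · intro z hz
    rw [qf_comp_affine hφ _ _ _ he]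
    have h1 := top _ (transport_ball he hz)
    have h2 : ((starRingEnd ℂ) e * (z₀ + e * z - z₀)).re = z.re := by
      have h3 : (starRingEnd ℂ) e * (z₀ + e * z - z₀) = ((starRingEnd ℂ) e * e) * z := by ring
      have h4 : (starRingEnd ℂ) e * e = 1 := by
        rw [mul_comm, Complex.mul_conj, Complex.normSq_eq_norm_sq, he]
        simp
      rw [h3, h4, one_mul]
    rw [h2] at h1
    calc (1 / Real.sqrt (qf φ z₀)) ^ 2 * qf φ (z₀ + e * z)
        ≤ (1 / Real.sqrt (qf φ z₀)) ^ 2 * (qf φ z₀ * Real.exp (2 * P * z.re + C₇)) :=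
          mul_le_mul_of_nonneg_left h1 (sq_nonneg _)
      _ = ((1 / Real.sqrt (qf φ z₀)) ^ 2 * qf φ z₀) * Real.exp (2 * P * z.re + C₇) := by ring
      _ = Real.exp (2 * P * z.re + C₇) := by rw [hs2, one_mul]
  · rw [qf_comp_affine hφ _ _ _ he]
    simpa using hs2

end FC34
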