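import Pool.Agent.W_fc1c69_h34.LemmaL
import Pool.Agent.W_fc1c69_h34.Transport

/-! Lemma L in general position. -/

namespace FC34

open Complex MeasureTheory Metric Set

/-- LEMMA L (proofs rows 212, 213), from `lowerSS` and `SS_of_general`;
`|Q - Q(z)| ≤ (l/Λ) R` on `ball z R` (mean value inequality) and `l R²/Λ ≤ η₀ P`. -/
theorem lower_general (q₁ l C₇ c₁ : ℝ) (hq : 0 ≤ q₁) (hl : 0 ≤ l) (hc : 0 < c₁) :
    ∃ ε₁ : ℝ, 0 < ε₁ ∧ ε₁ ≤ 1 / 32 ∧ ∃ P₀ : ℝ, 1 ≤ P₀ ∧ ∃ η₀ : ℝ, 0 < η₀ ∧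
      ∀ (Λ : ℝ) (φ Q : ℂ → ℝ), Loc q₁ l Λ φ Q → ∀ (P R : ℝ) (z e : ℂ), P₀ ≤ P → c₁ ≤ R →
        ‖e‖ = 1 → ball z R ⊆ ball (0 : ℂ) (4 * Λ) → l * R ^ 2 / Λ ≤ η₀ * P → 0 < qf φ z →
        (∀ x ∈ ball z R, qf φ x ≤ qf φ z *
          Real.exp (2 * P * ((starRingEnd ℂ) e * (x - z)).re + C₇)) →
        ∀ x : ℂ, ‖x - z‖ ≤ ε₁ * R →
          qf φ z * Real.exp (2 * P * ((starRingEnd ℂ) e * (x - z)).re) / 4 ≤ qf φ x := by
  obtain ⟨ε₁, hε, hε', P₀, hP₀, η₀, hη₀, H⟩ := lowerSS q₁ C₇ c₁ hq hc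
  refine ⟨ε₁, hε, hε', P₀, hP₀, η₀, hη₀, ?_⟩
  intro Λ φ Q hL P R z e hP hR he hsub hη hqz htop x hx
  have hP1 : 1 ≤ P := hP₀.trans hP
  have hRpos : 0 < R := hc.trans_le hR
  have hΛ : 0 < Λ := lt_of_lt_of_le one_pos hL.hΛ
  have hlΛ : 0 ≤ l / Λ := div_nonneg hl hΛ.le
  have hQ0 : ∀ w ∈ ball z R, |Q w - Q z| ≤ η₀ * P / R := by
    intro w hw
    have hz : z ∈ ball z R := mem_ball_self hRpos
    have h1 := (convex_ball z R).norm_image_sub_le_of_norm_fderiv_le (𝕜 := ℝ) (f := Q)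
      (C := l / Λ) (fun y hy => hL.hQd y (hsub hy)) (fun y hy => hL.hQl y (hsub hy)) hz hw
    rw [Real.norm_eq_abs] at h1
    have h2 : ‖w - z‖ ≤ R := by
      rw [mem_ball, dist_eq_norm] at hw
      exact hw.le
    refine h1.trans ((mul_le_mul_of_nonneg_left h2 hlΛ).trans ?_)
    rw [le_div_iff₀ hRpos]
    calc l / Λ * R * R = l * R ^ 2 / Λ := by ring
      _ ≤ η₀ * P := hη
  have hSS := SS_of_general (q₁ := q₁) (C₇ := C₇) (η₀ := η₀) (P := P) (R := R) (Q := Q)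
    hL.smooth hP1 hRpos hη₀.le he hqz (fun w hw => hL.hQ w (hsub hw)) hQ0
    (fun w hw => hL.pde w (hsub hw)) htop
  set w : ℂ := (starRingEnd ℂ) e * (x - z) with hw
  have hwn : ‖w‖ ≤ ε₁ * R := by
    rw [hw, norm_mul, RCLike.norm_conj, he, one_mul]
    exact hx
  have h := H P R _ _ hP hR hSS.1 hSS.2 w hwn
  rw [qf_comp_affine hL.smooth _ _ _ he] at h
  have hxe : z + e * w = x := by
    have h4 : e * (starRingEnd ℂ) e = 1 := by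
      rw [Complex.mul_conj, Complex.normSq_eq_norm_sq, he]
      simp
    rw [hw, ← mul_assoc, h4, one_mul]
    ring
  rw [hxe, div_pow, one_pow, Real.sq_sqrt hqz.le] at h
  have h5 := mul_le_mul_of_nonneg_left h hqz.le
  have h6 : qf φ z * (1 / qf φ z * qf φ x) = qf φ x := by
    field_simp
  rw [h6] at h5
  calc qf φ z * Real.exp (2 * P * w.re) / 4 = qf φ z * (Real.exp (2 * P * w.re) / 4) := by ring
    _ ≤ qf φ x := h5

end FC34
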