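import Pool.Agent.W_fc1c69_h34.Defs

/-! The pointwise inequality (R1). -/

namespace FC34

open Complex MeasureTheory Metric Set

/-- The constant in (R1). -/
noncomputable def Cv (q₁ l : ℝ) : ℝ := 5 + 6 * q₁ + l + q₁ ^ 2

theorem R1_contDiff_dir {n : WithTop ℕ∞} {m : WithTop ℕ∞} {u : ℂ → ℝ} (hu : ContDiff ℝ n u)
    (hmn : m + 1 ≤ n) (v : ℂ) : ContDiff ℝ m (fun z => fderiv ℝ u z v) :=
  (hu.fderiv_right hmn).clm_apply contDiff_const

theorem R1_symm {u : ℂ → ℝ} (hu : ContDiff ℝ 2 u) (z v w : ℂ) :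
    fderiv ℝ (fun x => fderiv ℝ u x v) z w = fderiv ℝ (fun x => fderiv ℝ u x w) z v := by
  have hd : DifferentiableAt ℝ (fderiv ℝ u) z :=
    ((hu.fderiv_right (m := 1) (by norm_num)).differentiable (by norm_num)) z
  have h : ∀ a b : ℂ, fderiv ℝ (fun x => fderiv ℝ u x a) z b = fderiv ℝ (fderiv ℝ u) z b a := by
    intro a b
    rw [fderiv_clm_apply hd (differentiableAt_const _)]
    simp
  rw [h, h]
  exact (hu.contDiffAt.isSymmSndFDerivAt (by simp)) _ _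

/-- first derivative of `a² + b² + c²` -/
theorem R1_dir_sq3 {a b c : ℂ → ℝ} {z : ℂ} (ha : DifferentiableAt ℝ a z)
    (hb : DifferentiableAt ℝ b z) (hc : DifferentiableAt ℝ c z) (v : ℂ) :
    fderiv ℝ (fun w => a w ^ 2 + b w ^ 2 + c w ^ 2) z v =
      2 * (a z * fderiv ℝ a z v + b z * fderiv ℝ b z v + c z * fderiv ℝ c z v) := by
  have h := ((ha.hasFDerivAt.pow 2).add (hb.hasFDerivAt.pow 2)).add (hc.hasFDerivAt.pow 2)
  have h2 : fderiv ℝ (fun w => a w ^ 2 + b w ^ 2 + c w ^ 2) z = _ := h.fderiv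
  rw [h2]
  simp
  ring

/-- derivative of `2 (a a' + b b' + c c')` -/
theorem R1_dir_mul3 {a b c a' b' c' : ℂ → ℝ} {z : ℂ} (ha : DifferentiableAt ℝ a z)
    (hb : DifferentiableAt ℝ b z) (hc : DifferentiableAt ℝ c z) (ha' : DifferentiableAt ℝ a' z)
    (hb' : DifferentiableAt ℝ b' z) (hc' : DifferentiableAt ℝ c' z) (v : ℂ) :
    fderiv ℝ (fun w => 2 * (a w * a' w + b w * b' w + c w * c' w)) z v =
      2 * (a z * fderiv ℝ a' z v + fderiv ℝ a z v * a' z + (b z * fderiv ℝ b' z v +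
        fderiv ℝ b z v * b' z) + (c z * fderiv ℝ c' z v + fderiv ℝ c z v * c' z)) := by
  have h := (((ha.hasFDerivAt.mul ha'.hasFDerivAt).add (hb.hasFDerivAt.mul hb'.hasFDerivAt)).add
    (hc.hasFDerivAt.mul hc'.hasFDerivAt)).const_mul 2
  have h2 : fderiv ℝ (fun w => 2 * (a w * a' w + b w * b' w + c w * c' w)) z = _ := h.fderiv
  rw [h2]
  simp
  ring

/-- second derivative of the logarithm -/
theorem R1_dir_log {q : ℂ → ℝ} (hq : ContDiff ℝ 2 q) {z : ℂ} (hz : 0 < q z) (v : ℂ) :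
    fderiv ℝ (fun w => fderiv ℝ (fun x => Real.log (q x)) w v) z v =
      (q z * fderiv ℝ (fun w => fderiv ℝ q w v) z v - (fderiv ℝ q z v) ^ 2) / (q z) ^ 2 := by
  have hd : Differentiable ℝ q := hq.differentiable (by norm_num)
  have h1 : (fun w => fderiv ℝ (fun x => Real.log (q x)) w v) =ᶠ[nhds z]
      fun w => (q w)⁻¹ * fderiv ℝ q w v := by
    filter_upwards [hq.continuous.continuousAt.eventually (lt_mem_nhds hz)] with w hw
    have h2 : fderiv ℝ (fun x => Real.log (q x)) w = _ :=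
      ((hd w).hasFDerivAt.log (ne_of_gt hw)).fderiv
    rw [h2]
    simp
  rw [h1.fderiv_eq]
  have hd2 : DifferentiableAt ℝ (fun w => fderiv ℝ q w v) z :=
    ((R1_contDiff_dir hq (m := 1) (by norm_num) v).differentiable (by norm_num)) z
  have h3 := ((hasDerivAt_inv (ne_of_gt hz)).comp_hasFDerivAt z (hd z).hasFDerivAt).mul
    hd2.hasFDerivAt
  have h4 : fderiv ℝ (fun w => (q w)⁻¹ * fderiv ℝ q w v) z = _ := h3.fderiv
  rw [h4]
  have hz' : q z ≠ 0 := ne_of_gt hz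
  simp
  field_simp
  ring

/-- the algebraic inequality -/
theorem R1_alg {A c φ a b Q q₁ l t : ℝ} (hl : 0 ≤ l) (hQ0 : 0 ≤ Q) (hQ1 : Q ≤ q₁)
    (ht : t ^ 2 ≤ l ^ 2 * (a ^ 2 + b ^ 2)) :
    -(5 + 6 * q₁ + l + q₁ ^ 2) * (a ^ 2 + b ^ 2 + φ ^ 2) ^ 2 ≤
      (a ^ 2 + b ^ 2 + φ ^ 2) * (4 * (A ^ 2 + c ^ 2) + (Q ^ 2 - 2 * Q) * φ ^ 2 +
        (2 - 2 * Q) * (a ^ 2 + b ^ 2) - 2 * φ * t) -
      4 * ((A * a + c * b + (1 - Q / 2) * φ * a) ^ 2 +
        (c * a - A * b + (1 - Q / 2) * φ * b) ^ 2) := by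
  have hq₁ : 0 ≤ q₁ := hQ0.trans hQ1
  set s := Real.sqrt (A ^ 2 + c ^ 2) with hs
  have hs0 : 0 ≤ s := Real.sqrt_nonneg _
  have hs2 : s ^ 2 = A ^ 2 + c ^ 2 := Real.sq_sqrt (by positivity)
  set G := a ^ 2 + b ^ 2 with hG
  have hG0 : 0 ≤ G := by positivity
  -- the term with t
  have h1 : 2 * φ * t ≤ l * (G + φ ^ 2) := by
    rcases hl.eq_or_lt with h0 | h0
    · rw [← h0] at ht ⊢
      have : t = 0 := by
        have h3 : t ^ 2 ≤ 0 := by simpa using ht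
        exact pow_eq_zero_iff (two_ne_zero) |>.1 (le_antisymm h3 (sq_nonneg t))
      rw [this]; simp
    · have h2 : 2 * (l * φ) * t ≤ l * (l * (G + φ ^ 2)) := by
        linarith [sq_nonneg (l * φ - t), ht]
      have h3 : l * (2 * φ * t) ≤ l * (l * (G + φ ^ 2)) := by linarith
      exact le_of_mul_le_mul_left h3 h0
  -- the gradient
  have h2 : |A * (a ^ 2 - b ^ 2) + 2 * c * a * b| ≤ s * G := by
    refine abs_le_of_sq_le_sq ?_ (by positivity)
    have : (s * G) ^ 2 = (A ^ 2 + c ^ 2) * (a ^ 2 + b ^ 2) ^ 2 := by rw [mul_pow, hs2]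
    rw [this]
    linarith [sq_nonneg (A * (2 * a * b) - c * (a ^ 2 - b ^ 2))]
  have hm : |1 - Q / 2| ≤ 1 + q₁ / 2 := by
    rw [abs_le]; constructor <;> linarith
  have hgrad : (A * a + c * b + (1 - Q / 2) * φ * a) ^ 2 +
      (c * a - A * b + (1 - Q / 2) * φ * b) ^ 2 ≤
      G * (s + (1 + q₁ / 2) * |φ|) ^ 2 := by
    have e1 : (A * a + c * b + (1 - Q / 2) * φ * a) ^ 2 +
      (c * a - A * b + (1 - Q / 2) * φ * b) ^ 2 = s ^ 2 * G +
        2 * ((1 - Q / 2) * φ * (A * (a ^ 2 - b ^ 2) + 2 * c * a * b)) +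
        ((1 - Q / 2) * φ) ^ 2 * G := by
      rw [hs2, hG]; ring
    have e2 : (1 - Q / 2) * φ * (A * (a ^ 2 - b ^ 2) + 2 * c * a * b) ≤
        (1 + q₁ / 2) * |φ| * (s * G) := by
      refine (le_abs_self _).trans ?_
      rw [abs_mul, abs_mul]
      exact mul_le_mul (mul_le_mul_of_nonneg_right hm (abs_nonneg _)) h2 (abs_nonneg _)
        (by positivity)
    have e3 : ((1 - Q / 2) * φ) ^ 2 ≤ ((1 + q₁ / 2) * |φ|) ^ 2 := by
      refine sq_le_sq.2 ?_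
      rw [abs_mul, abs_mul, abs_abs, abs_of_nonneg (by positivity : (0:ℝ) ≤ 1 + q₁ / 2)]
      exact mul_le_mul_of_nonneg_right hm (abs_nonneg _)
    have e4 := mul_le_mul_of_nonneg_right e3 hG0
    rw [e1]
    linarith [e2, e4]
  -- the Laplacian
  have hlap : 4 * s ^ 2 - (1 + 2 * q₁ + l) * (G + φ ^ 2) ≤
      4 * (A ^ 2 + c ^ 2) + (Q ^ 2 - 2 * Q) * φ ^ 2 + (2 - 2 * Q) * G - 2 * φ * t := by
    rw [← hs2]
    have e1 : Q * (G + φ ^ 2) ≤ q₁ * (G + φ ^ 2) :=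
      mul_le_mul_of_nonneg_right hQ1 (by positivity)
    have e2 : 0 ≤ Q ^ 2 * φ ^ 2 := by positivity
    have e3 : 0 ≤ G + φ ^ 2 := by positivity
    linarith [e1, e2, e3, h1, hG0]
  have hq0 : 0 ≤ G + φ ^ 2 := by positivity
  have hfin := mul_le_mul_of_nonneg_left hlap hq0
  have habs : |φ| ^ 2 = φ ^ 2 := sq_abs φ
  set p := |φ| with hp
  have hkey : -(4 + 4 * q₁ + q₁ ^ 2) * (G + φ ^ 2) ^ 2 ≤ (G + φ ^ 2) * (4 * s ^ 2) -
      4 * (G * (s + (1 + q₁ / 2) * p) ^ 2) := by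
    rw [← habs]
    have e1 : (G + p ^ 2) * (4 * s ^ 2) - 4 * (G * (s + (1 + q₁ / 2) * p) ^ 2) =
        4 * (s * p - G * (1 + q₁ / 2)) ^ 2 - 4 * (1 + q₁ / 2) ^ 2 * G * (G + p ^ 2) := by ring
    rw [e1]
    have e2 : 0 ≤ 4 * (1 + q₁ / 2) ^ 2 * p ^ 2 * (G + p ^ 2) := by positivity
    linarith [e2, sq_nonneg (s * p - G * (1 + q₁ / 2))]
  linarith [hgrad, hfin, hkey]

theorem contDiff_qf {φ : ℂ → ℝ} (hφ : ContDiff ℝ 3 φ) : ContDiff ℝ 2 (qf φ) := by
  have h1 : ContDiff ℝ 2 (px φ) := R1_contDiff_dir hφ (m := 2) (by norm_num) 1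
  have h2 : ContDiff ℝ 2 (py φ) := R1_contDiff_dir hφ (m := 2) (by norm_num) Complex.I
  exact ((h1.pow 2).add (h2.pow 2)).add ((hφ.of_le (by norm_num)).pow 2)

/-- (R1): `Δ log q ≥ -Cv` where `q > 0`.
Proof (proofs row 212): let `A = (φ_xx - φ_yy)/2`, `c = φ_xy`, `s² = A² + c²`, `φ_xx + φ_yy = -Qφ`.
`q_x = 2(φ_x φ_xx + φ_y φ_xy + φ φ_x)`, ...; third derivatives enter `Δq` only through
`∂_x(Δφ) = -∂_x(Qφ)`, `∂_y(Δφ) = -∂_y(Qφ)` (differentiate the equation on a neighbourhood).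
`Δq = 4s² + (Q²-2Q)φ² + (2-2Q)|∇φ|² - 2φ ∇φ·∇Q ≥ 4s² - (1+2q₁+l) q`,
`|∇q|² ≤ 4|∇φ|²(s + |1-Q/2||φ|)²`, `|1-Q/2| ≤ 1+q₁/2`,
`q Δq - |∇q|² ≥ -(1+2q₁+l+4(1+q₁/2)²) q² = -Cv q²`, and `Δ log q = (q Δq - |∇q|²)/q²`. -/
theorem lap_log_qf_ge {q₁ l : ℝ} {φ Q : ℂ → ℝ} (hl : 0 ≤ l) {z : ℂ} (hφ : ContDiff ℝ 3 φ)
    (hpde : ∀ᶠ w in nhds z, lap φ w = - Q w * φ w) (hQd : DifferentiableAt ℝ Q z)
    (hQl : ‖fderiv ℝ Q z‖ ≤ l) (hQ0 : 0 ≤ Q z) (hQ1 : Q z ≤ q₁) (hq : 0 < qf φ z) :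
    -Cv q₁ l ≤ lap (fun w => Real.log (qf φ w)) z := by
  have hφ2 : ContDiff ℝ 2 φ := hφ.of_le (by norm_num)
  have ha : ContDiff ℝ 2 (px φ) := R1_contDiff_dir hφ (m := 2) (by norm_num) 1
  have hb : ContDiff ℝ 2 (py φ) := R1_contDiff_dir hφ (m := 2) (by norm_num) Complex.I
  have hφd : Differentiable ℝ φ := hφ.differentiable (by norm_num)
  have had : Differentiable ℝ (px φ) := ha.differentiable (by norm_num)
  have hbd : Differentiable ℝ (py φ) := hb.differentiable (by norm_num)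
  have dd : ∀ {u : ℂ → ℝ}, ContDiff ℝ 2 u → ∀ v : ℂ, Differentiable ℝ (fun w => fderiv ℝ u w v) :=
    fun hu v => (R1_contDiff_dir hu (m := 1) (by norm_num) v).differentiable (by norm_num)
  have hsymm : ∀ {u : ℂ → ℝ}, ContDiff ℝ 2 u → ∀ w, py (px u) w = px (py u) w :=
    fun hu w => R1_symm hu w 1 Complex.I
  -- symmetry of the third derivatives
  have s1 : py (px φ) = px (py φ) := funext (hsymm hφ2)
  have s2 : ∀ w, py (px (py φ)) w = px (py (py φ)) w := hsymm hb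
  have s3 : ∀ w, py (px (px φ)) w = px (py (px φ)) w := hsymm ha
  -- derivatives of the equation
  have hlapd : ∀ v : ℂ, fderiv ℝ (fun w => px (px φ) w + py (py φ) w) z v =
      -(fderiv ℝ Q z v * φ z) - Q z * fderiv ℝ φ z v := by
    intro v
    have h1 : (fun w => px (px φ) w + py (py φ) w) =ᶠ[nhds z] fun w => - Q w * φ w := hpde
    rw [h1.fderiv_eq]
    have h2 : fderiv ℝ (fun w => - Q w * φ w) z = _ :=
      (hQd.hasFDerivAt.neg.mul (hφd z).hasFDerivAt).fderiv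
    rw [h2]
    simp
    ring
  have hsum : ∀ v : ℂ, fderiv ℝ (fun w => px (px φ) w + py (py φ) w) z v =
      fderiv ℝ (px (px φ)) z v + fderiv ℝ (py (py φ)) z v := by
    intro v
    have h1 : DifferentiableAt ℝ (px (px φ)) z := dd ha 1 z
    have h2 : DifferentiableAt ℝ (py (py φ)) z := dd hb Complex.I z
    have h3 : fderiv ℝ (fun w => px (px φ) w + py (py φ) w) z = _ :=
      (h1.hasFDerivAt.add h2.hasFDerivAt).fderiv
    rw [h3]
    simp
  have t1 : px (px (px φ)) z + px (py (py φ)) z = -(px Q z * φ z) - Q z * px φ z :=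
    (hsum 1).symm.trans (hlapd 1)
  have t2 : py (px (px φ)) z + py (py (py φ)) z = -(py Q z * φ z) - Q z * py φ z :=
    (hsum Complex.I).symm.trans (hlapd Complex.I)
  -- first derivatives of q
  have q1 : ∀ (v w : ℂ), fderiv ℝ (qf φ) w v =
      2 * (px φ w * fderiv ℝ (px φ) w v + py φ w * fderiv ℝ (py φ) w v +
        φ w * fderiv ℝ φ w v) := fun v w => R1_dir_sq3 (had w) (hbd w) (hφd w) v
  have q2 : ∀ v : ℂ, fderiv ℝ (fun w => fderiv ℝ (qf φ) w v) z v =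
      2 * (px φ z * fderiv ℝ (fun w => fderiv ℝ (px φ) w v) z v +
        fderiv ℝ (px φ) z v * fderiv ℝ (px φ) z v +
        (py φ z * fderiv ℝ (fun w => fderiv ℝ (py φ) w v) z v +
          fderiv ℝ (py φ) z v * fderiv ℝ (py φ) z v) +
        (φ z * fderiv ℝ (fun w => fderiv ℝ φ w v) z v + fderiv ℝ φ z v * fderiv ℝ φ z v)) := by
    intro v
    have h1 : (fun w => fderiv ℝ (qf φ) w v) = fun w => 2 * (px φ w * fderiv ℝ (px φ) w v +
        py φ w * fderiv ℝ (py φ) w v + φ w * fderiv ℝ φ w v) := funext (q1 v)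
    rw [h1]
    exact R1_dir_mul3 (had z) (hbd z) (hφd z) (dd ha v z) (dd hb v z) (dd hφ2 v z) v
  have qx : px (qf φ) z = 2 * (px φ z * px (px φ) z + py φ z * px (py φ) z + φ z * px φ z) :=
    q1 1 z
  have qy : py (qf φ) z = 2 * (px φ z * py (px φ) z + py φ z * py (py φ) z + φ z * py φ z) :=
    q1 Complex.I z
  have qxx : px (px (qf φ)) z = 2 * (px φ z * px (px (px φ)) z + px (px φ) z * px (px φ) z +
      (py φ z * px (px (py φ)) z + px (py φ) z * px (py φ) z) +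
      (φ z * px (px φ) z + px φ z * px φ z)) := q2 1
  have qyy : py (py (qf φ)) z = 2 * (px φ z * py (py (px φ)) z + py (px φ) z * py (px φ) z +
      (py φ z * py (py (py φ)) z + py (py φ) z * py (py φ) z) +
      (φ z * py (py φ) z + py φ z * py φ z)) := q2 Complex.I
  -- the logarithm
  have hq2 := contDiff_qf hφ
  have l1 : lap (fun w => Real.log (qf φ w)) z =
      (qf φ z * px (px (qf φ)) z - (px (qf φ) z) ^ 2) / (qf φ z) ^ 2 +
      (qf φ z * py (py (qf φ)) z - (py (qf φ) z) ^ 2) / (qf φ z) ^ 2 := by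
    have e1 := R1_dir_log hq2 hq 1
    have e2 := R1_dir_log hq2 hq Complex.I
    exact congrArg₂ (· + ·) e1 e2
  rw [l1, ← add_div, le_div_iff₀ (by positivity)]
  -- the values
  have v1 : px (px φ) z + py (py φ) z = - Q z * φ z := hpde.self_of_nhds
  have u1 : py (py (px φ)) z = px (py (py φ)) z := by rw [s1, s2]
  have u2 : px (px (py φ)) z = py (px (px φ)) z := by rw [s3, s1]
  have u3 : py (px φ) z = px (py φ) z := by rw [s1]
  have w1 : px (px (px φ)) z = -(px Q z * φ z) - Q z * px φ z - px (py (py φ)) z := by linarith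
  have w2 : py (py (py φ)) z = -(py Q z * φ z) - Q z * py φ z - py (px (px φ)) z := by linarith
  rw [qxx, qyy, qx, qy, u1, u2, u3, w1, w2]
  have hG : ‖(((px φ z : ℝ) : ℂ) + ((py φ z : ℝ) : ℂ) * Complex.I)‖ ^ 2 =
      px φ z ^ 2 + py φ z ^ 2 := by
    rw [Complex.sq_norm, Complex.normSq_add_mul_I]
  have ht : (px φ z * px Q z + py φ z * py Q z) ^ 2 ≤ l ^ 2 * (px φ z ^ 2 + py φ z ^ 2) := by
    have e1 : px φ z * px Q z + py φ z * py Q z =
        fderiv ℝ Q z (((px φ z : ℝ) : ℂ) + ((py φ z : ℝ) : ℂ) * Complex.I) := by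
      have e2 : (((px φ z : ℝ) : ℂ) + ((py φ z : ℝ) : ℂ) * Complex.I) =
          px φ z • (1 : ℂ) + py φ z • Complex.I := by simp
      rw [e2, map_add, map_smul, map_smul]
      rfl
    rw [e1, ← hG, ← mul_pow, ← sq_abs (fderiv ℝ Q z _)]
    refine pow_le_pow_left₀ (abs_nonneg _) ?_ 2
    refine ((fderiv ℝ Q z).le_opNorm _).trans ?_
    exact mul_le_mul_of_nonneg_right hQl (norm_nonneg _)
  have halg := R1_alg (A := (px (px φ) z - py (py φ) z) / 2) (c := px (py φ) z) (φ := φ z)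
    (a := px φ z) (b := py φ z) hl hQ0 hQ1 ht
  have hxx : px (px φ) z = (px (px φ) z - py (py φ) z) / 2 - Q z * φ z / 2 := by linarith
  have hyy : py (py φ) z = -((px (px φ) z - py (py φ) z) / 2) - Q z * φ z / 2 := by linarith
  generalize (px (px φ) z - py (py φ) z) / 2 = A at halg hxx hyy
  rw [hxx, hyy]
  have hqv : qf φ z = px φ z ^ 2 + py φ z ^ 2 + φ z ^ 2 := rfl
  rw [hqv]
  unfold Cv
  refine le_trans halg (le_of_eq ?_)
  ring

end FC34
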