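import Pool.Agent.W_fc1c69_h34.Contact
import Pool.Agent.W_fc1c69_h34.LemmaLG
import Pool.Agent.W_fc1c69_h34.R1

/-! Regime B of Lemma 3, local part: two-sided bounds near a contact point. -/

namespace FC34

open Complex MeasureTheory Metric Set

variable {φ Q : ℂ → ℝ} {q₁ l Λ T : ℝ} {a y b b' z z' x : ℂ}

/-- The gradient of `Ψ_b` at the contact point: `p = T (z-a)/|z-a| + (T/ρ)(z-b)`. -/
noncomputable def pvec (T ρ : ℝ) (a b z : ℂ) : ℂ :=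
  ((T / ‖z - a‖ : ℝ) : ℂ) * (z - a) + ((T / ρ : ℝ) : ℂ) * (z - b)

/-- `|p| ∈ [0.95 T, 1.05 T]` if `|z-b| ≤ ρ/20`. -/
theorem norm_pvec {ρ : ℝ} (hT : 0 < T) (hρ : 0 < ρ) (hza : z ≠ a) (hzb : ‖z - b‖ ≤ ρ / 20) :
    0.95 * T ≤ ‖pvec T ρ a b z‖ ∧ ‖pvec T ρ a b z‖ ≤ 1.05 * T := by
  have hA : 0 < ‖z - a‖ := norm_pos_iff.2 (sub_ne_zero.2 hza)
  have h1 : ‖((T / ‖z - a‖ : ℝ) : ℂ) * (z - a)‖ = T := by
    rw [norm_mul, Complex.norm_real, Real.norm_eq_abs, abs_of_pos (div_pos hT hA)]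
    field_simp
  have h2 : ‖((T / ρ : ℝ) : ℂ) * (z - b)‖ ≤ T / 20 := by
    rw [norm_mul, Complex.norm_real, Real.norm_eq_abs, abs_of_pos (div_pos hT hρ)]
    calc T / ρ * ‖z - b‖ ≤ T / ρ * (ρ / 20) := by gcongr
      _ = T / 20 := by field_simp
  unfold pvec
  constructor
  · have h3 := norm_sub_le_norm_add (((T / ‖z - a‖ : ℝ) : ℂ) * (z - a)) (((T / ρ : ℝ) : ℂ) * (z - b))
    linarith
  · have h3 := norm_add_le (((T / ‖z - a‖ : ℝ) : ℂ) * (z - a)) (((T / ρ : ℝ) : ℂ) * (z - b))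
    linarith

theorem ContactB1_sq (x z a : ℂ) :
    ‖x - a‖ ^ 2 = ‖z - a‖ ^ 2 + 2 * ((starRingEnd ℂ) (z - a) * (x - z)).re + ‖x - z‖ ^ 2 := by
  rw [← Complex.normSq_eq_norm_sq, ← Complex.normSq_eq_norm_sq, ← Complex.normSq_eq_norm_sq]
  simp only [Complex.normSq_apply, Complex.mul_re, Complex.conj_re, Complex.conj_im,
    Complex.sub_re, Complex.sub_im]
  ring

theorem ContactB1_re (T ρ : ℝ) (a b z x : ℂ) :
    ((starRingEnd ℂ) (pvec T ρ a b z) * (x - z)).re =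
      T / ‖z - a‖ * ((starRingEnd ℂ) (z - a) * (x - z)).re +
        T / ρ * ((starRingEnd ℂ) (z - b) * (x - z)).re := by
  unfold pvec
  rw [map_add, map_mul, map_mul, Complex.conj_ofReal, Complex.conj_ofReal, add_mul, mul_assoc,
    mul_assoc, Complex.add_re, Complex.re_ofReal_mul, Complex.re_ofReal_mul]

theorem ContactB1_e {p : ℂ} (hp : 0 < ‖p‖) (w : ℂ) : 2 * (‖p‖ / 2) *
    ((starRingEnd ℂ) ((((1 / ‖p‖ : ℝ) : ℂ)) * p) * w).re = ((starRingEnd ℂ) p * w).re := by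
  have h : (starRingEnd ℂ) ((((1 / ‖p‖ : ℝ) : ℂ)) * p) * w =
      ((1 / ‖p‖ : ℝ) : ℂ) * ((starRingEnd ℂ) p * w) := by
    rw [map_mul, Complex.conj_ofReal, mul_assoc]
  rw [h, Complex.re_ofReal_mul]
  field_simp

theorem ContactB1_four : (4 : ℝ) ≤ Real.exp 2 := by
  have h6 := Real.add_one_le_exp (1 : ℝ)
  have h7 : Real.exp 2 = Real.exp 1 * Real.exp 1 := by
    rw [← Real.exp_add]
    norm_num
  rw [h7]
  nlinarith

theorem ContactB1_quad {T ρ R d : ℝ} (hT : 0 < T) (hρ : 0 < ρ) (hd0 : 0 ≤ d) (hd : d ≤ R)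
    (hR2 : R ^ 2 = ρ / (4 * T)) : 1.06 * (T / ρ) * d ^ 2 ≤ 3 / 8 := by
  have h3 : d ^ 2 ≤ R ^ 2 := pow_le_pow_left₀ hd0 hd 2
  rw [hR2] at h3
  calc 1.06 * (T / ρ) * d ^ 2 ≤ 1.06 * (T / ρ) * (ρ / (4 * T)) := by gcongr
    _ = 1.06 / 4 := by field_simp
    _ ≤ 3 / 8 := by norm_num

/-- Second order expansion of `Ψ_b`: for `|z-a| ≥ 0.9 ρ`,
`T(|x-a|-|z-a|) + (T/2ρ)(|x-b|²-|z-b|²) - Re(conj p (x-z)) ∈ [0, 1.06 (T/ρ)|x-z|²]`.
(`|x-a| ≤ A + s + |x-z|²/(2A)`, `|x-a| ≥ A + s`, `A = |z-a|`, `s = Re(conj e (x-z))`.) -/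
theorem psi_expansion {ρ : ℝ} (hT : 0 < T) (hρ : 0 < ρ) (hza : 0.9 * ρ ≤ ‖z - a‖) (x : ℂ) :
    ((starRingEnd ℂ) (pvec T ρ a b z) * (x - z)).re ≤
        T * (‖x - a‖ - ‖z - a‖) + T / (2 * ρ) * (‖x - b‖ ^ 2 - ‖z - b‖ ^ 2) ∧
      T * (‖x - a‖ - ‖z - a‖) + T / (2 * ρ) * (‖x - b‖ ^ 2 - ‖z - b‖ ^ 2) ≤
        ((starRingEnd ℂ) (pvec T ρ a b z) * (x - z)).re + 1.06 * (T / ρ) * ‖x - z‖ ^ 2 := by
  have hA : 0 < ‖z - a‖ := by
    have : 0 < 0.9 * ρ := by positivity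
    linarith
  have hb := ContactB1_sq x z b
  have ha := ContactB1_sq x z a
  have hcs : ((starRingEnd ℂ) (z - a) * (x - a)).re ≤ ‖z - a‖ * ‖x - a‖ := by
    have h := Complex.re_le_norm ((starRingEnd ℂ) (z - a) * (x - a))
    rwa [norm_mul, RCLike.norm_conj] at h
  have hsplit : ((starRingEnd ℂ) (z - a) * (x - a)).re =
      ‖z - a‖ ^ 2 + ((starRingEnd ℂ) (z - a) * (x - z)).re := by
    rw [← Complex.normSq_eq_norm_sq]
    simp only [Complex.normSq_apply, Complex.mul_re, Complex.conj_re, Complex.conj_im,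
      Complex.sub_re, Complex.sub_im]
    ring
  rw [ContactB1_re]
  set u := ((starRingEnd ℂ) (z - a) * (x - z)).re with hu
  set w := ((starRingEnd ℂ) (z - b) * (x - z)).re with hw
  set A := ‖z - a‖ with hAdef
  set X := ‖x - a‖ with hX
  set D := ‖x - z‖ with hD
  rw [hb]
  have hX0 : 0 ≤ X := norm_nonneg _
  have hD0 : 0 ≤ D := norm_nonneg _
  have e0 : T / (2 * ρ) * (‖z - b‖ ^ 2 + 2 * w + D ^ 2 - ‖z - b‖ ^ 2) =
      T / ρ * w + T / ρ * D ^ 2 / 2 := by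
    field_simp
    ring
  rw [e0]
  have e1 : u / A ≤ X - A := by
    rw [div_le_iff₀ hA]
    nlinarith
  have e2 : X - A ≤ u / A + D ^ 2 / (2 * A) := by
    have : X * (2 * A) ≤ X ^ 2 + A ^ 2 := by nlinarith [sq_nonneg (X - A)]
    have h3 : u / A + D ^ 2 / (2 * A) = (2 * u + D ^ 2) / (2 * A) := by field_simp
    rw [h3, le_div_iff₀ (by positivity)]
    nlinarith
  have e3 : T / A * u = T * (u / A) := by ring
  have e4 : 0 ≤ T / ρ * D ^ 2 := by positivity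
  constructor
  · rw [e3]
    have := mul_le_mul_of_nonneg_left e1 hT.le
    linarith
  · rw [e3]
    have h4 := mul_le_mul_of_nonneg_left e2 hT.le
    have h5 : T * (D ^ 2 / (2 * A)) ≤ 0.56 * (T / ρ * D ^ 2) := by
      have h6 : 1 / (2 * A) ≤ 0.56 / ρ := by
        rw [div_le_div_iff₀ (by positivity) hρ]
        linarith
      calc T * (D ^ 2 / (2 * A)) = T * D ^ 2 * (1 / (2 * A)) := by ring
        _ ≤ T * D ^ 2 * (0.56 / ρ) := by gcongr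
        _ = 0.56 * (T / ρ * D ^ 2) := by ring
    have h7 : 1.06 * (T / ρ) * D ^ 2 = 0.56 * (T / ρ * D ^ 2) + T / ρ * D ^ 2 / 2 := by ring
    rw [h7]
    linarith

/-- Two-sided bound near a contact point in regime B, `R = (1/2)√(ρ/T)`:
`v(x) ≥ Ψ_b(x) - 3` for `|x - z| ≤ ε₁ R`, in the form
`q(z) exp(T(|x-a|-|z-a|) + (T/2ρ)(|x-b|²-|z-b|²) - 3) ≤ q(x)`.
Proof: on `ball z R ⊆ closedBall y (ρ/2)` (`R ≤ ρ/4` as `ρT ≥ 4`), `local_le` and `psi_expansion`: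
`v(x) ≤ v(z) + Re(conj p (x-z)) + 1.06 (T/ρ) R² ≤ ... + 3/8`; `lower_general` with `C₇ = 3/8`,
`2P = |p|`, `e = p/|p|`, `c₁ = (1/2)/√Cv`; `l R²/Λ = lρ/(4TΛ) ≤ l/T ≤ η₀ P` (`ρ ≤ 4Λ`);
`log 4 + 1.06/4 ≤ 3`. -/
theorem exists_regimeB (q₁ l : ℝ) (hq : 0 ≤ q₁) (hl : 0 ≤ l) :
    ∃ ε₁ : ℝ, 0 < ε₁ ∧ ε₁ ≤ 1 / 32 ∧ ∃ T₀ : ℝ, 1 ≤ T₀ ∧
      ∀ (Λ : ℝ) (φ Q : ℂ → ℝ), Loc q₁ l Λ φ Q → ∀ (T : ℝ) (a y b z : ℂ), T₀ ≤ T →
        IsTop φ Λ T a y → T / Cv q₁ l < ‖y - a‖ → ‖y - a‖ ≤ Λ →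
        closedBall y (‖y - a‖ / 2) ⊆ closedBall (0 : ℂ) (3 * Λ) → ‖b - y‖ ≤ ‖y - a‖ / 20 →
        IsContact φ T a y b z →
        ∀ x : ℂ, ‖x - z‖ ≤ ε₁ * (1 / 2 * Real.sqrt (‖y - a‖ / T)) →
          qf φ z * Real.exp (T * (‖x - a‖ - ‖z - a‖) +
            T / (2 * ‖y - a‖) * (‖x - b‖ ^ 2 - ‖z - b‖ ^ 2) - 3) ≤ qf φ x := by
  have hCv : 5 ≤ Cv q₁ l := by
    unfold Cv
    nlinarith [sq_nonneg q₁]
  have hCv0 : 0 < Cv q₁ l := by linarith
  set c₁ : ℝ := 1 / 2 * Real.sqrt (1 / Cv q₁ l) with hc₁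
  have hc₁0 : 0 < c₁ := by positivity
  obtain ⟨ε₁, hε, hε', P₀, hP₀, η₀, hη₀, H⟩ := lower_general q₁ l (3 / 8) c₁ hq hl hc₁0
  refine ⟨ε₁, hε, hε', max (max (Cv q₁ l) (P₀ / 0.475)) (l / (1.9 * η₀)), ?_, ?_⟩
  · exact le_trans (by linarith) ((le_max_left _ _).trans (le_max_left _ _))
  intro Λ φ Q hL T a y b z hT hy hlow hup hsub hb hc x hx
  have hT1 : Cv q₁ l ≤ T := ((le_max_left _ _).trans (le_max_left _ _)).trans hT
  have hT2 : P₀ / 0.475 ≤ T := ((le_max_right _ _).trans (le_max_left _ _)).trans hT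
  have hT3 : l / (1.9 * η₀) ≤ T := (le_max_right _ _).trans hT
  have hTpos : 0 < T := by linarith
  have hρ : 0 < ‖y - a‖ := lt_trans (div_pos hTpos hCv0) hlow
  obtain ⟨hnear, hqz⟩ := hc.near hL hTpos hy hρ hsub
  set ρ := ‖y - a‖ with hρdef
  have hΛ : 0 < Λ := lt_of_lt_of_le one_pos hL.hΛ
  have hzb : ‖z - b‖ ≤ ρ / 20 := by
    rw [norm_sub_rev y b] at hnear
    linarith
  have hzy : ‖z - y‖ ≤ ρ / 10 := by
    have h1 : z - y = (z - b) + (b - y) := by ring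
    have h2 : ‖z - y‖ ≤ ‖z - b‖ + ‖b - y‖ := by
      rw [h1]; exact norm_add_le _ _
    linarith
  have hza : 0.9 * ρ ≤ ‖z - a‖ := by
    have h1 : y - a = (z - a) + (y - z) := by ring
    have h2 : ρ ≤ ‖z - a‖ + ‖y - z‖ := by
      rw [hρdef, h1]; exact norm_add_le _ _
    rw [norm_sub_rev y z] at h2
    linarith
  have hza0 : z ≠ a := by
    intro h
    rw [h, sub_self, norm_zero] at hza
    linarith
  obtain ⟨hp1, hp2⟩ := norm_pvec (a := a) (b := b) hTpos hρ hza0 hzb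
  set p := pvec T ρ a b z with hpdef
  set R := 1 / 2 * Real.sqrt (ρ / T) with hRdef
  have hR0 : 0 < R := by positivity
  have hR2 : R ^ 2 = ρ / (4 * T) := by
    rw [hRdef, mul_pow, Real.sq_sqrt (by positivity)]
    field_simp
    norm_num
  have hρT : 4 ≤ ρ * T := by
    rw [div_lt_iff₀ hCv0] at hlow
    have h1 : T ≤ ρ * T := by
      have : 1 ≤ ρ := by
        by_contra hcon
        push Not at hcon
        have : ρ * Cv q₁ l < 1 * Cv q₁ l := mul_lt_mul_of_pos_right hcon hCv0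
        linarith
      nlinarith
    linarith
  have hRρ : R ≤ ρ / 4 := by
    apply le_of_sq_le_sq _ (by positivity)
    rw [hR2, div_le_iff₀ (by positivity)]
    nlinarith
  have hcR : c₁ ≤ R := by
    rw [hc₁, hRdef]
    apply mul_le_mul_of_nonneg_left _ (by norm_num)
    apply Real.sqrt_le_sqrt
    rw [div_le_div_iff₀ hCv0 hTpos]
    rw [div_lt_iff₀ hCv0] at hlow
    linarith
  have hball1 : ball z R ⊆ closedBall y (ρ / 2) := by
    intro w hw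
    rw [mem_ball, dist_eq_norm] at hw
    rw [mem_closedBall, dist_eq_norm]
    have h1 : w - y = (w - z) + (z - y) := by ring
    have h2 : ‖w - y‖ ≤ ‖w - z‖ + ‖z - y‖ := by
      rw [h1]; exact norm_add_le _ _
    linarith
  have hball2 : ball z R ⊆ ball (0 : ℂ) (4 * Λ) := by
    refine (hball1.trans hsub).trans ?_
    exact closedBall_subset_ball (by linarith)
  have hP0 : 0 < ‖p‖ := lt_of_lt_of_le (by positivity) hp1
  have hP₀P : P₀ ≤ ‖p‖ / 2 := by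
    rw [div_le_iff₀ (by norm_num)] at hT2
    linarith
  have he : ‖(((1 / ‖p‖ : ℝ) : ℂ)) * p‖ = 1 := by
    rw [norm_mul, Complex.norm_real, Real.norm_eq_abs, abs_of_pos (by positivity)]
    field_simp
  have hη : l * R ^ 2 / Λ ≤ η₀ * (‖p‖ / 2) := by
    rw [hR2]
    have h1 : l * (ρ / (4 * T)) / Λ ≤ l / 4 := by
      rw [div_le_iff₀ hΛ]
      have h2 : ρ / (4 * T) ≤ Λ / 4 := by
        rw [div_le_div_iff₀ (by positivity) (by norm_num)]
        have : ρ ≤ T * Λ := hup.trans (le_mul_of_one_le_left hΛ.le (by linarith))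
        linarith
      calc l * (ρ / (4 * T)) ≤ l * (Λ / 4) := mul_le_mul_of_nonneg_left h2 hl
        _ = l / 4 * Λ := by ring
    have h3 : l / 4 ≤ η₀ * (0.475 * T) := by
      rw [div_le_iff₀ (by positivity)] at hT3
      have h5 : η₀ * (0.475 * T) = T * (1.9 * η₀) / 4 := by ring
      rw [h5]
      linarith
    have h4 : η₀ * (0.475 * T) ≤ η₀ * (‖p‖ / 2) := by
      apply mul_le_mul_of_nonneg_left _ hη₀.le
      linarith
    linarith
  have key := H Λ φ Q hL (‖p‖ / 2) R z ((((1 / ‖p‖ : ℝ) : ℂ)) * p) hP₀P hcR he hball2 hη hqz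
    (by
      intro w hw
      rw [ContactB1_e hP0]
      have h1 := hc.local_le (hball1 hw)
      refine h1.trans ?_
      apply mul_le_mul_of_nonneg_left _ hqz.le
      rw [Real.exp_le_exp]
      have h2 := (psi_expansion (a := a) (b := b) (z := z) hTpos hρ hza w).2
      rw [mem_ball, dist_eq_norm] at hw
      exact h2.trans (by
        have := ContactB1_quad hTpos hρ (norm_nonneg _) hw.le hR2
        linarith)) x hx
  rw [ContactB1_e hP0] at key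
  refine le_trans ?_ key
  rw [mul_div_assoc]
  apply mul_le_mul_of_nonneg_left _ hqz.le
  have h2 := (psi_expansion (a := a) (b := b) (z := z) hTpos hρ hza x).2
  have hxR : ‖x - z‖ ≤ R := hx.trans (mul_le_of_le_one_left hR0.le (by linarith))
  have h4 := ContactB1_quad hTpos hρ (norm_nonneg _) hxR hR2
  rw [le_div_iff₀ (by norm_num)]
  calc Real.exp (T * (‖x - a‖ - ‖z - a‖) + T / (2 * ρ) * (‖x - b‖ ^ 2 - ‖z - b‖ ^ 2) - 3) * 4
      ≤ Real.exp (((starRingEnd ℂ) p * (x - z)).re - 2) * Real.exp 2 := by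
        apply mul_le_mul _ ContactB1_four (by norm_num) (Real.exp_pos _).le
        rw [Real.exp_le_exp]
        linarith
    _ = Real.exp (((starRingEnd ℂ) p * (x - z)).re) := by
        rw [← Real.exp_add]
        congr 1
        ring

end FC34
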