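import Pool.Agent.W_fc1c69_h34.Contact
import Pool.Agent.W_fc1c69_h34.R1

/-! Regime B of Lemma 3: separation of contact points, and tops of slope `4T` near them. Here the
lower bound near contact points is a hypothesis. -/

namespace FC34

open Complex MeasureTheory Metric Set

/-- The two-sided bound at a contact point, on the ball of radius `σ` (`σ = ε₁ R`). -/
def LowAt (φ : ℂ → ℝ) (T σ : ℝ) (a y b z : ℂ) : Prop :=
  ∀ x : ℂ, ‖x - z‖ ≤ σ →
    qf φ z * Real.exp (T * (‖x - a‖ - ‖z - a‖) +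
      T / (2 * ‖y - a‖) * (‖x - b‖ ^ 2 - ‖z - b‖ ^ 2) - 3) ≤ qf φ x

variable {φ Q : ℂ → ℝ} {q₁ l Λ T σ : ℝ} {a y b b' z z' : ℂ}

/-- comparison of the lower bound at one contact point with the upper bound at another one -/
theorem ContactB2_key (hqz : 0 < qf φ z) (hqz' : 0 < qf φ z')
    (hc' : IsContact φ T a y b' z') (hL : LowAt φ T σ a y b z) {x : ℂ} (hx : ‖x - z‖ ≤ σ)
    (hxy : x ∈ closedBall y (‖y - a‖ / 2)) :
    (T * (‖x - a‖ - ‖z - a‖) + T / (2 * ‖y - a‖) * (‖x - b‖ ^ 2 - ‖z - b‖ ^ 2)) -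
      (T * (‖x - a‖ - ‖z' - a‖) + T / (2 * ‖y - a‖) * (‖x - b'‖ ^ 2 - ‖z' - b'‖ ^ 2)) ≤
      3 + Real.log (qf φ z') - Real.log (qf φ z) := by
  have h1 := (hL x hx).trans (hc'.local_le hxy)
  have h2 : Real.log (qf φ z) + (T * (‖x - a‖ - ‖z - a‖) +
      T / (2 * ‖y - a‖) * (‖x - b‖ ^ 2 - ‖z - b‖ ^ 2) - 3) ≤ Real.log (qf φ z') +
      (T * (‖x - a‖ - ‖z' - a‖) + T / (2 * ‖y - a‖) * (‖x - b'‖ ^ 2 - ‖z' - b'‖ ^ 2)) := by
    have h3 := Real.log_le_log (mul_pos hqz (Real.exp_pos _)) h1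
    rw [Real.log_mul hqz.ne' (Real.exp_pos _).ne', Real.log_mul hqz'.ne' (Real.exp_pos _).ne',
      Real.log_exp, Real.log_exp] at h3
    exact h3
  linarith

theorem ContactB2_alg (z w b b' : ℂ) :
    (‖z + w - b‖ ^ 2 - ‖z + w - b'‖ ^ 2) - (‖z - w - b‖ ^ 2 - ‖z - w - b'‖ ^ 2) =
      4 * (w.re * (b'.re - b.re) + w.im * (b'.im - b.im)) := by
  simp only [Complex.sq_norm, Complex.normSq_apply, Complex.sub_re, Complex.sub_im,
    Complex.add_re, Complex.add_im]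
  ring

/-- (ii): if the contact points `z, z'` of `b, b'` satisfy `|z - z'| ≤ σ/2`, then
`|b - b'| ≤ 6 ρ/(T σ)`.
Proof: put `s = σ/2`. For `x` with `|x - z| ≤ s` both lower bounds hold at `x` (`|x-z'| ≤ σ`), and both
upper bounds (`local_le`, as `x ∈ closedBall y (ρ/2)`); so `|Ψ_b(x) - Ψ_b'(x)| ≤ 3` where
`Ψ_b(x) = log q(z) + T(|x-a|-|z-a|) + (T/2ρ)(|x-b|²-|z-b|²)`.  The difference is affine in `x`,
`Ψ_b - Ψ_b' = const + (T/ρ) Re(conj(b'-b) x)`; take `x = z ± s (b'-b)/|b'-b|`: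
`2 s (T/ρ)|b'-b| ≤ 6`. -/
theorem contact_separation (hT : 0 < T) (hρ : 0 < ‖y - a‖) (hσ : 0 < σ)
    (hqz : 0 < qf φ z) (hqz' : 0 < qf φ z')
    (hc : IsContact φ T a y b z) (hc' : IsContact φ T a y b' z')
    (hL : LowAt φ T σ a y b z) (hL' : LowAt φ T σ a y b' z')
    (hin : closedBall z σ ⊆ closedBall y (‖y - a‖ / 2))
    (hzz : ‖z - z'‖ ≤ σ / 2) : ‖b - b'‖ ≤ 6 * ‖y - a‖ / (T * σ) := by
  by_cases hbb : ‖b' - b‖ = 0
  · rw [norm_sub_rev, hbb]
    positivity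
  have hd0 : 0 < ‖b' - b‖ := lt_of_le_of_ne (norm_nonneg _) (Ne.symm hbb)
  set d := ‖b' - b‖ with hd
  set w : ℂ := ((σ / 2 / d : ℝ) : ℂ) * (b' - b) with hw
  have hwn : ‖w‖ = σ / 2 := by
    rw [hw, norm_mul, Complex.norm_real, Real.norm_eq_abs, abs_of_nonneg (by positivity), ← hd]
    field_simp
  have hk1 := ContactB2_key hqz hqz' hc' hL (x := z + w) (by
      rw [add_sub_cancel_left, hwn]; linarith) (hin (by
      rw [mem_closedBall, dist_eq_norm, add_sub_cancel_left, hwn]; linarith))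
  have hk2 := ContactB2_key hqz' hqz hc hL' (x := z - w) (by
      have e : z - w - z' = (z - z') + (-w) := by ring
      have := norm_add_le (z - z') (-w)
      rw [e]
      rw [norm_neg, hwn] at this
      linarith) (hin (by
      have e : z - w - z = -w := by ring
      rw [mem_closedBall, dist_eq_norm, e, norm_neg, hwn]; linarith))
  have hid := ContactB2_alg z w b b'
  have hre : w.re * (b'.re - b.re) + w.im * (b'.im - b.im) = σ / 2 * d := by
    have e1 : w.re = σ / 2 / d * (b'.re - b.re) := by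
      rw [hw, Complex.re_ofReal_mul, Complex.sub_re]
    have e2 : w.im = σ / 2 / d * (b'.im - b.im) := by
      rw [hw, Complex.im_ofReal_mul, Complex.sub_im]
    have e3 : d ^ 2 = (b'.re - b.re) ^ 2 + (b'.im - b.im) ^ 2 := by
      rw [hd, Complex.sq_norm, Complex.normSq_apply, Complex.sub_re, Complex.sub_im]
      ring
    rw [e1, e2]
    have e4 : σ / 2 / d * (b'.re - b.re) * (b'.re - b.re) +
        σ / 2 / d * (b'.im - b.im) * (b'.im - b.im) =
        σ / 2 / d * ((b'.re - b.re) ^ 2 + (b'.im - b.im) ^ 2) := by ring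
    rw [e4, ← e3]
    field_simp
  rw [hre] at hid
  have hsum : T / (2 * ‖y - a‖) * (4 * (σ / 2 * d)) ≤ 6 := by
    rw [← hid]
    nlinarith [hk1, hk2]
  have hfin : T * σ * d ≤ 6 * ‖y - a‖ := by
    have e : T / (2 * ‖y - a‖) * (4 * (σ / 2 * d)) = T * σ * d / ‖y - a‖ := by
      field_simp
      ring
    rw [e, div_le_iff₀ hρ] at hsum
    exact hsum
  rw [norm_sub_rev, ← hd, le_div_iff₀ (by positivity)]
  linarith

/-- (iii): tops of slope `4T` of points `a'` with `|a' - z| ≤ σ` (`LowAt`) are at distance `≤ 1.3/T`,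
if `T ρ ≥ 100` and `σ ≤ ρ/10`.
Proof in row 214 (iii): `v(a') ≥ Ψ_b(a') - 3` and `v(y'') ≥ v(a') + 4T ρ''`. If
`y'' ∈ closedBall y (ρ/2)`: `v(y'') ≤ Ψ_b(y'') ≤ Ψ_b(a') + 1.55 T ρ''`. Otherwise `ρ'' ≥ 0.3ρ` and
`v(y'') ≤ v(z) + T(|y''-a|-|z-a|) + Tρ/800` (`IsContact.global`)
`≤ Ψ_b(a') + (T/2ρ)|z-b|² + T ρ'' + Tρ/800`. -/
theorem top_near_contact (h : Loc q₁ l Λ φ Q) (hT : 0 < T) (hy : IsTop φ Λ T a y)
    (hρ : 0 < ‖y - a‖) (hTρ : 100 ≤ T * ‖y - a‖)
    (hd : closedBall y (‖y - a‖ / 2) ⊆ closedBall (0 : ℂ) (3 * Λ))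
    (hb : ‖b - y‖ ≤ ‖y - a‖ / 20) (hc : IsContact φ T a y b z) (hL : LowAt φ T σ a y b z)
    (hσ : σ ≤ ‖y - a‖ / 10) {a' y'' : ℂ} (ha' : ‖a' - z‖ ≤ σ) (hy'' : IsTop φ Λ (4 * T) a' y'') :
    ‖y'' - a'‖ ≤ 1.3 / T := by
  obtain ⟨hnear, hqz⟩ := hc.near h hT hy hρ hd
  have hzb : ‖z - b‖ ≤ ‖y - a‖ / 20 := by
    rw [norm_sub_rev y b] at hnear
    linarith
  have hzy : ‖z - y‖ ≤ ‖y - a‖ / 10 := by
    have h1 : z - y = (z - b) + (b - y) := by ring
    have h2 : ‖z - y‖ ≤ ‖z - b‖ + ‖b - y‖ := by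
      rw [h1]; exact norm_add_le _ _
    linarith
  have ha'y : ‖a' - y‖ ≤ ‖y - a‖ / 5 := by
    have h1 : a' - y = (a' - z) + (z - y) := by ring
    have h2 : ‖a' - y‖ ≤ ‖a' - z‖ + ‖z - y‖ := by
      rw [h1]; exact norm_add_le _ _
    linarith
  have ha'b : ‖a' - b‖ ≤ 0.15 * ‖y - a‖ := by
    have h1 : a' - b = (a' - z) + (z - b) := by ring
    have h2 : ‖a' - b‖ ≤ ‖a' - z‖ + ‖z - b‖ := by
      rw [h1]; exact norm_add_le _ _
    linarith
  have ha'in : a' ∈ closedBall (0 : ℂ) (3 * Λ) := by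
    apply hd
    rw [mem_closedBall, dist_eq_norm]
    linarith
  set r := ‖y'' - a'‖ with hr
  have hr0 : 0 ≤ r := norm_nonneg _
  -- lower bound of `q` at `y''`
  have hlow : qf φ z * Real.exp ((T * (‖a' - a‖ - ‖z - a‖) +
      T / (2 * ‖y - a‖) * (‖a' - b‖ ^ 2 - ‖z - b‖ ^ 2) - 3) + 4 * T * r) ≤ qf φ y'' := by
    have h1 := hL a' ha'
    have h2 := hy''.2 a' ha'in
    rw [sub_self, norm_zero, zero_sub, ← hr] at h2
    have h3 : qf φ a' * Real.exp (4 * T * r) ≤ qf φ y'' := by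
      have h4 := mul_le_mul_of_nonneg_right h2 (Real.exp_pos (4 * T * r)).le
      have h5 : qf φ y'' * Real.exp (4 * T * -r) * Real.exp (4 * T * r) = qf φ y'' := by
        rw [mul_assoc, ← Real.exp_add]
        have : 4 * T * -r + 4 * T * r = 0 := by ring
        rw [this, Real.exp_zero, mul_one]
      linarith
    calc _ = (qf φ z * Real.exp (T * (‖a' - a‖ - ‖z - a‖) +
          T / (2 * ‖y - a‖) * (‖a' - b‖ ^ 2 - ‖z - b‖ ^ 2) - 3)) * Real.exp (4 * T * r) := by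
          rw [mul_assoc (qf φ z), ← Real.exp_add]
      _ ≤ qf φ a' * Real.exp (4 * T * r) :=
          mul_le_mul_of_nonneg_right h1 (Real.exp_pos _).le
      _ ≤ _ := h3
  have htri : ‖y'' - a‖ - ‖a' - a‖ ≤ r := by
    have := norm_sub_norm_le (y'' - a) (a' - a)
    rwa [sub_sub_sub_cancel_right] at this
  have hT2 : T * (‖y'' - a‖ - ‖a' - a‖) ≤ T * r := mul_le_mul_of_nonneg_left htri hT.le
  by_cases hyy : y'' ∈ closedBall y (‖y - a‖ / 2)
  · have h1 := hlow.trans (hc.local_le hyy)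
    have h2 := le_of_mul_le_mul_left h1 hqz
    rw [Real.exp_le_exp] at h2
    have hyy' : ‖y'' - y‖ ≤ ‖y - a‖ / 2 := by
      rw [mem_closedBall, dist_eq_norm] at hyy
      exact hyy
    have hyb : ‖y'' - b‖ ≤ 0.55 * ‖y - a‖ := by
      have h1 : y'' - b = (y'' - y) + (y - b) := by ring
      have h2 : ‖y'' - b‖ ≤ ‖y'' - y‖ + ‖y - b‖ := by
        rw [h1]; exact norm_add_le _ _
      rw [norm_sub_rev y b] at h2
      linarith
    have hdiff : ‖y'' - b‖ - ‖a' - b‖ ≤ r := by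
      have := norm_sub_norm_le (y'' - b) (a' - b)
      rwa [sub_sub_sub_cancel_right] at this
    have hsq : ‖y'' - b‖ ^ 2 - ‖a' - b‖ ^ 2 ≤ r * (0.7 * ‖y - a‖) := by
      have e1 : ‖y'' - b‖ ^ 2 - ‖a' - b‖ ^ 2 =
        (‖y'' - b‖ - ‖a' - b‖) * (‖y'' - b‖ + ‖a' - b‖) := by ring
      rw [e1]
      have e2 : 0 ≤ ‖y'' - b‖ + ‖a' - b‖ := by positivity
      calc (‖y'' - b‖ - ‖a' - b‖) * (‖y'' - b‖ + ‖a' - b‖) ≤ r * (‖y'' - b‖ + ‖a' - b‖) :=
            mul_le_mul_of_nonneg_right hdiff e2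
        _ ≤ r * (0.7 * ‖y - a‖) := by
            apply mul_le_mul_of_nonneg_left _ hr0
            linarith
    have hk : T / (2 * ‖y - a‖) * (‖y'' - b‖ ^ 2 - ‖a' - b‖ ^ 2) ≤ 0.35 * T * r := by
      calc T / (2 * ‖y - a‖) * (‖y'' - b‖ ^ 2 - ‖a' - b‖ ^ 2)
          ≤ T / (2 * ‖y - a‖) * (r * (0.7 * ‖y - a‖)) :=
            mul_le_mul_of_nonneg_left hsq (by positivity)
        _ = 0.35 * T * r := by field_simp; ring
    have hk2 : T / (2 * ‖y - a‖) * (‖y'' - b‖ ^ 2 - ‖z - b‖ ^ 2) -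
        T / (2 * ‖y - a‖) * (‖a' - b‖ ^ 2 - ‖z - b‖ ^ 2) =
        T / (2 * ‖y - a‖) * (‖y'' - b‖ ^ 2 - ‖a' - b‖ ^ 2) := by ring
    rw [le_div_iff₀ hT]
    nlinarith
  · exfalso
    have h1 := hlow.trans (hc.global h hT hy hρ hd hb hy''.1)
    have h2 := le_of_mul_le_mul_left h1 hqz
    rw [Real.exp_le_exp] at h2
    have hyy' : ‖y - a‖ / 2 < ‖y'' - y‖ := by
      rw [mem_closedBall, dist_eq_norm, not_le] at hyy
      exact hyy
    have hr3 : 0.3 * ‖y - a‖ ≤ r := by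
      have h1 : y'' - y = (y'' - a') + (a' - y) := by ring
      have h2 : ‖y'' - y‖ ≤ ‖y'' - a'‖ + ‖a' - y‖ := by
        rw [h1]; exact norm_add_le _ _
      rw [← hr] at h2
      linarith
    have h4 : T / (2 * ‖y - a‖) * ‖z - b‖ ^ 2 ≤ T * ‖y - a‖ / 800 := by
      have h5 : ‖z - b‖ ^ 2 ≤ (‖y - a‖ / 20) ^ 2 :=
        pow_le_pow_left₀ (norm_nonneg _) hzb 2
      calc T / (2 * ‖y - a‖) * ‖z - b‖ ^ 2 ≤ T / (2 * ‖y - a‖) * (‖y - a‖ / 20) ^ 2 :=
            mul_le_mul_of_nonneg_left h5 (by positivity)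
        _ = T * ‖y - a‖ / 800 := by field_simp; ring
    have h6 : 0 ≤ T / (2 * ‖y - a‖) * ‖a' - b‖ ^ 2 := by positivity
    have h7 : T * (0.3 * ‖y - a‖) ≤ T * r := mul_le_mul_of_nonneg_left hr3 hT.le
    nlinarith

/-- A finite set of parameters: for `D > 0` and `0 < ρ'` there is a finite set of points of
`closedBall y ρ'`, pairwise at distance `> D`, with at least `(ρ'/D)²` elements (a maximal
`D`-separated set: the balls of radius `D` cover, compare areas). -/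
theorem exists_separated (y : ℂ) {D ρ' : ℝ} (hD : 0 < D) (hρ' : 0 < ρ') :
    ∃ F : Finset ℂ, (∀ b ∈ F, b ∈ closedBall y ρ') ∧ (∀ b ∈ F, ∀ b' ∈ F, b ≠ b' → D < ‖b - b'‖) ∧
      (ρ' / D) ^ 2 ≤ F.card := by
  have key : ∀ n : ℕ, n ≤ ⌈(ρ' / D) ^ 2⌉₊ → ∃ F : Finset ℂ, (∀ b ∈ F, b ∈ closedBall y ρ') ∧
      (∀ b ∈ F, ∀ b' ∈ F, b ≠ b' → D < ‖b - b'‖) ∧ F.card = n := by
    intro n
    induction n with
    | zero => intro _; exact ⟨∅, by simp, by simp, by simp⟩
    | succ n ih =>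
      intro hn
      obtain ⟨F, h1, h2, h3⟩ := ih (by omega)
      have hn' : (n : ℝ) < (ρ' / D) ^ 2 := Nat.lt_ceil.1 (by omega)
      -- a point far from all points of F
      have hex : ∃ p ∈ closedBall y ρ', ∀ b ∈ F, D < ‖p - b‖ := by
        by_contra hcon
        push Not at hcon
        have hsub : closedBall y ρ' ⊆ ⋃ b ∈ F, closedBall b D := by
          intro p hp
          obtain ⟨b, hb, hpb⟩ := hcon p hp
          simp only [mem_iUnion]
          exact ⟨b, hb, by rw [mem_closedBall, dist_eq_norm]; exact hpb⟩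
        have hvol : volume (closedBall y ρ') ≤ ∑ b ∈ F, volume (closedBall b D) :=
          (measure_mono hsub).trans (measure_biUnion_finset_le _ _)
        simp only [Complex.volume_closedBall, Finset.sum_const, nsmul_eq_mul, h3] at hvol
        have hvol2 : ENNReal.ofReal (ρ' ^ 2 * Real.pi) ≤ ENNReal.ofReal (n * (D ^ 2 * Real.pi)) := by
          have e1 : ENNReal.ofReal (ρ' ^ 2 * Real.pi) = ENNReal.ofReal ρ' ^ 2 * NNReal.pi := by
            rw [ENNReal.ofReal_mul (by positivity), ENNReal.ofReal_pow hρ'.le]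
            congr 1
            rw [← NNReal.coe_real_pi, ENNReal.ofReal_coe_nnreal]
          have e2 : ENNReal.ofReal (n * (D ^ 2 * Real.pi)) =
              (n : ENNReal) * (ENNReal.ofReal D ^ 2 * NNReal.pi) := by
            rw [ENNReal.ofReal_mul (by positivity), ENNReal.ofReal_mul (by positivity),
              ENNReal.ofReal_pow hD.le, ENNReal.ofReal_natCast]
            congr 2
            rw [← NNReal.coe_real_pi, ENNReal.ofReal_coe_nnreal]
          rw [e1, e2]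
          exact hvol
        have hvol3 := (ENNReal.ofReal_le_ofReal_iff (by positivity)).1 hvol2
        have hvol4 : ρ' ^ 2 ≤ n * D ^ 2 := by
          have hpi := Real.pi_pos
          have : ρ' ^ 2 * Real.pi ≤ (n * D ^ 2) * Real.pi := by linarith
          exact le_of_mul_le_mul_right this hpi
        rw [div_pow, lt_div_iff₀ (by positivity)] at hn'
        linarith
      obtain ⟨p, hp, hpF⟩ := hex
      have hpn : p ∉ F := by
        intro hmem
        have := hpF p hmem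
        rw [sub_self, norm_zero] at this
        linarith
      refine ⟨insert p F, ?_, ?_, ?_⟩
      · intro b hb
        rcases Finset.mem_insert.1 hb with rfl | hb
        · exact hp
        · exact h1 b hb
      · intro b hb b' hb' hne
        rcases Finset.mem_insert.1 hb with hb1 | hb1
        · rcases Finset.mem_insert.1 hb' with hb2 | hb2
          · exact absurd (hb1.trans hb2.symm) hne
          · rw [hb1]; exact hpF b' hb2
        · rcases Finset.mem_insert.1 hb' with hb2 | hb2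
          · rw [hb2, norm_sub_rev]; exact hpF b hb1
          · exact h2 b hb1 b' hb2 hne
      · rw [Finset.card_insert_of_notMem hpn, h3]
  obtain ⟨F, h1, h2, h3⟩ := key ⌈(ρ' / D) ^ 2⌉₊ le_rfl
  refine ⟨F, h1, h2, ?_⟩
  rw [h3]
  exact Nat.le_ceil _

end FC34
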