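import Mathlib

/-! A lower measure bound from the Vitali covering theorem. -/

namespace FC34

open Complex MeasureTheory Metric Set

/-- If every point `a ∈ S` has a closed ball of radius `r ≤ Rm` in which the set `G` has measure
`≥ c r²`, then `c |S| ≤ 25 π |G|`.
Proof: `Vitali.exists_disjoint_subfamily_covering_enlargement_closedBall`; the disjoint family `u` is
countable (balls with nonempty interior); `|S| ≤ ∑ π (5 r)² = 25π ∑ r² ≤ (25π/c) ∑ |G ∩ B| ≤
(25π/c)|G|` (disjointness; `G` null-measurable or use measurable `G`). -/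
theorem vitali_lower {S G : Set ℂ} {c Rm : ℝ} (hc : 0 < c) (hG : MeasurableSet G)
    (h : ∀ a ∈ S, ∃ r : ℝ, 0 < r ∧ r ≤ Rm ∧ ENNReal.ofReal (c * r ^ 2) ≤ volume (G ∩ closedBall a r)) :
    ENNReal.ofReal c * volume S ≤ ENNReal.ofReal (25 * Real.pi) * volume G := by
  choose! r hr0 hrR hrG using h
  obtain ⟨u, huS, hdisj, hcov⟩ :=
    Vitali.exists_disjoint_subfamily_covering_enlargement_closedBall S (fun a : ℂ => a) r Rm hrR 5
      (by norm_num)
  have hucount : u.Countable := by
    refine hdisj.countable_of_nonempty_interior ?_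
    intro a ha
    have hra := hr0 a (huS ha)
    exact ⟨a, ball_subset_interior_closedBall (mem_ball_self hra)⟩
  have hcoverS : S ⊆ ⋃ b ∈ u, closedBall b (5 * r b) := by
    intro a ha
    obtain ⟨b, hb, hab⟩ := hcov a ha
    exact mem_biUnion hb (hab (mem_closedBall_self (hr0 a ha).le))
  have h1 : volume S ≤ ∑' b : u, volume (closedBall (b : ℂ) (5 * r b)) :=
    (measure_mono hcoverS).trans (measure_biUnion_le _ hucount _)
  have h2 : ∀ b : u, ENNReal.ofReal c * volume (closedBall (b : ℂ) (5 * r b)) ≤
      ENNReal.ofReal (25 * Real.pi) * volume (G ∩ closedBall (b : ℂ) (r b)) := by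
    intro b
    have hrb := hr0 b (huS b.2)
    have hb := hrG b (huS b.2)
    have hvol : volume (closedBall (b : ℂ) (5 * r b)) =
        ENNReal.ofReal (25 * Real.pi * r b ^ 2) := by
      rw [Complex.volume_closedBall]
      have hp : (NNReal.pi : ENNReal) = ENNReal.ofReal Real.pi := by
        rw [ENNReal.ofReal, ← NNReal.coe_real_pi, Real.toNNReal_coe]
      rw [hp, ← ENNReal.ofReal_pow (by positivity), ← ENNReal.ofReal_mul (by positivity)]
      congr 1
      ring
    rw [hvol, ← ENNReal.ofReal_mul hc.le]
    have he : c * (25 * Real.pi * r b ^ 2) = 25 * Real.pi * (c * r b ^ 2) := by ring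
    rw [he, ENNReal.ofReal_mul (by positivity)]
    gcongr
  have hGu : ∑' b : u, volume (G ∩ closedBall (b : ℂ) (r b)) ≤ volume G := by
    have hd : u.PairwiseDisjoint fun a => G ∩ closedBall a (r a) := by
      intro a ha b hb hab
      exact (hdisj ha hb hab).mono inter_subset_right inter_subset_right
    rw [← measure_biUnion hucount hd (fun b _ => hG.inter isClosed_closedBall.measurableSet)]
    exact measure_mono (iUnion₂_subset fun b _ => inter_subset_left)
  calc ENNReal.ofReal c * volume S
      ≤ ENNReal.ofReal c * ∑' b : u, volume (closedBall (b : ℂ) (5 * r b)) := by gcongr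
    _ = ∑' b : u, ENNReal.ofReal c * volume (closedBall (b : ℂ) (5 * r b)) :=
        ENNReal.tsum_mul_left.symm
    _ ≤ ∑' b : u, ENNReal.ofReal (25 * Real.pi) * volume (G ∩ closedBall (b : ℂ) (r b)) :=
        ENNReal.tsum_le_tsum h2
    _ = ENNReal.ofReal (25 * Real.pi) * ∑' b : u, volume (G ∩ closedBall (b : ℂ) (r b)) :=
        ENNReal.tsum_mul_left
    _ ≤ ENNReal.ofReal (25 * Real.pi) * volume G := by gcongr

end FC34
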