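import Pool.Agent.W_fc1c69_h34.ContactA
import Pool.Agent.W_fc1c69_h34.ContactB1
import Pool.Agent.W_fc1c69_h34.ContactB2
import Pool.Agent.W_fc1c69_h34.VitaliLower

/-! Regime B of Lemma 3: assembly. -/

namespace FC34

open Complex MeasureTheory Metric Set

theorem ContactB_Cv_pos {q₁ l : ℝ} (hq : 0 ≤ q₁) (hl : 0 ≤ l) : 0 < Cv q₁ l := by
  unfold Cv
  positivity

theorem ContactB_real {S G : Set ℂ} {σ c : ℝ} {z : ℂ} (hc : 0 < c)
    (hSG : closedBall z σ ⊆ S ∪ G) (hSf : volume S ≠ ⊤) (hGf : volume G ≠ ⊤) (hσ : 0 ≤ σ)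
    (hV : ENNReal.ofReal c * volume S ≤ ENNReal.ofReal (25 * Real.pi) * volume G) :
    c * Real.pi * σ ^ 2 ≤ (25 * Real.pi + c) * (volume G).toReal := by
  have h1 : (volume (closedBall z σ)).toReal = Real.pi * σ ^ 2 := by
    rw [Complex.volume_closedBall, ENNReal.toReal_mul, ENNReal.toReal_pow,
      ENNReal.toReal_ofReal hσ, mul_comm]
    rfl
  have h2 : (volume (closedBall z σ)).toReal ≤ (volume S).toReal + (volume G).toReal := by
    rw [← ENNReal.toReal_add hSf hGf]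
    exact ENNReal.toReal_mono (ENNReal.add_ne_top.2 ⟨hSf, hGf⟩)
      ((measure_mono hSG).trans (measure_union_le _ _))
  have h3 : c * (volume S).toReal ≤ 25 * Real.pi * (volume G).toReal := by
    have h4 := ENNReal.toReal_mono (ENNReal.mul_ne_top ENNReal.ofReal_ne_top hGf) hV
    rw [ENNReal.toReal_mul, ENNReal.toReal_mul, ENNReal.toReal_ofReal hc.le,
      ENNReal.toReal_ofReal (by positivity)] at h4
    exact h4
  rw [h1] at h2
  nlinarith

/-- Measure near one contact point (regime B): `|Sig(8T) ∩ closedBall z (σ/2)| ≥ c₀ σ²`, `c₀` absolute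
(`c₀ = 1/10^8`).
Proof: every `a' ∈ closedBall z (σ/8)` has a `4T`-top `y''`, `ρ'' = |y''-a'| ≤ 1.3/T`
(`top_near_contact`). If `ρ'' = 0` then `a' ∈ Sig(4T)`. Otherwise `contactA` for the slope `4T`
(`ρ'' ≤ 4T/Cv` because `1.3/T ≤ 4T/Cv`): `|Sig(8T) ∩ closedBall y'' (ρ''/2)| ≥ ρ''²/1200`, and
`closedBall y'' (ρ''/2) ⊆ closedBall a' (1.5ρ'') ⊆ closedBall z (σ/2)`. `vitali_lower` for
`S = closedBall z (σ/8) \ Sig(4T)`, `G = Sig(8T) ∩ closedBall z (σ/2)`, radius `1.5ρ''`. -/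
theorem regimeB_one {q₁ l Λ T σ : ℝ} {φ Q : ℂ → ℝ} {a y b z : ℂ} (h : Loc q₁ l Λ φ Q)
    (hT : 1 ≤ T) (hT2 : Cv q₁ l ≤ T ^ 2) (hy : IsTop φ Λ T a y) (hρ : 0 < ‖y - a‖)
    (hTρ : 100 ≤ T * ‖y - a‖)
    (hd : closedBall y (‖y - a‖ / 2) ⊆ closedBall (0 : ℂ) (3 * Λ))
    (hb : ‖b - y‖ ≤ ‖y - a‖ / 20) (hc : IsContact φ T a y b z) (hL : LowAt φ T σ a y b z)
    (hσ : σ ≤ ‖y - a‖ / 10) (hσT : 10 ≤ T * σ) :
    ENNReal.ofReal (1 / 10 ^ 8 * σ ^ 2) ≤ volume (Sig φ Λ (8 * T) ∩ closedBall z (σ / 2)) := by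
  set ρ := ‖y - a‖ with hρdef
  have hT0 : 0 < T := by linarith
  have hσ0 : 0 < σ := by
    by_contra h1
    have h2 : T * σ ≤ 0 := mul_nonpos_of_nonneg_of_nonpos hT0.le (not_lt.1 h1)
    linarith
  have hCv := ContactB_Cv_pos h.hq h.hl
  have hT1 : 1 / T ≤ σ / 10 := by
    rw [div_le_div_iff₀ hT0 (by norm_num)]
    linarith
  obtain ⟨hzb, hqz⟩ := hc.near h hT0 hy hρ hd
  have hzy : ‖z - y‖ ≤ ρ / 10 := by
    have h1 : ‖z - y‖ ≤ ‖z - b‖ + ‖b - y‖ := norm_sub_le_norm_sub_add_norm_sub z b y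
    rw [norm_sub_rev y b] at hzb
    linarith
  have hsub : closedBall z (σ / 2) ⊆ closedBall y (ρ / 2) := by
    intro w hw
    rw [mem_closedBall_iff_norm] at hw ⊢
    have h1 : ‖w - y‖ ≤ ‖w - z‖ + ‖z - y‖ := norm_sub_le_norm_sub_add_norm_sub w z y
    linarith
  set S : Set ℂ := closedBall z (σ / 8) \ Sig φ Λ (4 * T) with hS
  set G : Set ℂ := Sig φ Λ (8 * T) ∩ closedBall z (σ / 2) with hG
  have hGm : MeasurableSet G := ((h.isClosed_Sig _).inter isClosed_closedBall).measurableSet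
  have hkey : ∀ a' ∈ S, ∃ r : ℝ, 0 < r ∧ r ≤ 2 / T ∧
      ENNReal.ofReal (1 / 2700 * r ^ 2) ≤ volume (G ∩ closedBall a' r) := by
    rintro a' ⟨ha1, ha2⟩
    rw [mem_closedBall_iff_norm] at ha1
    obtain ⟨y'', hy''⟩ := h.exists_top (4 * T) a'
    have h1 : ‖y'' - a'‖ ≤ 1.3 / T :=
      top_near_contact h hT0 hy hρ hTρ hd hb hc hL hσ (ha1.trans (by linarith)) hy''
    have h2 : ‖y'' - a'‖ ≠ 0 := fun hh => ha2 (hy''.self_of_eq hh)
    have h3 : 0 < ‖y'' - a'‖ := lt_of_le_of_ne (norm_nonneg _) (Ne.symm h2)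
    have h13 : 1.3 / T = 1.3 * (1 / T) := by ring
    rw [h13] at h1
    have h4 : closedBall y'' (‖y'' - a'‖ / 2) ⊆ closedBall z (σ / 2) := by
      intro w hw
      rw [mem_closedBall_iff_norm] at hw ⊢
      have h5 : ‖w - z‖ ≤ ‖w - y''‖ + ‖y'' - z‖ := norm_sub_le_norm_sub_add_norm_sub w y'' z
      have h6 : ‖y'' - z‖ ≤ ‖y'' - a'‖ + ‖a' - z‖ := norm_sub_le_norm_sub_add_norm_sub y'' a' z
      linarith
    have h5 : closedBall y'' (‖y'' - a'‖ / 2) ⊆ closedBall (0 : ℂ) (3 * Λ) :=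
      (h4.trans hsub).trans hd
    have h6 : ‖y'' - a'‖ ≤ 4 * T / Cv q₁ l := by
      rw [le_div_iff₀ hCv]
      have h7 : ‖y'' - a'‖ * Cv q₁ l ≤ 1.3 * (1 / T) * T ^ 2 :=
        mul_le_mul h1 hT2 hCv.le (by positivity)
      have h8 : 1.3 * (1 / T) * T ^ 2 = 1.3 * T := by field_simp
      linarith
    have h7 := contactA h (by linarith : 0 < 4 * T) hy'' h3 h5 h6
    refine ⟨1.5 * ‖y'' - a'‖, by positivity, ?_, ?_⟩
    · have h8 : 2 / T = 2 * (1 / T) := by ring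
      rw [h8]
      linarith
    · have h8 : 1 / 2700 * (1.5 * ‖y'' - a'‖) ^ 2 = 1 / 1200 * ‖y'' - a'‖ ^ 2 := by ring
      rw [h8]
      refine h7.trans (measure_mono ?_)
      rintro w ⟨hw1, hw2⟩
      refine ⟨⟨?_, h4 hw2⟩, ?_⟩
      · have h9 : 2 * (4 * T) = 8 * T := by ring
        rwa [h9] at hw1
      · rw [mem_closedBall_iff_norm] at hw2 ⊢
        have h10 : ‖w - a'‖ ≤ ‖w - y''‖ + ‖y'' - a'‖ := norm_sub_le_norm_sub_add_norm_sub w y'' a'
        linarith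
  have hV := vitali_lower (by norm_num : (0 : ℝ) < 1 / 2700) hGm hkey
  have hGf : volume G ≠ ⊤ :=
    ((measure_mono inter_subset_right).trans_lt (measure_closedBall_lt_top)).ne
  have hSf : volume S ≠ ⊤ :=
    ((measure_mono sdiff_subset).trans_lt (measure_closedBall_lt_top)).ne
  have hSG : closedBall z (σ / 8) ⊆ S ∪ G := by
    intro w hw
    by_cases hw1 : w ∈ Sig φ Λ (4 * T)
    · refine Or.inr ⟨Sig_mono (by linarith) hw1, ?_⟩
      exact closedBall_subset_closedBall (by linarith) hw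
    · exact Or.inl ⟨hw, hw1⟩
  have hreal := ContactB_real (by norm_num : (0 : ℝ) < 1 / 2700) hSG hSf hGf (by linarith) hV
  rw [ENNReal.ofReal_le_iff_le_toReal hGf]
  have hg0 : 0 ≤ (volume G).toReal := ENNReal.toReal_nonneg
  have hpi := Real.pi_gt_three
  have h1 : 1 / 2700 * Real.pi * (σ / 8) ^ 2 ≤ (26 * Real.pi) * (volume G).toReal := by
    refine hreal.trans ?_
    apply mul_le_mul_of_nonneg_right _ hg0
    linarith
  have h2 : 1 / 2700 * (σ / 8) ^ 2 ≤ 26 * (volume G).toReal := by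
    have h3 : Real.pi * (1 / 2700 * (σ / 8) ^ 2) ≤ Real.pi * (26 * (volume G).toReal) := by
      linarith
    exact le_of_mul_le_mul_left h3 Real.pi_pos
  nlinarith [sq_nonneg σ]

theorem ContactB_sum {F : Finset ℂ} {zf : ℂ → ℂ} {r v : ℝ} {G : Set ℂ}
    (hG : MeasurableSet G)
    (h1 : ∀ b ∈ F, ENNReal.ofReal v ≤ volume (G ∩ closedBall (zf b) r))
    (h2 : ∀ b ∈ F, ∀ b' ∈ F, b ≠ b' → 2 * r < ‖zf b - zf b'‖) :
    ENNReal.ofReal (F.card * v) ≤ volume (G ∩ ⋃ b ∈ F, closedBall (zf b) r) := by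
  have h3 : G ∩ ⋃ b ∈ F, closedBall (zf b) r = ⋃ b ∈ F, (G ∩ closedBall (zf b) r) := by
    simp only [inter_iUnion]
  rw [h3, measure_biUnion_finset]
  · rw [ENNReal.ofReal_mul (Nat.cast_nonneg _), ENNReal.ofReal_natCast]
    have h4 := Finset.card_nsmul_le_sum F (fun b => volume (G ∩ closedBall (zf b) r))
      (ENNReal.ofReal v) h1
    rwa [nsmul_eq_mul] at h4
  · intro b hb b' hb' hne
    refine Disjoint.mono inter_subset_right inter_subset_right ?_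
    rw [Set.disjoint_left]
    intro w hw hw'
    rw [mem_closedBall_iff_norm] at hw hw'
    have h4 := h2 b hb b' hb' hne
    have h5 : ‖zf b - zf b'‖ ≤ ‖zf b - w‖ + ‖w - zf b'‖ :=
      norm_sub_le_norm_sub_add_norm_sub _ w _
    rw [norm_sub_rev (zf b) w] at h5
    linarith
  · intro b _
    exact hG.inter isClosed_closedBall.measurableSet

/-- REGIME B.  `σ = ε₁ (1/2) √(ρ/T)`, `D = 6ρ/(Tσ)`, `exists_separated y` with this `D` and
`ρ' = ρ/20`; contact points `z_b` (`exists_contact`); by `contact_separation` they are pairwise at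
distance `> σ/2`, so take the radius `σ/4` balls: use `regimeB_one` with `σ/2` in place of `σ`
(`LowAt` on the smaller ball): the balls `closedBall z_b (σ/4)` are disjoint, each contains
`≥ 10^{-8} (σ/2)²` of `Sig(8T)`, and their number is `≥ (ρ/20)²(Tσ/6ρ)² = (Tσ)²/14400`; product
`≥ c T²σ⁴ = c ε₁⁴ ρ²/16`. All balls are inside `closedBall y (ρ/2)`. For `T₀` large
`10 ≤ Tσ/2` follows from `ρ ≥ T/Cv`: `σ ≥ (ε₁/2)/√Cv`. -/
theorem exists_contactB (q₁ l : ℝ) (hq : 0 ≤ q₁) (hl : 0 ≤ l) :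
    ∃ c : ℝ, 0 < c ∧ ∃ T₀ : ℝ, 1 ≤ T₀ ∧
      ∀ (Λ : ℝ) (φ Q : ℂ → ℝ), Loc q₁ l Λ φ Q → ∀ (T : ℝ) (a y : ℂ), T₀ ≤ T →
        IsTop φ Λ T a y → T / Cv q₁ l < ‖y - a‖ → ‖y - a‖ ≤ Λ →
        closedBall y (‖y - a‖ / 2) ⊆ closedBall (0 : ℂ) (3 * Λ) →
        ENNReal.ofReal (c * ‖y - a‖ ^ 2) ≤
          volume (Sig φ Λ (8 * T) ∩ closedBall y (‖y - a‖ / 2)) := by
  obtain ⟨ε₁, hε0, hε1, T₁, hT₁, hreg⟩ := exists_regimeB q₁ l hq hl
  have hCv := ContactB_Cv_pos hq hl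
  set K := Real.sqrt (Cv q₁ l) with hK
  have hK0 : 0 < K := Real.sqrt_pos.2 hCv
  have hK2 : K ^ 2 = Cv q₁ l := Real.sq_sqrt hCv.le
  refine ⟨ε₁ ^ 4 / (16 * 14400 * 4 * 10 ^ 8), by positivity,
    max T₁ (40 * K / ε₁), le_max_of_le_left hT₁, ?_⟩
  intro Λ φ Q h T a y hT hy hρC hρΛ hd
  have hTT₁ : T₁ ≤ T := (le_max_left _ _).trans hT
  have hTK : 40 * K / ε₁ ≤ T := (le_max_right _ _).trans hT
  rw [div_le_iff₀ hε0] at hTK
  have hT1 : 1 ≤ T := hT₁.trans hTT₁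
  have hT0 : 0 < T := by linarith
  set ρ := ‖y - a‖ with hρdef
  have hρ : 0 < ρ := (div_pos hT0 hCv).trans hρC
  set s := Real.sqrt (ρ / T) with hs
  have hs0 : 0 < s := Real.sqrt_pos.2 (by positivity)
  have hs2 : s ^ 2 * T = ρ := by
    rw [hs, Real.sq_sqrt (by positivity)]
    field_simp
  have hsK : 1 < s * K := by
    rw [div_lt_iff₀ hCv, ← hK2, ← hs2] at hρC
    have h1 : 1 < (s * K) ^ 2 := by
      have h2 : T * 1 < T * (s * K) ^ 2 := by nlinarith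
      exact lt_of_mul_lt_mul_left h2 hT0.le
    nlinarith [mul_pos hs0 hK0]
  set σ := ε₁ * (1 / 2 * s) with hσ
  have hσ0 : 0 < σ := by positivity
  have hTs : 40 < T * ε₁ * s := by nlinarith
  have hTs' : 1280 < T * s := by nlinarith [mul_pos hT0 hs0]
  have hσT : 10 ≤ T * (σ / 2) := by
    rw [hσ]
    nlinarith
  have hσρ : σ ≤ ρ / 10 := by
    rw [hσ, ← hs2]
    nlinarith
  have hTρ : 100 ≤ T * ρ := by
    rw [← hs2]
    nlinarith
  have hCT : Cv q₁ l ≤ T ^ 2 := by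
    rw [← hK2]
    have h1 : K ≤ T := by nlinarith
    nlinarith
  obtain ⟨F, hF1, hF2, hF3⟩ := exists_separated y (D := 6 * ρ / (T * σ)) (ρ' := ρ / 20)
    (by positivity) (by positivity)
  choose zf hzf using fun b => h.exists_contact T a y b
  have hb : ∀ b ∈ F, ‖b - y‖ ≤ ρ / 20 := fun b hb => by
    rw [← mem_closedBall_iff_norm]
    exact hF1 b hb
  have hlow : ∀ b ∈ F, LowAt φ T σ a y b (zf b) := fun b hbF =>
    hreg Λ φ Q h T a y b (zf b) hTT₁ hy hρC hρΛ hd (hb b hbF) (hzf b)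
  have hnear : ∀ b ∈ F, ‖zf b - y‖ ≤ ρ / 10 ∧ 0 < qf φ (zf b) := by
    intro b hbF
    obtain ⟨h1, h2⟩ := (hzf b).near h hT0 hy hρ hd
    refine ⟨?_, h2⟩
    have h3 : ‖zf b - y‖ ≤ ‖zf b - b‖ + ‖b - y‖ := norm_sub_le_norm_sub_add_norm_sub _ b y
    rw [norm_sub_rev y b] at h1
    have := hb b hbF
    linarith
  have hsep : ∀ b ∈ F, ∀ b' ∈ F, b ≠ b' → 2 * (σ / 4) < ‖zf b - zf b'‖ := by
    intro b hbF b' hbF' hne
    by_contra h1
    have h2 := contact_separation hT0 hρ hσ0 (hnear b hbF).2 (hnear b' hbF').2 (hzf b) (hzf b')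
      (hlow b hbF) (hlow b' hbF') (by
        intro w hw
        rw [mem_closedBall_iff_norm] at hw ⊢
        have h3 : ‖w - y‖ ≤ ‖w - zf b‖ + ‖zf b - y‖ := norm_sub_le_norm_sub_add_norm_sub w _ y
        have := (hnear b hbF).1
        linarith) (by linarith)
    exact absurd h2 (not_le.2 (hF2 b hbF b' hbF' hne))
  have hone : ∀ b ∈ F, ENNReal.ofReal (1 / 10 ^ 8 * (σ / 2) ^ 2) ≤
      volume (Sig φ Λ (8 * T) ∩ closedBall (zf b) (σ / 4)) := by
    intro b hbF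
    have h1 := regimeB_one h hT1 hCT hy hρ hTρ hd (hb b hbF) (hzf b) (σ := σ / 2)
      (fun x hx => hlow b hbF x (hx.trans (by linarith))) (by linarith) hσT
    have h2 : σ / 2 / 2 = σ / 4 := by ring
    rwa [h2] at h1
  have hsum := ContactB_sum (h.isClosed_Sig (8 * T)).measurableSet hone hsep
  refine le_trans ?_ (hsum.trans (measure_mono ?_))
  · refine ENNReal.ofReal_le_ofReal ?_
    have h1 : ρ / 20 / (6 * ρ / (T * σ)) = T * σ / 120 := by
      field_simp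
      ring
    rw [h1] at hF3
    have h2 : (T * σ / 120) ^ 2 * (1 / 10 ^ 8 * (σ / 2) ^ 2) ≤
        F.card * (1 / 10 ^ 8 * (σ / 2) ^ 2) :=
      mul_le_mul_of_nonneg_right hF3 (by positivity)
    refine le_trans (le_of_eq ?_) h2
    rw [← hs2, hσ]
    ring
  · rintro w ⟨hw1, hw2⟩
    refine ⟨hw1, ?_⟩
    simp only [mem_iUnion] at hw2
    obtain ⟨b, hbF, hw3⟩ := hw2
    rw [mem_closedBall_iff_norm] at hw3 ⊢
    have h3 : ‖w - y‖ ≤ ‖w - zf b‖ + ‖zf b - y‖ := norm_sub_le_norm_sub_add_norm_sub w _ y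
    have := (hnear b hbF).1
    linarith

end FC34
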