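import Mathlib

/-!
# MP_fc1c69_an: bounded doubling index on most wavelength discs (helper34)

Definitions for the local theory.  Paper proof: table `proofs`, ids 212, 213, 214, 215.
-/

namespace FC34

open Complex MeasureTheory Metric Set

section
variable {E : Type*} [NormedAddCommGroup E] [NormedSpace ℝ E]

/-- Partial derivative in the direction `1`. -/
noncomputable def px (u : ℂ → E) (z : ℂ) : E := fderiv ℝ u z 1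

/-- Partial derivative in the direction `I`. -/
noncomputable def py (u : ℂ → E) (z : ℂ) : E := fderiv ℝ u z Complex.I

/-- The flat Laplacian. -/
noncomputable def lap (u : ℂ → E) (z : ℂ) : E := px (px u) z + py (py u) z

end

/-- `∂̄ = (∂_x + i ∂_y) / 2`. -/
noncomputable def dbar (u : ℂ → ℂ) (z : ℂ) : ℂ := (px u z + Complex.I * py u z) / 2

/-- `∂ = (∂_x - i ∂_y) / 2`. -/
noncomputable def dz (u : ℂ → ℂ) (z : ℂ) : ℂ := (px u z - Complex.I * py u z) / 2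

/-- `q = |∇φ|² + φ²`. -/
noncomputable def qf (φ : ℂ → ℝ) (z : ℂ) : ℝ := (px φ z) ^ 2 + (py φ z) ^ 2 + (φ z) ^ 2

/-- The open square with centre `ζ` and half side `r`. -/
def sq (ζ : ℂ) (r : ℝ) : Set ℂ := {z | |z.re - ζ.re| < r ∧ |z.im - ζ.im| < r}

/-- `κ = √(P² + Q₀)`. -/
noncomputable def kap (P Q0 : ℝ) : ℝ := Real.sqrt (P ^ 2 + Q0)

/-- `f = e^{-P x} φ`. -/
noncomputable def ff (P : ℝ) (φ : ℂ → ℝ) (z : ℂ) : ℝ := Real.exp (-(P * z.re)) * φ z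

/-- `b = e^{-P x - i κ y} (φ_x - i φ_y + (κ - P) φ)`. -/
noncomputable def bb (P κ : ℝ) (φ : ℂ → ℝ) (z : ℂ) : ℂ :=
  Complex.exp (-(((P * z.re : ℝ) : ℂ)) - Complex.I * ((κ * z.im : ℝ) : ℂ)) *
    (((px φ z : ℝ) : ℂ) - Complex.I * ((py φ z : ℝ) : ℂ) + (((κ - P) * φ z : ℝ) : ℂ))

/-- The normalised situation (SS) of proofs row 213: centre `0`, direction `1`. -/
structure SS (q₁ C₇ η₀ P R : ℝ) (φ Q : ℂ → ℝ) : Prop where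
  hP : 1 ≤ P
  hR : 0 < R
  hη : 0 ≤ η₀
  smooth : ContDiff ℝ 3 φ
  hQ : ∀ z ∈ ball (0 : ℂ) R, 0 ≤ Q z ∧ Q z ≤ q₁
  hQ0 : ∀ z ∈ ball (0 : ℂ) R, |Q z - Q 0| ≤ η₀ * P / R
  pde : ∀ z ∈ ball (0 : ℂ) R, lap φ z = - Q z * φ z
  top : ∀ z ∈ ball (0 : ℂ) R, qf φ z ≤ Real.exp (2 * P * z.re + C₇)

/-- The bound for `|b|`. -/
noncomputable def Cb (q₁ C₇ : ℝ) : ℝ := (1 + q₁) * Real.exp (C₇ / 2)

/-- The bound for `κ |f|`. -/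
noncomputable def Cf (q₁ C₇ c₁ : ℝ) : ℝ := Cb q₁ C₇ * (1 + 8 / c₁)

/-- The local situation of proofs row 212: scaled chart `B(0, 4Λ)`. -/
structure Loc (q₁ l Λ : ℝ) (φ Q : ℂ → ℝ) : Prop where
  hΛ : 1 ≤ Λ
  hq : 0 ≤ q₁
  hl : 0 ≤ l
  smooth : ContDiff ℝ 3 φ
  hQd : ∀ z ∈ ball (0 : ℂ) (4 * Λ), DifferentiableAt ℝ Q z
  hQl : ∀ z ∈ ball (0 : ℂ) (4 * Λ), ‖fderiv ℝ Q z‖ ≤ l / Λ
  hQ : ∀ z ∈ ball (0 : ℂ) (4 * Λ), 0 ≤ Q z ∧ Q z ≤ q₁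
  pde : ∀ z ∈ ball (0 : ℂ) (4 * Λ), lap φ z = - Q z * φ z
  nz : ∃ z ∈ closedBall (0 : ℂ) (3 * Λ), 0 < qf φ z

/-- Points with one sided Lipschitz constant `≤ K` (`v = log q`), in the chart `B(0, 3Λ)`. -/
def Sig (φ : ℂ → ℝ) (Λ K : ℝ) : Set ℂ :=
  {z | z ∈ closedBall (0 : ℂ) (3 * Λ) ∧
    ∀ x ∈ closedBall (0 : ℂ) (3 * Λ), qf φ x ≤ qf φ z * Real.exp (K * ‖x - z‖)}

/-- `y` is a `T`-top of `a`: it maximises `q(y) e^{-T|y-a|}` over the closed ball of radius `3Λ`. -/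
def IsTop (φ : ℂ → ℝ) (Λ T : ℝ) (a y : ℂ) : Prop :=
  y ∈ closedBall (0 : ℂ) (3 * Λ) ∧
    ∀ x ∈ closedBall (0 : ℂ) (3 * Λ), qf φ x ≤ qf φ y * Real.exp (T * (‖x - a‖ - ‖y - a‖))

/-- Hypothesis MB(N). -/
def MB (φ : ℂ → ℝ) (Λ N : ℝ) : Prop :=
  ∀ x ∈ ball (0 : ℂ) (2.5 * Λ), ∃ y ∈ closedBall x (Λ / 100), y ∈ closedBall (0 : ℂ) (3 * Λ) ∧
    ∀ w ∈ closedBall (0 : ℂ) (3 * Λ), qf φ w ≤ qf φ y * Real.exp (N * Λ)

/-- Isothermal chart data on a metric space `M`, for a class `Eig` of pairs (eigenvalue,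
eigenfunction): `c` maps the disc `B(0,4)` bi-Lipschitzly onto an open set of `M`, and in this
chart every eigenfunction is `C³` and solves `Δ (φ ∘ c) = - λ q (φ ∘ c)` with the flat Laplacian,
where `q` (the conformal factor) does not depend on the eigenfunction. -/
structure IsoChart (M : Type*) [MetricSpace M] (Eig : ℝ → (M → ℝ) → Prop) (q₁ l L : ℝ) where
  c : ℂ → M
  q : ℂ → ℝ
  hq₁ : 0 ≤ q₁
  hl : 0 ≤ l
  hL : 1 ≤ L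
  lip : ∀ x ∈ ball (0 : ℂ) 4, ∀ y ∈ ball (0 : ℂ) 4, dist (c x) (c y) ≤ L * ‖x - y‖
  antilip : ∀ x ∈ ball (0 : ℂ) 4, ∀ y ∈ ball (0 : ℂ) 4, ‖x - y‖ ≤ L * dist (c x) (c y)
  surj : ∀ x ∈ ball (0 : ℂ) 4, ∀ r : ℝ, 0 < r → ball x r ⊆ ball (0 : ℂ) 4 →
    ball (c x) (r / L) ⊆ c '' ball x r
  qd : ∀ x ∈ ball (0 : ℂ) 4, DifferentiableAt ℝ q x
  ql : ∀ x ∈ ball (0 : ℂ) 4, ‖fderiv ℝ q x‖ ≤ l
  qb : ∀ x ∈ ball (0 : ℂ) 4, 0 ≤ q x ∧ q x ≤ q₁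
  smooth : ∀ lam φ, Eig lam φ → ContDiffOn ℝ 3 (fun x => φ (c x)) (ball (0 : ℂ) 4)
  pde : ∀ lam φ, Eig lam φ → ∀ x ∈ ball (0 : ℂ) 4,
    lap (fun x => φ (c x)) x = - (lam * q x) * φ (c x)

end FC34
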