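import Pool.Agent.W_fc1c69_h34.Defs

/-! Definitions for Layer 4 (closed surfaces with isothermal charts), proofs row 215. -/

namespace FC34

open Complex MeasureTheory Metric Set

/-- A finite isothermal atlas with uniform constants; the images of `ball 0 (1/2)` cover. -/
structure FinAtlas (M : Type*) [MetricSpace M] (Eig : ℝ → (M → ℝ) → Prop) where
  q₁ : ℝ
  l : ℝ
  L : ℝ
  n : ℕ
  C : Fin n → IsoChart M Eig q₁ l L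
  cover : ∀ p : M, ∃ i, ∃ u ∈ ball (0 : ℂ) (1 / 2), (C i).c u = p

/-- The scale `Λ = max 1 √λ`. -/
noncomputable def Lam (lam : ℝ) : ℝ := max 1 (Real.sqrt lam)

/-- `Loc` without the nonvanishing condition. -/
structure PreLoc (q₁ l Λ : ℝ) (φ Q : ℂ → ℝ) : Prop where
  hΛ : 1 ≤ Λ
  hq : 0 ≤ q₁
  hl : 0 ≤ l
  smooth : ContDiff ℝ 3 φ
  hQd : ∀ z ∈ ball (0 : ℂ) (4 * Λ), DifferentiableAt ℝ Q z
  hQl : ∀ z ∈ ball (0 : ℂ) (4 * Λ), ‖fderiv ℝ Q z‖ ≤ l / Λ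
  hQ : ∀ z ∈ ball (0 : ℂ) (4 * Λ), 0 ≤ Q z ∧ Q z ≤ q₁
  pde : ∀ z ∈ ball (0 : ℂ) (4 * Λ), lap φ z = - Q z * φ z

theorem PreLoc.toLoc {q₁ l Λ : ℝ} {φ Q : ℂ → ℝ} (h : PreLoc q₁ l Λ φ Q)
    (nz : ∃ z ∈ closedBall (0 : ℂ) (3 * Λ), 0 < qf φ z) : Loc q₁ l Λ φ Q :=
  ⟨h.hΛ, h.hq, h.hl, h.smooth, h.hQd, h.hQl, h.hQ, h.pde, nz⟩

section
variable {M : Type*} [MetricSpace M] {Eig : ℝ → (M → ℝ) → Prop} {q₁ l L : ℝ}

/-- The point of `M` with scaled coordinate `x` in the chart `C`. -/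
noncomputable def IsoChart.pt (C : IsoChart M Eig q₁ l L) (Λ : ℝ) (x : ℂ) : M :=
  C.c (((0.9 / Λ : ℝ) : ℂ) * x)

/-- `ψ` is the function `φ` in the scaled chart `B(0, 4Λ)` (extended smoothly to the plane). -/
def IsScaled (C : IsoChart M Eig q₁ l L) (φ : M → ℝ) (Λ : ℝ) (ψ : ℂ → ℝ) : Prop :=
  ContDiff ℝ 3 ψ ∧ ∀ x ∈ ball (0 : ℂ) (4 * Λ), ψ x = φ (C.pt Λ x)

/-- A disc is `K`-good for `φ` if `sup_{2B} |φ| ≤ K |φ(p')|` for some `p' ∈ B` with `φ(p') ≠ 0`. -/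
def Good (K : ℝ) (φ : M → ℝ) (p : M) (r : ℝ) : Prop :=
  ∃ p' ∈ ball p r, φ p' ≠ 0 ∧ ∀ p'' ∈ ball p (2 * r), |φ p''| ≤ K * |φ p'|

end

/-- A covering of `M` by the balls `ball (x i) r` with multiplicity at most `C₁`. -/
def IsCov (M : Type*) [MetricSpace M] (C₁ r : ℝ) {ι : Type} (x : ι → M) : Prop :=
  (⋃ i, ball (x i) r) = univ ∧ ∀ p : M, ({i | p ∈ ball (x i) r}.ncard : ℝ) ≤ C₁

end FC34
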