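import Pool.Agent.W_fc1c69_h34.Rep
import Pool.Agent.W_fc1c69_h34.Cutoff

/-! Differences of values through the representation formula. -/

namespace FC34

open Complex MeasureTheory Metric Set

theorem Diff_fd {χ : ℂ → ℝ} {b : ℂ → ℂ} (hχ : Differentiable ℝ χ) (hb : Differentiable ℝ b)
    (z v : ℂ) :
    fderiv ℝ (fun w => ((χ w : ℝ) : ℂ) * b w) z v =
      ((χ z : ℝ) : ℂ) * fderiv ℝ b z v + b z * ((fderiv ℝ χ z v : ℝ) : ℂ) := by
  have h1 : HasFDerivAt (fun w => ((χ w : ℝ) : ℂ)) (Complex.ofRealCLM.comp (fderiv ℝ χ z)) z :=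
    Complex.ofRealCLM.hasFDerivAt.comp z (hχ z).hasFDerivAt
  have h2 : HasFDerivAt (fun w => ((χ w : ℝ) : ℂ) * b w) (((χ z : ℝ) : ℂ) • fderiv ℝ b z +
      b z • (Complex.ofRealCLM.comp (fderiv ℝ χ z))) z := h1.mul (hb z).hasFDerivAt
  rw [h2.fderiv]
  simp

theorem Diff_dbar {χ : ℂ → ℝ} {b : ℂ → ℂ} (hχ : Differentiable ℝ χ) (hb : Differentiable ℝ b)
    (z : ℂ) :
    dbar (fun w => ((χ w : ℝ) : ℂ) * b w) z = ((χ z : ℝ) : ℂ) * dbar b z +
      b z * ((((px χ z : ℝ) : ℂ) + Complex.I * ((py χ z : ℝ) : ℂ)) / 2) := by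
  unfold dbar px py
  rw [Diff_fd hχ hb, Diff_fd hχ hb]
  ring

theorem Diff_dbar_cont {b : ℂ → ℂ} (hb : ContDiff ℝ 1 b) : Continuous (dbar b) := by
  have h1 : ∀ v : ℂ, Continuous fun z => fderiv ℝ b z v := fun v =>
    (hb.continuous_fderiv one_ne_zero).clm_apply continuous_const
  unfold dbar px py
  exact ((h1 1).add (continuous_const.mul (h1 Complex.I))).div_const 2

/-- The kernel difference. -/
theorem Diff_ker {z ζ : ℂ} {R : ℝ} (hR : 0 < R) (hζ : ‖ζ‖ ≤ R / 32) (hz : 0.12 * R ≤ ‖z‖) :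
    ‖1 / (z - ζ) - 1 / (z - 0)‖ ≤ 100 * ‖ζ‖ / R ^ 2 := by
  have h1 : ‖z‖ - ‖ζ‖ ≤ ‖z - ζ‖ := norm_sub_norm_le z ζ
  have h2 : 0.085 * R ≤ ‖z - ζ‖ := by linarith
  have hz0 : z ≠ 0 := by
    intro h
    rw [h, norm_zero] at hz
    nlinarith
  have hz1 : z - ζ ≠ 0 := by
    intro h
    rw [h, norm_zero] at h2
    nlinarith
  have e : 1 / (z - ζ) - 1 / (z - 0) = ζ / ((z - ζ) * z) := by
    rw [sub_zero]
    field_simp
    ring
  rw [e, norm_div, norm_mul]
  have hp : 0 < ‖z - ζ‖ * ‖z‖ := mul_pos (norm_pos_iff.2 hz1) (norm_pos_iff.2 hz0)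
  rw [div_le_div_iff₀ hp (by positivity)]
  have h3 : (0.085 * R) * (0.12 * R) ≤ ‖z - ζ‖ * ‖z‖ :=
    mul_le_mul h2 hz (by positivity) (norm_nonneg _)
  have h4 : R ^ 2 ≤ 100 * (‖z - ζ‖ * ‖z‖) := by nlinarith [sq_nonneg R]
  have h5 := mul_le_mul_of_nonneg_left h4 (norm_nonneg ζ)
  linarith

/-- The main part of the integral. -/
theorem Diff_main {b : ℂ → ℂ} (hb : ContDiff ℝ 1 b) {χ : ℂ → ℝ} (h0 : ∀ z, 0 ≤ χ z)
    (h1 : ∀ z, χ z ≤ 1) {R δ : ℝ} (hR : 0 < R) (hout : ∀ z, z ∉ ball (0 : ℂ) (R / 8) → χ z = 0)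
    {ζ : ℂ} (hζ : ‖ζ‖ ≤ R / 32)
    (hδ : ∫ z in ball (0 : ℂ) (R / 8), ‖dbar b z‖ / ‖z - ζ‖ ≤ δ) :
    ‖∫ z, (((χ z : ℝ) : ℂ) * dbar b z) / (z - ζ)‖ ≤ δ := by
  have hz : ∀ z, z ∉ ball (0 : ℂ) (R / 8) → (((χ z : ℝ) : ℂ) * dbar b z) / (z - ζ) = 0 := by
    intro z hz
    rw [hout z hz]
    simp
  rw [← setIntegral_eq_integral_of_forall_compl_eq_zero hz]
  refine le_trans (norm_integral_le_integral_norm _) (le_trans ?_ hδ)
  have hsub : closedBall (0 : ℂ) (R / 8) ⊆ ball ζ R := by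
    intro z hz
    rw [mem_closedBall, dist_zero_right] at hz
    rw [mem_ball, dist_eq_norm]
    have := norm_sub_le z ζ
    linarith
  have hint : IntegrableOn (fun z => ‖dbar b z‖ * (1 / ‖z - ζ‖)) (closedBall (0 : ℂ) (R / 8)) :=
    IntegrableOn.continuousOn_mul (Diff_dbar_cont hb).norm.continuousOn
      ((integrableOn_inv_ball ζ R).mono_set hsub) (isCompact_closedBall _ _)
  refine integral_mono_of_nonneg (Filter.Eventually.of_forall fun z => norm_nonneg _) ?_ ?_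
  · refine (hint.mono_set ball_subset_closedBall).congr_fun ?_ measurableSet_ball
    intro z _
    simp only [mul_one_div]
  · refine Filter.Eventually.of_forall fun z => ?_
    simp only [norm_div, norm_mul, Complex.norm_real, Real.norm_eq_abs, abs_of_nonneg (h0 z)]
    refine div_le_div_of_nonneg_right ?_ (norm_nonneg _)
    calc χ z * ‖dbar b z‖ ≤ 1 * ‖dbar b z‖ := mul_le_mul_of_nonneg_right (h1 z) (norm_nonneg _)
      _ = ‖dbar b z‖ := one_mul _

/-- Difference of two values through the representation formula: for `C¹` functions `b`, if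
`|b| ≤ M` on `ball 0 (R/8)`, and `∫_{ball 0 (R/8)} |∂̄b|/|z-ζ| ≤ δ` for `ζ` and for `0`, then
`|b(ζ) - b(0)| ≤ 2δ + C M |ζ|/R` for `|ζ| ≤ R/32`, `C` absolute.  Proof: cut-off `χ`, `χ = 1` on
`ball 0 (R/16)`, supported in `ball 0 (R/8)`, `|∇χ| ≤ C'/R` (from `exists_cutoff` at centre `0` and
scale `R/3`: `0.36/3 ≥ 1/16`, `0.37/3 ≤ 1/8`), `rep` for `u = χ b` at `ζ` and at `0`,
`|1/(z-ζ) - 1/z| = |ζ|/(|z||z-ζ|) ≤ C|ζ|/R²` where `∇χ ≠ 0` (`|z| ≥ 0.12 R`, `|z-ζ| ≥ 0.12R - R/32`),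
area `≤ R²`. -/
theorem exists_diff_le : ∃ C : ℝ, 0 ≤ C ∧ ∀ (b : ℂ → ℂ) (R M δ : ℝ) (ζ : ℂ), ContDiff ℝ 1 b →
    0 < R → (∀ z ∈ ball (0 : ℂ) (R / 8), ‖b z‖ ≤ M) → ‖ζ‖ ≤ R / 32 →
    ∫ z in ball (0 : ℂ) (R / 8), ‖dbar b z‖ / ‖z - ζ‖ ≤ δ →
    ∫ z in ball (0 : ℂ) (R / 8), ‖dbar b z‖ / ‖z‖ ≤ δ →
    ‖b ζ - b 0‖ ≤ 2 * δ + C * M * ‖ζ‖ / R := by
  obtain ⟨C0, hC0, hcut⟩ := exists_cutoff
  refine ⟨300 * C0, by linarith, ?_⟩
  intro b R M δ ζ hb hR hM hζ hδ1 hδ2
  have hR3 : 0 < R / 3 := by linarith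
  obtain ⟨χ, hχd, hχ0, hχ1, hχin, hχout, hχc, hχx, hχy⟩ := hcut 0 (R / 3) hR3
  have hχdiff : Differentiable ℝ χ := hχd.differentiable (by norm_num)
  have hbdiff : Differentiable ℝ b := hb.differentiable (by norm_num)
  have hM0 : 0 ≤ M := le_trans (norm_nonneg _) (hM 0 (mem_ball_self (by linarith)))
  -- outside the ball
  have hout : ∀ z, z ∉ ball (0 : ℂ) (R / 8) → χ z = 0 := by
    intro z hz
    refine hχout z fun h => hz ?_
    rw [mem_ball, dist_zero_right] at h ⊢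
    linarith
  have hfd0 : ∀ z, z ∉ ball (0 : ℂ) (R / 8) → fderiv ℝ χ z = 0 := by
    intro z hz
    refine IsLocalMin.fderiv_eq_zero (Filter.Eventually.of_forall fun y => ?_)
    show χ z ≤ χ y
    rw [hout z hz]
    exact hχ0 y
  have hfd1 : ∀ z, ‖z‖ ≤ 0.12 * R → fderiv ℝ χ z = 0 := by
    intro z hz
    have h1 : χ z = 1 := by
      refine hχin z ?_
      rw [mem_closedBall, dist_zero_right]
      linarith
    refine IsLocalMax.fderiv_eq_zero (Filter.Eventually.of_forall fun y => ?_)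
    show χ y ≤ χ z
    rw [h1]
    exact hχ1 y
  -- the pieces
  set H : ℂ → ℂ := fun z => ((χ z : ℝ) : ℂ) * dbar b z with hH
  set G : ℂ → ℂ := fun z =>
    b z * ((((px χ z : ℝ) : ℂ) + Complex.I * ((py χ z : ℝ) : ℂ)) / 2) with hG
  have hχcont : Continuous χ := hχdiff.continuous
  have hpc : ∀ v : ℂ, Continuous fun z => fderiv ℝ χ z v := fun v =>
    (hχd.continuous_fderiv (by norm_num)).clm_apply continuous_const
  have hHc : Continuous H := (Complex.continuous_ofReal.comp hχcont).mul (Diff_dbar_cont hb)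
  have hGc : Continuous G := by
    have h1 : Continuous fun z => ((px χ z : ℝ) : ℂ) := Complex.continuous_ofReal.comp (hpc 1)
    have h2 : Continuous fun z => ((py χ z : ℝ) : ℂ) :=
      Complex.continuous_ofReal.comp (hpc Complex.I)
    exact hb.continuous.mul ((h1.add (continuous_const.mul h2)).div_const 2)
  have hH0 : ∀ z, z ∉ ball (0 : ℂ) (R / 8) → H z = 0 := by
    intro z hz
    rw [hH]
    simp only
    rw [hout z hz]
    simp
  have hG0 : ∀ z, z ∉ ball (0 : ℂ) (R / 8) → G z = 0 := by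
    intro z hz
    rw [hG]
    simp only [px, py]
    rw [hfd0 z hz]
    simp
  have hHs : HasCompactSupport H := by
    refine HasCompactSupport.of_support_subset_isCompact (isCompact_closedBall (0 : ℂ) (R / 8)) ?_
    intro z hz
    by_contra h
    exact hz (hH0 z fun h' => h (ball_subset_closedBall h'))
  have hGs : HasCompactSupport G := by
    refine HasCompactSupport.of_support_subset_isCompact (isCompact_closedBall (0 : ℂ) (R / 8)) ?_
    intro z hz
    by_contra h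
    exact hz (hG0 z fun h' => h (ball_subset_closedBall h'))
  -- representation
  set u : ℂ → ℂ := fun w => ((χ w : ℝ) : ℂ) * b w with hu
  have hu1 : ContDiff ℝ 1 u :=
    (Complex.ofRealCLM.contDiff.comp (hχd.of_le (by norm_num))).mul hb
  have hus : HasCompactSupport u := by
    refine HasCompactSupport.of_support_subset_isCompact (isCompact_closedBall (0 : ℂ) (R / 8)) ?_
    intro z hz
    by_contra h
    apply hz
    rw [hu]
    simp only
    rw [hout z fun h' => h (ball_subset_closedBall h')]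
    simp
  have hdb : ∀ z, dbar u z = H z + G z := fun z => Diff_dbar hχdiff hbdiff z
  have hval : ∀ w : ℂ, ‖w‖ ≤ R / 32 → u w = b w := by
    intro w hw
    have h1 : χ w = 1 := by
      refine hχin w ?_
      rw [mem_closedBall, dist_zero_right]
      linarith
    rw [hu]
    simp only
    rw [h1]
    simp
  have hrep : ∀ w : ℂ, ‖w‖ ≤ R / 32 → b w = -(1 / (Real.pi : ℂ)) *
      ((∫ z, H z / (z - w)) + ∫ z, G z / (z - w)) := by
    intro w hw
    rw [← hval w hw, rep hu1 hus w, ← integral_add (integrable_div hHc hHs w)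
      (integrable_div hGc hGs w)]
    congr 1
    refine integral_congr_ae (Filter.Eventually.of_forall fun z => ?_)
    simp only
    rw [hdb z, add_div]
  have e1 := hrep ζ hζ
  have e2 := hrep 0 (by rw [norm_zero]; linarith)
  have hI1 : ‖∫ z, H z / (z - ζ)‖ ≤ δ := Diff_main hb hχ0 hχ1 hR hout hζ hδ1
  have hI3 : ‖∫ z, H z / (z - 0)‖ ≤ δ := by
    refine Diff_main hb hχ0 hχ1 hR hout (by rw [norm_zero]; linarith) ?_
    simpa using hδ2
  -- the gradient part
  have hGn : ∀ z ∈ ball (0 : ℂ) (R / 8), ‖G z‖ ≤ M * (3 * C0 / R) := by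
    intro z hz
    rw [hG]
    simp only
    rw [norm_mul]
    refine mul_le_mul (hM z hz) ?_ (norm_nonneg _) hM0
    rw [norm_div]
    have h1 : ‖((px χ z : ℝ) : ℂ) + Complex.I * ((py χ z : ℝ) : ℂ)‖ ≤
        |px χ z| + |py χ z| := by
      refine le_trans (norm_add_le _ _) ?_
      rw [norm_mul, Complex.norm_I, one_mul, Complex.norm_real, Complex.norm_real,
        Real.norm_eq_abs, Real.norm_eq_abs]
    have h2 : C0 / (R / 3) = 3 * C0 / R := by
      field_simp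
    have h3 := hχx z
    have h4 := hχy z
    rw [h2] at h3 h4
    rw [Complex.norm_ofNat, div_le_iff₀ (by norm_num)]
    linarith
  have hdiff : (∫ z, G z / (z - ζ)) - (∫ z, G z / (z - 0)) =
      ∫ z in ball (0 : ℂ) (R / 8), G z * (1 / (z - ζ) - 1 / (z - 0)) := by
    rw [← integral_sub (integrable_div hGc hGs ζ) (integrable_div hGc hGs 0)]
    rw [setIntegral_eq_integral_of_forall_compl_eq_zero]
    · refine integral_congr_ae (Filter.Eventually.of_forall fun z => ?_)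
      simp only
      rw [mul_sub, mul_one_div, mul_one_div]
    · intro z hz
      rw [hG0 z hz, zero_mul]
  have hI : ‖(∫ z, G z / (z - ζ)) - (∫ z, G z / (z - 0))‖ ≤
      (M * (3 * C0 / R) * (100 * ‖ζ‖ / R ^ 2)) * (Real.pi * (R / 8) ^ 2) := by
    rw [hdiff]
    have hv : volume.real (ball (0 : ℂ) (R / 8)) = Real.pi * (R / 8) ^ 2 := by
      rw [Measure.real, Complex.volume_ball, ENNReal.toReal_mul, ENNReal.toReal_pow,
        ENNReal.toReal_ofReal (by linarith)]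
      simp
      ring
    rw [← hv]
    refine norm_setIntegral_le_of_norm_le_const measure_ball_lt_top ?_
    intro z hz
    rw [norm_mul]
    by_cases hz2 : ‖z‖ ≤ 0.12 * R
    · have : G z = 0 := by
        rw [hG]
        simp only [px, py]
        rw [hfd1 z hz2]
        simp
      rw [this, norm_zero, zero_mul]
      positivity
    · exact mul_le_mul (hGn z hz) (Diff_ker hR hζ (not_le.1 hz2).le) (norm_nonneg _)
        (by positivity)
  -- conclusion
  have hpi := Real.pi_gt_three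
  have hfin : b ζ - b 0 = -(1 / (Real.pi : ℂ)) * (((∫ z, H z / (z - ζ)) -
      (∫ z, H z / (z - 0))) + ((∫ z, G z / (z - ζ)) - (∫ z, G z / (z - 0)))) := by
    rw [e1, e2]
    ring
  rw [hfin, norm_mul, norm_neg, norm_div, norm_one, Complex.norm_real, Real.norm_eq_abs,
    abs_of_pos Real.pi_pos]
  have hsum : ‖((∫ z, H z / (z - ζ)) - (∫ z, H z / (z - 0))) +
      ((∫ z, G z / (z - ζ)) - (∫ z, G z / (z - 0)))‖ ≤ 2 * δ +
      (M * (3 * C0 / R) * (100 * ‖ζ‖ / R ^ 2)) * (Real.pi * (R / 8) ^ 2) := by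
    refine le_trans (norm_add_le _ _) (add_le_add ?_ hI)
    refine le_trans (norm_sub_le _ _) ?_
    linarith
  have hδ0 : 0 ≤ δ := le_trans (norm_nonneg _) hI1
  have hE : (M * (3 * C0 / R) * (100 * ‖ζ‖ / R ^ 2)) * (Real.pi * (R / 8) ^ 2) =
      Real.pi * (300 * C0 * M * ‖ζ‖ / R / 64) := by
    field_simp
    ring
  rw [hE] at hsum
  have hT : 0 ≤ 300 * C0 * M * ‖ζ‖ / R := by positivity
  calc 1 / Real.pi * _ ≤ 1 / Real.pi * (2 * δ + Real.pi * (300 * C0 * M * ‖ζ‖ / R / 64)) :=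
        mul_le_mul_of_nonneg_left hsum (by positivity)
    _ = 2 * δ / Real.pi + 300 * C0 * M * ‖ζ‖ / R / 64 := by
        field_simp
    _ ≤ 2 * δ + 300 * C0 * M * ‖ζ‖ / R := by
        refine add_le_add ?_ (by linarith)
        exact div_le_self (by linarith) (by linarith)

end FC34
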