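import Pool.Agent.W_fc1c69_h34.Defs4

/-! Scaled chart functions. -/

namespace FC34

open Complex MeasureTheory Metric Set

variable {M : Type*} [MetricSpace M] {Eig : ℝ → (M → ℝ) → Prop} {q₁ l L : ℝ}

theorem Scale_px (F : ℂ → ℝ) (c : ℝ) (z : ℂ) :
    px (fun x => F (c • x)) z = c * px F (c • z) := by
  unfold px
  rw [fderiv_comp_smul]
  rfl

theorem Scale_py (F : ℂ → ℝ) (c : ℝ) (z : ℂ) :
    py (fun x => F (c • x)) z = c * py F (c • z) := by
  unfold py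
  rw [fderiv_comp_smul]
  rfl

theorem Scale_pxs (F : ℂ → ℝ) (c : ℝ) (z : ℂ) : px (fun x => c * F x) z = c * px F z := by
  unfold px
  have h := congrFun (fderiv_const_smul_field (𝕜 := ℝ) (f := F) c) z
  have h2 : (fun x => c * F x) = c • F := rfl
  rw [h2, h]
  rfl

theorem Scale_pys (F : ℂ → ℝ) (c : ℝ) (z : ℂ) : py (fun x => c * F x) z = c * py F z := by
  unfold py
  have h := congrFun (fderiv_const_smul_field (𝕜 := ℝ) (f := F) c) z
  have h2 : (fun x => c * F x) = c • F := rfl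
  rw [h2, h]
  rfl

theorem Scale_lap (F : ℂ → ℝ) (c : ℝ) (z : ℂ) :
    lap (fun x => F (c • x)) z = c ^ 2 * lap F (c • z) := by
  unfold lap
  have h1 : px (fun x => F (c • x)) = fun x => c * px F (c • x) := by
    funext x; exact Scale_px F c x
  have h2 : py (fun x => F (c • x)) = fun x => c * py F (c • x) := by
    funext x; exact Scale_py F c x
  rw [h1, h2, Scale_pxs (fun x => px F (c • x)) c z, Scale_pys (fun x => py F (c • x)) c z,
    Scale_px (px F) c z, Scale_py (py F) c z]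
  ring

theorem Scale_lap_congr {F G : ℂ → ℝ} {z : ℂ} (h : F =ᶠ[nhds z] G) : lap F z = lap G z := by
  unfold lap
  have h1 : fderiv ℝ F =ᶠ[nhds z] fderiv ℝ G := h.fderiv
  have h2 : px F =ᶠ[nhds z] px G := by
    filter_upwards [h1] with w hw
    simp only [px, hw]
  have h3 : py F =ᶠ[nhds z] py G := by
    filter_upwards [h1] with w hw
    simp only [py, hw]
  have h4 : px (px F) z = px (px G) z := by
    show fderiv ℝ (px F) z 1 = fderiv ℝ (px G) z 1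
    rw [h2.fderiv_eq]
  have h5 : py (py F) z = py (py G) z := by
    show fderiv ℝ (py F) z Complex.I = fderiv ℝ (py G) z Complex.I
    rw [h3.fderiv_eq]
  rw [h4, h5]

theorem Scale_mem {Λ : ℝ} (hΛ : 0 < Λ) {x : ℂ} (hx : x ∈ ball (0 : ℂ) (4 * Λ)) :
    (0.9 / Λ : ℝ) • x ∈ ball (0 : ℂ) 3.6 := by
  rw [mem_ball_zero_iff] at hx ⊢
  rw [norm_smul, Real.norm_eq_abs, abs_of_pos (by positivity)]
  calc (0.9 / Λ) * ‖x‖ < (0.9 / Λ) * (4 * Λ) := mul_lt_mul_of_pos_left hx (by positivity)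
    _ = 3.6 := by field_simp; norm_num

theorem Scale_mem4 {Λ : ℝ} (hΛ : 0 < Λ) {x : ℂ} (hx : x ∈ ball (0 : ℂ) (4 * Λ)) :
    (0.9 / Λ : ℝ) • x ∈ ball (0 : ℂ) 4 :=
  ball_subset_ball (by norm_num) (Scale_mem hΛ hx)

theorem Scale_pt (C : IsoChart M Eig q₁ l L) (Λ : ℝ) (x : ℂ) :
    C.pt Λ x = C.c ((0.9 / Λ : ℝ) • x) := by
  rw [IsoChart.pt, Complex.real_smul]

/-- A smooth function on `ball 0 4` cut off. -/
theorem Scale_cut {f : ℂ → ℝ} (hf : ContDiffOn ℝ 3 f (ball (0 : ℂ) 4)) :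
    ∃ g : ℂ → ℝ, ContDiff ℝ 3 g ∧ ∀ x ∈ ball (0 : ℂ) 3.6, g x = f x := by
  let χ : ContDiffBump (0 : ℂ) := ⟨3.6, 3.9, by norm_num, by norm_num⟩
  refine ⟨fun x => χ x * f x, ?_, ?_⟩
  · rw [contDiff_iff_contDiffAt]
    intro x
    by_cases hx : x ∈ ball (0 : ℂ) 4
    · exact (χ.contDiff (n := 3)).contDiffAt.mul (hf.contDiffAt (isOpen_ball.mem_nhds hx))
    · have h1 : (fun x => χ x * f x) =ᶠ[nhds x] fun _ => 0 := by
        have h2 : {y : ℂ | (3.9 : ℝ) < ‖y‖} ∈ nhds x := by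
          apply (isOpen_lt continuous_const continuous_norm).mem_nhds
          rw [mem_ball_zero_iff, not_lt] at hx
          show (3.9 : ℝ) < ‖x‖
          linarith
        filter_upwards [h2] with y hy
        have h3 : χ y = 0 := by
          apply χ.zero_of_le_dist
          show (3.9 : ℝ) ≤ dist y 0
          rw [dist_zero_right]
          exact le_of_lt hy
        rw [h3, zero_mul]
      exact (contDiffAt_const (c := (0 : ℝ))).congr_of_eventuallyEq h1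
  · intro x hx
    have h3 : χ x = 1 := χ.one_of_mem_closedBall (ball_subset_closedBall hx)
    show χ x * f x = f x
    rw [h3, one_mul]

/-- `ψ(x) = χ(0.9x/Λ) φ(c(0.9x/Λ))`, `χ` smooth, `= 1` on `ball 0 3.6`, supported in
`closedBall 0 3.9`; `Q(x) = λ (0.9/Λ)² q(0.9x/Λ)`, `Λ = Lam λ`, `λ/Λ² ≤ 1`. -/
theorem IsoChart.exists_scaled (C : IsoChart M Eig q₁ l L) {lam : ℝ} {φ : M → ℝ}
    (hlam : 0 < lam) (h : Eig lam φ) :
    ∃ ψ Q : ℂ → ℝ, IsScaled C φ (Lam lam) ψ ∧ PreLoc q₁ l (Lam lam) ψ Q := by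
  obtain ⟨g, hg, hgf⟩ := Scale_cut (C.smooth lam φ h)
  have hΛ1 : 1 ≤ Lam lam := le_max_left _ _
  have hΛ2 : lam ≤ Lam lam ^ 2 := by
    have h1 : Real.sqrt lam ≤ Lam lam := le_max_right _ _
    have h2 := Real.sq_sqrt hlam.le
    nlinarith [Real.sqrt_nonneg lam]
  set Λ := Lam lam with hΛdef
  have hΛ : 0 < Λ := by linarith
  set c : ℝ := 0.9 / Λ with hc
  have hc0 : 0 < c := by positivity
  have hcΛ : c * Λ = 0.9 := by rw [hc]; field_simp
  have hlc : lam * c ^ 2 ≤ 0.81 := by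
    calc lam * c ^ 2 ≤ Λ ^ 2 * c ^ 2 := mul_le_mul_of_nonneg_right hΛ2 (by positivity)
      _ = (c * Λ) ^ 2 := by ring
      _ = 0.81 := by rw [hcΛ]; norm_num
  have hlc0 : 0 ≤ lam * c ^ 2 := by positivity
  have hψ : ContDiff ℝ 3 (fun x : ℂ => g (c • x)) :=
    hg.comp (contDiff_const_smul c)
  refine ⟨fun x => g (c • x), fun x => lam * c ^ 2 * C.q (c • x), ⟨hψ, ?_⟩, ?_⟩
  · intro x hx
    rw [Scale_pt]
    exact hgf _ (Scale_mem hΛ hx)
  · have hQd : ∀ z ∈ ball (0 : ℂ) (4 * Λ),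
        HasFDerivAt (fun x => lam * c ^ 2 * C.q (c • x))
          ((lam * c ^ 2) • (c • fderiv ℝ C.q (c • z))) z := by
      intro z hz
      have h1 : DifferentiableAt ℝ C.q (c • z) := C.qd _ (Scale_mem4 hΛ hz)
      have h2 : DifferentiableAt ℝ (fun x : ℂ => C.q (c • x)) z :=
        h1.comp z (differentiableAt_id.const_smul c)
      have h3 := h2.hasFDerivAt
      rw [fderiv_comp_smul] at h3
      exact h3.const_mul (lam * c ^ 2)
    refine ⟨hΛ1, C.hq₁, C.hl, hψ, fun z hz => (hQd z hz).differentiableAt, ?_, ?_, ?_⟩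
    · intro z hz
      rw [(hQd z hz).fderiv, norm_smul, norm_smul, Real.norm_eq_abs, Real.norm_eq_abs,
        abs_of_nonneg hlc0, abs_of_pos hc0]
      have h1 := C.ql _ (Scale_mem4 hΛ hz)
      rw [← hc] at h1
      have h2 : c ≤ 1 / Λ := by
        rw [hc]
        exact div_le_div_of_nonneg_right (by norm_num) hΛ.le
      have h3 : 0 ≤ ‖fderiv ℝ C.q (c • z)‖ := norm_nonneg _
      have h4 : c * ‖fderiv ℝ C.q (c • z)‖ ≤ 1 / Λ * l :=
        mul_le_mul h2 h1 h3 (by positivity)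
      have h5 : 0 ≤ c * ‖fderiv ℝ C.q (c • z)‖ := by positivity
      calc lam * c ^ 2 * (c * ‖fderiv ℝ C.q (c • z)‖)
          ≤ 1 * (c * ‖fderiv ℝ C.q (c • z)‖) :=
            mul_le_mul_of_nonneg_right (by linarith) h5
        _ ≤ 1 / Λ * l := by rw [one_mul]; exact h4
        _ = l / Λ := by ring
    · intro z hz
      have h1 := C.qb _ (Scale_mem4 hΛ hz)
      rw [← hc] at h1
      refine ⟨mul_nonneg hlc0 h1.1, ?_⟩
      calc lam * c ^ 2 * C.q (c • z) ≤ 1 * C.q (c • z) :=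
            mul_le_mul_of_nonneg_right (by linarith) h1.1
        _ ≤ q₁ := by rw [one_mul]; exact h1.2
    · intro z hz
      have hz2 := Scale_mem hΛ hz
      rw [← hc] at hz2
      have h1 : g =ᶠ[nhds (c • z)] fun x => φ (C.c x) := by
        filter_upwards [isOpen_ball.mem_nhds hz2] with w hw
        exact hgf w hw
      rw [Scale_lap, Scale_lap_congr h1, C.pde lam φ h _ (Scale_mem4 hΛ hz), hgf _ hz2]
      ring

/-- Metric comparison in scaled coordinates. -/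
theorem IsoChart.dist_pt_le (C : IsoChart M Eig q₁ l L) {Λ : ℝ} (hΛ : 0 < Λ) {x y : ℂ}
    (hx : x ∈ ball (0 : ℂ) (4 * Λ)) (hy : y ∈ ball (0 : ℂ) (4 * Λ)) :
    dist (C.pt Λ x) (C.pt Λ y) ≤ 0.9 * L / Λ * ‖x - y‖ := by
  rw [Scale_pt, Scale_pt]
  have h := C.lip _ (Scale_mem4 hΛ hx) _ (Scale_mem4 hΛ hy)
  rw [← smul_sub, norm_smul, Real.norm_eq_abs, abs_of_pos (by positivity)] at h
  refine h.trans (le_of_eq ?_)
  ring

theorem IsoChart.le_dist_pt (C : IsoChart M Eig q₁ l L) {Λ : ℝ} (hΛ : 0 < Λ) {x y : ℂ}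
    (hx : x ∈ ball (0 : ℂ) (4 * Λ)) (hy : y ∈ ball (0 : ℂ) (4 * Λ)) :
    ‖x - y‖ ≤ L * Λ / 0.9 * dist (C.pt Λ x) (C.pt Λ y) := by
  rw [Scale_pt, Scale_pt]
  have h := C.antilip _ (Scale_mem4 hΛ hx) _ (Scale_mem4 hΛ hy)
  rw [← smul_sub, norm_smul, Real.norm_eq_abs, abs_of_pos (by positivity)] at h
  have h2 : Λ / 0.9 * (0.9 / Λ * ‖x - y‖) ≤
      Λ / 0.9 * (L * dist (C.c ((0.9 / Λ : ℝ) • x)) (C.c ((0.9 / Λ : ℝ) • y))) :=
    mul_le_mul_of_nonneg_left h (by positivity)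
  have h3 : Λ / 0.9 * (0.9 / Λ * ‖x - y‖) = ‖x - y‖ := by field_simp
  rw [h3] at h2
  refine h2.trans (le_of_eq ?_)
  ring

/-- `ball (pt x) (0.9 r/(ΛL)) ⊆ pt '' ball x r` if `ball x r ⊆ ball 0 (4Λ)`. -/
theorem IsoChart.ball_subset (C : IsoChart M Eig q₁ l L) {Λ : ℝ} (hΛ : 0 < Λ) {x : ℂ} {r : ℝ}
    (hr : 0 < r) (hx : ball x r ⊆ ball (0 : ℂ) (4 * Λ)) :
    ball (C.pt Λ x) (0.9 * r / (Λ * L)) ⊆ C.pt Λ '' ball x r := by
  have hc0 : (0 : ℝ) < 0.9 / Λ := by positivity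
  have key : ∀ w ∈ ball ((0.9 / Λ : ℝ) • x) (0.9 / Λ * r), ∃ y ∈ ball x r,
      w = (0.9 / Λ : ℝ) • y := by
    intro w hw
    refine ⟨(0.9 / Λ : ℝ)⁻¹ • w, ?_, ?_⟩
    · rw [mem_ball, dist_eq_norm] at hw ⊢
      have h1 : w - (0.9 / Λ : ℝ) • x = (0.9 / Λ : ℝ) • ((0.9 / Λ : ℝ)⁻¹ • w - x) := by
        rw [smul_sub, smul_smul, mul_inv_cancel₀ hc0.ne', one_smul]
      rw [h1, norm_smul, Real.norm_eq_abs, abs_of_pos hc0] at hw
      exact lt_of_mul_lt_mul_left hw hc0.le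
    · rw [smul_smul, mul_inv_cancel₀ hc0.ne', one_smul]
  have hsub : ball ((0.9 / Λ : ℝ) • x) (0.9 / Λ * r) ⊆ ball (0 : ℂ) 4 := by
    intro w hw
    obtain ⟨y, hy, rfl⟩ := key w hw
    exact Scale_mem4 hΛ (hx hy)
  have h := C.surj _ (Scale_mem4 hΛ (hx (mem_ball_self hr))) (0.9 / Λ * r) (by positivity) hsub
  rw [Scale_pt]
  intro p hp
  have hLe : 0.9 * r / (Λ * L) = 0.9 / Λ * r / L := by
    rw [div_mul_eq_mul_div, div_div]
  rw [hLe] at hp
  obtain ⟨w, hw, rfl⟩ := h hp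
  obtain ⟨y, hy, rfl⟩ := key w hw
  exact ⟨y, hy, Scale_pt C Λ y⟩

/-- Every point of `M` is `pt x` for some `|x| < 0.56 Λ` in some chart of a finite atlas. -/
theorem FinAtlas.exists_pt (𝒜 : FinAtlas M Eig) {Λ : ℝ} (hΛ : 0 < Λ) (p : M) :
    ∃ i, ∃ x ∈ ball (0 : ℂ) (0.56 * Λ), (𝒜.C i).pt Λ x = p := by
  obtain ⟨i, u, hu, hp⟩ := 𝒜.cover p
  have hc0 : (0 : ℝ) < 0.9 / Λ := by positivity
  refine ⟨i, (0.9 / Λ : ℝ)⁻¹ • u, ?_, ?_⟩
  · rw [mem_ball_zero_iff] at hu ⊢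
    rw [norm_smul, Real.norm_eq_abs, abs_of_pos (by positivity)]
    have h1 : (0.9 / Λ)⁻¹ = Λ / 0.9 := by rw [inv_div]
    rw [h1]
    calc Λ / 0.9 * ‖u‖ ≤ Λ / 0.9 * (1 / 2) := mul_le_mul_of_nonneg_left hu.le (by positivity)
      _ < 0.56 * Λ := by
        have : Λ / 0.9 * (1 / 2) = (1 / 1.8) * Λ := by ring
        rw [this]
        exact mul_lt_mul_of_pos_right (by norm_num) hΛ
  · rw [Scale_pt, smul_smul, mul_inv_cancel₀ hc0.ne', one_smul]
    exact hp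

end FC34
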