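import Pool.Agent.W_fc1c69_h34.Tops
import Pool.Agent.W_fc1c69_h34.Scale
import Pool.Agent.W_fc1c69_h34.GradEst

/-! Discs near points of `Sig` are good. -/

namespace FC34

open Complex MeasureTheory Metric Set

variable {M : Type*} [MetricSpace M] {Eig : ℝ → (M → ℝ) → Prop}

/-- Discs near a point of `Sig` are good. `r = A/√λ`, `Λ = √λ ≥ Λ₀` (so `r = A/Λ`); `p = pt x̂`,
`|x̂| < 0.56Λ`; `z ∈ Sig ψ Λ K`, `|z - x̂| < A/(2L)`; `q` does not vanish on `closedBall 0 (3Λ)`.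
Proof: `ball p (2r) ⊆ pt '' ball x̂ (2.5AL)` (`ball_subset`), and for `|y - x̂| < 2.5AL`,
`ψ(y)² ≤ q(y) ≤ q(z) e^{K(2.5AL + A/(2L))}`; `grad_est` at `z` with `s = min 1 (A/(2L))`
applied to the maximum `m` of `|ψ|` over `closedBall z s`, attained at `z'`, `|z' - x̂| < A/L`, hence
`pt z' ∈ ball p r` (`dist ≤ 0.9 L/Λ · A/L < r`): `q(z) ≤ C m²`. -/
theorem good_of_sig (𝒜 : FinAtlas M Eig) (A K : ℝ) (hA : 0 < A) (hK : 0 < K) :
    ∃ K' Λ₀ : ℝ, 1 ≤ K' ∧ 1 ≤ Λ₀ ∧ ∀ (lam : ℝ) (φ : M → ℝ), 0 < lam → Λ₀ ≤ Real.sqrt lam →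
      Eig lam φ → ∀ (k : Fin 𝒜.n) (ψ Q : ℂ → ℝ), IsScaled (𝒜.C k) φ (Lam lam) ψ →
      PreLoc 𝒜.q₁ 𝒜.l (Lam lam) ψ Q → (∃ y ∈ closedBall (0 : ℂ) (3 * Lam lam), 0 < qf ψ y) →
      ∀ (x z : ℂ), ‖x‖ < 0.56 * Lam lam →
        z ∈ Sig ψ (Lam lam) K → ‖z - x‖ < A / (2 * 𝒜.L) →
        Good K' φ ((𝒜.C k).pt (Lam lam) x) (A / Real.sqrt lam) := by
  by_cases hn : Nonempty (Fin 𝒜.n)
  swap
  · exact ⟨1, 1, le_rfl, le_rfl, fun _ _ _ _ _ k => absurd ⟨k⟩ hn⟩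
  obtain ⟨k₀⟩ := hn
  have hL : 1 ≤ 𝒜.L := (𝒜.C k₀).hL
  have hq : 0 ≤ 𝒜.q₁ := (𝒜.C k₀).hq₁
  obtain ⟨L, hLdef⟩ : ∃ L, L = 𝒜.L := ⟨_, rfl⟩
  rw [← hLdef] at hL
  have hL0 : 0 < L := by linarith
  have hs0 : 0 < min 1 (A / (2 * L)) := lt_min one_pos (by positivity)
  obtain ⟨C, hC1, hC⟩ := grad_est 𝒜.q₁ (min 1 (A / (2 * L))) hq hs0 (min_le_left _ _)
  have hE1 : 1 ≤ Real.exp (K * (2.5 * A * L + A / (2 * L))) := Real.one_le_exp (by positivity)
  have hK1 : 1 ≤ C * Real.exp (K * (2.5 * A * L + A / (2 * L))) := by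
    calc (1 : ℝ) = 1 * 1 := (one_mul 1).symm
      _ ≤ C * Real.exp (K * (2.5 * A * L + A / (2 * L))) :=
        mul_le_mul hC1 hE1 zero_le_one (by linarith)
  refine ⟨C * Real.exp (K * (2.5 * A * L + A / (2 * L))), max 1 (2.5 * A * L), hK1,
    le_max_left _ _, ?_⟩
  intro lam φ hlam hΛ₀ hEig k ψ Q hsc hpre hnz x z hx hz hzx
  rw [← hLdef] at hzx
  have hsq1 : 1 ≤ Real.sqrt lam := (le_max_left _ _).trans hΛ₀
  have hLam : Lam lam = Real.sqrt lam := max_eq_right hsq1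
  rw [hLam] at hsc hpre hnz hx hz ⊢
  set Λ := Real.sqrt lam with hΛdef
  have hΛ : 0 < Λ := by linarith
  have hAL : 2.5 * A * L ≤ Λ := (le_max_right _ _).trans hΛ₀
  have hAL1 : A / (2 * L) ≤ A * L := by
    rw [div_le_iff₀ (by positivity)]
    nlinarith [mul_le_mul_of_nonneg_left hL (by positivity : 0 ≤ A * L), mul_pos hA hL0]
  have hALp : 0 < A * L := mul_pos hA hL0
  -- points near `x`
  have hnear : ∀ y : ℂ, ‖y - x‖ < 2.5 * A * L → y ∈ ball (0 : ℂ) (4 * Λ) ∧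
      y ∈ closedBall (0 : ℂ) (3 * Λ) := by
    intro y hy
    have h1 : ‖y‖ ≤ ‖y - x‖ + ‖x‖ := by
      calc ‖y‖ = ‖(y - x) + x‖ := by rw [sub_add_cancel]
        _ ≤ ‖y - x‖ + ‖x‖ := norm_add_le _ _
    rw [mem_ball_zero_iff, mem_closedBall_zero_iff]
    constructor <;> linarith
  have hxb : x ∈ ball (0 : ℂ) (4 * Λ) := (hnear x (by rw [sub_self, norm_zero]; positivity)).1
  -- the maximum near `z`
  have hcont : Continuous ψ := hpre.smooth.continuous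
  have hcpt : IsCompact (closedBall z (min 1 (A / (2 * L)))) := isCompact_closedBall _ _
  obtain ⟨z', hz', hmax⟩ := hcpt.exists_isMaxOn
    ⟨z, mem_closedBall_self hs0.le⟩ (f := fun w => |ψ w|) (hcont.abs.continuousOn)
  have hz'z : ‖z' - z‖ ≤ A / (2 * L) := by
    rw [mem_closedBall, dist_eq_norm] at hz'
    exact hz'.trans (min_le_right _ _)
  have hz'x : ‖z' - x‖ < A / L := by
    have h1 : ‖z' - x‖ ≤ ‖z' - z‖ + ‖z - x‖ := by
      calc ‖z' - x‖ = ‖(z' - z) + (z - x)‖ := by rw [sub_add_sub_cancel]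
        _ ≤ ‖z' - z‖ + ‖z - x‖ := norm_add_le _ _
    have h2 : A / (2 * L) + A / (2 * L) = A / L := by field_simp; norm_num
    linarith
  have hsmall : ∀ w : ℂ, ‖w - z‖ ≤ A / (2 * L) → ‖w - x‖ < 2.5 * A * L := by
    intro w hw
    have h1 : ‖w - x‖ ≤ ‖w - z‖ + ‖z - x‖ := by
      calc ‖w - x‖ = ‖(w - z) + (z - x)‖ := by rw [sub_add_sub_cancel]
        _ ≤ ‖w - z‖ + ‖z - x‖ := norm_add_le _ _
    nlinarith
  have hz'b : z' ∈ ball (0 : ℂ) (4 * Λ) := (hnear z' (hsmall z' hz'z)).1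
  have hgrad : qf ψ z ≤ C * |ψ z'| ^ 2 := by
    refine hC ψ Q z _ hpre.smooth ?_ ?_
    · intro w hw
      rw [mem_ball, dist_eq_norm] at hw
      have h1 : ‖w - z‖ ≤ A / (2 * L) := hw.le.trans (min_le_right _ _)
      have h2 := (hnear w (hsmall w h1)).1
      exact ⟨hpre.pde w h2, (hpre.hQ w h2).1, (hpre.hQ w h2).2⟩
    · intro w hw
      exact hmax (ball_subset_closedBall hw)
  have hqz : 0 < qf ψ z := by
    obtain ⟨y, hy, hqy⟩ := hnz
    have h1 := lt_of_lt_of_le hqy (hz.2 y hy)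
    exact pos_of_mul_pos_left h1 (Real.exp_pos _).le
  refine ⟨(𝒜.C k).pt Λ z', ?_, ?_, ?_⟩
  · rw [mem_ball]
    refine lt_of_le_of_lt ((𝒜.C k).dist_pt_le hΛ hz'b hxb) ?_
    rw [← hLdef]
    have h1 : 0.9 * L / Λ * ‖z' - x‖ < 0.9 * L / Λ * (A / L) :=
      mul_lt_mul_of_pos_left hz'x (by positivity)
    have h2 : 0.9 * L / Λ * (A / L) = 0.9 * (A / Λ) := by field_simp
    have h3 : 0 < A / Λ := by positivity
    linarith
  · rw [← hsc.2 z' hz'b]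
    intro h1
    rw [h1] at hgrad
    norm_num at hgrad
    linarith
  · intro p'' hp''
    have hsub : ball x (2.5 * A * L) ⊆ ball (0 : ℂ) (4 * Λ) := by
      intro y hy
      rw [mem_ball, dist_eq_norm] at hy
      exact (hnear y hy).1
    have h1 := (𝒜.C k).ball_subset hΛ (by positivity : 0 < 2.5 * A * L) hsub
    have h2 : p'' ∈ ball ((𝒜.C k).pt Λ x) (0.9 * (2.5 * A * L) / (Λ * 𝒜.L)) := by
      refine ball_subset_ball ?_ hp''
      rw [← hLdef]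
      have h3 : 0.9 * (2.5 * A * L) / (Λ * L) = 2.25 * (A / Λ) := by
        field_simp
        norm_num
      rw [h3]
      have h4 : 0 < A / Λ := by positivity
      linarith
    obtain ⟨y, hy, rfl⟩ := h1 h2
    rw [mem_ball, dist_eq_norm] at hy
    obtain ⟨hyb, hyc⟩ := hnear y hy
    rw [← hsc.2 y hyb, ← hsc.2 z' hz'b]
    have hyz : ‖y - z‖ ≤ 2.5 * A * L + A / (2 * L) := by
      have h3 : ‖y - z‖ ≤ ‖y - x‖ + ‖x - z‖ := by
        calc ‖y - z‖ = ‖(y - x) + (x - z)‖ := by rw [sub_add_sub_cancel]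
          _ ≤ ‖y - x‖ + ‖x - z‖ := norm_add_le _ _
      rw [norm_sub_rev x z] at h3
      linarith
    have h5 : ψ y ^ 2 ≤ qf ψ y := by
      unfold qf
      nlinarith [sq_nonneg (px ψ y), sq_nonneg (py ψ y)]
    have h6 := hz.2 y hyc
    have h7 : Real.exp (K * ‖y - z‖) ≤ Real.exp (K * (2.5 * A * L + A / (2 * L))) :=
      Real.exp_le_exp.2 (mul_le_mul_of_nonneg_left hyz hK.le)
    have hE0 := Real.exp_pos (K * (2.5 * A * L + A / (2 * L)))
    have h8 : ψ y ^ 2 ≤ (C * Real.exp (K * (2.5 * A * L + A / (2 * L)))) * |ψ z'| ^ 2 := by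
      calc ψ y ^ 2 ≤ qf ψ y := h5
        _ ≤ qf ψ z * Real.exp (K * ‖y - z‖) := h6
        _ ≤ qf ψ z * Real.exp (K * (2.5 * A * L + A / (2 * L))) :=
          mul_le_mul_of_nonneg_left h7 (qf_nonneg ψ z)
        _ ≤ (C * |ψ z'| ^ 2) * Real.exp (K * (2.5 * A * L + A / (2 * L))) :=
          mul_le_mul_of_nonneg_right hgrad hE0.le
        _ = (C * Real.exp (K * (2.5 * A * L + A / (2 * L)))) * |ψ z'| ^ 2 := by ring
    have h9 : ψ y ^ 2 ≤ ((C * Real.exp (K * (2.5 * A * L + A / (2 * L)))) * |ψ z'|) ^ 2 := by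
      refine h8.trans ?_
      rw [mul_pow]
      apply mul_le_mul_of_nonneg_right _ (sq_nonneg _)
      calc (C * Real.exp (K * (2.5 * A * L + A / (2 * L))))
          = (C * Real.exp (K * (2.5 * A * L + A / (2 * L)))) * 1 := (mul_one _).symm
        _ ≤ (C * Real.exp (K * (2.5 * A * L + A / (2 * L)))) *
            (C * Real.exp (K * (2.5 * A * L + A / (2 * L)))) :=
          mul_le_mul_of_nonneg_left hK1 (by linarith)
        _ = (C * Real.exp (K * (2.5 * A * L + A / (2 * L)))) ^ 2 := by ring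
    exact abs_le_of_sq_le_sq h9 (mul_nonneg (by linarith) (abs_nonneg _))

end FC34
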