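import Pool.Agent.W_fc1c69_h34.Defs

/-! Integration by parts on the plane, energy identity `∫|∂u|² = ∫|∂̄u|²`. -/

namespace FC34

open Complex MeasureTheory Metric Set

/-- the integral of a directional derivative of a compactly supported `C¹` function vanishes -/
theorem Green_aux1 {w : ℂ → ℝ} (hw : ContDiff ℝ 1 w) (hc : HasCompactSupport w) (v : ℂ) :
    ∫ z, fderiv ℝ w z v = 0 := by
  have hcont : Continuous fun z => fderiv ℝ w z v :=
    (hw.continuous_fderiv one_ne_zero).clm_apply continuous_const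
  have hsup : HasCompactSupport fun z => fderiv ℝ w z v := hc.fderiv_apply ℝ v
  have h1 : Integrable (fun z => fderiv ℝ w z v) := hcont.integrable_of_hasCompactSupport hsup
  have h2 : Integrable w := hw.continuous.integrable_of_hasCompactSupport hc
  have h3 := integral_bilinear_hasLineDerivAt_right_eq_neg_left_of_integrable
    (μ := (volume : Measure ℂ)) (f := fun _ : ℂ => (1 : ℝ)) (f' := fun _ => (0 : ℝ)) (g := w)
    (g' := fun z => fderiv ℝ w z v) (v := v) (B := ContinuousLinearMap.mul ℝ ℝ)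
    (by simp) (by simpa using h1) (by simpa using h2)
    (fun x _ => (hasFDerivAt_const (1 : ℝ) x).hasLineDerivAt v)
    (fun x _ => ((hw.differentiable one_ne_zero x).hasFDerivAt).hasLineDerivAt v)
  simpa using h3

theorem Green_d2 {u : ℂ → ℂ} (hu : ContDiff ℝ 2 u) (v z : ℂ) :
    HasFDerivAt (fun w => fderiv ℝ u w v) ((fderiv ℝ (fderiv ℝ u) z).flip v) z := by
  have h1 : ContDiff ℝ 1 (fderiv ℝ u) := hu.fderiv_right (by norm_num)
  have h2 : HasFDerivAt (fderiv ℝ u) (fderiv ℝ (fderiv ℝ u) z) z :=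
    (h1.differentiable one_ne_zero z).hasFDerivAt
  have h3 := h2.clm_apply (hasFDerivAt_const v z)
  refine h3.congr_fderiv ?_
  ext x
  simp

theorem Green_symm {u : ℂ → ℂ} (hu : ContDiff ℝ 2 u) (z : ℂ) :
    fderiv ℝ (fderiv ℝ u) z 1 Complex.I = fderiv ℝ (fderiv ℝ u) z Complex.I 1 := by
  have h1 : IsSymmSndFDerivAt ℝ u z := by
    refine hu.contDiffAt.isSymmSndFDerivAt ?_
    simp [minSmoothness_of_isRCLikeNormedField]
  exact h1.eq 1 Complex.I

theorem Green_F {u : ℂ → ℂ} (hu : ContDiff ℝ 2 u) (c z v x : ℂ) :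
    fderiv ℝ (fun w => ((starRingEnd ℂ) (u w - c) * fderiv ℝ u w v).im / 2) z x =
      ((starRingEnd ℂ) (u z - c) * fderiv ℝ (fderiv ℝ u) z x v +
        fderiv ℝ u z v * (starRingEnd ℂ) (fderiv ℝ u z x)).im / 2 := by
  have h0 : HasFDerivAt u (fderiv ℝ u z) z := (hu.differentiable two_ne_zero z).hasFDerivAt
  have h1 : HasFDerivAt (fun w => u w - c) (fderiv ℝ u z) z := h0.sub_const c
  have h2 : HasFDerivAt (fun w => (starRingEnd ℂ) (u w - c))
      ((Complex.conjCLE : ℂ →L[ℝ] ℂ).comp (fderiv ℝ u z)) z :=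
    (Complex.conjCLE : ℂ →L[ℝ] ℂ).hasFDerivAt.comp z h1
  have h3 := h2.mul (Green_d2 hu v z)
  have h4 := Complex.imCLM.hasFDerivAt.comp z h3
  have h5 : HasFDerivAt (fun w => ((starRingEnd ℂ) (u w - c) * fderiv ℝ u w v).im / 2) _ z :=
    h4.mul_const (2 : ℝ)⁻¹
  rw [h5.fderiv]
  simp
  ring

/-- The integral of an `x`-derivative of a compactly supported `C¹` function vanishes.
Proof: Mathlib `integral_bilinear_hasLineDerivAt_right_eq_neg_left_of_integrable` (file
Analysis/Calculus/LineDeriv/IntegrationByParts) with the other factor a smooth compactly supported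
function equal to `1` near the support of `w`; or Fubini + `integral_eq_zero_of_hasDerivAt_of_integrable`
in one variable (volume on `ℂ` is the product volume, `Complex.volume_preserving_equiv_real_prod`). -/
theorem integral_px_eq_zero {w : ℂ → ℝ} (hw : ContDiff ℝ 1 w) (hc : HasCompactSupport w) :
    ∫ z, px w z = 0 := by
  exact Green_aux1 hw hc 1

/-- Same for the `y`-derivative. -/
theorem integral_py_eq_zero {w : ℂ → ℝ} (hw : ContDiff ℝ 1 w) (hc : HasCompactSupport w) :
    ∫ z, py w z = 0 := by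
  exact Green_aux1 hw hc Complex.I

/-- Pointwise: `|∂u|² - |∂̄u|² = Im (conj u_x * u_y)`. -/
theorem normSq_dz_sub {u : ℂ → ℂ} (z : ℂ) :
    ‖dz u z‖ ^ 2 - ‖dbar u z‖ ^ 2 = ((starRingEnd ℂ) (px u z) * py u z).im := by
  unfold dz dbar
  rw [← Complex.normSq_eq_norm_sq, ← Complex.normSq_eq_norm_sq, Complex.normSq_apply,
    Complex.normSq_apply]
  simp
  ring

/-- Pointwise: `|u_x|² + |u_y|² = 2 (|∂u|² + |∂̄u|²)`. -/
theorem normSq_px_add {u : ℂ → ℂ} (z : ℂ) :
    ‖px u z‖ ^ 2 + ‖py u z‖ ^ 2 = 2 * (‖dz u z‖ ^ 2 + ‖dbar u z‖ ^ 2) := by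
  unfold dz dbar
  rw [← Complex.normSq_eq_norm_sq, ← Complex.normSq_eq_norm_sq, ← Complex.normSq_eq_norm_sq,
    ← Complex.normSq_eq_norm_sq, Complex.normSq_apply, Complex.normSq_apply,
    Complex.normSq_apply, Complex.normSq_apply]
  simp
  ring

/-- Null Lagrangian: for `C²` functions `u` and a constant `c`,
`Im (conj u_x * u_y) = ∂_x (Im (conj (u - c) * u_y) / 2) - ∂_y (Im (conj (u - c) * u_x) / 2)`. -/
theorem jac_eq_div {u : ℂ → ℂ} (hu : ContDiff ℝ 2 u) (c z : ℂ) :
    ((starRingEnd ℂ) (px u z) * py u z).im =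
      px (fun w => ((starRingEnd ℂ) (u w - c) * py u w).im / 2) z -
      py (fun w => ((starRingEnd ℂ) (u w - c) * px u w).im / 2) z := by
  have h1 : px (fun w => ((starRingEnd ℂ) (u w - c) * py u w).im / 2) z =
      ((starRingEnd ℂ) (u z - c) * fderiv ℝ (fderiv ℝ u) z 1 Complex.I +
        fderiv ℝ u z Complex.I * (starRingEnd ℂ) (fderiv ℝ u z 1)).im / 2 :=
    Green_F hu c z Complex.I 1
  have h2 : py (fun w => ((starRingEnd ℂ) (u w - c) * px u w).im / 2) z =
      ((starRingEnd ℂ) (u z - c) * fderiv ℝ (fderiv ℝ u) z Complex.I 1 +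
        fderiv ℝ u z 1 * (starRingEnd ℂ) (fderiv ℝ u z Complex.I)).im / 2 :=
    Green_F hu c z 1 Complex.I
  rw [h1, h2, Green_symm hu z]
  unfold px py
  simp only [Complex.add_im, Complex.mul_im, Complex.conj_re, Complex.conj_im]
  ring

/-- Energy identity. Proof: the difference is the integral of `Im (conj u_x * u_y)`, which by
`jac_eq_div` with `c = 0` is a sum of derivatives of compactly supported `C¹` functions. -/
theorem integral_normSq_dz_eq {u : ℂ → ℂ} (hu : ContDiff ℝ 2 u) (hc : HasCompactSupport u) :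
    ∫ z, ‖dz u z‖ ^ 2 = ∫ z, ‖dbar u z‖ ^ 2 := by
  have hf1 : ContDiff ℝ 1 (fderiv ℝ u) := hu.fderiv_right (by norm_num)
  have hu1 : ContDiff ℝ 1 u := hu.of_le (by norm_num)
  have hfc : Continuous (fderiv ℝ u) := hf1.continuous
  have hpx : Continuous (px u) := hfc.clm_apply continuous_const
  have hpy : Continuous (py u) := hfc.clm_apply continuous_const
  have hdz : Continuous (dz u) := by
    unfold dz
    fun_prop
  have hdb : Continuous (dbar u) := by
    unfold dbar
    fun_prop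
  have hs1 : HasCompactSupport fun z => ‖dz u z‖ ^ 2 := by
    refine (hc.fderiv ℝ).mono fun z hz hz0 => hz ?_
    have h1 : fderiv ℝ u z = 0 := hz0
    simp [dz, px, py, h1]
  have hs2 : HasCompactSupport fun z => ‖dbar u z‖ ^ 2 := by
    refine (hc.fderiv ℝ).mono fun z hz hz0 => hz ?_
    have h1 : fderiv ℝ u z = 0 := hz0
    simp [dbar, px, py, h1]
  have hi1 : Integrable fun z => ‖dz u z‖ ^ 2 :=
    (hdz.norm.pow 2).integrable_of_hasCompactSupport hs1
  have hi2 : Integrable fun z => ‖dbar u z‖ ^ 2 :=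
    (hdb.norm.pow 2).integrable_of_hasCompactSupport hs2
  have hFs : ∀ g : ℂ → ℂ, HasCompactSupport
      fun w => ((starRingEnd ℂ) (u w - 0) * g w).im / 2 := by
    intro g
    refine hc.mono fun z hz hz0 => hz ?_
    have h1 : u z = 0 := hz0
    simp [h1]
  have hFd : ∀ v : ℂ, ContDiff ℝ 1
      fun w => ((starRingEnd ℂ) (u w - 0) * fderiv ℝ u w v).im / 2 := by
    intro v
    have h1 : ContDiff ℝ 1 fun w => fderiv ℝ u w v := hf1.clm_apply contDiff_const
    have h2 : ContDiff ℝ 1 fun w => (starRingEnd ℂ) (u w - 0) :=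
      (Complex.conjCLE : ℂ →L[ℝ] ℂ).contDiff.comp (hu1.sub contDiff_const)
    have h3 : ContDiff ℝ 1 fun w => ((starRingEnd ℂ) (u w - 0) * fderiv ℝ u w v).im :=
      Complex.imCLM.contDiff.comp (h2.mul h1)
    exact h3.div_const 2
  have hF := integral_px_eq_zero (hFd Complex.I) (hFs _)
  have hG := integral_py_eq_zero (hFd 1) (hFs _)
  have hFi : Integrable (px fun w => ((starRingEnd ℂ) (u w - 0) * py u w).im / 2) :=
    (((hFd Complex.I).continuous_fderiv one_ne_zero).clm_apply
      continuous_const).integrable_of_hasCompactSupport ((hFs _).fderiv_apply ℝ 1)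
  have hGi : Integrable (py fun w => ((starRingEnd ℂ) (u w - 0) * px u w).im / 2) :=
    (((hFd 1).continuous_fderiv one_ne_zero).clm_apply
      continuous_const).integrable_of_hasCompactSupport ((hFs _).fderiv_apply ℝ Complex.I)
  rw [← sub_eq_zero, ← integral_sub hi1 hi2]
  have h4 : (fun z => ‖dz u z‖ ^ 2 - ‖dbar u z‖ ^ 2) = fun z =>
      px (fun w => ((starRingEnd ℂ) (u w - 0) * py u w).im / 2) z -
      py (fun w => ((starRingEnd ℂ) (u w - 0) * px u w).im / 2) z := by
    funext z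
    rw [normSq_dz_sub, jac_eq_div hu 0 z]
  rw [h4, integral_sub hFi hGi]
  have hF' : ∫ z, px (fun w => ((starRingEnd ℂ) (u w - 0) * py u w).im / 2) z = 0 := hF
  have hG' : ∫ z, py (fun w => ((starRingEnd ℂ) (u w - 0) * px u w).im / 2) z = 0 := hG
  rw [hF', hG', sub_zero]

end FC34
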