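import Pool.Agent.W_fc1c69_h34.Defs

/-! Tops of cones and the sets `Sig` (proofs row 212, (C1)-(C3)). -/

namespace FC34

open Complex MeasureTheory Metric Set

variable {φ Q : ℂ → ℝ} {q₁ l Λ T T' N : ℝ} {a y y' z x : ℂ}

theorem Tops_comb {A B s t : ℝ} (hA : 0 < A) (h1 : A ≤ B * Real.exp s)
    (h2 : B ≤ A * Real.exp t) : 0 ≤ s + t := by
  by_contra hc
  push Not at hc
  have h3 : B * Real.exp s ≤ A * Real.exp t * Real.exp s :=
    mul_le_mul_of_nonneg_right h2 (Real.exp_pos s).le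
  have h4 : A * Real.exp t * Real.exp s = A * Real.exp (s + t) := by
    rw [Real.exp_add]; ring
  have h5 : Real.exp (s + t) < 1 := Real.exp_lt_one_iff.mpr hc
  have h6 : A * Real.exp (s + t) < A * 1 := mul_lt_mul_of_pos_left h5 hA
  linarith

theorem Loc.continuous_qf (h : Loc q₁ l Λ φ Q) : Continuous (qf φ) := by
  have hf : Continuous (fderiv ℝ φ) := h.smooth.continuous_fderiv (by norm_num)
  have hx : Continuous (px φ) := hf.clm_apply continuous_const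
  have hy : Continuous (py φ) := hf.clm_apply continuous_const
  have h0 : Continuous φ := h.smooth.continuous
  exact ((hx.pow 2).add (hy.pow 2)).add (h0.pow 2)

theorem qf_nonneg (φ : ℂ → ℝ) (z : ℂ) : 0 ≤ qf φ z := by
  unfold qf
  positivity

/-- Tops exist: the continuous function `q(y) e^{-T|y-a|}` has a maximum on the closed ball. -/
theorem Loc.exists_top (h : Loc q₁ l Λ φ Q) (T : ℝ) (a : ℂ) : ∃ y, IsTop φ Λ T a y := by
  have hc : IsCompact (closedBall (0 : ℂ) (3 * Λ)) := isCompact_closedBall _ _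
  have hne : (closedBall (0 : ℂ) (3 * Λ)).Nonempty := by
    obtain ⟨z, hz, -⟩ := h.nz
    exact ⟨z, hz⟩
  have hq := h.continuous_qf
  have hcont : Continuous (fun x : ℂ => qf φ x * Real.exp (-(T * ‖x - a‖))) := by
    fun_prop
  obtain ⟨y, hy, hmax⟩ := hc.exists_isMaxOn hne hcont.continuousOn
  refine ⟨y, hy, fun x hx => ?_⟩
  have h1 : qf φ x * Real.exp (-(T * ‖x - a‖)) ≤ qf φ y * Real.exp (-(T * ‖y - a‖)) := hmax hx
  have h2 := mul_le_mul_of_nonneg_right h1 (Real.exp_pos (T * ‖x - a‖)).le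
  have h3 : qf φ x * Real.exp (-(T * ‖x - a‖)) * Real.exp (T * ‖x - a‖) = qf φ x := by
    rw [mul_assoc, ← Real.exp_add]
    simp
  have h4 : qf φ y * Real.exp (-(T * ‖y - a‖)) * Real.exp (T * ‖x - a‖)
      = qf φ y * Real.exp (T * (‖x - a‖ - ‖y - a‖)) := by
    rw [mul_assoc, ← Real.exp_add]
    congr 2
    ring
  rw [h3, h4] at h2
  exact h2

theorem Loc.top_pos (h : Loc q₁ l Λ φ Q) (hy : IsTop φ Λ T a y) : 0 < qf φ y := by
  obtain ⟨z, hz, hp⟩ := h.nz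
  exact pos_of_mul_pos_left (lt_of_lt_of_le hp (hy.2 z hz)) (Real.exp_pos _).le

theorem Loc.sig_pos (h : Loc q₁ l Λ φ Q) (hz : z ∈ Sig φ Λ T) : 0 < qf φ z := by
  obtain ⟨w, hw, hp⟩ := h.nz
  exact pos_of_mul_pos_left (lt_of_lt_of_le hp (hz.2 w hw)) (Real.exp_pos _).le

/-- A top is in `Sig T` (triangle inequality). -/
theorem IsTop.mem_Sig (hy : IsTop φ Λ T a y) (hT : 0 ≤ T) : y ∈ Sig φ Λ T := by
  refine ⟨hy.1, fun x hx => (hy.2 x hx).trans ?_⟩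
  refine mul_le_mul_of_nonneg_left ?_ (qf_nonneg φ y)
  refine Real.exp_le_exp.mpr (mul_le_mul_of_nonneg_left ?_ hT)
  have h1 : ‖x - a‖ ≤ ‖x - y‖ + ‖y - a‖ := norm_sub_le_norm_sub_add_norm_sub x y a
  linarith

/-- `a ∈ Sig T` as soon as some `T`-top of `a` is at distance `0`; conversely if `a ∈ Sig T` then `a`
itself is a top of `a`. -/
theorem IsTop.self_of_eq (hy : IsTop φ Λ T a y) (h : ‖y - a‖ = 0) : a ∈ Sig φ Λ T := by
  have he : y = a := sub_eq_zero.mp (norm_eq_zero.mp h)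
  subst he
  refine ⟨hy.1, fun x hx => ?_⟩
  have h1 := hy.2 x hx
  rw [h, sub_zero] at h1
  exact h1

theorem isTop_self_of_mem_Sig (h : a ∈ Sig φ Λ T) : IsTop φ Λ T a a := by
  refine ⟨h.1, fun x hx => ?_⟩
  have h1 := h.2 x hx
  rw [sub_self, norm_zero, sub_zero]
  exact h1

/-- (C2): distances of tops decrease with the slope. -/
theorem Loc.top_mono (h : Loc q₁ l Λ φ Q) (hT : T < T') (hy : IsTop φ Λ T a y)
    (hy' : IsTop φ Λ T' a y') : ‖y' - a‖ ≤ ‖y - a‖ := by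
  have h1 := hy.2 y' hy'.1
  have h2 := hy'.2 y hy.1
  have h3 := Tops_comb (h.top_pos hy') h1 h2
  by_contra hc
  push Not at hc
  nlinarith

/-- (C3): under MB(N), tops of slope `≥ 100 N` are at distance `≤ Λ/50`. -/
theorem Loc.top_dist_le (h : Loc q₁ l Λ φ Q) (hMB : MB φ Λ N) (hN : 0 ≤ N) (hT : 0 < T)
    (hTN : 100 * N ≤ T) (ha : a ∈ ball (0 : ℂ) (2.5 * Λ)) (hy : IsTop φ Λ T a y) :
    ‖y - a‖ ≤ Λ / 50 := by
  obtain ⟨y0, hy0, hy03, hw⟩ := hMB a ha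
  have h1 := hw y hy.1
  have h2 := hy.2 y0 hy03
  have h3 := Tops_comb (h.top_pos hy) h1 h2
  have hd : ‖y0 - a‖ ≤ Λ / 100 := by
    have := mem_closedBall.mp hy0
    rwa [dist_eq_norm] at this
  have hΛ : 0 < Λ := lt_of_lt_of_le one_pos h.hΛ
  have h4 : T * ‖y - a‖ ≤ T * (Λ / 50) := by
    have h5 : T * ‖y0 - a‖ ≤ T * (Λ / 100) := mul_le_mul_of_nonneg_left hd hT.le
    have h6 : 100 * N * Λ ≤ T * Λ := mul_le_mul_of_nonneg_right hTN hΛ.le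
    nlinarith
  exact le_of_mul_le_mul_left h4 hT

theorem Loc.isClosed_Sig (h : Loc q₁ l Λ φ Q) (K : ℝ) : IsClosed (Sig φ Λ K) := by
  have hq := h.continuous_qf
  have he : Sig φ Λ K = closedBall (0 : ℂ) (3 * Λ) ∩
      ⋂ x ∈ closedBall (0 : ℂ) (3 * Λ), {z : ℂ | qf φ x ≤ qf φ z * Real.exp (K * ‖x - z‖)} := by
    ext z
    simp only [Sig, mem_ofPred_eq, mem_inter_iff, mem_iInter]
  rw [he]
  refine isClosed_closedBall.inter (isClosed_biInter fun x _ => ?_)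
  refine isClosed_le continuous_const ?_
  fun_prop

theorem Sig_mono {K K' : ℝ} (h : K ≤ K') : Sig φ Λ K ⊆ Sig φ Λ K' := by
  intro z hz
  refine ⟨hz.1, fun x hx => (hz.2 x hx).trans ?_⟩
  refine mul_le_mul_of_nonneg_left ?_ (qf_nonneg φ z)
  exact Real.exp_le_exp.mpr (mul_le_mul_of_nonneg_right h (norm_nonneg _))

/-- (L1): if `y` is a `4T`-top of `a` with `|y-a| > 0` then `ball a (|y-a|/4)` misses `Sig T`. -/
theorem Loc.L1 (h : Loc q₁ l Λ φ Q) (hT : 0 < T) (hy : IsTop φ Λ (4 * T) a y) (h0 : 0 < ‖y - a‖)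
    (hx : ‖x - a‖ ≤ ‖y - a‖ / 4) : x ∉ Sig φ Λ T := by
  intro hxS
  have h1 := hxS.2 y hy.1
  have h2 := hy.2 x hxS.1
  have h3 := Tops_comb (h.top_pos hy) h1 h2
  have h4 : ‖y - x‖ ≤ ‖y - a‖ + ‖a - x‖ := norm_sub_le_norm_sub_add_norm_sub y a x
  rw [norm_sub_rev a x] at h4
  have h5 : T * ‖y - x‖ ≤ T * (5 / 4 * ‖y - a‖) :=
    mul_le_mul_of_nonneg_left (by linarith) hT.le
  have h6 : T * ‖x - a‖ ≤ T * (‖y - a‖ / 4) := mul_le_mul_of_nonneg_left hx hT.le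
  have h7 : 0 < T * ‖y - a‖ := mul_pos hT h0
  nlinarith

/-- (L2): if `y` is a `4T`-top of `a`, `|a' - a| ≤ η |y - a|`, and `y''` is an `8T`-top of `a'`, then
`|y'' - a'| ≤ (1 + 3η) |y - a|`. Proof in exponents: `v(y'') ≥ v(y) + 8T(|y''-a'| - |y-a'|)` and
`v(y'') ≤ v(y) + 4T(|y''-a| - |y-a|)`, with `|y-a'| ≤ (1+η)|y-a|`, `|y''-a| ≤ |y''-a'| + η|y-a|`. -/
theorem Loc.L2 (h : Loc q₁ l Λ φ Q) (hT : 0 < T) {η : ℝ} (hη : 0 ≤ η) {a' y'' : ℂ}
    (hy : IsTop φ Λ (4 * T) a y) (ha' : ‖a' - a‖ ≤ η * ‖y - a‖)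
    (hy'' : IsTop φ Λ (8 * T) a' y'') : ‖y'' - a'‖ ≤ (1 + 3 * η) * ‖y - a‖ := by
  have h1 := hy''.2 y hy.1
  have h2 := hy.2 y'' hy''.1
  have h3 := Tops_comb (h.top_pos hy) h1 h2
  have h4 : ‖y - a'‖ ≤ ‖y - a‖ + ‖a - a'‖ := norm_sub_le_norm_sub_add_norm_sub y a a'
  have h5 : ‖y'' - a‖ ≤ ‖y'' - a'‖ + ‖a' - a‖ := norm_sub_le_norm_sub_add_norm_sub y'' a' a
  rw [norm_sub_rev a a'] at h4
  have h6 : 0 ≤ T * (2 * (‖y - a'‖ - ‖y'' - a'‖) + (‖y'' - a‖ - ‖y - a‖)) := by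
    nlinarith
  have h7 : 0 ≤ 2 * (‖y - a'‖ - ‖y'' - a'‖) + (‖y'' - a‖ - ‖y - a‖) :=
    nonneg_of_mul_nonneg_right h6 hT
  nlinarith

end FC34
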