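import Pool.Agent.W_fc1c69_h34.LemmaS
import Pool.Agent.W_fc1c69_h34.Tops

/-! GROWTH LEMMA (proofs row 214). -/

namespace FC34

open Complex MeasureTheory Metric Set

/-- GROWTH LEMMA: `R_a ≥ (1/2) ρ √(τ/(5T'))`.
Proof: `ρ = |y-a|`, `R_a = |y'-a|`, may assume `ρ > 0`; `T' < τ` gives `ρ ≤ R_a` (`top_mono`).
Suppose `R_a < (1/2) r_out`, `r_out = ρ √(τ/(5T'))`, i.e. `4 R_a² · 5T' < τ ρ²`. `β = τρ²/4`,
`w(x) = q(x) exp(β/|x-a|)` (i.e. `v - g`, `g = -β/r`).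
Let `z` maximise `w` on the compact annulus `ρ/4 ≤ |x-a| ≤ 2 R_a` (inside `closedBall 0 (3Λ)`).
Inner part: for `s = |x-a| ∈ [ρ/4, ρ)`: `q(x) ≤ q(y) e^{-τ(ρ-s)}` and
`β/s - β/ρ = β(ρ-s)/(sρ) ≤ τ(ρ-s)`, so `w(x) ≤ w(y)`; outer part: for `s ∈ (R_a, 2R_a]`:
`q(x) ≤ q(y') e^{T'(s-R_a)}`, `β/R_a - β/s = β(s-R_a)/(sR_a) ≥ (5/4)T'(s-R_a)·...` strictly more than
`T'(s-R_a)`, so `w(x) < w(y')`. Hence the maximum over `ρ ≤ |x-a| ≤ R_a` is a maximum over the whole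
annulus: choose such `z`; `ball z (|z-a|/4)` is inside the annulus. `β/|z-a|² ≥ β/R_a² > 5T' ≥ T₁`.
`noInteriorMax`: contradiction. -/
theorem growth (q₁ l : ℝ) (hq : 0 ≤ q₁) (hl : 0 ≤ l) : ∃ T₀ : ℝ, 1 ≤ T₀ ∧
    ∀ (Λ : ℝ) (φ Q : ℂ → ℝ), Loc q₁ l Λ φ Q → ∀ (T' τ : ℝ) (a y y' : ℂ), T₀ ≤ T' → T' < τ →
      a ∈ ball (0 : ℂ) (2.5 * Λ) → IsTop φ Λ T' a y' → IsTop φ Λ τ a y → ‖y' - a‖ ≤ Λ / 50 →
      1 / 2 * ‖y - a‖ * Real.sqrt (τ / (5 * T')) ≤ ‖y' - a‖ := by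
  obtain ⟨T₁, hT₁, hmain⟩ := noInteriorMax q₁ l hq hl
  refine ⟨T₁, hT₁, ?_⟩
  intro Λ φ Q h T' τ a y y' hT' hTτ ha hy' hy hd
  by_contra hcon
  push Not at hcon
  have hT'0 : 0 < T' := by linarith
  have hτ0 : 0 < τ := hT'0.trans hTτ
  have hΛ := h.hΛ
  have hmono : ‖y - a‖ ≤ ‖y' - a‖ := h.top_mono hTτ hy' hy
  obtain ⟨ρ, hρ⟩ : ∃ ρ, ρ = ‖y - a‖ := ⟨_, rfl⟩
  obtain ⟨R, hR⟩ : ∃ R, R = ‖y' - a‖ := ⟨_, rfl⟩
  rw [← hρ, ← hR] at hcon hmono
  rw [← hR] at hd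
  have hρ0' : 0 ≤ ρ := by rw [hρ]; exact norm_nonneg _
  have hR0' : 0 ≤ R := by rw [hR]; exact norm_nonneg _
  have hρ0 : 0 < ρ := by
    rcases hρ0'.lt_or_eq with h1 | h1
    · exact h1
    · rw [← h1] at hcon
      simp only [mul_zero, zero_mul] at hcon
      linarith
  have hR0 : 0 < R := lt_of_lt_of_le hρ0 hmono
  have hsq : 20 * T' * R ^ 2 < τ * ρ ^ 2 := by
    have h1 : R ^ 2 < (1 / 2 * ρ * Real.sqrt (τ / (5 * T'))) ^ 2 :=
      pow_lt_pow_left₀ hcon hR0' two_ne_zero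
    have h2 : (1 / 2 * ρ * Real.sqrt (τ / (5 * T'))) ^ 2 = 1 / 4 * ρ ^ 2 * (τ / (5 * T')) := by
      rw [mul_pow, Real.sq_sqrt (by positivity)]
      ring
    rw [h2] at h1
    have h3 : 1 / 4 * ρ ^ 2 * (τ / (5 * T')) = τ * ρ ^ 2 / (20 * T') := by
      field_simp
      ring
    rw [h3, lt_div_iff₀ (by positivity)] at h1
    linarith
  obtain ⟨β, hβ⟩ : ∃ β, β = τ * ρ ^ 2 / 4 := ⟨_, rfl⟩
  have hβ0 : 0 < β := by rw [hβ]; positivity
  have hβR : 5 * T' * R ^ 2 < β := by rw [hβ]; linarith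
  -- the maximum on the annulus
  have hcomp : IsCompact (closedBall a R ∩ {x : ℂ | ρ ≤ ‖x - a‖}) :=
    (isCompact_closedBall a R).inter_right
      (isClosed_le continuous_const (continuous_id.sub continuous_const).norm)
  have hyA : y ∈ closedBall a R ∩ {x : ℂ | ρ ≤ ‖x - a‖} := by
    refine ⟨?_, ?_⟩
    · rw [mem_closedBall, dist_eq_norm, ← hρ]
      exact hmono
    · show ρ ≤ ‖y - a‖
      rw [hρ]
  have hyA' : y' ∈ closedBall a R ∩ {x : ℂ | ρ ≤ ‖x - a‖} := by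
    refine ⟨?_, ?_⟩
    · rw [mem_closedBall, dist_eq_norm, ← hR]
    · show ρ ≤ ‖y' - a‖
      rw [← hR]
      exact hmono
  have hcq := h.continuous_qf
  have hcont : ContinuousOn (fun x : ℂ => qf φ x * Real.exp (β / ‖x - a‖))
      (closedBall a R ∩ {x : ℂ | ρ ≤ ‖x - a‖}) := by
    refine hcq.continuousOn.mul (Real.continuous_exp.comp_continuousOn ?_)
    refine continuousOn_const.div (continuous_id.sub continuous_const).norm.continuousOn ?_
    intro x hx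
    have h1 : ρ ≤ ‖x - a‖ := hx.2
    exact (lt_of_lt_of_le hρ0 h1).ne'
  obtain ⟨z, hzA, hzmax⟩ := hcomp.exists_isMaxOn ⟨y, hyA⟩ hcont
  have hz1 : ρ ≤ ‖z - a‖ := hzA.2
  have hz2 : ‖z - a‖ ≤ R := by
    have := hzA.1
    rwa [mem_closedBall, dist_eq_norm] at this
  have hz0 : 0 < ‖z - a‖ := lt_of_lt_of_le hρ0 hz1
  have hwy : qf φ y * Real.exp (β / ρ) ≤ qf φ z * Real.exp (β / ‖z - a‖) := by
    have h1 : qf φ y * Real.exp (β / ‖y - a‖) ≤ qf φ z * Real.exp (β / ‖z - a‖) := hzmax hyA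
    rwa [← hρ] at h1
  have hwy' : qf φ y' * Real.exp (β / R) ≤ qf φ z * Real.exp (β / ‖z - a‖) := by
    have h1 : qf φ y' * Real.exp (β / ‖y' - a‖) ≤ qf φ z * Real.exp (β / ‖z - a‖) := hzmax hyA'
    rwa [← hR] at h1
  have hna : ‖a‖ < 2.5 * Λ := by
    rwa [mem_ball_zero_iff] at ha
  have hin : ∀ x : ℂ, ‖x - a‖ ≤ 2 * R → x ∈ closedBall (0 : ℂ) (3 * Λ) := by
    intro x hx
    rw [mem_closedBall_zero_iff]
    have h1 : ‖x‖ ≤ ‖x - a‖ + ‖a‖ := by
      have := norm_add_le (x - a) a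
      rwa [sub_add_cancel] at this
    linarith
  have hqz : 0 < qf φ z := by
    have h1 := h.top_pos hy
    have h2 : 0 < qf φ z * Real.exp (β / ‖z - a‖) :=
      lt_of_lt_of_le (mul_pos h1 (Real.exp_pos _)) hwy
    exact pos_of_mul_pos_left h2 (Real.exp_pos _).le
  have hall : ∀ x : ℂ, ρ / 4 ≤ ‖x - a‖ → ‖x - a‖ ≤ 2 * R →
      qf φ x * Real.exp (β / ‖x - a‖) ≤ qf φ z * Real.exp (β / ‖z - a‖) := by
    intro x h1 h2
    have hs0 : 0 < ‖x - a‖ := by linarith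
    rcases lt_or_ge ‖x - a‖ ρ with h3 | h3
    · refine le_trans ?_ hwy
      have h4 := hy.2 x (hin x h2)
      rw [← hρ] at h4
      have h5 : β / ‖x - a‖ - β / ρ ≤ τ * (ρ - ‖x - a‖) := by
        have h6 : β / ‖x - a‖ - β / ρ = β * (ρ - ‖x - a‖) / (‖x - a‖ * ρ) := by
          field_simp
        rw [h6, div_le_iff₀ (by positivity)]
        have h7 : β ≤ τ * (‖x - a‖ * ρ) := by
          rw [hβ]
          have h8 : ρ / 4 * ρ ≤ ‖x - a‖ * ρ := mul_le_mul_of_nonneg_right h1 hρ0.le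
          have h9 := mul_le_mul_of_nonneg_left h8 hτ0.le
          linarith
        have h8 := mul_le_mul_of_nonneg_right h7 (sub_nonneg.2 h3.le)
        linarith
      calc qf φ x * Real.exp (β / ‖x - a‖)
          ≤ qf φ y * Real.exp (τ * (‖x - a‖ - ρ)) * Real.exp (β / ‖x - a‖) :=
            mul_le_mul_of_nonneg_right h4 (Real.exp_pos _).le
        _ = qf φ y * Real.exp (τ * (‖x - a‖ - ρ) + β / ‖x - a‖) := by
            rw [mul_assoc, ← Real.exp_add]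
        _ ≤ qf φ y * Real.exp (β / ρ) := by
            refine mul_le_mul_of_nonneg_left (Real.exp_le_exp.2 ?_) (qf_nonneg φ y)
            linarith
    · rcases le_or_gt ‖x - a‖ R with h4 | h4
      · have h5 : x ∈ closedBall a R ∩ {x : ℂ | ρ ≤ ‖x - a‖} := by
          refine ⟨?_, h3⟩
          rw [mem_closedBall, dist_eq_norm]
          exact h4
        exact hzmax h5
      · refine le_trans ?_ hwy'
        have h5 := hy'.2 x (hin x h2)
        rw [← hR] at h5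
        have h6 : T' * (‖x - a‖ - R) ≤ β / R - β / ‖x - a‖ := by
          have h7 : β / R - β / ‖x - a‖ = β * (‖x - a‖ - R) / (R * ‖x - a‖) := by
            field_simp
          rw [h7, le_div_iff₀ (by positivity)]
          have h8 : T' * (R * ‖x - a‖) ≤ β := by
            have h9 : R * ‖x - a‖ ≤ R * (2 * R) := mul_le_mul_of_nonneg_left h2 hR0.le
            have h10 := mul_le_mul_of_nonneg_left h9 hT'0.le
            have h11 : 0 ≤ T' * R ^ 2 := by positivity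
            nlinarith
          have h9 := mul_le_mul_of_nonneg_right h8 (sub_nonneg.2 h4.le)
          linarith
        calc qf φ x * Real.exp (β / ‖x - a‖)
            ≤ qf φ y' * Real.exp (T' * (‖x - a‖ - R)) * Real.exp (β / ‖x - a‖) :=
              mul_le_mul_of_nonneg_right h5 (Real.exp_pos _).le
          _ = qf φ y' * Real.exp (T' * (‖x - a‖ - R) + β / ‖x - a‖) := by
              rw [mul_assoc, ← Real.exp_add]
          _ ≤ qf φ y' * Real.exp (β / R) := by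
              refine mul_le_mul_of_nonneg_left (Real.exp_le_exp.2 ?_) (qf_nonneg φ y')
              linarith
  refine hmain Λ φ Q h β a z hβ0 ?_ ?_ ?_ ?_ hqz ?_
  · intro h1
    rw [h1, sub_self, norm_zero] at hz0
    exact lt_irrefl _ hz0
  · linarith
  · rw [le_div_iff₀ (by positivity)]
    have h1 : ‖z - a‖ ^ 2 ≤ R ^ 2 := pow_le_pow_left₀ hz0.le hz2 2
    have h2 : T₁ * ‖z - a‖ ^ 2 ≤ T' * R ^ 2 :=
      mul_le_mul hT' h1 (by positivity) hT'0.le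
    have h3 : 0 ≤ T' * R ^ 2 := by positivity
    linarith
  · intro x hx
    rw [mem_ball_zero_iff]
    rw [mem_ball, dist_eq_norm] at hx
    have h1 : ‖x‖ ≤ ‖x - z‖ + ‖z - a‖ + ‖a‖ := by
      have h2 := norm_add_le (x - z) z
      rw [sub_add_cancel] at h2
      have h3 := norm_add_le (z - a) a
      rw [sub_add_cancel] at h3
      linarith
    linarith
  · intro x hx
    rw [mem_ball, dist_eq_norm] at hx
    have h1 : ‖x - a‖ ≤ ‖x - z‖ + ‖z - a‖ := norm_sub_le_norm_sub_add_norm_sub x z a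
    have h2 : ‖z - a‖ ≤ ‖z - x‖ + ‖x - a‖ := norm_sub_le_norm_sub_add_norm_sub z x a
    rw [norm_sub_rev z x] at h2
    have h3 := hall x (by linarith) (by linarith)
    have hx0 : 0 < Real.exp (β / ‖x - a‖) := Real.exp_pos _
    have h4 : Real.exp (-β / ‖x - a‖ - -β / ‖z - a‖) =
        Real.exp (β / ‖z - a‖) * (Real.exp (β / ‖x - a‖))⁻¹ := by
      rw [← Real.exp_neg, ← Real.exp_add]
      congr 1
      ring
    rw [h4, ← mul_assoc, ← div_eq_mul_inv, le_div_iff₀ hx0]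
    exact h3

end FC34
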