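import Pool.Agent.W_fc1c69_h34.HoleA

/-! Averaging the boundary integral. -/

namespace FC34

open Complex MeasureTheory Metric Set

theorem HoleC_cont_mk2 {X : Type*} [TopologicalSpace X] {f g : X → ℝ} (hf : Continuous f)
    (hg : Continuous g) : Continuous (fun t : X => (⟨f t, g t⟩ : ℂ)) := by
  have : (fun t : X => (⟨f t, g t⟩ : ℂ)) = fun t => ((f t : ℂ) + (g t : ℂ) * I) := by
    funext t
    exact HoleA_mk_eq _ _
  rw [this]
  fun_prop

theorem HoleC_ii {g : ℝ → ℝ → ℝ} (hg : Continuous (Function.uncurry g)) (a : ℝ) :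
    Continuous (fun s => ∫ y in (a - s)..(a + s), g s y) := by
  have h1 : (fun s => ∫ y in (a - s)..(a + s), g s y) =
      fun s => (∫ y in a..(a + s), g s y) - ∫ y in a..(a - s), g s y := by
    funext s
    have hc : ∀ u v : ℝ, IntervalIntegrable (g s) volume u v := fun u v =>
      (hg.comp (Continuous.prodMk_right s)).intervalIntegrable _ _
    rw [intervalIntegral.integral_interval_sub_left (hc _ _) (hc _ _)]
  rw [h1]
  exact (intervalIntegral.continuous_parametric_intervalIntegral_of_continuous hg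
    (by fun_prop)).sub (intervalIntegral.continuous_parametric_intervalIntegral_of_continuous hg
    (by fun_prop))

/-- One variable: a function `G ≥ 0` and a smaller one `G'` inside. -/
theorem HoleC_one {G G' : ℝ → ℝ} (hG : Continuous G) (hG' : Continuous G')
    (hle : ∀ x, G' x ≤ G x) (a : ℝ) {r : ℝ} (hr : 0 < r) :
    (∫ s in (r / 2)..r, G (a + s)) + (∫ s in (r / 2)..r, G (a - s)) ≤
      (∫ x in (a - r)..(a + r), G x) - ∫ x in (a - r / 2)..(a + r / 2), G' x := by
  have hi : ∀ u v : ℝ, IntervalIntegrable G volume u v := fun u v => hG.intervalIntegrable _ _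
  have e1 : (∫ s in (r / 2)..r, G (a + s)) = ∫ x in (a + r / 2)..(a + r), G x :=
    intervalIntegral.integral_comp_add_left (f := G) a
  have e2 : (∫ s in (r / 2)..r, G (a - s)) = ∫ x in (a - r)..(a - r / 2), G x :=
    intervalIntegral.integral_comp_sub_left (f := G) a
  have e3 : (∫ x in (a - r / 2)..(a + r / 2), G' x) ≤ ∫ x in (a - r / 2)..(a + r / 2), G x :=
    intervalIntegral.integral_mono (by linarith) (hG'.intervalIntegrable _ _) (hi _ _) hle
  have e4 : (∫ x in (a - r)..(a - r / 2), G x) + (∫ x in (a - r / 2)..(a + r / 2), G x) =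
      ∫ x in (a - r)..(a + r / 2), G x :=
    intervalIntegral.integral_add_adjacent_intervals (hi _ _) (hi _ _)
  have e5 : (∫ x in (a - r)..(a + r / 2), G x) + (∫ x in (a + r / 2)..(a + r), G x) =
      ∫ x in (a - r)..(a + r), G x :=
    intervalIntegral.integral_add_adjacent_intervals (hi _ _) (hi _ _)
  linarith

/-- Integrating the boundary integral over `s ∈ [r/2, r]`: each of the four pieces is at most the
integral over the strip, which lies in `sq ζ r \ sq ζ (r/2)`. -/
theorem integral_bdry_le {e : ℂ → ℝ} (he : Continuous e) (h0 : ∀ z, 0 ≤ e z) (ζ : ℂ) {r : ℝ}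
    (hr : 0 < r) :
    ∫ s in (r / 2)..r, bdry e ζ s ≤
      4 * ((∫ z in sq ζ r, e z) - ∫ z in sq ζ (r / 2), e z) := by
  -- the x-slices and y-slices
  have cy : Continuous (Function.uncurry fun x y : ℝ => e ⟨x, y⟩) :=
    he.comp (HoleC_cont_mk2 continuous_fst continuous_snd)
  have cx : Continuous (Function.uncurry fun y x : ℝ => e ⟨x, y⟩) :=
    he.comp (HoleC_cont_mk2 continuous_snd continuous_fst)
  have cR : Continuous (Function.uncurry fun s y : ℝ => e ⟨ζ.re + s, y⟩ + e ⟨ζ.re - s, y⟩) :=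
    (he.comp (HoleC_cont_mk2 (continuous_const.add continuous_fst) continuous_snd)).add
      (he.comp (HoleC_cont_mk2 (continuous_const.sub continuous_fst) continuous_snd))
  have cT : Continuous (Function.uncurry fun s x : ℝ => e ⟨x, ζ.im + s⟩ + e ⟨x, ζ.im - s⟩) :=
    (he.comp (HoleC_cont_mk2 continuous_snd (continuous_const.add continuous_fst))).add
      (he.comp (HoleC_cont_mk2 continuous_snd (continuous_const.sub continuous_fst)))
  let GX : ℝ → ℝ → ℝ := fun ρ x => ∫ y in (ζ.im - ρ)..(ζ.im + ρ), e ⟨x, y⟩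
  let GY : ℝ → ℝ → ℝ := fun ρ y => ∫ x in (ζ.re - ρ)..(ζ.re + ρ), e ⟨x, y⟩
  have cGX : ∀ ρ, Continuous (GX ρ) := fun ρ =>
    intervalIntegral.continuous_parametric_intervalIntegral_of_continuous' cy _ _
  have cGY : ∀ ρ, Continuous (GY ρ) := fun ρ =>
    intervalIntegral.continuous_parametric_intervalIntegral_of_continuous' cx _ _
  have iy : ∀ x u v : ℝ, IntervalIntegrable (fun y => e ⟨x, y⟩) volume u v := fun x u v =>
    (he.comp (HoleC_cont_mk2 continuous_const continuous_id)).intervalIntegrable _ _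
  have ix : ∀ y u v : ℝ, IntervalIntegrable (fun x => e ⟨x, y⟩) volume u v := fun x u v =>
    (he.comp (HoleC_cont_mk2 continuous_id continuous_const)).intervalIntegrable _ _
  have nGX : ∀ x, 0 ≤ GX r x := fun x =>
    intervalIntegral.integral_nonneg (by linarith) (fun y _ => h0 _)
  have nGY : ∀ x, 0 ≤ GY r x := fun x =>
    intervalIntegral.integral_nonneg (by linarith) (fun y _ => h0 _)
  have mGX : ∀ ρ ∈ Icc (r / 2) r, ∀ x, GX ρ x ≤ GX r x := fun ρ hρ x =>
    intervalIntegral.integral_mono_interval (by linarith [hρ.2]) (by linarith [hρ.1])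
      (by linarith [hρ.2]) (Filter.Eventually.of_forall fun y => h0 _) (iy _ _ _)
  have mGY : ∀ ρ ∈ Icc (r / 2) r, ∀ x, GY ρ x ≤ GY r x := fun ρ hρ x =>
    intervalIntegral.integral_mono_interval (by linarith [hρ.2]) (by linarith [hρ.1])
      (by linarith [hρ.2]) (Filter.Eventually.of_forall fun y => h0 _) (ix _ _ _)
  have hhalf : r / 2 ∈ Icc (r / 2) r := ⟨le_rfl, by linarith⟩
  have X := HoleC_one (cGX r) (cGX (r / 2)) (mGX _ hhalf) ζ.re hr
  have Y := HoleC_one (cGY r) (cGY (r / 2)) (mGY _ hhalf) ζ.im hr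
  have eX1 : (∫ z in sq ζ r, e z) = ∫ x in (ζ.re - r)..(ζ.re + r), GX r x :=
    setIntegral_sq_eq' he ζ hr.le
  have eX2 : (∫ z in sq ζ (r / 2), e z) = ∫ x in (ζ.re - r / 2)..(ζ.re + r / 2), GX (r / 2) x :=
    setIntegral_sq_eq' he ζ (by linarith)
  have eY1 : (∫ z in sq ζ r, e z) = ∫ x in (ζ.im - r)..(ζ.im + r), GY r x :=
    setIntegral_sq_eq he ζ hr.le
  have eY2 : (∫ z in sq ζ (r / 2), e z) = ∫ x in (ζ.im - r / 2)..(ζ.im + r / 2), GY (r / 2) x :=
    setIntegral_sq_eq he ζ (by linarith)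
  rw [← eX1, ← eX2] at X
  rw [← eY1, ← eY2] at Y
  have pX1 : 0 ≤ ∫ s in (r / 2)..r, GX r (ζ.re + s) :=
    intervalIntegral.integral_nonneg (by linarith) (fun y _ => nGX _)
  have pX2 : 0 ≤ ∫ s in (r / 2)..r, GX r (ζ.re - s) :=
    intervalIntegral.integral_nonneg (by linarith) (fun y _ => nGX _)
  have c1 : Continuous (fun s => ∫ y in (ζ.im - s)..(ζ.im + s),
      (e ⟨ζ.re + s, y⟩ + e ⟨ζ.re - s, y⟩)) := HoleC_ii cR ζ.im
  have c2 : Continuous (fun s => ∫ x in (ζ.re - s)..(ζ.re + s),
      (e ⟨x, ζ.im + s⟩ + e ⟨x, ζ.im - s⟩)) := HoleC_ii cT ζ.re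
  have k1 : Continuous (fun s => GX r (ζ.re + s)) := (cGX r).comp (by fun_prop)
  have k2 : Continuous (fun s => GX r (ζ.re - s)) := (cGX r).comp (by fun_prop)
  have k3 : Continuous (fun s => GY r (ζ.im + s)) := (cGY r).comp (by fun_prop)
  have k4 : Continuous (fun s => GY r (ζ.im - s)) := (cGY r).comp (by fun_prop)
  have main : ∫ s in (r / 2)..r, bdry e ζ s ≤
      ∫ s in (r / 2)..r, ((GX r (ζ.re + s) + GX r (ζ.re - s)) +
        (GY r (ζ.im + s) + GY r (ζ.im - s))) := by
    apply intervalIntegral.integral_mono_on (by linarith)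
    · exact (c1.add c2).intervalIntegrable _ _
    · exact ((k1.add k2).add (k3.add k4)).intervalIntegrable _ _
    · intro s hs
      unfold bdry
      rw [intervalIntegral.integral_add (iy _ _ _) (iy _ _ _),
        intervalIntegral.integral_add (ix _ _ _) (ix _ _ _)]
      exact add_le_add (add_le_add (mGX s hs _) (mGX s hs _))
        (add_le_add (mGY s hs _) (mGY s hs _))
  have k12 : Continuous (fun s => GX r (ζ.re + s) + GX r (ζ.re - s)) := k1.add k2
  have k34 : Continuous (fun s => GY r (ζ.im + s) + GY r (ζ.im - s)) := k3.add k4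
  rw [intervalIntegral.integral_add (k12.intervalIntegrable _ _) (k34.intervalIntegrable _ _),
    intervalIntegral.integral_add (k1.intervalIntegrable _ _) (k2.intervalIntegrable _ _),
    intervalIntegral.integral_add (k3.intervalIntegrable _ _) (k4.intervalIntegrable _ _)] at main
  linarith

end FC34
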