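import Pool.Agent.W_fc1c69_h34.HoleB
import Pool.Agent.W_fc1c69_h34.HoleC

/-! Hole filling (6) on squares. -/

namespace FC34

open Complex MeasureTheory Metric Set

theorem Hole_mono {e : ℂ → ℝ} (he : Continuous e) (h0 : ∀ z, 0 ≤ e z) (ζ : ℂ) {s t : ℝ}
    (hst : s ≤ t) : (∫ z in sq ζ s, e z) ≤ ∫ z in sq ζ t, e z := by
  apply setIntegral_mono_set (HoleA_integrableOn_sq he ζ t)
    (Filter.Eventually.of_forall fun z => h0 z)
  apply LE.le.eventuallyLE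
  intro z hz
  exact ⟨hz.1.trans_le hst, hz.2.trans_le hst⟩

/-- Hole filling: `D(r/2) ≤ (64/65) D(r) + D̄(r)`.
Proof: integrate `jac_sq_le` over `s ∈ [r/2, r]`:
`(r/2)(D(r/2) - D̄(r)) ≤ ∫_{r/2}^r (D(s) - D̄(s)) ds ≤ 4r·4(A(r) - A(r/2))`,
`A = ∫(|b_x|²+|b_y|²) = 2(D+D̄)`; so `D(r/2) - D̄(r) ≤ 64 (D(r) + D̄(r) - D(r/2) - D̄(r/2))`. -/
theorem hole_filling {b : ℂ → ℂ} (hb : ContDiff ℝ 2 b) (ζ : ℂ) {r : ℝ} (hr : 0 < r) :
    ∫ z in sq ζ (r / 2), ‖dz b z‖ ^ 2 ≤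
      (64 / 65) * (∫ z in sq ζ r, ‖dz b z‖ ^ 2) + ∫ z in sq ζ r, ‖dbar b z‖ ^ 2 := by
  have hb1 : ContDiff ℝ 1 b := hb.of_le (by norm_num)
  have cx := HoleA_cont_px hb1
  have cy := HoleA_cont_py hb1
  have cdz : Continuous (dz b) := by
    unfold dz
    fun_prop
  have cdbar : Continuous (dbar b) := by
    unfold dbar
    fun_prop
  have k1 : Continuous (fun z => ‖dz b z‖ ^ 2) := cdz.norm.pow 2
  have k2 : Continuous (fun z => ‖dbar b z‖ ^ 2) := cdbar.norm.pow 2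
  have k3 : Continuous (fun z => ‖px b z‖ ^ 2 + ‖py b z‖ ^ 2) :=
    (cx.norm.pow 2).add (cy.norm.pow 2)
  have n1 : ∀ z, 0 ≤ ‖dz b z‖ ^ 2 := fun z => by positivity
  have n2 : ∀ z, 0 ≤ ‖dbar b z‖ ^ 2 := fun z => by positivity
  have n3 : ∀ z, 0 ≤ ‖px b z‖ ^ 2 + ‖py b z‖ ^ 2 := fun z => by positivity
  have hA : ∀ s, (∫ z in sq ζ s, (‖px b z‖ ^ 2 + ‖py b z‖ ^ 2)) =
      2 * ((∫ z in sq ζ s, ‖dz b z‖ ^ 2) + ∫ z in sq ζ s, ‖dbar b z‖ ^ 2) := by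
    intro s
    rw [← integral_add (HoleA_integrableOn_sq k1 ζ s) (HoleA_integrableOn_sq k2 ζ s),
      ← integral_const_mul]
    congr 1
    funext z
    exact normSq_px_add z
  have step : ∀ s ∈ Icc (r / 2) r,
      (∫ z in sq ζ (r / 2), ‖dz b z‖ ^ 2) - (∫ z in sq ζ r, ‖dbar b z‖ ^ 2) ≤
        4 * r * bdry (fun z => ‖px b z‖ ^ 2 + ‖py b z‖ ^ 2) ζ s := by
    intro s hs
    have hs0 : 0 ≤ s := by linarith [hs.1]
    have h1 := jac_sq_le hb ζ hs0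
    have h2 := Hole_mono k1 n1 ζ hs.1
    have h3 := Hole_mono k2 n2 ζ hs.2
    have h4 := HoleB_bdry_nonneg n3 ζ hs0
    have h5 : 4 * s * bdry (fun z => ‖px b z‖ ^ 2 + ‖py b z‖ ^ 2) ζ s ≤
        4 * r * bdry (fun z => ‖px b z‖ ^ 2 + ‖py b z‖ ^ 2) ζ s :=
      mul_le_mul_of_nonneg_right (by linarith [hs.2]) h4
    linarith
  have cB : Continuous (fun s => bdry (fun z => ‖px b z‖ ^ 2 + ‖py b z‖ ^ 2) ζ s) := by
    have cR : Continuous (Function.uncurry fun s y : ℝ =>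
        (fun z => ‖px b z‖ ^ 2 + ‖py b z‖ ^ 2) ⟨ζ.re + s, y⟩ +
        (fun z => ‖px b z‖ ^ 2 + ‖py b z‖ ^ 2) ⟨ζ.re - s, y⟩) :=
      (k3.comp (HoleC_cont_mk2 (continuous_const.add continuous_fst) continuous_snd)).add
        (k3.comp (HoleC_cont_mk2 (continuous_const.sub continuous_fst) continuous_snd))
    have cT : Continuous (Function.uncurry fun s x : ℝ =>
        (fun z => ‖px b z‖ ^ 2 + ‖py b z‖ ^ 2) ⟨x, ζ.im + s⟩ +
        (fun z => ‖px b z‖ ^ 2 + ‖py b z‖ ^ 2) ⟨x, ζ.im - s⟩) :=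
      (k3.comp (HoleC_cont_mk2 continuous_snd (continuous_const.add continuous_fst))).add
        (k3.comp (HoleC_cont_mk2 continuous_snd (continuous_const.sub continuous_fst)))
    exact (HoleC_ii cR ζ.im).add (HoleC_ii cT ζ.re)
  have cB4 : Continuous (fun s => 4 * r * bdry (fun z => ‖px b z‖ ^ 2 + ‖py b z‖ ^ 2) ζ s) :=
    continuous_const.mul cB
  have hint := intervalIntegral.integral_mono_on (μ := volume) (show r / 2 ≤ r by linarith)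
    (continuous_const.intervalIntegrable _ _) (cB4.intervalIntegrable _ _) step
  rw [intervalIntegral.integral_const, intervalIntegral.integral_const_mul, smul_eq_mul] at hint
  have h6 := integral_bdry_le k3 n3 ζ hr
  rw [hA, hA] at h6
  have h7 : 0 ≤ ∫ z in sq ζ (r / 2), ‖dbar b z‖ ^ 2 := integral_nonneg (fun z => n2 z)
  set D := ∫ z in sq ζ r, ‖dz b z‖ ^ 2
  set D2 := ∫ z in sq ζ (r / 2), ‖dz b z‖ ^ 2
  set K := ∫ z in sq ζ r, ‖dbar b z‖ ^ 2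
  set K2 := ∫ z in sq ζ (r / 2), ‖dbar b z‖ ^ 2
  have h8 : 4 * r * (∫ s in (r / 2)..r, bdry (fun z => ‖px b z‖ ^ 2 + ‖py b z‖ ^ 2) ζ s) ≤
      4 * r * (4 * (2 * (D + K) - 2 * (D2 + K2))) :=
    mul_le_mul_of_nonneg_left h6 (by linarith)
  have h9 : r * (D2 - K) ≤ r * (64 * (D + K - D2 - K2)) := by
    have : (r - r / 2) * (D2 - K) = r * (D2 - K) / 2 := by ring
    nlinarith [hint, h8, this]
  have h10 := le_of_mul_le_mul_left h9 hr
  linarith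

end FC34
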