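import Pool.Agent.W_fc1c69_h34.Defs

/-! Integrals over squares in `ℂ` as iterated integrals. -/

namespace FC34

open Complex MeasureTheory Metric Set

theorem SqInt_prod {g : ℂ → ℝ} (ζ : ℂ) (r : ℝ) :
    ∫ z in sq ζ r, g z =
      ∫ p in (Ioo (ζ.re - r) (ζ.re + r)) ×ˢ (Ioo (ζ.im - r) (ζ.im + r)),
        g ⟨p.1, p.2⟩ ∂(volume.prod volume) := by
  have h1 := Complex.volume_preserving_equiv_real_prod.setIntegral_preimage_emb
    Complex.measurableEquivRealProd.measurableEmbedding (fun p : ℝ × ℝ => g ⟨p.1, p.2⟩)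
    ((Ioo (ζ.re - r) (ζ.re + r)) ×ˢ (Ioo (ζ.im - r) (ζ.im + r)))
  have h2 : Complex.measurableEquivRealProd ⁻¹'
      ((Ioo (ζ.re - r) (ζ.re + r)) ×ˢ (Ioo (ζ.im - r) (ζ.im + r))) = sq ζ r := by
    ext z
    simp only [mem_preimage, Complex.measurableEquivRealProd_apply, mem_prod, mem_Ioo, sq,
      mem_setOf_eq, abs_lt]
    constructor
    · rintro ⟨⟨h3, h4⟩, h5, h6⟩
      exact ⟨⟨by linarith, by linarith⟩, by linarith, by linarith⟩
    · rintro ⟨⟨h3, h4⟩, h5, h6⟩
      exact ⟨⟨by linarith, by linarith⟩, by linarith, by linarith⟩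
  rw [h2] at h1
  exact h1

theorem SqInt_integrable {g : ℂ → ℝ} (hg : Continuous g) (a b c d : ℝ) :
    IntegrableOn (fun p : ℝ × ℝ => g ⟨p.1, p.2⟩) (Ioo a b ×ˢ Ioo c d) (volume.prod volume) := by
  have h1 : Continuous (fun p : ℝ × ℝ => g ⟨p.1, p.2⟩) :=
    hg.comp (Complex.equivRealProdCLM.symm.continuous)
  have h2 : IsCompact (Icc a b ×ˢ Icc c d) := isCompact_Icc.prod isCompact_Icc
  exact (h1.continuousOn.integrableOn_compact h2).mono_set
    (prod_mono Ioo_subset_Icc_self Ioo_subset_Icc_self)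

theorem SqInt_interval (f : ℝ → ℝ) {a b : ℝ} (h : a ≤ b) :
    ∫ x in Ioo a b, f x = ∫ x in a..b, f x := by
  rw [intervalIntegral.integral_of_le h, integral_Ioc_eq_integral_Ioo]

/-- The integral over a square as an iterated integral (volume on `ℂ` is the product volume).
(`x` is the inner variable here.) -/
theorem setIntegral_sq_eq {g : ℂ → ℝ} (hg : Continuous g) (ζ : ℂ) {r : ℝ} (hr : 0 ≤ r) :
    ∫ z in sq ζ r, g z =
      ∫ y in (ζ.im - r)..(ζ.im + r), ∫ x in (ζ.re - r)..(ζ.re + r), g ⟨x, y⟩ := by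
  rw [SqInt_prod, ← setIntegral_prod_swap, setIntegral_prod, SqInt_interval _ (by linarith)]
  · refine intervalIntegral.integral_congr fun y _ => ?_
    exact SqInt_interval _ (by linarith)
  · exact (SqInt_integrable hg _ _ _ _).swap

/-- The integral over a square as an iterated integral (`y` is the inner variable here.) -/
theorem setIntegral_sq_eq' {g : ℂ → ℝ} (hg : Continuous g) (ζ : ℂ) {r : ℝ} (hr : 0 ≤ r) :
    ∫ z in sq ζ r, g z =
      ∫ x in (ζ.re - r)..(ζ.re + r), ∫ y in (ζ.im - r)..(ζ.im + r), g ⟨x, y⟩ := by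
  rw [SqInt_prod, setIntegral_prod _ (SqInt_integrable hg _ _ _ _), SqInt_interval _ (by linarith)]
  refine intervalIntegral.integral_congr fun x _ => ?_
  exact SqInt_interval _ (by linarith)

end FC34
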