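import Pool.Agent.W_fc1c69_h34.Green
import Pool.Agent.W_fc1c69_h34.SqInt

/-! Stokes on squares and the oscillation on the boundary. -/

namespace FC34

open Complex MeasureTheory Metric Set

/-- The integral of `e` over the boundary of the square `sq ζ s`. -/
noncomputable def bdry (e : ℂ → ℝ) (ζ : ℂ) (s : ℝ) : ℝ :=
  (∫ y in (ζ.im - s)..(ζ.im + s), (e ⟨ζ.re + s, y⟩ + e ⟨ζ.re - s, y⟩)) +
    ∫ x in (ζ.re - s)..(ζ.re + s), (e ⟨x, ζ.im + s⟩ + e ⟨x, ζ.im - s⟩)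

theorem HoleA_mk_eq (x y : ℝ) : (⟨x, y⟩ : ℂ) = (x : ℂ) + (y : ℂ) * I := by
  apply Complex.ext <;> simp

theorem HoleA_cont_mk {f g : ℝ → ℝ} (hf : Continuous f) (hg : Continuous g) :
    Continuous (fun t : ℝ => (⟨f t, g t⟩ : ℂ)) := by
  have : (fun t : ℝ => (⟨f t, g t⟩ : ℂ)) = fun t => ((f t : ℂ) + (g t : ℂ) * I) := by
    funext t
    exact HoleA_mk_eq _ _
  rw [this]
  fun_prop

theorem HoleA_hasDerivAt_x {E : Type*} [NormedAddCommGroup E] [NormedSpace ℝ E] {b : ℂ → E}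
    (hb : Differentiable ℝ b) (x y : ℝ) :
    HasDerivAt (fun t : ℝ => b ⟨t, y⟩) (px b ⟨x, y⟩) x := by
  have h1 : HasDerivAt (fun t : ℝ => (⟨t, y⟩ : ℂ)) 1 x := by
    have h2 : (fun t : ℝ => (⟨t, y⟩ : ℂ)) = fun t : ℝ => ((t : ℂ) + (y : ℂ) * I) := by
      funext t
      exact HoleA_mk_eq _ _
    rw [h2]
    exact (Complex.ofRealCLM.hasDerivAt (x := x)).add_const _
  have h3 := (hb ⟨x, y⟩).hasFDerivAt
  exact h3.comp_hasDerivAt x h1

theorem HoleA_hasDerivAt_y {E : Type*} [NormedAddCommGroup E] [NormedSpace ℝ E] {b : ℂ → E}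
    (hb : Differentiable ℝ b) (x y : ℝ) :
    HasDerivAt (fun t : ℝ => b ⟨x, t⟩) (py b ⟨x, y⟩) y := by
  have h1 : HasDerivAt (fun t : ℝ => (⟨x, t⟩ : ℂ)) I y := by
    have h2 : (fun t : ℝ => (⟨x, t⟩ : ℂ)) = fun t : ℝ => ((x : ℂ) + (t : ℂ) * I) := by
      funext t
      exact HoleA_mk_eq _ _
    rw [h2]
    have h4 := ((Complex.ofRealCLM.hasDerivAt (x := y)).mul_const I).const_add (x : ℂ)
    simpa using h4
  have h3 := (hb ⟨x, y⟩).hasFDerivAt
  exact h3.comp_hasDerivAt y h1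

theorem HoleA_cont_px {E : Type*} [NormedAddCommGroup E] [NormedSpace ℝ E] {b : ℂ → E}
    (hb : ContDiff ℝ 1 b) : Continuous (px b) := by
  have := hb.continuous_fderiv (by norm_num)
  exact this.clm_apply continuous_const

theorem HoleA_cont_py {E : Type*} [NormedAddCommGroup E] [NormedSpace ℝ E] {b : ℂ → E}
    (hb : ContDiff ℝ 1 b) : Continuous (py b) := by
  have := hb.continuous_fderiv (by norm_num)
  exact this.clm_apply continuous_const

theorem HoleA_integrableOn_sq {g : ℂ → ℝ} (hg : Continuous g) (ζ : ℂ) (s : ℝ) :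
    IntegrableOn g (sq ζ s) := by
  have hsub : sq ζ s ⊆ closedBall ζ (|s| + |s|) := by
    intro z hz
    rw [mem_closedBall, dist_eq_norm]
    have h1 : ‖z - ζ‖ ≤ |(z - ζ).re| + |(z - ζ).im| := Complex.norm_le_abs_re_add_abs_im _
    have h2 := hz.1
    have h3 := hz.2
    rw [sub_re, sub_im] at h1
    have h4 := le_abs_self s
    linarith
  exact ((hg.continuousOn).integrableOn_compact (isCompact_closedBall ζ _)).mono_set hsub

/-- Stokes on the square (Mathlib `integral2_divergence_prod_of_hasFDerivAt...`): for `C¹`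
functions `F, H : ℂ → ℝ`, `∫_{sq}(F_x - H_y)` is the boundary integral. -/
theorem integral_sq_div {F H : ℂ → ℝ} (hF : ContDiff ℝ 1 F) (hH : ContDiff ℝ 1 H) (ζ : ℂ) {s : ℝ}
    (hs : 0 ≤ s) :
    ∫ z in sq ζ s, (px F z - py H z) =
      (∫ y in (ζ.im - s)..(ζ.im + s), (F ⟨ζ.re + s, y⟩ - F ⟨ζ.re - s, y⟩)) -
        ∫ x in (ζ.re - s)..(ζ.re + s), (H ⟨x, ζ.im + s⟩ - H ⟨x, ζ.im - s⟩) := by
  have cF := HoleA_cont_px hF
  have cH := HoleA_cont_py hH
  rw [integral_sub (HoleA_integrableOn_sq cF ζ s) (HoleA_integrableOn_sq cH ζ s),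
    setIntegral_sq_eq cF ζ hs, setIntegral_sq_eq' cH ζ hs]
  congr 1
  · apply intervalIntegral.integral_congr
    intro y _
    exact intervalIntegral.integral_eq_sub_of_hasDerivAt
      (fun x _ => HoleA_hasDerivAt_x (hF.differentiable (by norm_num)) x y)
      ((cF.comp (HoleA_cont_mk continuous_id continuous_const)).intervalIntegrable _ _)
  · apply intervalIntegral.integral_congr
    intro x _
    exact intervalIntegral.integral_eq_sub_of_hasDerivAt
      (fun y _ => HoleA_hasDerivAt_y (hH.differentiable (by norm_num)) x y)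
      ((cH.comp (HoleA_cont_mk continuous_const continuous_id)).intervalIntegrable _ _)

/-- Along one side. -/
theorem HoleA_side {g g' : ℝ → ℂ} (hg : ∀ t, HasDerivAt g (g' t) t) (hg' : Continuous g')
    {h : ℝ → ℝ} (hh : Continuous h) (hle : ∀ t, ‖g' t‖ ≤ h t) {a c : ℝ} {u v : ℝ}
    (hau : a ≤ u) (huv : u ≤ v) (hvc : v ≤ c) :
    ‖g v - g u‖ ≤ ∫ t in a..c, h t := by
  have h1 : ∫ t in u..v, g' t = g v - g u :=
    intervalIntegral.integral_eq_sub_of_hasDerivAt (fun t _ => hg t) (hg'.intervalIntegrable _ _)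
  rw [← h1]
  refine (intervalIntegral.norm_integral_le_of_norm_le huv
    (Filter.Eventually.of_forall fun t _ => hle t) (hh.intervalIntegrable _ _)).trans ?_
  exact intervalIntegral.integral_mono_interval hau huv hvc
    (Filter.Eventually.of_forall fun t => (norm_nonneg _).trans (hle t))
    (hh.intervalIntegrable _ _)

/-- On the boundary of the square, `|b - c| ≤ bdry |∇b|` where `c` is the value at the upper right
corner (fundamental theorem of calculus along the sides); here `|∇b|` may be any continuous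
function `e` with `|b_x| ≤ e`, `|b_y| ≤ e`. -/
theorem osc_bdry {b : ℂ → ℂ} (hb : ContDiff ℝ 1 b) {e : ℂ → ℝ} (he : Continuous e)
    (h1 : ∀ z, ‖px b z‖ ≤ e z) (h2 : ∀ z, ‖py b z‖ ≤ e z) (ζ : ℂ) {s t : ℝ} (hs : 0 ≤ s)
    (ht : |t| ≤ s) :
    ‖b ⟨ζ.re + s, ζ.im + t⟩ - b ⟨ζ.re + s, ζ.im + s⟩‖ ≤ bdry e ζ s ∧
    ‖b ⟨ζ.re - s, ζ.im + t⟩ - b ⟨ζ.re + s, ζ.im + s⟩‖ ≤ bdry e ζ s ∧
    ‖b ⟨ζ.re + t, ζ.im + s⟩ - b ⟨ζ.re + s, ζ.im + s⟩‖ ≤ bdry e ζ s ∧
    ‖b ⟨ζ.re + t, ζ.im - s⟩ - b ⟨ζ.re + s, ζ.im + s⟩‖ ≤ bdry e ζ s := by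
  have hd := hb.differentiable (by norm_num)
  have cx := HoleA_cont_px hb
  have cy := HoleA_cont_py hb
  obtain ⟨ht1, ht2⟩ := abs_le.1 ht
  have vert : ∀ x : ℝ, ∀ u v : ℝ, ζ.im - s ≤ u → u ≤ v → v ≤ ζ.im + s →
      ‖b ⟨x, u⟩ - b ⟨x, v⟩‖ ≤ ∫ y in (ζ.im - s)..(ζ.im + s), e ⟨x, y⟩ := by
    intro x u v hu huv hv
    rw [norm_sub_rev]
    exact HoleA_side (g := fun y => b ⟨x, y⟩) (g' := fun y => py b ⟨x, y⟩)
      (fun y => HoleA_hasDerivAt_y hd x y)
      (cy.comp (HoleA_cont_mk continuous_const continuous_id))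
      (h := fun y => e ⟨x, y⟩)
      (he.comp (HoleA_cont_mk continuous_const continuous_id))
      (fun y => h2 _) hu huv hv
  have horz : ∀ y : ℝ, ∀ u v : ℝ, ζ.re - s ≤ u → u ≤ v → v ≤ ζ.re + s →
      ‖b ⟨u, y⟩ - b ⟨v, y⟩‖ ≤ ∫ x in (ζ.re - s)..(ζ.re + s), e ⟨x, y⟩ := by
    intro y u v hu huv hv
    rw [norm_sub_rev]
    exact HoleA_side (g := fun x => b ⟨x, y⟩) (g' := fun x => px b ⟨x, y⟩)
      (fun x => HoleA_hasDerivAt_x hd x y)
      (cx.comp (HoleA_cont_mk continuous_id continuous_const))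
      (h := fun x => e ⟨x, y⟩)
      (he.comp (HoleA_cont_mk continuous_id continuous_const))
      (fun x => h1 _) hu huv hv
  have e0 : ∀ z, 0 ≤ e z := fun z => (norm_nonneg _).trans (h1 z)
  have hR := intervalIntegral.integral_nonneg (μ := volume)
    (show ζ.im - s ≤ ζ.im + s by linarith) (fun y _ => e0 ⟨ζ.re + s, y⟩)
  have hL := intervalIntegral.integral_nonneg (μ := volume)
    (show ζ.im - s ≤ ζ.im + s by linarith) (fun y _ => e0 ⟨ζ.re - s, y⟩)
  have hT := intervalIntegral.integral_nonneg (μ := volume)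
    (show ζ.re - s ≤ ζ.re + s by linarith) (fun x _ => e0 ⟨x, ζ.im + s⟩)
  have hB := intervalIntegral.integral_nonneg (μ := volume)
    (show ζ.re - s ≤ ζ.re + s by linarith) (fun x _ => e0 ⟨x, ζ.im - s⟩)
  have hbd : bdry e ζ s = ((∫ y in (ζ.im - s)..(ζ.im + s), e ⟨ζ.re + s, y⟩) +
      ∫ y in (ζ.im - s)..(ζ.im + s), e ⟨ζ.re - s, y⟩) +
      ((∫ x in (ζ.re - s)..(ζ.re + s), e ⟨x, ζ.im + s⟩) +
      ∫ x in (ζ.re - s)..(ζ.re + s), e ⟨x, ζ.im - s⟩) := by
    unfold bdry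
    rw [intervalIntegral.integral_add, intervalIntegral.integral_add]
    · exact (he.comp (HoleA_cont_mk continuous_id continuous_const)).intervalIntegrable _ _
    · exact (he.comp (HoleA_cont_mk continuous_id continuous_const)).intervalIntegrable _ _
    · exact (he.comp (HoleA_cont_mk continuous_const continuous_id)).intervalIntegrable _ _
    · exact (he.comp (HoleA_cont_mk continuous_const continuous_id)).intervalIntegrable _ _
  rw [hbd]
  refine ⟨?_, ?_, ?_, ?_⟩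
  · have := vert (ζ.re + s) (ζ.im + t) (ζ.im + s) (by linarith) (by linarith) le_rfl
    linarith
  · have a1 := vert (ζ.re - s) (ζ.im + t) (ζ.im + s) (by linarith) (by linarith) le_rfl
    have a2 := horz (ζ.im + s) (ζ.re - s) (ζ.re + s) le_rfl (by linarith) le_rfl
    have a3 := norm_sub_le_norm_sub_add_norm_sub (b ⟨ζ.re - s, ζ.im + t⟩)
      (b ⟨ζ.re - s, ζ.im + s⟩) (b ⟨ζ.re + s, ζ.im + s⟩)
    linarith
  · have := horz (ζ.im + s) (ζ.re + t) (ζ.re + s) (by linarith) (by linarith) le_rfl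
    linarith
  · have a1 := horz (ζ.im - s) (ζ.re + t) (ζ.re + s) (by linarith) (by linarith) le_rfl
    have a2 := vert (ζ.re + s) (ζ.im - s) (ζ.im + s) le_rfl (by linarith) le_rfl
    have a3 := norm_sub_le_norm_sub_add_norm_sub (b ⟨ζ.re + t, ζ.im - s⟩)
      (b ⟨ζ.re + s, ζ.im - s⟩) (b ⟨ζ.re + s, ζ.im + s⟩)
    linarith

end FC34
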