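import Pool.Agent.W_fc1c69_h34.HoleA

/-! The Jacobian inequality (6) on squares. -/

namespace FC34

open Complex MeasureTheory Metric Set

theorem HoleB_ii_y {e : ℂ → ℝ} (he : Continuous e) (x a c : ℝ) :
    IntervalIntegrable (fun y => e ⟨x, y⟩) volume a c :=
  (he.comp (HoleA_cont_mk continuous_const continuous_id)).intervalIntegrable _ _

theorem HoleB_ii_x {e : ℂ → ℝ} (he : Continuous e) (y a c : ℝ) :
    IntervalIntegrable (fun x => e ⟨x, y⟩) volume a c :=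
  (he.comp (HoleA_cont_mk continuous_id continuous_const)).intervalIntegrable _ _

theorem HoleB_bdry_add {e f : ℂ → ℝ} (he : Continuous e) (hf : Continuous f) (ζ : ℂ) (s : ℝ) :
    bdry (fun z => e z + f z) ζ s = bdry e ζ s + bdry f ζ s := by
  unfold bdry
  have h1 : (∫ y in (ζ.im - s)..(ζ.im + s), ((e ⟨ζ.re + s, y⟩ + f ⟨ζ.re + s, y⟩) +
      (e ⟨ζ.re - s, y⟩ + f ⟨ζ.re - s, y⟩))) =
      (∫ y in (ζ.im - s)..(ζ.im + s), (e ⟨ζ.re + s, y⟩ + e ⟨ζ.re - s, y⟩)) +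
      ∫ y in (ζ.im - s)..(ζ.im + s), (f ⟨ζ.re + s, y⟩ + f ⟨ζ.re - s, y⟩) := by
    rw [← intervalIntegral.integral_add ((HoleB_ii_y he _ _ _).add (HoleB_ii_y he _ _ _))
      ((HoleB_ii_y hf _ _ _).add (HoleB_ii_y hf _ _ _))]
    apply intervalIntegral.integral_congr
    intro y _
    ring
  have h2 : (∫ x in (ζ.re - s)..(ζ.re + s), ((e ⟨x, ζ.im + s⟩ + f ⟨x, ζ.im + s⟩) +
      (e ⟨x, ζ.im - s⟩ + f ⟨x, ζ.im - s⟩))) =
      (∫ x in (ζ.re - s)..(ζ.re + s), (e ⟨x, ζ.im + s⟩ + e ⟨x, ζ.im - s⟩)) +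
      ∫ x in (ζ.re - s)..(ζ.re + s), (f ⟨x, ζ.im + s⟩ + f ⟨x, ζ.im - s⟩) := by
    rw [← intervalIntegral.integral_add ((HoleB_ii_x he _ _ _).add (HoleB_ii_x he _ _ _))
      ((HoleB_ii_x hf _ _ _).add (HoleB_ii_x hf _ _ _))]
    apply intervalIntegral.integral_congr
    intro y _
    ring
  rw [h1, h2]
  ring

theorem HoleB_bdry_mul {e : ℂ → ℝ} (m : ℝ) (ζ : ℂ) (s : ℝ) :
    bdry (fun z => m * e z) ζ s = m * bdry e ζ s := by
  unfold bdry
  rw [mul_add, ← intervalIntegral.integral_const_mul, ← intervalIntegral.integral_const_mul]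
  congr 1
  · apply intervalIntegral.integral_congr
    intro y _
    ring
  · apply intervalIntegral.integral_congr
    intro y _
    ring

theorem HoleB_bdry_const (m : ℝ) (ζ : ℂ) (s : ℝ) :
    bdry (fun _ => m) ζ s = 8 * s * m := by
  unfold bdry
  rw [intervalIntegral.integral_const, intervalIntegral.integral_const, smul_eq_mul, smul_eq_mul]
  ring

theorem HoleB_bdry_nonneg {e : ℂ → ℝ} (h0 : ∀ z, 0 ≤ e z) (ζ : ℂ) {s : ℝ} (hs : 0 ≤ s) :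
    0 ≤ bdry e ζ s := by
  unfold bdry
  have h1 := intervalIntegral.integral_nonneg (μ := volume)
    (show ζ.im - s ≤ ζ.im + s by linarith)
    (fun y _ => add_nonneg (h0 ⟨ζ.re + s, y⟩) (h0 ⟨ζ.re - s, y⟩))
  have h2 := intervalIntegral.integral_nonneg (μ := volume)
    (show ζ.re - s ≤ ζ.re + s by linarith)
    (fun x _ => add_nonneg (h0 ⟨x, ζ.im + s⟩) (h0 ⟨x, ζ.im - s⟩))
  linarith

/-- Cauchy-Schwarz on the boundary. -/
theorem HoleB_bdry_sq {e : ℂ → ℝ} (he : Continuous e) (ζ : ℂ) {s : ℝ} (hs : 0 ≤ s) :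
    (bdry e ζ s) ^ 2 ≤ 8 * s * bdry (fun z => e z ^ 2) ζ s := by
  rcases hs.eq_or_lt with h | h
  · subst h
    simp [bdry]
  · set B := bdry e ζ s with hB
    set m := B / (8 * s) with hm
    have h1 : 0 ≤ bdry (fun z => (e z ^ 2 + (-2 * m) * e z) + m ^ 2) ζ s := by
      apply HoleB_bdry_nonneg _ ζ hs
      intro z
      nlinarith [sq_nonneg (e z - m)]
    have c2 : Continuous fun z => e z ^ 2 := he.pow 2
    have c3 : Continuous fun z => (-2 * m) * e z := continuous_const.mul he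
    rw [HoleB_bdry_add (e := fun z => e z ^ 2 + -2 * m * e z) (c2.add c3) continuous_const,
      HoleB_bdry_add c2 c3, HoleB_bdry_mul, HoleB_bdry_const, ← hB] at h1
    have h2 : B = 8 * s * m := by
      rw [hm]
      field_simp
    have h3 : 0 ≤ 8 * s * (bdry (fun z => e z ^ 2) ζ s + -2 * m * B + 8 * s * m ^ 2) :=
      mul_nonneg (by linarith) h1
    have h4 : 8 * s * (bdry (fun z => e z ^ 2) ζ s + -2 * m * B + 8 * s * m ^ 2) =
        8 * s * bdry (fun z => e z ^ 2) ζ s - B ^ 2 := by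
      rw [h2]
      ring
    linarith

theorem HoleB_im_le (a c : ℂ) {B e : ℝ} (ha : ‖a‖ ≤ B) (hc : ‖c‖ ≤ e) :
    |((starRingEnd ℂ) a * c).im / 2| ≤ B * e / 2 := by
  rw [abs_div, abs_of_pos (show (0 : ℝ) < 2 by norm_num)]
  have h1 : |((starRingEnd ℂ) a * c).im| ≤ ‖(starRingEnd ℂ) a * c‖ := Complex.abs_im_le_norm _
  rw [norm_mul, RCLike.norm_conj] at h1
  have h2 : ‖a‖ * ‖c‖ ≤ B * e :=
    mul_le_mul ha hc (norm_nonneg _) ((norm_nonneg _).trans ha)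
  linarith

/-- (6): `∫_{sq ζ s} (|∂b|² - |∂̄b|²) ≤ 4 s · bdry (|b_x|²+|b_y|²)`.
Proof: `normSq_dz_sub`, `jac_eq_div` (with `c` = value at the corner) and `integral_sq_div` give
the boundary integral of `Im(conj(b-c) b_τ)/2`; with `e = √(|b_x|²+|b_y|²)` and `osc_bdry` it is at
most `(1/2) (bdry e)²`, and Cauchy-Schwarz gives `(bdry e)² ≤ 8 s · bdry (e²)`. -/
theorem jac_sq_le {b : ℂ → ℂ} (hb : ContDiff ℝ 2 b) (ζ : ℂ) {s : ℝ} (hs : 0 ≤ s) :
    (∫ z in sq ζ s, ‖dz b z‖ ^ 2) - (∫ z in sq ζ s, ‖dbar b z‖ ^ 2) ≤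
      4 * s * bdry (fun z => ‖px b z‖ ^ 2 + ‖py b z‖ ^ 2) ζ s := by
  have hb1 : ContDiff ℝ 1 b := hb.of_le (by norm_num)
  have cx := HoleA_cont_px hb1
  have cy := HoleA_cont_py hb1
  have cdz : Continuous (dz b) := by
    unfold dz
    fun_prop
  have cdbar : Continuous (dbar b) := by
    unfold dbar
    fun_prop
  have dx : ContDiff ℝ 1 (px b) := by
    have h := hb.fderiv_right (m := 1) (by norm_num)
    exact h.clm_apply contDiff_const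
  have dy : ContDiff ℝ 1 (py b) := by
    have h := hb.fderiv_right (m := 1) (by norm_num)
    exact h.clm_apply contDiff_const
  set c : ℂ := b ⟨ζ.re + s, ζ.im + s⟩ with hc
  set e : ℂ → ℝ := fun z => Real.sqrt (‖px b z‖ ^ 2 + ‖py b z‖ ^ 2) with he
  have ce : Continuous e := by
    rw [he]
    exact ((cx.norm.pow 2).add (cy.norm.pow 2)).sqrt
  have he2 : ∀ z, e z ^ 2 = ‖px b z‖ ^ 2 + ‖py b z‖ ^ 2 := by
    intro z
    exact Real.sq_sqrt (by positivity)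
  have hx : ∀ z, ‖px b z‖ ≤ e z := by
    intro z
    apply Real.le_sqrt_of_sq_le
    have := sq_nonneg ‖py b z‖
    linarith
  have hy : ∀ z, ‖py b z‖ ≤ e z := by
    intro z
    apply Real.le_sqrt_of_sq_le
    have := sq_nonneg ‖px b z‖
    linarith
  set B := bdry e ζ s with hB
  have e0 : ∀ z, 0 ≤ e z := fun z => Real.sqrt_nonneg _
  have hB0 : 0 ≤ B := HoleB_bdry_nonneg e0 ζ hs
  let F : ℂ → ℝ := fun w => ((starRingEnd ℂ) (b w - c) * py b w).im / 2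
  let H : ℂ → ℝ := fun w => ((starRingEnd ℂ) (b w - c) * px b w).im / 2
  have conjC : ∀ {g : ℂ → ℂ}, ContDiff ℝ 1 g → ContDiff ℝ 1 (fun w => (starRingEnd ℂ) (g w)) := by
    intro g hg
    exact Complex.conjCLE.contDiff.comp hg
  have imC : ∀ {g : ℂ → ℂ}, ContDiff ℝ 1 g → ContDiff ℝ 1 (fun w => (g w).im) := by
    intro g hg
    exact Complex.imCLM.contDiff.comp hg
  have hF : ContDiff ℝ 1 F :=
    (imC ((conjC (hb1.sub contDiff_const)).mul dy)).div_const 2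
  have hH : ContDiff ℝ 1 H :=
    (imC ((conjC (hb1.sub contDiff_const)).mul dx)).div_const 2
  have hint : (∫ z in sq ζ s, ‖dz b z‖ ^ 2) - (∫ z in sq ζ s, ‖dbar b z‖ ^ 2) =
      ∫ z in sq ζ s, (px F z - py H z) := by
    have k1 : Continuous (fun z => ‖dz b z‖ ^ 2) := cdz.norm.pow 2
    have k2 : Continuous (fun z => ‖dbar b z‖ ^ 2) := cdbar.norm.pow 2
    rw [← integral_sub (HoleA_integrableOn_sq k1 ζ s) (HoleA_integrableOn_sq k2 ζ s)]
    congr 1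
    funext z
    rw [normSq_dz_sub, jac_eq_div hb c z]
  rw [hint, integral_sq_div hF hH ζ hs]
  -- bounds
  have osc := fun t (ht : |t| ≤ s) => osc_bdry hb1 ce hx hy ζ hs ht
  have habs1 : ∀ y ∈ Icc (ζ.im - s) (ζ.im + s), |y - ζ.im| ≤ s := by
    intro y hy
    rw [abs_le]
    constructor <;> linarith [hy.1, hy.2]
  have habs2 : ∀ x ∈ Icc (ζ.re - s) (ζ.re + s), |x - ζ.re| ≤ s := by
    intro y hy
    rw [abs_le]
    constructor <;> linarith [hy.1, hy.2]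
  have b1 : ∫ y in (ζ.im - s)..(ζ.im + s), (F ⟨ζ.re + s, y⟩ - F ⟨ζ.re - s, y⟩) ≤
      ∫ y in (ζ.im - s)..(ζ.im + s), B / 2 * (e ⟨ζ.re + s, y⟩ + e ⟨ζ.re - s, y⟩) := by
    apply intervalIntegral.integral_mono_on (by linarith)
    · exact (HoleB_ii_y hF.continuous _ _ _).sub (HoleB_ii_y hF.continuous _ _ _)
    · exact ((HoleB_ii_y ce _ _ _).add (HoleB_ii_y ce _ _ _)).const_mul _
    · intro y hy'
      have h1 := osc (y - ζ.im) (habs1 y hy')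
      rw [show ζ.im + (y - ζ.im) = y by ring] at h1
      have f1 := HoleB_im_le (b ⟨ζ.re + s, y⟩ - c) (py b ⟨ζ.re + s, y⟩) h1.1 (hy _)
      have f2 := HoleB_im_le (b ⟨ζ.re - s, y⟩ - c) (py b ⟨ζ.re - s, y⟩) h1.2.1 (hy _)
      have g1 := (abs_le.1 f1).2
      have g2 := (abs_le.1 f2).1
      show ((starRingEnd ℂ) (b ⟨ζ.re + s, y⟩ - c) * py b ⟨ζ.re + s, y⟩).im / 2 -
        ((starRingEnd ℂ) (b ⟨ζ.re - s, y⟩ - c) * py b ⟨ζ.re - s, y⟩).im / 2 ≤ _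
      have : B / 2 * (e ⟨ζ.re + s, y⟩ + e ⟨ζ.re - s, y⟩) =
        B * e ⟨ζ.re + s, y⟩ / 2 + B * e ⟨ζ.re - s, y⟩ / 2 := by ring
      linarith
  have b2 : -∫ x in (ζ.re - s)..(ζ.re + s), (H ⟨x, ζ.im + s⟩ - H ⟨x, ζ.im - s⟩) ≤
      ∫ x in (ζ.re - s)..(ζ.re + s), B / 2 * (e ⟨x, ζ.im + s⟩ + e ⟨x, ζ.im - s⟩) := by
    rw [← intervalIntegral.integral_neg]
    apply intervalIntegral.integral_mono_on (by linarith)
    · exact ((HoleB_ii_x hH.continuous _ _ _).sub (HoleB_ii_x hH.continuous _ _ _)).neg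
    · exact ((HoleB_ii_x ce _ _ _).add (HoleB_ii_x ce _ _ _)).const_mul _
    · intro x hx'
      have h1 := osc (x - ζ.re) (habs2 x hx')
      rw [show ζ.re + (x - ζ.re) = x by ring] at h1
      have f1 := HoleB_im_le (b ⟨x, ζ.im + s⟩ - c) (px b ⟨x, ζ.im + s⟩) h1.2.2.1 (hx _)
      have f2 := HoleB_im_le (b ⟨x, ζ.im - s⟩ - c) (px b ⟨x, ζ.im - s⟩) h1.2.2.2 (hx _)
      have g1 := (abs_le.1 f1).1
      have g2 := (abs_le.1 f2).2
      show -(((starRingEnd ℂ) (b ⟨x, ζ.im + s⟩ - c) * px b ⟨x, ζ.im + s⟩).im / 2 -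
        ((starRingEnd ℂ) (b ⟨x, ζ.im - s⟩ - c) * px b ⟨x, ζ.im - s⟩).im / 2) ≤ _
      have : B / 2 * (e ⟨x, ζ.im + s⟩ + e ⟨x, ζ.im - s⟩) =
        B * e ⟨x, ζ.im + s⟩ / 2 + B * e ⟨x, ζ.im - s⟩ / 2 := by ring
      linarith
  rw [intervalIntegral.integral_const_mul] at b1 b2
  have hsum : (∫ y in (ζ.im - s)..(ζ.im + s), (e ⟨ζ.re + s, y⟩ + e ⟨ζ.re - s, y⟩)) +
    ∫ x in (ζ.re - s)..(ζ.re + s), (e ⟨x, ζ.im + s⟩ + e ⟨x, ζ.im - s⟩) = B := rfl
  have hcs := HoleB_bdry_sq ce ζ hs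
  rw [← hB] at hcs
  have hcongr : bdry (fun z => e z ^ 2) ζ s =
      bdry (fun z => ‖px b z‖ ^ 2 + ‖py b z‖ ^ 2) ζ s := by
    congr 1
    funext z
    exact he2 z
  rw [hcongr] at hcs
  have hfin : B / 2 * (∫ y in (ζ.im - s)..(ζ.im + s), (e ⟨ζ.re + s, y⟩ + e ⟨ζ.re - s, y⟩)) +
      B / 2 * (∫ x in (ζ.re - s)..(ζ.re + s), (e ⟨x, ζ.im + s⟩ + e ⟨x, ζ.im - s⟩)) = B ^ 2 / 2 := by
    rw [← mul_add, hsum]
    ring
  linarith

end FC34
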