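import Pool.Agent.W_fc1c69_h34.Defs

/-! The exact identities for `f = e^{-Px} φ` and `b` (proofs row 213, (1), (2)). -/

namespace FC34

open Complex MeasureTheory Metric Set

section Ident_calc

variable {E : Type*} [NormedAddCommGroup E] [NormedSpace ℝ E]

theorem Ident_contDiff_px {n : ℕ} {u : ℂ → E} (hu : ContDiff ℝ (n + 1) u) :
    ContDiff ℝ n (px u) := (hu.fderiv_right le_rfl).clm_apply contDiff_const

theorem Ident_contDiff_py {n : ℕ} {u : ℂ → E} (hu : ContDiff ℝ (n + 1) u) :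
    ContDiff ℝ n (py u) := (hu.fderiv_right le_rfl).clm_apply contDiff_const

theorem Ident_px_of {u : ℂ → E} {L : ℂ →L[ℝ] E} {z : ℂ} (h : HasFDerivAt u L z) :
    px u z = L 1 := by rw [px, h.fderiv]

theorem Ident_py_of {u : ℂ → E} {L : ℂ →L[ℝ] E} {z : ℂ} (h : HasFDerivAt u L z) :
    py u z = L Complex.I := by rw [py, h.fderiv]

theorem Ident_snd {u : ℂ → E} {z : ℂ} (hu : DifferentiableAt ℝ (fderiv ℝ u) z) (v w : ℂ) :
    fderiv ℝ (fun x => fderiv ℝ u x v) z w = fderiv ℝ (fderiv ℝ u) z w v := by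
  have h := ((ContinuousLinearMap.apply ℝ E v).hasFDerivAt (x := fderiv ℝ u z)).comp z
    hu.hasFDerivAt
  have h2 : HasFDerivAt (fun x => fderiv ℝ u x v)
      ((ContinuousLinearMap.apply ℝ E v).comp (fderiv ℝ (fderiv ℝ u) z)) z := h
  rw [h2.fderiv]
  rfl

theorem Ident_symm {u : ℂ → E} (hu : ContDiff ℝ 2 u) (z : ℂ) :
    px (py u) z = py (px u) z := by
  have hd : DifferentiableAt ℝ (fderiv ℝ u) z :=
    ((hu.fderiv_right (m := 1) (by norm_num)).differentiable (by norm_num)) z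
  have h1 : px (py u) z = fderiv ℝ (fderiv ℝ u) z 1 Complex.I := Ident_snd hd _ _
  have h2 : py (px u) z = fderiv ℝ (fderiv ℝ u) z Complex.I 1 := Ident_snd hd _ _
  rw [h1, h2]
  have h3 : IsSymmSndFDerivAt ℝ u z := by
    refine (hu.contDiffAt (x := z)).isSymmSndFDerivAt ?_
    rw [minSmoothness_of_isRCLikeNormedField]
  exact h3.eq 1 Complex.I

end Ident_calc

/-- coercion -/
theorem Ident_px_coe {g : ℂ → ℝ} {z : ℂ} (hg : DifferentiableAt ℝ g z) :
    px (fun x => ((g x : ℝ) : ℂ)) z = ((px g z : ℝ) : ℂ) := by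
  have h : HasFDerivAt (fun x => ((g x : ℝ) : ℂ)) (Complex.ofRealCLM.comp (fderiv ℝ g z)) z :=
    (Complex.ofRealCLM.hasFDerivAt (x := g z)).comp z hg.hasFDerivAt
  rw [Ident_px_of h]
  rfl

theorem Ident_py_coe {g : ℂ → ℝ} {z : ℂ} (hg : DifferentiableAt ℝ g z) :
    py (fun x => ((g x : ℝ) : ℂ)) z = ((py g z : ℝ) : ℂ) := by
  have h : HasFDerivAt (fun x => ((g x : ℝ) : ℂ)) (Complex.ofRealCLM.comp (fderiv ℝ g z)) z :=
    (Complex.ofRealCLM.hasFDerivAt (x := g z)).comp z hg.hasFDerivAt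
  rw [Ident_py_of h]
  rfl

section
variable {P κ Q0 : ℝ} {φ Q : ℂ → ℝ}

theorem Ident_hasFDerivAt_exp (P : ℝ) (z : ℂ) :
    HasFDerivAt (fun x : ℂ => Real.exp (-(P * x.re)))
      (Real.exp (-(P * z.re)) • ((-P) • Complex.reCLM)) z := by
  have h1 : HasFDerivAt (fun x : ℂ => -(P * x.re)) ((-P) • Complex.reCLM) z := by
    have h2 := (Complex.reCLM.hasFDerivAt (x := z)).const_mul (-P)
    have h3 : (fun x : ℂ => -(P * x.re)) = fun x => -P * Complex.reCLM x := by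
      funext x
      simp
    rw [h3]
    exact h2
  exact h1.exp

theorem Ident_px_ff {g : ℂ → ℝ} {z : ℂ} (hg : DifferentiableAt ℝ g z) :
    px (ff P g) z = Real.exp (-(P * z.re)) * (px g z - P * g z) := by
  have h := (Ident_hasFDerivAt_exp P z).mul hg.hasFDerivAt
  have h2 : px (ff P g) z = _ := Ident_px_of h
  rw [h2]
  simp only [_root_.add_apply, _root_.smul_apply, smul_eq_mul,
    Complex.reCLM_apply, Complex.one_re, px]
  ring

theorem Ident_py_ff {g : ℂ → ℝ} {z : ℂ} (hg : DifferentiableAt ℝ g z) :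
    py (ff P g) z = Real.exp (-(P * z.re)) * py g z := by
  have h := (Ident_hasFDerivAt_exp P z).mul hg.hasFDerivAt
  have h2 : py (ff P g) z = _ := Ident_py_of h
  rw [h2]
  simp only [_root_.add_apply, _root_.smul_apply, smul_eq_mul,
    Complex.reCLM_apply, Complex.I_re, py]
  ring

theorem contDiff_ff (hφ : ContDiff ℝ 3 φ) : ContDiff ℝ 3 (ff P φ) := by
  have h1 : ContDiff ℝ 3 (fun z : ℂ => Real.exp (-(P * z.re))) := by
    have h2 : ContDiff ℝ 3 (fun z : ℂ => z.re) := Complex.reCLM.contDiff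
    exact (contDiff_const.mul h2).neg.exp
  exact h1.mul hφ

theorem contDiff_bb (hφ : ContDiff ℝ 3 φ) : ContDiff ℝ 2 (bb P κ φ) := by
  have hre : ContDiff ℝ 2 (fun z : ℂ => z.re) := Complex.reCLM.contDiff
  have him : ContDiff ℝ 2 (fun z : ℂ => z.im) := Complex.imCLM.contDiff
  have hco : ContDiff ℝ 2 (fun t : ℝ => (t : ℂ)) := Complex.ofRealCLM.contDiff
  have h1 : ContDiff ℝ 2 (fun z : ℂ =>
      Complex.exp (-(((P * z.re : ℝ) : ℂ)) - Complex.I * ((κ * z.im : ℝ) : ℂ))) := by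
    refine ContDiff.cexp ?_
    exact (hco.comp (contDiff_const.mul hre)).neg.sub
      (contDiff_const.mul (hco.comp (contDiff_const.mul him)))
  have h2 : ContDiff ℝ 2 (px φ) := Ident_contDiff_px (n := 2) (by exact_mod_cast hφ)
  have h3 : ContDiff ℝ 2 (py φ) := Ident_contDiff_py (n := 2) (by exact_mod_cast hφ)
  have h4 : ContDiff ℝ 2 φ := hφ.of_le (by norm_num)
  exact h1.mul (((hco.comp h2).sub (contDiff_const.mul (hco.comp h3))).add
    (hco.comp (contDiff_const.mul h4)))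

/-- the function `w = f_x - i f_y + κ f` -/
noncomputable def Ident_w (κ : ℝ) (f : ℂ → ℝ) (z : ℂ) : ℂ :=
  ((px f z : ℝ) : ℂ) - Complex.I * ((py f z : ℝ) : ℂ) + ((κ * f z : ℝ) : ℂ)

/-- `b = e^{-iκy} (f_x - i f_y + κ f)`. -/
theorem bb_eq (hφ : ContDiff ℝ 3 φ) (z : ℂ) :
    bb P κ φ z = Complex.exp (-(Complex.I * ((κ * z.im : ℝ) : ℂ))) *
      (((px (ff P φ) z : ℝ) : ℂ) - Complex.I * ((py (ff P φ) z : ℝ) : ℂ) +
        ((κ * ff P φ z : ℝ) : ℂ)) := by
  have hd : DifferentiableAt ℝ φ z := (hφ.differentiable (by norm_num)) z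
  rw [Ident_px_ff hd, Ident_py_ff hd, bb, ff]
  rw [show (-(((P * z.re : ℝ) : ℂ)) - Complex.I * ((κ * z.im : ℝ) : ℂ)) =
    -(Complex.I * ((κ * z.im : ℝ) : ℂ)) + ((-(P * z.re) : ℝ) : ℂ) by push_cast; ring,
    Complex.exp_add, ← Complex.ofReal_exp]
  push_cast
  ring

theorem Ident_bb_eq (hφ : ContDiff ℝ 3 φ) : bb P κ φ =
    fun z => Complex.exp (-(Complex.I * ((κ * z.im : ℝ) : ℂ))) * Ident_w κ (ff P φ) z := by
  funext z
  exact bb_eq hφ z

theorem Ident_px_w {f : ℂ → ℝ} (hf : ContDiff ℝ 2 f) (z : ℂ) :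
    px (Ident_w κ f) z = ((px (px f) z : ℝ) : ℂ) - Complex.I * ((px (py f) z : ℝ) : ℂ) +
      ((κ * px f z : ℝ) : ℂ) := by
  have h1 : DifferentiableAt ℝ (px f) z :=
    ((Ident_contDiff_px (n := 1) (by exact_mod_cast hf)).differentiable (by norm_num)) z
  have h2 : DifferentiableAt ℝ (py f) z :=
    ((Ident_contDiff_py (n := 1) (by exact_mod_cast hf)).differentiable (by norm_num)) z
  have h3 : DifferentiableAt ℝ f z := (hf.differentiable (by norm_num)) z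
  have e1 : HasFDerivAt (fun x => ((px f x : ℝ) : ℂ))
      (Complex.ofRealCLM.comp (fderiv ℝ (px f) z)) z :=
    (Complex.ofRealCLM.hasFDerivAt (x := px f z)).comp z h1.hasFDerivAt
  have e2 : HasFDerivAt (fun x => ((py f x : ℝ) : ℂ))
      (Complex.ofRealCLM.comp (fderiv ℝ (py f) z)) z :=
    (Complex.ofRealCLM.hasFDerivAt (x := py f z)).comp z h2.hasFDerivAt
  have e3 : HasFDerivAt (fun x => ((κ * f x : ℝ) : ℂ))
      (Complex.ofRealCLM.comp (κ • fderiv ℝ f z)) z :=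
    (Complex.ofRealCLM.hasFDerivAt (x := κ * f z)).comp z (h3.hasFDerivAt.const_mul κ)
  have e4 := (e1.sub (e2.const_mul Complex.I)).add e3
  have e5 : px (Ident_w κ f) z = _ := Ident_px_of e4
  rw [e5]
  simp [px]

theorem Ident_py_w {f : ℂ → ℝ} (hf : ContDiff ℝ 2 f) (z : ℂ) :
    py (Ident_w κ f) z = ((py (px f) z : ℝ) : ℂ) - Complex.I * ((py (py f) z : ℝ) : ℂ) +
      ((κ * py f z : ℝ) : ℂ) := by
  have h1 : DifferentiableAt ℝ (px f) z :=
    ((Ident_contDiff_px (n := 1) (by exact_mod_cast hf)).differentiable (by norm_num)) z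
  have h2 : DifferentiableAt ℝ (py f) z :=
    ((Ident_contDiff_py (n := 1) (by exact_mod_cast hf)).differentiable (by norm_num)) z
  have h3 : DifferentiableAt ℝ f z := (hf.differentiable (by norm_num)) z
  have e1 : HasFDerivAt (fun x => ((px f x : ℝ) : ℂ))
      (Complex.ofRealCLM.comp (fderiv ℝ (px f) z)) z :=
    (Complex.ofRealCLM.hasFDerivAt (x := px f z)).comp z h1.hasFDerivAt
  have e2 : HasFDerivAt (fun x => ((py f x : ℝ) : ℂ))
      (Complex.ofRealCLM.comp (fderiv ℝ (py f) z)) z :=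
    (Complex.ofRealCLM.hasFDerivAt (x := py f z)).comp z h2.hasFDerivAt
  have e3 : HasFDerivAt (fun x => ((κ * f x : ℝ) : ℂ))
      (Complex.ofRealCLM.comp (κ • fderiv ℝ f z)) z :=
    (Complex.ofRealCLM.hasFDerivAt (x := κ * f z)).comp z (h3.hasFDerivAt.const_mul κ)
  have e4 := (e1.sub (e2.const_mul Complex.I)).add e3
  have e5 : py (Ident_w κ f) z = _ := Ident_py_of e4
  rw [e5]
  simp [py]

theorem Ident_w_diff {f : ℂ → ℝ} (hf : ContDiff ℝ 2 f) (z : ℂ) :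
    DifferentiableAt ℝ (Ident_w κ f) z := by
  have h1 : DifferentiableAt ℝ (px f) z :=
    ((Ident_contDiff_px (n := 1) (by exact_mod_cast hf)).differentiable (by norm_num)) z
  have h2 : DifferentiableAt ℝ (py f) z :=
    ((Ident_contDiff_py (n := 1) (by exact_mod_cast hf)).differentiable (by norm_num)) z
  have h3 : DifferentiableAt ℝ f z := (hf.differentiable (by norm_num)) z
  have e1 : HasFDerivAt (fun x => ((px f x : ℝ) : ℂ))
      (Complex.ofRealCLM.comp (fderiv ℝ (px f) z)) z :=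
    (Complex.ofRealCLM.hasFDerivAt (x := px f z)).comp z h1.hasFDerivAt
  have e2 : HasFDerivAt (fun x => ((py f x : ℝ) : ℂ))
      (Complex.ofRealCLM.comp (fderiv ℝ (py f) z)) z :=
    (Complex.ofRealCLM.hasFDerivAt (x := py f z)).comp z h2.hasFDerivAt
  have e3 : HasFDerivAt (fun x => ((κ * f x : ℝ) : ℂ))
      (Complex.ofRealCLM.comp (κ • fderiv ℝ f z)) z :=
    (Complex.ofRealCLM.hasFDerivAt (x := κ * f z)).comp z (h3.hasFDerivAt.const_mul κ)
  exact ((e1.sub (e2.const_mul Complex.I)).add e3).differentiableAt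

theorem Ident_hasFDerivAt_cexp (κ : ℝ) (z : ℂ) :
    HasFDerivAt (fun x : ℂ => Complex.exp (-(Complex.I * ((κ * x.im : ℝ) : ℂ))))
      (Complex.exp (-(Complex.I * ((κ * z.im : ℝ) : ℂ))) •
        ((-(Complex.I * (κ : ℂ))) • (Complex.ofRealCLM.comp Complex.imCLM))) z := by
  have h1 : HasFDerivAt (fun x : ℂ => -(Complex.I * ((κ * x.im : ℝ) : ℂ)))
      ((-(Complex.I * (κ : ℂ))) • (Complex.ofRealCLM.comp Complex.imCLM)) z := by
    have h2 := ((Complex.ofRealCLM.comp Complex.imCLM).hasFDerivAt (x := z)).const_mul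
      (-(Complex.I * (κ : ℂ)))
    have h3 : (fun x : ℂ => -(Complex.I * ((κ * x.im : ℝ) : ℂ))) =
        fun x => -(Complex.I * (κ : ℂ)) * (Complex.ofRealCLM.comp Complex.imCLM) x := by
      funext x
      simp only [ContinuousLinearMap.comp_apply, Complex.imCLM_apply, Complex.ofRealCLM_apply]
      push_cast
      ring
    rw [h3]
    exact h2
  exact h1.cexp

theorem Ident_px_bb (hφ : ContDiff ℝ 3 φ) (z : ℂ) :
    px (bb P κ φ) z = Complex.exp (-(Complex.I * ((κ * z.im : ℝ) : ℂ))) *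
      px (Ident_w κ (ff P φ)) z := by
  have hf : ContDiff ℝ 2 (ff P φ) := (contDiff_ff hφ).of_le (by norm_num)
  rw [Ident_bb_eq hφ]
  have h := (Ident_hasFDerivAt_cexp κ z).mul (Ident_w_diff (κ := κ) hf z).hasFDerivAt
  refine (Ident_px_of h).trans ?_
  simp [px]

theorem Ident_py_bb (hφ : ContDiff ℝ 3 φ) (z : ℂ) :
    py (bb P κ φ) z = Complex.exp (-(Complex.I * ((κ * z.im : ℝ) : ℂ))) *
      (py (Ident_w κ (ff P φ)) z - Complex.I * κ * Ident_w κ (ff P φ) z) := by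
  have hf : ContDiff ℝ 2 (ff P φ) := (contDiff_ff hφ).of_le (by norm_num)
  rw [Ident_bb_eq hφ]
  have h := (Ident_hasFDerivAt_cexp κ z).mul (Ident_w_diff (κ := κ) hf z).hasFDerivAt
  refine (Ident_py_of h).trans ?_
  simp [py]
  ring

theorem Ident_lap_ff (hφ : ContDiff ℝ 3 φ) (z : ℂ) :
    px (px (ff P φ)) z + py (py (ff P φ)) z = Real.exp (-(P * z.re)) *
      (lap φ z - 2 * P * px φ z + P ^ 2 * φ z) := by
  have hd : ∀ z, DifferentiableAt ℝ φ z := fun z => (hφ.differentiable (by norm_num)) z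
  have h2 : ContDiff ℝ 2 (px φ) := Ident_contDiff_px (n := 2) (by exact_mod_cast hφ)
  have h3 : ContDiff ℝ 2 (py φ) := Ident_contDiff_py (n := 2) (by exact_mod_cast hφ)
  have hdx : DifferentiableAt ℝ (px φ) z := (h2.differentiable (by norm_num)) z
  have hdy : DifferentiableAt ℝ (py φ) z := (h3.differentiable (by norm_num)) z
  have e1 : px (ff P φ) = ff P (fun z => px φ z - P * φ z) := by
    funext w
    rw [Ident_px_ff (hd w), ff]
  have e2 : py (ff P φ) = ff P (py φ) := by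
    funext w
    rw [Ident_py_ff (hd w), ff]
  have e3 : px (fun z => px φ z - P * φ z) z = px (px φ) z - P * px φ z := by
    have h := hdx.hasFDerivAt.sub ((hd z).hasFDerivAt.const_mul P)
    refine (Ident_px_of h).trans ?_
    simp [px]
  have hdd : DifferentiableAt ℝ (fun z => px φ z - P * φ z) z :=
    hdx.sub ((hd z).const_mul P)
  rw [e1, e2, Ident_px_ff hdd, Ident_py_ff hdy, e3, lap]
  ring

/-- Identity (1): `∂̄b = e^{-iκy} ((κ-P) f_x + (1/2)(Q₀ - Q) f)`.  Proof: `∂̄(e^{-iκy} w) =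
e^{-iκy}(∂̄w + κ w/2)`, `w = f_x - i f_y + κ f`, `∂̄w = Δf/2 + (κ/2)(f_x + i f_y)`, hence
`∂̄w + κw/2 = Δf/2 + κ f_x + κ² f/2`, and `Δf = -2P f_x - (P² + Q) f` at `z`. -/
theorem dbar_bb (hφ : ContDiff ℝ 3 φ) (hκ : κ ^ 2 = P ^ 2 + Q0) {z : ℂ}
    (hz : lap φ z = - Q z * φ z) :
    dbar (bb P κ φ) z = Complex.exp (-(Complex.I * ((κ * z.im : ℝ) : ℂ))) *
      (((κ - P) * px (ff P φ) z + (1 / 2) * (Q0 - Q z) * ff P φ z : ℝ) : ℂ) := by
  have hf : ContDiff ℝ 2 (ff P φ) := (contDiff_ff hφ).of_le (by norm_num)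
  have hd : DifferentiableAt ℝ φ z := (hφ.differentiable (by norm_num)) z
  have hlap := Ident_lap_ff (P := P) hφ z
  rw [hz] at hlap
  have hpx := Ident_px_ff (P := P) hd
  have hlap2 : px (px (ff P φ)) z + py (py (ff P φ)) z =
      -2 * P * px (ff P φ) z - (P ^ 2 + Q z) * ff P φ z := by
    rw [hlap, hpx, ff]
    ring
  have hsym := Ident_symm hf z
  rw [dbar, Ident_px_bb hφ, Ident_py_bb hφ, Ident_px_w hf, Ident_py_w hf, Ident_w, hsym]
  have hxx : px (px (ff P φ)) z = -2 * P * px (ff P φ) z - (P ^ 2 + Q z) * ff P φ z -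
      py (py (ff P φ)) z := by linarith
  rw [hxx]
  have hQ0 : Q0 = κ ^ 2 - P ^ 2 := by linarith
  rw [hQ0]
  push_cast
  linear_combination (Complex.exp (-(Complex.I * ((κ : ℂ) * (z.im : ℂ)))) * (1 / 2) *
    (-((py (py (ff P φ)) z : ℝ) : ℂ) - κ * ((px (ff P φ) z : ℝ) : ℂ) +
      κ * Complex.I * ((py (ff P φ) z : ℝ) : ℂ)
      - κ * κ * ((ff P φ z : ℝ) : ℂ))) * Complex.I_sq

/-- Identity (2). -/
theorem re_bb (hφ : ContDiff ℝ 3 φ) (z : ℂ) :
    px (ff P φ) z + κ * ff P φ z =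
      (Complex.exp (Complex.I * ((κ * z.im : ℝ) : ℂ)) * bb P κ φ z).re := by
  rw [bb_eq hφ, ← mul_assoc, ← Complex.exp_add, add_neg_cancel, Complex.exp_zero, one_mul]
  simp

/-- The `x`-derivative of identity (2). -/
theorem re_px_bb (hφ : ContDiff ℝ 3 φ) (z : ℂ) :
    px (px (ff P φ)) z + κ * px (ff P φ) z =
      (Complex.exp (Complex.I * ((κ * z.im : ℝ) : ℂ)) * px (bb P κ φ) z).re := by
  have hf : ContDiff ℝ 2 (ff P φ) := (contDiff_ff hφ).of_le (by norm_num)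
  rw [Ident_px_bb hφ, ← mul_assoc, ← Complex.exp_add, add_neg_cancel, Complex.exp_zero, one_mul,
    Ident_px_w hf]
  simp

theorem Ident_norm_bb (z : ℂ) : ‖bb P κ φ z‖ = Real.exp (-(P * z.re)) *
    ‖((px φ z : ℝ) : ℂ) - Complex.I * ((py φ z : ℝ) : ℂ) + (((κ - P) * φ z : ℝ) : ℂ)‖ := by
  rw [bb, norm_mul, Complex.norm_exp]
  congr 2
  simp

theorem Ident_norm_grad (z : ℂ) :
    ‖((px φ z : ℝ) : ℂ) - Complex.I * ((py φ z : ℝ) : ℂ)‖ = Real.sqrt (px φ z ^ 2 + py φ z ^ 2) := by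
  rw [Complex.norm_def, Complex.normSq_apply]
  congr 1
  simp
  ring

theorem Ident_grad_le (z : ℂ) : Real.sqrt (px φ z ^ 2 + py φ z ^ 2) ≤ Real.sqrt (qf φ z) := by
  apply Real.sqrt_le_sqrt
  rw [qf]
  nlinarith [sq_nonneg (φ z)]

theorem Ident_abs_le (z : ℂ) : |φ z| ≤ Real.sqrt (qf φ z) := by
  rw [← Real.sqrt_sq_eq_abs]
  apply Real.sqrt_le_sqrt
  rw [qf]
  nlinarith [sq_nonneg (px φ z), sq_nonneg (py φ z)]

theorem norm_bb_le (z : ℂ) :
    ‖bb P κ φ z‖ ≤ (1 + |κ - P|) * (Real.exp (-(P * z.re)) * Real.sqrt (qf φ z)) := by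
  rw [Ident_norm_bb]
  have h1 := norm_add_le (((px φ z : ℝ) : ℂ) - Complex.I * ((py φ z : ℝ) : ℂ))
    (((κ - P) * φ z : ℝ) : ℂ)
  rw [Ident_norm_grad, Complex.norm_real, Real.norm_eq_abs, abs_mul] at h1
  have h2 := Ident_grad_le (φ := φ) z
  have h3 := Ident_abs_le (φ := φ) z
  have h4 : |κ - P| * |φ z| ≤ |κ - P| * Real.sqrt (qf φ z) :=
    mul_le_mul_of_nonneg_left h3 (abs_nonneg _)
  have h5 : 0 < Real.exp (-(P * z.re)) := Real.exp_pos _
  calc _ ≤ Real.exp (-(P * z.re)) * (Real.sqrt (qf φ z) + |κ - P| * Real.sqrt (qf φ z)) :=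
        mul_le_mul_of_nonneg_left (by linarith) h5.le
    _ = _ := by ring

/-- `e^{-Px} √q ≥ |b| - |κ-P| |f|` (as `√q ≥ |∇φ|`). -/
theorem norm_bb_sub_le (z : ℂ) :
    ‖bb P κ φ z‖ - |κ - P| * |ff P φ z| ≤ Real.exp (-(P * z.re)) * Real.sqrt (qf φ z) := by
  rw [Ident_norm_bb, ff, abs_mul, abs_of_pos (Real.exp_pos _)]
  have h1 := norm_add_le (((px φ z : ℝ) : ℂ) - Complex.I * ((py φ z : ℝ) : ℂ))
    (((κ - P) * φ z : ℝ) : ℂ)
  rw [Ident_norm_grad, Complex.norm_real, Real.norm_eq_abs, abs_mul] at h1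
  have h2 := Ident_grad_le (φ := φ) z
  have h5 : 0 < Real.exp (-(P * z.re)) := Real.exp_pos _
  have h6 := mul_le_mul_of_nonneg_left (h1.trans (add_le_add_left h2 _)) h5.le
  calc _ ≤ Real.exp (-(P * z.re)) * (Real.sqrt (qf φ z) + |κ - P| * |φ z|) -
        |κ - P| * (Real.exp (-(P * z.re)) * |φ z|) := sub_le_sub_right h6 _
    _ = _ := by ring

/-- `|b| ≤ √(1+(κ-P)²) e^{-Px} √q` (Cauchy-Schwarz). -/
theorem norm_bb_le' (z : ℂ) :
    ‖bb P κ φ z‖ ≤ Real.sqrt (1 + (κ - P) ^ 2) * (Real.exp (-(P * z.re)) * Real.sqrt (qf φ z)) := by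
  rw [Ident_norm_bb]
  have h1 := norm_add_le (((px φ z : ℝ) : ℂ) - Complex.I * ((py φ z : ℝ) : ℂ))
    (((κ - P) * φ z : ℝ) : ℂ)
  rw [Ident_norm_grad, Complex.norm_real, Real.norm_eq_abs, abs_mul] at h1
  have h5 : 0 < Real.exp (-(P * z.re)) := Real.exp_pos _
  have h2 : Real.sqrt (px φ z ^ 2 + py φ z ^ 2) + |κ - P| * |φ z| ≤
      Real.sqrt (1 + (κ - P) ^ 2) * Real.sqrt (qf φ z) := by
    rw [← Real.sqrt_mul (by positivity)]
    apply Real.le_sqrt_of_sq_le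
    have h6 : Real.sqrt (px φ z ^ 2 + py φ z ^ 2) ^ 2 = px φ z ^ 2 + py φ z ^ 2 :=
      Real.sq_sqrt (by positivity)
    have h7 : |κ - P| ^ 2 = (κ - P) ^ 2 := sq_abs _
    have h8 : |φ z| ^ 2 = φ z ^ 2 := sq_abs _
    set g := Real.sqrt (px φ z ^ 2 + py φ z ^ 2)
    rw [qf, ← h6, ← h7, ← h8]
    nlinarith [sq_nonneg (|φ z| - |κ - P| * g)]
  calc _ ≤ Real.exp (-(P * z.re)) * (Real.sqrt (1 + (κ - P) ^ 2) * Real.sqrt (qf φ z)) :=
        mul_le_mul_of_nonneg_left (h1.trans h2) h5.le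
    _ = _ := by ring

theorem abs_ff_le (z : ℂ) :
    |ff P φ z| ≤ Real.exp (-(P * z.re)) * Real.sqrt (qf φ z) := by
  rw [ff, abs_mul, abs_of_pos (Real.exp_pos _)]
  exact mul_le_mul_of_nonneg_left (Ident_abs_le z) (Real.exp_pos _).le

theorem le_kap {P Q0 : ℝ} (hP : 0 ≤ P) (hQ : 0 ≤ Q0) : P ≤ kap P Q0 := by
  rw [kap]
  apply Real.le_sqrt_of_sq_le
  linarith

theorem kap_sq {P Q0 : ℝ} (hQ : 0 ≤ Q0) : kap P Q0 ^ 2 = P ^ 2 + Q0 := by
  rw [kap]
  exact Real.sq_sqrt (by positivity)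

/-- `κ - P = Q₀/(κ+P) ≤ Q₀/κ`. -/
theorem kap_sub_le {P Q0 : ℝ} (hP : 0 < P) (hQ : 0 ≤ Q0) : kap P Q0 - P ≤ Q0 / kap P Q0 := by
  have h1 := le_kap hP.le hQ
  have h2 := kap_sq (P := P) hQ
  have h3 : 0 < kap P Q0 := lt_of_lt_of_le hP h1
  rw [le_div_iff₀ h3]
  nlinarith

end

end FC34
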