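import Pool.Agent.W_fc1c69_h34.LemmaP
import Pool.Agent.W_fc1c69_h34.Diff

/-! Lemma L (lower bound near the centre), normalised version. -/

namespace FC34

open Complex MeasureTheory Metric Set

/-- Lower bound in the situation (SS) with `q(0) = 1`.  Proof: `lemmaP` with small `δ` at `ζ` and `0`
(`ball 0 (R/8) ⊆ sq ζ (R/4)` for `|ζ| ≤ R/32`), `exists_diff_le` (`|b| ≤ Cb`),
`|b(0)| ≥ 1 - C/κ`: by `norm_bb_sub_le`-type estimate, precisely `|∇φ(0)| ≥ √(1-φ(0)²)`,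
`|φ(0)| = |f(0)| ≤ C_f/κ`, `|b(0)| ≥ |∇φ(0)| - (κ-P)|φ(0)| ≥ 1 - 2C_f/κ·(1+q₁)` or so;
so `|b(ζ)| ≥ 3/4 - ...`, and `e^{-P x} √q(ζ) ≥ |b(ζ)| - (κ-P)|f(ζ)| ≥ 1/2`. -/
theorem lowerSS (q₁ C₇ c₁ : ℝ) (hq : 0 ≤ q₁) (hc : 0 < c₁) :
    ∃ ε₁ : ℝ, 0 < ε₁ ∧ ε₁ ≤ 1 / 32 ∧ ∃ P₀ : ℝ, 1 ≤ P₀ ∧ ∃ η₀ : ℝ, 0 < η₀ ∧
      ∀ (P R : ℝ) (φ Q : ℂ → ℝ), P₀ ≤ P → c₁ ≤ R → SS q₁ C₇ η₀ P R φ Q → qf φ 0 = 1 →
        ∀ z : ℂ, ‖z‖ ≤ ε₁ * R → Real.exp (2 * P * z.re) / 4 ≤ qf φ z := by
  obtain ⟨C, hC0, hC⟩ := exists_diff_le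
  obtain ⟨P₁, hP₁, η₀, hη₀, hP⟩ := lemmaP q₁ C₇ c₁ (1 / 32) hq hc (by norm_num)
  have hCb : 0 ≤ Cb q₁ C₇ := by unfold Cb; positivity
  have hCf : 0 ≤ Cf q₁ C₇ c₁ := by unfold Cf; positivity
  set M : ℝ := C * Cb q₁ C₇ with hM
  have hM0 : 0 ≤ M := by positivity
  have hM1 : 0 < 16 * (M + 1) := by positivity
  refine ⟨min (1 / 32) (1 / (16 * (M + 1))), lt_min (by norm_num) (by positivity),
    min_le_left _ _, max P₁ (8 * (1 + q₁) * Cf q₁ C₇ c₁), le_max_of_le_left hP₁, η₀, hη₀, ?_⟩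
  intro P R φ Q hPP hR h h1 z hz
  have hP1 : P₁ ≤ P := le_trans (le_max_left _ _) hPP
  have hP2 : 8 * (1 + q₁) * Cf q₁ C₇ c₁ ≤ P := le_trans (le_max_right _ _) hPP
  have hRpos := h.hR
  have h0 : (0 : ℂ) ∈ ball (0 : ℂ) R := mem_ball_self hRpos
  have hQ0 := (h.hQ 0 h0).1
  have hQ1 := (h.hQ 0 h0).2
  set κ := kap P (Q 0) with hκ
  have hPpos : 0 < P := by linarith [h.hP]
  have hκP : P ≤ κ := le_kap hPpos.le hQ0
  have hκpos : 0 < κ := by linarith
  have hκ1 : 1 ≤ κ := by linarith [h.hP]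
  have hsub : κ - P ≤ q₁ :=
    (kap_sub_le hPpos hQ0).trans (by rw [div_le_iff₀ hκpos]; nlinarith)
  have hsub0 : 0 ≤ κ - P := by linarith
  have hfrac : (1 + q₁) * (Cf q₁ C₇ c₁ / κ) ≤ 1 / 8 := by
    rw [← mul_div_assoc, div_le_iff₀ hκpos]; linarith
  have hfrac0 : 0 ≤ Cf q₁ C₇ c₁ / κ := by positivity
  -- size of `z`
  have hz1 : ‖z‖ ≤ R / 32 := by
    have := mul_le_mul_of_nonneg_right (min_le_left (1 / 32 : ℝ) (1 / (16 * (M + 1)))) hRpos.le
    linarith
  have hz2 : M * ‖z‖ / R ≤ 1 / 16 := by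
    have h2 := mul_le_mul_of_nonneg_right (min_le_right (1 / 32 : ℝ) (1 / (16 * (M + 1)))) hRpos.le
    have h3 : ‖z‖ ≤ 1 / (16 * (M + 1)) * R := hz.trans h2
    rw [div_le_iff₀ hRpos]
    have h4 : M * ‖z‖ ≤ M * (1 / (16 * (M + 1)) * R) := mul_le_mul_of_nonneg_left h3 hM0
    have h5 : M * (1 / (16 * (M + 1)) * R) ≤ 1 / 16 * R := by
      have : M * (1 / (16 * (M + 1)) * R) = (M / (M + 1)) * (1 / 16 * R) := by
        field_simp
      rw [this]
      have h6 : M / (M + 1) ≤ 1 := by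
        rw [div_le_one (by positivity)]; linarith
      have h7 : 0 ≤ 1 / 16 * R := by positivity
      nlinarith
    linarith
  have hzB : z ∈ ball (0 : ℂ) (7 / 8 * R) := by
    rw [mem_ball_zero_iff]; linarith
  -- smoothness
  have hb2 : ContDiff ℝ 2 (bb P κ φ) := contDiff_bb h.smooth
  have hb1 : ContDiff ℝ 1 (bb P κ φ) := hb2.of_le (by norm_num)
  have hdc : Continuous (dbar (bb P κ φ)) := by
    have hf : Continuous (fun w => fderiv ℝ (bb P κ φ) w) := hb1.continuous_fderiv (by norm_num)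
    have hpx : Continuous (px (bb P κ φ)) := by
      unfold px; exact hf.clm_apply continuous_const
    have hpy : Continuous (py (bb P κ φ)) := by
      unfold py; exact hf.clm_apply continuous_const
    unfold dbar
    exact (hpx.add (continuous_const.mul hpy)).div_const _
  -- integrals over the ball
  have key : ∀ ζ : ℂ, ‖ζ‖ ≤ R / 32 →
      ∫ w in ball (0 : ℂ) (R / 8), ‖dbar (bb P κ φ) w‖ / ‖w - ζ‖ ≤ 1 / 32 := by
    intro ζ hζ
    have hζB : ζ ∈ ball (0 : ℂ) (R / 2) := by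
      rw [mem_ball_zero_iff]; linarith
    refine le_trans ?_ (hP P R φ Q hP1 hR h ζ hζB)
    have hsub : ball (0 : ℂ) (R / 8) ⊆ sq ζ (R / 4) := by
      intro w hw
      rw [mem_ball_zero_iff] at hw
      have hn : ‖w - ζ‖ < R / 4 := by
        have := norm_sub_le w ζ
        linarith
      have h1 := Complex.abs_re_le_norm (w - ζ)
      have h2 := Complex.abs_im_le_norm (w - ζ)
      simp only [Complex.sub_re, Complex.sub_im] at h1 h2
      exact ⟨by linarith, by linarith⟩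
    have hsqB : sq ζ (R / 4) ⊆ closedBall (0 : ℂ) R := by
      intro w hw
      obtain ⟨h1, h2⟩ := hw
      rw [mem_closedBall_zero_iff]
      have h3 : ‖w - ζ‖ ≤ |(w - ζ).re| + |(w - ζ).im| := Complex.norm_le_abs_re_add_abs_im _
      simp only [Complex.sub_re, Complex.sub_im] at h3
      have h4 : ‖w‖ ≤ ‖w - ζ‖ + ‖ζ‖ := by
        have := norm_add_le (w - ζ) ζ
        simpa using this
      linarith
    obtain ⟨B, hB⟩ := (isCompact_closedBall (0 : ℂ) R).exists_bound_of_continuousOn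
      hdc.continuousOn
    have hmeas : MeasurableSet (sq ζ (R / 4)) := by
      have : IsOpen (sq ζ (R / 4)) := by
        apply IsOpen.inter
        · exact isOpen_lt ((Complex.continuous_re.sub continuous_const).abs) continuous_const
        · exact isOpen_lt ((Complex.continuous_im.sub continuous_const).abs) continuous_const
      exact this.measurableSet
    have hint : IntegrableOn (fun w => ‖dbar (bb P κ φ) w‖ / ‖w - ζ‖) (sq ζ (R / 4)) := by
      have h1 := (integrableOn_inv_sq ζ (R / 4)).const_mul B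
      refine Integrable.mono' h1 ?_ ?_
      · apply Measurable.aestronglyMeasurable
        exact hdc.norm.measurable.div (measurable_id.sub_const ζ).norm
      · rw [ae_restrict_iff' hmeas]
        refine Filter.Eventually.of_forall ?_
        intro w hw
        have hBw := hB w (hsqB hw)
        rw [Real.norm_of_nonneg (by positivity)]
        have : B * (1 / ‖w - ζ‖) = B / ‖w - ζ‖ := by ring
        rw [this]
        gcongr
    exact setIntegral_mono_set hint (Filter.Eventually.of_forall (fun w => by positivity))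
      (Filter.Eventually.of_forall hsub)
  have k1 := key z hz1
  have k0 := key 0 (by rw [norm_zero]; positivity)
  simp only [sub_zero] at k0
  have hbM : ∀ w ∈ ball (0 : ℂ) (R / 8), ‖bb P κ φ w‖ ≤ Cb q₁ C₇ := by
    intro w hw
    exact h.norm_bb_le (ball_subset_ball (by linarith) hw)
  have hdiff := hC (bb P κ φ) R (Cb q₁ C₇) (1 / 32) z hb1 hRpos hbM hz1 k1 k0
  have hb0 := h.norm_bb_zero_ge hc hR h1
  rw [← hκ] at hb0
  have hf := h.abs_ff_le hc hR hzB
  rw [← hκ] at hf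
  have hbz : 3 / 4 ≤ ‖bb P κ φ z‖ := by
    have h2 : ‖bb P κ φ 0‖ ≤ ‖bb P κ φ z‖ + ‖bb P κ φ z - bb P κ φ 0‖ := by
      have := norm_sub_le (bb P κ φ z) (bb P κ φ z - bb P κ φ 0)
      simpa using this
    have h3 : C * Cb q₁ C₇ * ‖z‖ / R ≤ 1 / 16 := hz2
    linarith
  have hlow := norm_bb_sub_le (P := P) (κ := κ) (φ := φ) z
  have hcor : |κ - P| * |ff P φ z| ≤ 1 / 8 := by
    rw [abs_of_nonneg hsub0]
    calc (κ - P) * |ff P φ z| ≤ (1 + q₁) * (Cf q₁ C₇ c₁ / κ) := by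
          apply mul_le_mul (by linarith) hf (abs_nonneg _) (by linarith)
      _ ≤ 1 / 8 := hfrac
  have hfin : 1 / 2 ≤ Real.exp (-(P * z.re)) * Real.sqrt (qf φ z) := by linarith
  have hexp : Real.exp (P * z.re) / 2 ≤ Real.sqrt (qf φ z) := by
    have h2 := mul_le_mul_of_nonneg_left hfin (Real.exp_pos (P * z.re)).le
    rw [← mul_assoc, ← Real.exp_add] at h2
    simp only [add_neg_cancel, Real.exp_zero, one_mul] at h2
    linarith
  have hqz : 0 ≤ qf φ z := by unfold qf; positivity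
  have h3 := pow_le_pow_left₀ (by positivity) hexp 2
  rw [Real.sq_sqrt hqz, div_pow, ← Real.exp_nat_mul] at h3
  have h4 : ((2 : ℕ) : ℝ) * (P * z.re) = 2 * P * z.re := by push_cast; ring
  rw [h4] at h3
  norm_num at h3 ⊢
  exact h3

end FC34
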