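import Pool.Agent.W_fc1c69_h34.Rep

/-! Dyadic rings and the near part. -/

namespace FC34

open Complex MeasureTheory Metric Set

theorem Rings_sq_eq (ζ : ℂ) (r : ℝ) : sq ζ r = Complex.measurableEquivRealProd ⁻¹'
    (Ioo (ζ.re - r) (ζ.re + r) ×ˢ Ioo (ζ.im - r) (ζ.im + r)) := by
  ext z
  simp only [sq, mem_setOf_eq, mem_preimage, Complex.measurableEquivRealProd_apply, mem_prod,
    mem_Ioo, abs_lt]
  constructor
  · rintro ⟨⟨h1, h2⟩, h3, h4⟩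
    exact ⟨⟨by linarith, by linarith⟩, by linarith, by linarith⟩
  · rintro ⟨⟨h1, h2⟩, h3, h4⟩
    exact ⟨⟨by linarith, by linarith⟩, by linarith, by linarith⟩

theorem Rings_meas (ζ : ℂ) (r : ℝ) : MeasurableSet (sq ζ r) := by
  rw [Rings_sq_eq]
  exact (measurableSet_Ioo.prod measurableSet_Ioo).preimage
    Complex.measurableEquivRealProd.measurable

theorem Rings_vol (ζ : ℂ) {r : ℝ} (hr : 0 ≤ r) :
    (volume.restrict (sq ζ r)).real univ = 4 * r ^ 2 := by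
  rw [measureReal_restrict_apply MeasurableSet.univ, univ_inter, Rings_sq_eq, measureReal_def,
    Complex.volume_preserving_equiv_real_prod.measure_preimage
      (measurableSet_Ioo.prod measurableSet_Ioo).nullMeasurableSet, Measure.volume_eq_prod,
    Measure.prod_prod, Real.volume_Ioo, Real.volume_Ioo, ENNReal.toReal_mul,
    ENNReal.toReal_ofReal (by linarith), ENNReal.toReal_ofReal (by linarith)]
  ring

theorem Rings_fin (ζ : ℂ) (r : ℝ) : IsFiniteMeasure (volume.restrict (sq ζ r)) := by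
  refine ⟨?_⟩
  rw [Measure.restrict_apply MeasurableSet.univ, univ_inter, Rings_sq_eq,
    Complex.volume_preserving_equiv_real_prod.measure_preimage
      (measurableSet_Ioo.prod measurableSet_Ioo).nullMeasurableSet, Measure.volume_eq_prod,
    Measure.prod_prod, Real.volume_Ioo, Real.volume_Ioo]
  exact ENNReal.mul_lt_top ENNReal.ofReal_lt_top ENNReal.ofReal_lt_top

theorem Rings_sub_ball (ζ : ℂ) (r : ℝ) : sq ζ r ⊆ closedBall ζ (2 * r) := by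
  intro z hz
  rw [mem_closedBall, dist_eq_norm]
  have h1 := Complex.norm_le_abs_re_add_abs_im (z - ζ)
  rw [Complex.sub_re, Complex.sub_im] at h1
  have h2 := hz.1
  have h3 := hz.2
  linarith

theorem Rings_int {f : ℂ → ℝ} (hf : Continuous f) (ζ : ℂ) (r : ℝ) : IntegrableOn f (sq ζ r) :=
  (hf.continuousOn.integrableOn_compact (isCompact_closedBall ζ (2 * r))).mono_set
    (Rings_sub_ball ζ r)

/-- Cauchy-Schwarz on a square. -/
theorem Rings_cs {g : ℂ → ℂ} (hg : Continuous g) (ζ : ℂ) {r : ℝ} (hr : 0 < r) :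
    ∫ z in sq ζ r, ‖g z‖ ≤ 2 * r * Real.sqrt (∫ z in sq ζ r, ‖g z‖ ^ 2) := by
  haveI := Rings_fin ζ r
  have hA : 0 < 4 * r ^ 2 := by positivity
  obtain ⟨t, ht⟩ : ∃ t, t = (∫ z in sq ζ r, ‖g z‖) / (4 * r ^ 2) := ⟨_, rfl⟩
  have i1 : IntegrableOn (fun z => ‖g z‖) (sq ζ r) := Rings_int hg.norm ζ r
  have i2 : IntegrableOn (fun z => ‖g z‖ ^ 2) (sq ζ r) := Rings_int (hg.norm.pow 2) ζ r
  have h1 : 0 ≤ ∫ z in sq ζ r, (‖g z‖ - t) ^ 2 := integral_nonneg fun z => sq_nonneg _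
  have h2 : ∫ z in sq ζ r, (‖g z‖ - t) ^ 2 =
      (∫ z in sq ζ r, ‖g z‖ ^ 2) - 2 * t * (∫ z in sq ζ r, ‖g z‖) + t ^ 2 * (4 * r ^ 2) := by
    have h3 : ∀ z, (‖g z‖ - t) ^ 2 = (‖g z‖ ^ 2 - 2 * t * ‖g z‖) + t ^ 2 := fun z => by ring
    simp only [h3]
    have i3 : IntegrableOn (fun z => ‖g z‖ ^ 2 - 2 * t * ‖g z‖) (sq ζ r) :=
      i2.sub (i1.const_mul (2 * t))
    have h7 : ∫ z in sq ζ r, (‖g z‖ ^ 2 - 2 * t * ‖g z‖ + t ^ 2) =
        (∫ z in sq ζ r, (‖g z‖ ^ 2 - 2 * t * ‖g z‖)) + ∫ _z in sq ζ r, t ^ 2 :=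
      integral_add i3 (integrable_const _)
    have h8 : ∫ z in sq ζ r, (‖g z‖ ^ 2 - 2 * t * ‖g z‖) =
        (∫ z in sq ζ r, ‖g z‖ ^ 2) - ∫ z in sq ζ r, 2 * t * ‖g z‖ :=
      integral_sub i2 (i1.const_mul (2 * t))
    rw [h7, h8, integral_const_mul, integral_const, Rings_vol ζ hr.le, smul_eq_mul]
    ring
  have h3 : (∫ z in sq ζ r, ‖g z‖) = t * (4 * r ^ 2) := by
    rw [ht, div_mul_cancel₀ _ hA.ne']
  have h4 : 0 ≤ ∫ z in sq ζ r, ‖g z‖ := integral_nonneg fun z => norm_nonneg _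
  have h5 : (∫ z in sq ζ r, ‖g z‖) ^ 2 ≤ (2 * r) ^ 2 * ∫ z in sq ζ r, ‖g z‖ ^ 2 := by
    rw [h2, h3] at h1
    have h6 : t ^ 2 * (4 * r ^ 2) ≤ ∫ z in sq ζ r, ‖g z‖ ^ 2 := by nlinarith
    rw [h3]
    have h7 := mul_le_mul_of_nonneg_left h6 hA.le
    nlinarith
  have h6 := Real.sqrt_le_sqrt h5
  rw [Real.sqrt_sq h4, Real.sqrt_mul (by positivity), Real.sqrt_sq (by linarith)] at h6
  exact h6

/-- Far part on one dyadic ring: `∫_{sq r \ sq (r/2)} |g|/|z-ζ| ≤ 4 (∫_{sq r} |g|²)^{1/2}`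
(`1/|z-ζ| ≤ 2/r` off `sq (r/2)`, Cauchy-Schwarz, area `4r²`). -/
theorem ring_le {g : ℂ → ℂ} (hg : Continuous g) (ζ : ℂ) {r : ℝ} (hr : 0 < r) :
    ∫ z in sq ζ r \ sq ζ (r / 2), ‖g z‖ / ‖z - ζ‖ ≤ 4 * Real.sqrt (∫ z in sq ζ r, ‖g z‖ ^ 2) := by
  have i1 : IntegrableOn (fun z => 2 / r * ‖g z‖) (sq ζ r) :=
    Rings_int (continuous_const.mul hg.norm) ζ r
  have hmeas : MeasurableSet (sq ζ r \ sq ζ (r / 2)) := (Rings_meas ζ r).diff (Rings_meas ζ _)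
  have h1 : ∫ z in sq ζ r \ sq ζ (r / 2), ‖g z‖ / ‖z - ζ‖ ≤
      ∫ z in sq ζ r \ sq ζ (r / 2), 2 / r * ‖g z‖ := by
    refine integral_mono_of_nonneg (ae_of_all _ fun z => by positivity)
      (i1.mono_set sdiff_subset) ?_
    refine (ae_restrict_iff' hmeas).2 (ae_of_all _ fun z hz => ?_)
    have h2 : r / 2 ≤ ‖z - ζ‖ := by
      have h3 := hz.2
      by_contra h4
      push Not at h4
      refine h3 ⟨?_, ?_⟩
      · have h5 := Complex.abs_re_le_norm (z - ζ)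
        rw [Complex.sub_re] at h5
        linarith
      · have h5 := Complex.abs_im_le_norm (z - ζ)
        rw [Complex.sub_im] at h5
        linarith
    show ‖g z‖ / ‖z - ζ‖ ≤ 2 / r * ‖g z‖
    rw [div_mul_eq_mul_div, div_le_div_iff₀ (by linarith) hr]
    have h3 := norm_nonneg (g z)
    nlinarith
  have h2 : ∫ z in sq ζ r \ sq ζ (r / 2), 2 / r * ‖g z‖ ≤ ∫ z in sq ζ r, 2 / r * ‖g z‖ :=
    setIntegral_mono_set i1 (ae_of_all _ fun z => by positivity) (ae_of_all _ fun z hz => hz.1)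
  rw [integral_const_mul (μ := volume.restrict (sq ζ r))] at h2
  have h3 := mul_le_mul_of_nonneg_left (Rings_cs hg ζ hr) (show 0 ≤ 2 / r by positivity)
  have h4 : 2 / r * (2 * r * Real.sqrt (∫ z in sq ζ r, ‖g z‖ ^ 2)) =
      4 * Real.sqrt (∫ z in sq ζ r, ‖g z‖ ^ 2) := by
    field_simp
    ring
  linarith

/-- Splitting the integral of a nonnegative function (integrable or not). -/
theorem Rings_split {h : ℂ → ℝ} (h0 : ∀ z, 0 ≤ h z) {S T : Set ℂ} (hT : MeasurableSet T)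
    (hTS : T ⊆ S) : ∫ z in S, h z ≤ (∫ z in S \ T, h z) + ∫ z in T, h z := by
  by_cases hi : IntegrableOn h S
  · have h1 := setIntegral_union (disjoint_sdiff_left (s := T) (t := S)) hT
      (hi.mono_set sdiff_subset) (hi.mono_set hTS)
    rw [diff_union_of_subset hTS] at h1
    exact h1.le
  · rw [integral_undef hi]
    exact add_nonneg (integral_nonneg h0) (integral_nonneg h0)

/-- Sum over dyadic rings: with `r k = ρ / 2^k`,
`∫_{sq ρ} |g|/|z-ζ| ≤ ∑_{k ≤ n} 4 (∫_{sq (ρ/2^k)} |g|²)^{1/2} + ∫_{sq (ρ/2^(n+1))} |g|/|z-ζ|`. -/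
theorem rings_le {g : ℂ → ℂ} (hg : Continuous g) (ζ : ℂ) {ρ : ℝ} (hρ : 0 < ρ) (n : ℕ) :
    ∫ z in sq ζ ρ, ‖g z‖ / ‖z - ζ‖ ≤
      (∑ k ∈ Finset.range (n + 1), 4 * Real.sqrt (∫ z in sq ζ (ρ / 2 ^ k), ‖g z‖ ^ 2)) +
        ∫ z in sq ζ (ρ / 2 ^ (n + 1)), ‖g z‖ / ‖z - ζ‖ := by
  have hsub : ∀ r : ℝ, 0 < r → sq ζ (r / 2) ⊆ sq ζ r := fun r hr z hz =>
    ⟨hz.1.trans (by linarith), hz.2.trans (by linarith)⟩
  have key : ∀ r : ℝ, 0 < r → ∫ z in sq ζ r, ‖g z‖ / ‖z - ζ‖ ≤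
      4 * Real.sqrt (∫ z in sq ζ r, ‖g z‖ ^ 2) + ∫ z in sq ζ (r / 2), ‖g z‖ / ‖z - ζ‖ := by
    intro r hr
    refine (Rings_split (h := fun z => ‖g z‖ / ‖z - ζ‖) (fun z => by positivity)
      (Rings_meas ζ (r / 2)) (hsub r hr)).trans ?_
    have := ring_le hg ζ hr
    linarith
  induction n with
  | zero =>
    have h1 := key ρ hρ
    simpa using h1
  | succ n ih =>
    have h1 := key (ρ / 2 ^ (n + 1)) (by positivity)
    have h2 : ρ / 2 ^ (n + 1) / 2 = ρ / 2 ^ (n + 1 + 1) := by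
      rw [pow_succ 2 (n + 1), div_div]
    rw [h2] at h1
    rw [Finset.sum_range_succ]
    linarith

/-- Near part: if `|g| ≤ M` on `sq ζ r` then `∫_{sq r} |g|/|z-ζ| ≤ 9 r M`. -/
theorem near_le {g : ℂ → ℂ} (hg : Continuous g) (ζ : ℂ) {r M : ℝ} (hr : 0 < r)
    (hM : ∀ z ∈ sq ζ r, ‖g z‖ ≤ M) :
    ∫ z in sq ζ r, ‖g z‖ / ‖z - ζ‖ ≤ 9 * r * M := by
  have hM0 : 0 ≤ M := by
    refine (norm_nonneg _).trans (hM ζ ⟨?_, ?_⟩)
    · simpa using hr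
    · simpa using hr
  have h1 : ∫ z in sq ζ r, ‖g z‖ / ‖z - ζ‖ ≤ ∫ z in sq ζ r, M * (1 / ‖z - ζ‖) := by
    refine integral_mono_of_nonneg (ae_of_all _ fun z => by positivity)
      ((integrableOn_inv_sq ζ r).const_mul M) ?_
    refine (ae_restrict_iff' (Rings_meas ζ r)).2 (ae_of_all _ fun z hz => ?_)
    show ‖g z‖ / ‖z - ζ‖ ≤ M * (1 / ‖z - ζ‖)
    rw [mul_one_div]
    exact div_le_div_of_nonneg_right (hM z hz) (norm_nonneg _)
  rw [integral_const_mul] at h1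
  have h2 := mul_le_mul_of_nonneg_left (setIntegral_inv_sq_le ζ hr.le) hM0
  linarith

end FC34
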