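import Mathlib

/-! The decay of the energies along dyadic scales (pure algebra). -/

namespace FC34

/-- Proof: `W k = D k + F k / 520`, `σ = 257/260`. Then `W (k+1) ≤ σ W k + 1.01 c (1/4)^k` because
`B k ≤ a F k + c (1/4)^k`, `64/65 + 2/520 = σ`, `(1+1/260) a + (1/520)/4 ≤ σ/520`. By induction
`W k ≤ (W 0 + 2c) σ^k - 2c (1/4)^k`; `W 0 ≤ 2 C3`; `B k ≤ 520 a W k + c σ^k`. -/
theorem seq_decay {D F B : ℕ → ℝ} {n : ℕ} {a c C3 : ℝ} (hD : ∀ k, 0 ≤ D k) (hF : ∀ k, 0 ≤ F k)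
    (hB : ∀ k, 0 ≤ B k) (ha : 0 ≤ a) (ha' : a ≤ 1 / 4160) (hc : 0 ≤ c)
    (h1 : ∀ k < n, D (k + 1) ≤ 64 / 65 * D k + B k)
    (h2 : ∀ k < n, F (k + 1) ≤ 2 * (D k + B k) + 1 / 4 * F k)
    (h3 : ∀ k ≤ n, B k ≤ a * F k + c * (1 / 4) ^ k)
    (hD0 : D 0 ≤ C3) (hF0 : F 0 ≤ C3) :
    ∀ k ≤ n, B k ≤ (1040 * a * (C3 + c) + c) * (257 / 260) ^ k := by
  have hW : ∀ k ≤ n, D k + F k / 520 ≤
      (D 0 + F 0 / 520 + 2 * c) * (257 / 260) ^ k - 2 * c * (1 / 4) ^ k := by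
    intro k
    induction k with
    | zero => intro _; simp
    | succ k ih =>
      intro hk
      have h4 := ih (by omega)
      have h5 := h1 k (by omega)
      have h6 := h2 k (by omega)
      have h7 := h3 k (by omega)
      have h8 : a * F k ≤ 1 / 4160 * F k := mul_le_mul_of_nonneg_right ha' (hF k)
      have h9 : (0 : ℝ) ≤ c * (1 / 4) ^ k := by positivity
      have h10 := hF k
      rw [pow_succ, pow_succ]
      nlinarith
  intro k hk
  have h4 := hW k hk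
  have h5 := h3 k hk
  have h6 : (1 / 4 : ℝ) ^ k ≤ (257 / 260) ^ k := pow_le_pow_left₀ (by norm_num) (by norm_num) k
  have h7 : (0 : ℝ) < (257 / 260) ^ k := by positivity
  have h8 : (0 : ℝ) < (1 / 4) ^ k := by positivity
  have h9 : D 0 + F 0 / 520 + 2 * c ≤ 2 * C3 + 2 * c := by
    have := hD 0
    have := hF 0
    linarith
  have h10 : F k ≤ 520 * ((2 * C3 + 2 * c) * (257 / 260) ^ k) := by
    have h11 : (D 0 + F 0 / 520 + 2 * c) * (257 / 260) ^ k ≤ (2 * C3 + 2 * c) * (257 / 260) ^ k :=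
      mul_le_mul_of_nonneg_right h9 h7.le
    have h12 : 0 ≤ 2 * c * (1 / 4) ^ k := by positivity
    have := hD k
    linarith
  have h11 : a * F k ≤ a * (520 * ((2 * C3 + 2 * c) * (257 / 260) ^ k)) :=
    mul_le_mul_of_nonneg_left h10 ha
  have h12 : c * (1 / 4) ^ k ≤ c * (257 / 260) ^ k := mul_le_mul_of_nonneg_left h6 hc
  calc B k ≤ a * (520 * ((2 * C3 + 2 * c) * (257 / 260) ^ k)) + c * (257 / 260) ^ k := by linarith
    _ = (1040 * a * (C3 + c) + c) * (257 / 260) ^ k := by ring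

/-- `√(257/260) ≤ 0.995`, and the geometric sum is at most `200`. -/
theorem sum_sqrt_le {B : ℕ → ℝ} {n : ℕ} {K : ℝ} (hK : 0 ≤ K) (hB : ∀ k, 0 ≤ B k)
    (h : ∀ k ≤ n, B k ≤ K * (257 / 260) ^ k) :
    ∑ k ∈ Finset.range (n + 1), Real.sqrt (B k) ≤ 200 * Real.sqrt K := by
  have h1 : ∀ k ∈ Finset.range (n + 1), Real.sqrt (B k) ≤ Real.sqrt K * (199 / 200) ^ k := by
    intro k hk
    rw [Finset.mem_range] at hk
    rw [Real.sqrt_le_left (by positivity), mul_pow, Real.sq_sqrt hK, ← pow_mul, mul_comm k 2,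
      pow_mul]
    refine (h k (by omega)).trans (mul_le_mul_of_nonneg_left ?_ hK)
    exact pow_le_pow_left₀ (by norm_num) (by norm_num) k
  refine (Finset.sum_le_sum h1).trans ?_
  rw [← Finset.mul_sum]
  have h2 := mul_neg_geom_sum (199 / 200 : ℝ) (n + 1)
  have h3 : (0 : ℝ) < (199 / 200) ^ (n + 1) := by positivity
  have h4 : ∑ i ∈ Finset.range (n + 1), (199 / 200 : ℝ) ^ i ≤ 200 := by linarith
  calc Real.sqrt K * ∑ i ∈ Finset.range (n + 1), (199 / 200 : ℝ) ^ i ≤ Real.sqrt K * 200 :=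
        mul_le_mul_of_nonneg_left h4 (Real.sqrt_nonneg _)
    _ = 200 * Real.sqrt K := mul_comm _ _

end FC34
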