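import Pool.Agent.W_fc1c69_h34.SqInt

/-! Interior estimate for `f_x` on squares (one-dimensional in `x`). -/

namespace FC34

open Complex MeasureTheory Metric Set

/-- the pointwise step: `2 g (G - κ g) ≤ G² / κ - κ g²` -/
lemma slice_alg {κ : ℝ} (hκ : 0 < κ) (g G : ℝ) :
    2 * g * (G - κ * g) ≤ (1 / κ) * G ^ 2 - κ * g ^ 2 := by
  have h1 : 0 ≤ (1 / κ) * (G - κ * g) ^ 2 := by positivity
  have h2 : (1 / κ) * (G - κ * g) ^ 2 = (1 / κ) * G ^ 2 - 2 * G * g + κ * g ^ 2 := by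
    field_simp
    ring
  nlinarith

/-- integrating from `s` to `b` -/
lemma slice_step {κ s b : ℝ} (hκ : 0 < κ) (hsb : s ≤ b) {g G : ℝ → ℝ} (hG : Continuous G)
    (hgc : Continuous g) (hg : ∀ x, HasDerivAt g (G x - κ * g x) x) :
    κ * ∫ x in s..b, (g x) ^ 2 ≤ (1 / κ) * (∫ x in s..b, (G x) ^ 2) + (g s) ^ 2 := by
  have hd : ∀ x ∈ uIcc s b, HasDerivAt (fun x => (g x) ^ 2) (2 * g x * (G x - κ * g x)) x := by
    intro x _
    have := (hg x).fun_pow 2
    simpa using this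
  have hint : IntervalIntegrable (fun x => 2 * g x * (G x - κ * g x)) volume s b :=
    Continuous.intervalIntegrable (by fun_prop) _ _
  have h1 := intervalIntegral.integral_eq_sub_of_hasDerivAt hd hint
  have h2 : ∫ x in s..b, 2 * g x * (G x - κ * g x) ≤
      ∫ x in s..b, ((1 / κ) * (G x) ^ 2 - κ * (g x) ^ 2) := by
    apply intervalIntegral.integral_mono_on hsb hint
      (Continuous.intervalIntegrable (by fun_prop) _ _)
    intro x _
    exact slice_alg hκ _ _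
  have h3 : ∫ x in s..b, ((1 / κ) * (G x) ^ 2 - κ * (g x) ^ 2) =
      (1 / κ) * (∫ x in s..b, (G x) ^ 2) - κ * ∫ x in s..b, (g x) ^ 2 := by
    rw [intervalIntegral.integral_sub (Continuous.intervalIntegrable (by fun_prop) _ _)
      (Continuous.intervalIntegrable (by fun_prop) _ _), intervalIntegral.integral_const_mul,
      intervalIntegral.integral_const_mul]
  have h4 : 0 ≤ (g b) ^ 2 := sq_nonneg _
  rw [h1, h3] at h2
  linarith

/-- enlarging the interval of integration of a square -/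
lemma slice_mono {a b a' b' : ℝ} (h1 : a' ≤ a) (h2 : a ≤ b) (h3 : b ≤ b') {u : ℝ → ℝ}
    (hu : Continuous u) (h0 : ∀ x, 0 ≤ u x) :
    ∫ x in a..b, u x ≤ ∫ x in a'..b', u x := by
  apply intervalIntegral.integral_mono_interval h1 h2 h3
  · exact Filter.Eventually.of_forall h0
  · exact hu.intervalIntegrable _ _

/-- One variable: `g' + κ g = G` on `[c - r, c + r]` implies
`∫_{c-r/2}^{c+r/2} g² ≤ (1/κ²) ∫_{c-r}^{c+r} G² + (2/(κ r)) ∫_{c-r}^{c+r} g²`.
Proof: `(g²)' = 2gG - 2κg² ≤ G²/κ - κ g²`. For `s ∈ [c-r, c-r/2]`, integrating from `s` to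
`c + r/2`: `κ ∫_{c-r/2}^{c+r/2} g² ≤ (1/κ) ∫ G² + g(s)²`; integrate over `s ∈ [c-r, c-r/2]` and
divide by `κ r/2`. -/
theorem slice_one {κ r c : ℝ} (hκ : 0 < κ) (hr : 0 < r) {g G : ℝ → ℝ} (hG : Continuous G)
    (hg : ∀ x, HasDerivAt g (G x - κ * g x) x) :
    ∫ x in (c - r / 2)..(c + r / 2), (g x) ^ 2 ≤
      (1 / κ ^ 2) * (∫ x in (c - r)..(c + r), (G x) ^ 2) +
        (2 / (κ * r)) * ∫ x in (c - r)..(c + r), (g x) ^ 2 := by
  have hgc : Continuous g := continuous_iff_continuousAt.mpr fun x => (hg x).continuousAt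
  set I := ∫ x in (c - r / 2)..(c + r / 2), (g x) ^ 2 with hI
  set A := ∫ x in (c - r)..(c + r), (G x) ^ 2 with hA
  set B := ∫ x in (c - r)..(c + r), (g x) ^ 2 with hB
  have key : ∀ s ∈ Icc (c - r) (c - r / 2), κ * I ≤ (1 / κ) * A + (g s) ^ 2 := by
    intro s hs
    have h1 := slice_step (s := s) (b := c + r / 2) hκ (by linarith [hs.2]) hG hgc hg
    have h2 : I ≤ ∫ x in s..(c + r / 2), (g x) ^ 2 :=
      slice_mono hs.2 (by linarith) le_rfl (by fun_prop) (fun x => sq_nonneg _)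
    have h3 : ∫ x in s..(c + r / 2), (G x) ^ 2 ≤ A :=
      slice_mono hs.1 (by linarith [hs.2]) (by linarith) (by fun_prop) (fun x => sq_nonneg _)
    have h4 : κ * I ≤ κ * ∫ x in s..(c + r / 2), (g x) ^ 2 := mul_le_mul_of_nonneg_left h2 hκ.le
    have h5 : (1 / κ) * (∫ x in s..(c + r / 2), (G x) ^ 2) ≤ (1 / κ) * A :=
      mul_le_mul_of_nonneg_left h3 (by positivity)
    linarith
  have h6 : ∫ _ in (c - r)..(c - r / 2), (κ * I - (1 / κ) * A) ≤
      ∫ s in (c - r)..(c - r / 2), (g s) ^ 2 := by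
    apply intervalIntegral.integral_mono_on (by linarith)
      (Continuous.intervalIntegrable (by fun_prop) _ _)
      (Continuous.intervalIntegrable (by fun_prop) _ _)
    intro s hs
    linarith [key s hs]
  rw [intervalIntegral.integral_const, smul_eq_mul] at h6
  have h7 : ∫ s in (c - r)..(c - r / 2), (g s) ^ 2 ≤ B :=
    slice_mono le_rfl (by linarith) (by linarith) (by fun_prop) (fun x => sq_nonneg _)
  have h8 : (c - r / 2 - (c - r)) * (κ * I - (1 / κ) * A) ≤ B := h6.trans h7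
  have h9 : c - r / 2 - (c - r) = r / 2 := by ring
  rw [h9] at h8
  have h10 : I - (1 / κ ^ 2) * A ≤ (2 / (κ * r)) * B := by
    have h11 : (2 / (κ * r)) * (r / 2 * (κ * I - (1 / κ) * A)) ≤ (2 / (κ * r)) * B :=
      mul_le_mul_of_nonneg_left h8 (by positivity)
    have h12 : (2 / (κ * r)) * (r / 2 * (κ * I - (1 / κ) * A)) = I - (1 / κ ^ 2) * A := by
      field_simp
    rwa [h12] at h11
  linarith

lemma slice_mk_cont : Continuous (fun p : ℝ × ℝ => (⟨p.2, p.1⟩ : ℂ)) := by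
  have h : (fun p : ℝ × ℝ => (⟨p.2, p.1⟩ : ℂ)) =
      fun p : ℝ × ℝ => ((p.2 : ℝ) : ℂ) + ((p.1 : ℝ) : ℂ) * Complex.I := by
    funext p
    apply Complex.ext <;> simp
  rw [h]
  fun_prop

lemma slice_row_cont {u : ℂ → ℝ} (hu : Continuous u) (a b : ℝ) :
    Continuous fun y : ℝ => ∫ x in a..b, u ⟨x, y⟩ := by
  apply intervalIntegral.continuous_parametric_intervalIntegral_of_continuous'
    (f := fun (y : ℝ) (x : ℝ) => u ⟨x, y⟩)
  exact hu.comp slice_mk_cont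

lemma slice_hasDerivAt {u : ℂ → ℝ} (hu : Differentiable ℝ u) (x y : ℝ) :
    HasDerivAt (fun x : ℝ => u ⟨x, y⟩) (px u ⟨x, y⟩) x := by
  have h1 : HasFDerivAt u (fderiv ℝ u ⟨x, y⟩) ⟨x, y⟩ := (hu ⟨x, y⟩).hasFDerivAt
  have h2 : HasDerivAt (fun x : ℝ => (⟨x, y⟩ : ℂ)) 1 x := by
    have h3 : (fun x : ℝ => (⟨x, y⟩ : ℂ)) = fun x : ℝ => ((x : ℝ) : ℂ) + ((y : ℝ) : ℂ) * Complex.I := by
      funext x
      apply Complex.ext <;> simp
    rw [h3]
    have h4 := (Complex.ofRealCLM.hasDerivAt (x := x)).add_const (((y : ℝ) : ℂ) * Complex.I)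
    simpa using h4
  exact h1.comp_hasDerivAt x h2

/-- The interior estimate (4) at scale `r`: from `slice_one` for each `y`, integrated over
`|y - ζ.im| < r/2` (and enlarged to `< r` on the right). -/
theorem slice_sq {κ r : ℝ} (hκ : 0 < κ) (hr : 0 < r) {f G : ℂ → ℝ} (hf : ContDiff ℝ 2 f)
    (hG : Continuous G) (h : ∀ z, px (px f) z + κ * px f z = G z) (ζ : ℂ) :
    ∫ z in sq ζ (r / 2), (px f z) ^ 2 ≤
      (1 / κ ^ 2) * (∫ z in sq ζ r, (G z) ^ 2) +
        (2 / (κ * r)) * ∫ z in sq ζ r, (px f z) ^ 2 := by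
  have hpx : ContDiff ℝ 1 (px f) := by
    have h1 : ContDiff ℝ 1 (fderiv ℝ f) := hf.fderiv_right (by norm_num)
    exact h1.clm_apply contDiff_const
  have hpc : Continuous (px f) := hpx.continuous
  have hpd : Differentiable ℝ (px f) := hpx.differentiable (by norm_num)
  have c1 : Continuous fun z => (px f z) ^ 2 := hpc.pow 2
  have c2 : Continuous fun z => (G z) ^ 2 := hG.pow 2
  rw [setIntegral_sq_eq c1 ζ (by linarith : 0 ≤ r / 2), setIntegral_sq_eq c2 ζ hr.le,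
    setIntegral_sq_eq c1 ζ hr.le]
  have hmk : ∀ y : ℝ, Continuous fun x : ℝ => (⟨x, y⟩ : ℂ) := by
    intro y
    exact slice_mk_cont.comp (by fun_prop : Continuous fun x : ℝ => (y, x))
  -- the inner estimate
  have hin : ∀ y : ℝ, ∫ x in (ζ.re - r / 2)..(ζ.re + r / 2), (px f ⟨x, y⟩) ^ 2 ≤
      (1 / κ ^ 2) * (∫ x in (ζ.re - r)..(ζ.re + r), (G ⟨x, y⟩) ^ 2) +
        (2 / (κ * r)) * ∫ x in (ζ.re - r)..(ζ.re + r), (px f ⟨x, y⟩) ^ 2 := by
    intro y
    apply slice_one hκ hr (g := fun x => px f ⟨x, y⟩) (G := fun x => G ⟨x, y⟩)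
      (hG.comp (hmk y))
    intro x
    have h1 := slice_hasDerivAt hpd x y
    have h2 : px (px f) ⟨x, y⟩ = G ⟨x, y⟩ - κ * px f ⟨x, y⟩ := by
      have := h ⟨x, y⟩
      linarith
    rw [h2] at h1
    exact h1
  have r1 := slice_row_cont c1 (ζ.re - r / 2) (ζ.re + r / 2)
  have r2 := slice_row_cont c2 (ζ.re - r) (ζ.re + r)
  have r3 := slice_row_cont c1 (ζ.re - r) (ζ.re + r)
  have h1 : ∫ y in (ζ.im - r / 2)..(ζ.im + r / 2),
      ∫ x in (ζ.re - r / 2)..(ζ.re + r / 2), (px f ⟨x, y⟩) ^ 2 ≤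
      ∫ y in (ζ.im - r / 2)..(ζ.im + r / 2),
        ((1 / κ ^ 2) * (∫ x in (ζ.re - r)..(ζ.re + r), (G ⟨x, y⟩) ^ 2) +
        (2 / (κ * r)) * ∫ x in (ζ.re - r)..(ζ.re + r), (px f ⟨x, y⟩) ^ 2) := by
    apply intervalIntegral.integral_mono_on (by linarith) (r1.intervalIntegrable _ _)
      (Continuous.intervalIntegrable (by fun_prop) _ _)
    intro y _
    exact hin y
  refine h1.trans ?_
  rw [intervalIntegral.integral_add (Continuous.intervalIntegrable (by fun_prop) _ _)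
    (Continuous.intervalIntegrable (by fun_prop) _ _), intervalIntegral.integral_const_mul,
    intervalIntegral.integral_const_mul]
  have nn : ∀ (u : ℂ → ℝ), (∀ z, 0 ≤ u z) → ∀ y : ℝ,
      0 ≤ ∫ x in (ζ.re - r)..(ζ.re + r), u ⟨x, y⟩ := by
    intro u hu y
    exact intervalIntegral.integral_nonneg (by linarith) (fun x _ => hu _)
  have e2 : ∫ y in (ζ.im - r / 2)..(ζ.im + r / 2),
      ∫ x in (ζ.re - r)..(ζ.re + r), (G ⟨x, y⟩) ^ 2 ≤
      ∫ y in (ζ.im - r)..(ζ.im + r), ∫ x in (ζ.re - r)..(ζ.re + r), (G ⟨x, y⟩) ^ 2 :=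
    slice_mono (by linarith) (by linarith) (by linarith) r2
      (nn (fun z => (G z) ^ 2) (fun z => sq_nonneg _))
  have e3 : ∫ y in (ζ.im - r / 2)..(ζ.im + r / 2),
      ∫ x in (ζ.re - r)..(ζ.re + r), (px f ⟨x, y⟩) ^ 2 ≤
      ∫ y in (ζ.im - r)..(ζ.im + r), ∫ x in (ζ.re - r)..(ζ.re + r), (px f ⟨x, y⟩) ^ 2 :=
    slice_mono (by linarith) (by linarith) (by linarith) r3
      (nn (fun z => (px f z) ^ 2) (fun z => sq_nonneg _))
  have e2' := mul_le_mul_of_nonneg_left e2 (by positivity : (0 : ℝ) ≤ 1 / κ ^ 2)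
  have e3' := mul_le_mul_of_nonneg_left e3 (by positivity : (0 : ℝ) ≤ 2 / (κ * r))
  linarith

end FC34
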