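import Pool.Agent.W_fc1c69_h34.Base
import Pool.Agent.W_fc1c69_h34.Slice
import Pool.Agent.W_fc1c69_h34.Hole
import Pool.Agent.W_fc1c69_h34.Seq
import Pool.Agent.W_fc1c69_h34.Rings

/-! Lemma P (proofs row 213). -/

namespace FC34

open Complex MeasureTheory Metric Set

theorem LemmaP_open (ζ : ℂ) (r : ℝ) : IsOpen (sq ζ r) := by
  exact (isOpen_lt (Complex.continuous_re.sub continuous_const).abs continuous_const).inter
    (isOpen_lt (Complex.continuous_im.sub continuous_const).abs continuous_const)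

theorem LemmaP_subBall (ζ : ℂ) (r : ℝ) : sq ζ r ⊆ closedBall ζ (2 * r) := by
  rintro z ⟨h1, h2⟩
  rw [mem_closedBall, dist_eq_norm]
  refine (Complex.norm_le_abs_re_add_abs_im _).trans ?_
  rw [Complex.sub_re, Complex.sub_im]
  linarith

theorem LemmaP_int {E : Type*} [NormedAddCommGroup E] {g : ℂ → E} (hg : Continuous g) (ζ : ℂ)
    (r : ℝ) : IntegrableOn g (sq ζ r) :=
  (hg.continuousOn.integrableOn_compact (isCompact_closedBall ζ (2 * r))).mono_set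
    (LemmaP_subBall ζ r)

theorem LemmaP_area (ζ : ℂ) {r : ℝ} (hr : 0 ≤ r) (c : ℝ) :
    ∫ _z in sq ζ r, c = c * (4 * r ^ 2) := by
  have h := setIntegral_sq_eq (g := fun _ : ℂ => c) continuous_const ζ hr
  rw [h]
  simp only [intervalIntegral.integral_const, smul_eq_mul]
  ring

theorem LemmaP_sub {ζ : ℂ} {R r : ℝ} (hζ : ζ ∈ ball (0 : ℂ) (R / 2)) (hr : r ≤ R / 4) :
    sq ζ r ⊆ ball (0 : ℂ) (7 / 8 * R) := by
  rintro z ⟨h1, h2⟩
  rw [mem_ball_zero_iff] at hζ ⊢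
  have hR : 0 < R := by linarith [norm_nonneg ζ]
  have h3 : ‖z - ζ‖ ≤ 3 / 8 * R := by
    have h4 : ‖z - ζ‖ ^ 2 = (z.re - ζ.re) ^ 2 + (z.im - ζ.im) ^ 2 := by
      rw [Complex.sq_norm, Complex.normSq_apply, Complex.sub_re, Complex.sub_im]
      ring
    have h5 : (z.re - ζ.re) ^ 2 ≤ (R / 4) ^ 2 :=
      sq_le_sq' (by linarith [(abs_lt.1 h1).1]) (by linarith [(abs_lt.1 h1).2])
    have h6 : (z.im - ζ.im) ^ 2 ≤ (R / 4) ^ 2 :=
      sq_le_sq' (by linarith [(abs_lt.1 h2).1]) (by linarith [(abs_lt.1 h2).2])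
    refine abs_le_of_sq_le_sq' ?_ (by positivity) |>.2
    nlinarith
  have h7 : ‖z‖ ≤ ‖ζ‖ + ‖z - ζ‖ := by
    have := norm_add_le ζ (z - ζ)
    rwa [add_sub_cancel] at this
  linarith

theorem LemmaP_cpx {b : ℂ → ℂ} (hb : ContDiff ℝ 2 b) : Continuous (px b) :=
  (hb.continuous_fderiv (by norm_num)).clm_apply continuous_const

theorem LemmaP_cpy {b : ℂ → ℂ} (hb : ContDiff ℝ 2 b) : Continuous (py b) :=
  (hb.continuous_fderiv (by norm_num)).clm_apply continuous_const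

theorem LemmaP_cdz {b : ℂ → ℂ} (hb : ContDiff ℝ 2 b) : Continuous (dz b) :=
  ((LemmaP_cpx hb).sub (continuous_const.mul (LemmaP_cpy hb))).div_const 2

theorem LemmaP_cdbar {b : ℂ → ℂ} (hb : ContDiff ℝ 2 b) : Continuous (dbar b) :=
  ((LemmaP_cpx hb).add (continuous_const.mul (LemmaP_cpy hb))).div_const 2

/-- the constants fit -/
theorem LemmaP_const (q₁ δ C3 Cf0 : ℝ) (hq : 0 ≤ q₁) (hδ : 0 < δ) (hC3 : 0 ≤ C3) (hCf : 0 ≤ Cf0) :
    ∃ δ' η₀ K0 : ℝ, 0 < δ' ∧ 0 < η₀ ∧ η₀ ≤ 1 ∧ 1 ≤ K0 ∧ 9 * Cf0 * (2 * q₁ * δ' + η₀) ≤ δ / 2 ∧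
      ∀ κ : ℝ, K0 ≤ κ → 8 ≤ δ' * κ ^ 2 ∧ 2 * q₁ ^ 2 / κ ^ 4 ≤ 1 / 4160 ∧
        800 * Real.sqrt (1040 * (2 * q₁ ^ 2 / κ ^ 4) * (C3 + Cf0 ^ 2 * η₀ ^ 2 / 8) +
          Cf0 ^ 2 * η₀ ^ 2 / 8) ≤ δ / 2 := by
  set δ' : ℝ := δ / (72 * (Cf0 * q₁ + 1)) with hδ'
  have hp1 : 0 < Cf0 * q₁ + 1 := by positivity
  have hδ'0 : 0 < δ' := by positivity
  set η₀ : ℝ := min 1 (δ / (800 * (Cf0 + 1))) with hη
  have hη0 : 0 < η₀ := lt_min one_pos (by positivity)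
  have hη1 : η₀ ≤ 1 := min_le_left _ _
  have hη2 : Cf0 * η₀ ≤ δ / 800 := by
    have h1 : η₀ ≤ δ / (800 * (Cf0 + 1)) := min_le_right _ _
    have h2 : Cf0 * η₀ ≤ (Cf0 + 1) * (δ / (800 * (Cf0 + 1))) := by
      refine mul_le_mul (by linarith) h1 hη0.le (by linarith)
    have h3 : (Cf0 + 1) * (δ / (800 * (Cf0 + 1))) = δ / 800 := by
      field_simp
    linarith
  have hδ2 : Cf0 * q₁ * δ' ≤ δ / 72 := by
    have h3 : (Cf0 * q₁ + 1) * δ' = δ / 72 := by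
      rw [hδ']
      field_simp
    nlinarith
  set M : ℝ := 2 * q₁ ^ 2 * (4160 + 1040 * (C3 + Cf0 ^ 2 + 1) * (2 * 1600 ^ 2 / δ ^ 2)) with hM
  have hM0 : 0 ≤ M := by positivity
  refine ⟨δ', η₀, max 1 (max (8 / δ') M), hδ'0, hη0, hη1, le_max_left _ _, ?_, ?_⟩
  · nlinarith
  · intro κ hκ
    have hκ1 : 1 ≤ κ := (le_max_left _ _).trans hκ
    have hκ2 : 8 / δ' ≤ κ := ((le_max_left _ _).trans (le_max_right _ _)).trans hκ
    have hκ3 : M ≤ κ := ((le_max_right _ _).trans (le_max_right _ _)).trans hκ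
    have hκ0 : 0 < κ := by linarith
    have hκ4 : κ ≤ κ ^ 4 := by
      have := pow_le_pow_right₀ hκ1 (show 1 ≤ 4 by norm_num)
      rwa [pow_one] at this
    have hκ5 : κ ≤ κ ^ 2 := by
      have := pow_le_pow_right₀ hκ1 (show 1 ≤ 2 by norm_num)
      rwa [pow_one] at this
    set S : ℝ := 4160 + 1040 * (C3 + Cf0 ^ 2 + 1) * (2 * 1600 ^ 2 / δ ^ 2) with hS
    have hS0 : 0 < S := by positivity
    have ha : 2 * q₁ ^ 2 / κ ^ 4 ≤ 1 / S := by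
      rw [div_le_div_iff₀ (by positivity) hS0]
      have : 2 * q₁ ^ 2 * S ≤ κ ^ 4 := by
        have h0 : M = 2 * q₁ ^ 2 * S := rfl
        linarith
      linarith
    have ha0 : 0 ≤ 2 * q₁ ^ 2 / κ ^ 4 := by positivity
    refine ⟨?_, ?_, ?_⟩
    · have h1 : 8 ≤ δ' * κ := by
        rw [div_le_iff₀ hδ'0] at hκ2
        linarith
      have h2 : δ' * κ ≤ δ' * κ ^ 2 := mul_le_mul_of_nonneg_left hκ5 hδ'0.le
      linarith
    · refine ha.trans ?_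
      rw [div_le_div_iff₀ hS0 (by norm_num)]
      have : 0 ≤ 1040 * (C3 + Cf0 ^ 2 + 1) * (2 * 1600 ^ 2 / δ ^ 2) := by positivity
      linarith
    · have hc2 : Cf0 ^ 2 * η₀ ^ 2 / 8 ≤ (δ / 1600) ^ 2 / 2 := by
        have h1 : (Cf0 * η₀) ^ 2 ≤ (δ / 800) ^ 2 :=
          pow_le_pow_left₀ (by positivity) hη2 2
        have h2 : Cf0 ^ 2 * η₀ ^ 2 = (Cf0 * η₀) ^ 2 := by ring
        rw [h2]
        have h3 : (δ / 800) ^ 2 / 8 = (δ / 1600) ^ 2 / 2 := by ring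
        linarith
      have hc3 : C3 + Cf0 ^ 2 * η₀ ^ 2 / 8 ≤ C3 + Cf0 ^ 2 + 1 := by
        have h1 : η₀ ^ 2 ≤ 1 := pow_le_one₀ hη0.le hη1
        have h2 : Cf0 ^ 2 * η₀ ^ 2 ≤ Cf0 ^ 2 * 1 := mul_le_mul_of_nonneg_left h1 (by positivity)
        have h3 : 0 ≤ Cf0 ^ 2 := by positivity
        linarith
      have h4 : 1040 * (2 * q₁ ^ 2 / κ ^ 4) * (C3 + Cf0 ^ 2 * η₀ ^ 2 / 8) ≤ (δ / 1600) ^ 2 / 2 := by
        have h5 : 1040 * (2 * q₁ ^ 2 / κ ^ 4) * (C3 + Cf0 ^ 2 * η₀ ^ 2 / 8) ≤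
            1040 * (1 / S) * (C3 + Cf0 ^ 2 + 1) := by
          refine mul_le_mul (mul_le_mul_of_nonneg_left ha (by norm_num)) hc3 (by positivity)
            (by positivity)
        refine h5.trans ?_
        have h6 : 1040 * (1 / S) * (C3 + Cf0 ^ 2 + 1) = 1040 * (C3 + Cf0 ^ 2 + 1) / S := by ring
        rw [h6, div_le_iff₀ hS0, hS]
        have h7 : (δ / 1600) ^ 2 / 2 * (4160 + 1040 * (C3 + Cf0 ^ 2 + 1) * (2 * 1600 ^ 2 / δ ^ 2)) =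
            (δ / 1600) ^ 2 / 2 * 4160 + 1040 * (C3 + Cf0 ^ 2 + 1) := by
          field_simp
        rw [h7]
        have : 0 ≤ (δ / 1600) ^ 2 / 2 * 4160 := by positivity
        linarith
      have h8 : Real.sqrt (1040 * (2 * q₁ ^ 2 / κ ^ 4) * (C3 + Cf0 ^ 2 * η₀ ^ 2 / 8) +
          Cf0 ^ 2 * η₀ ^ 2 / 8) ≤ δ / 1600 := by
        refine Real.sqrt_le_iff.2 ⟨by positivity, by linarith⟩
      linarith

/-- LEMMA P.  Proof (row 213): `κ = kap P (Q 0)`, `b = bb P κ φ`, `f = ff P φ`, `ζ ∈ ball 0 (R/2)`,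
`ρ = R/4`, `sq ζ ρ ⊆ ball 0 (7R/8)`.  `D k = ∫_{sq ζ (ρ/2^k)} |∂b|²`, `B k` the same with `∂̄b`,
`F k = κ² ∫_{sq ζ (ρ/2^k)} f_x²`.  `base_step`: `D 0, F 0 ≤ C3`.  `hole_filling`:
`D (k+1) ≤ 64/65 D k + B k`.  `slice_sq` (with `G = Re(e^{iκy} b_x)`, `G² ≤ 2(|∂b|²+|∂̄b|²)`):
`F (k+1) ≤ 2 (D k + B k) + 2/(κ ρ/2^k) F k`, and `2/(κ ρ/2^k) ≤ 1/4` as long as `κ ρ / 2^k ≥ 8`.
`SS.normSq_dbar_le`: `B k ≤ 2 q₁²/κ⁴ F k + 2 (C_f η₀/4)² (1/4)^k` (area of the square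
`4 ρ² 4^{-k}`, `ρ = R/4`).
Let `r₀ = δ' κ` (`δ' κ² ≥ 8`). If `ρ < r₀`: near part only. Otherwise let `n` be maximal with
`ρ/2^n ≥ r₀`; `seq_decay`, `sum_sqrt_le` bound the rings `k ≤ n` by
`800 √(1040 a (C3+c) + c)`, `a = 2q₁²/κ⁴`, `c = C_f²η₀²/8`; the rest is `sq ζ (ρ/2^(n+1))`, with
`ρ/2^(n+1) < r₀`: `near_le` with `M = C_f (2q₁/κ + η₀/R)` gives `≤ 9 C_f (2 q₁ δ' + η₀)`
(`r₀/κ = δ'`, and `ρ/2^(n+1) ≤ R`).  Choose `δ'`, then `η₀`, then `P₀`. -/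
theorem lemmaP (q₁ C₇ c₁ δ : ℝ) (hq : 0 ≤ q₁) (hc : 0 < c₁) (hδ : 0 < δ) :
    ∃ P₀ : ℝ, 1 ≤ P₀ ∧ ∃ η₀ : ℝ, 0 < η₀ ∧ ∀ (P R : ℝ) (φ Q : ℂ → ℝ), P₀ ≤ P → c₁ ≤ R →
      SS q₁ C₇ η₀ P R φ Q → ∀ ζ ∈ ball (0 : ℂ) (R / 2),
        ∫ z in sq ζ (R / 4), ‖dbar (bb P (kap P (Q 0)) φ) z‖ / ‖z - ζ‖ ≤ δ := by
  obtain ⟨C3, hC3, P₃, hP₃, hbase⟩ := base_step q₁ C₇ c₁ hq hc
  have hCb : 0 ≤ Cb q₁ C₇ := by
    unfold Cb
    positivity
  have hCf : 0 ≤ Cf q₁ C₇ c₁ := by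
    unfold Cf
    positivity
  obtain ⟨δ', η₀, K0, hδ', hη0, hη1, hK0, hnear, hfar⟩ :=
    LemmaP_const q₁ δ C3 (Cf q₁ C₇ c₁) hq hδ hC3 hCf
  refine ⟨max P₃ K0, hP₃.trans (le_max_left _ _), η₀, hη0, ?_⟩
  intro P R φ Q hP hR hSS ζ hζ
  have hP3 : P₃ ≤ P := (le_max_left _ _).trans hP
  have hPK : K0 ≤ P := (le_max_right _ _).trans hP
  have hR0 : 0 < R := hSS.hR
  have hP0 : 0 < P := by linarith [hSS.hP]
  have hQ0 : 0 ≤ Q 0 := (hSS.hQ 0 (mem_ball_self hR0)).1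
  set κ := kap P (Q 0) with hκdef
  have hPκ : P ≤ κ := le_kap hP0.le hQ0
  have hκ : 0 < κ := by linarith
  obtain ⟨k1, k2, k3⟩ := hfar κ (hPK.trans hPκ)
  set b := bb P κ φ with hb
  set f := ff P φ with hf
  have hbs : ContDiff ℝ 2 b := contDiff_bb hSS.smooth
  have hfs : ContDiff ℝ 3 f := contDiff_ff hSS.smooth
  have hcf : Continuous (px f) := (hfs.continuous_fderiv (by norm_num)).clm_apply continuous_const
  have hcd := LemmaP_cdz hbs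
  have hcb := LemmaP_cdbar hbs
  set ρ : ℝ := R / 4 with hρ
  have hρ0 : 0 < ρ := by positivity
  set a : ℝ := 2 * q₁ ^ 2 / κ ^ 4 with ha
  set c : ℝ := Cf q₁ C₇ c₁ ^ 2 * η₀ ^ 2 / 8 with hcc
  have ha0 : 0 ≤ a := by positivity
  have hc0 : 0 ≤ c := by positivity
  -- the near part at a scale below `δ' κ`
  have hN : ∀ r : ℝ, 0 < r → r ≤ ρ → r < δ' * κ →
      ∫ z in sq ζ r, ‖dbar b z‖ / ‖z - ζ‖ ≤ δ / 2 := by
    intro r hr hrρ hrκ
    have h1 := near_le hcb ζ hr (M := Cf q₁ C₇ c₁ * (2 * q₁ / κ + η₀ / R)) (fun z hz =>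
      hSS.norm_dbar_le hc hR (LemmaP_sub hζ hrρ hz))
    refine h1.trans (le_trans ?_ hnear)
    have h2 : 9 * r * (Cf q₁ C₇ c₁ * (2 * q₁ / κ + η₀ / R)) =
        9 * Cf q₁ C₇ c₁ * (2 * q₁ * (r / κ) + η₀ * (r / R)) := by ring
    rw [h2]
    have h3 : r / κ ≤ δ' := by
      rw [div_le_iff₀ hκ]
      exact hrκ.le
    have h4 : r / R ≤ 1 := by
      rw [div_le_one hR0]
      linarith
    have h5 : 2 * q₁ * (r / κ) ≤ 2 * q₁ * δ' := mul_le_mul_of_nonneg_left h3 (by positivity)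
    have h6 : η₀ * (r / R) ≤ η₀ * 1 := mul_le_mul_of_nonneg_left h4 hη0.le
    exact mul_le_mul_of_nonneg_left (by linarith) (by positivity)
  rcases lt_or_ge ρ (δ' * κ) with hcase | hcase
  · exact (hN ρ hρ0 le_rfl hcase).trans (by linarith)
  -- the far part
  have hr0 : 0 < δ' * κ := by positivity
  obtain ⟨n, hn1, hn2⟩ := exists_nat_pow_near (x := ρ / (δ' * κ)) (y := (2 : ℝ))
    ((one_le_div hr0).2 hcase) (by norm_num)
  have hn1' : δ' * κ ≤ ρ / 2 ^ n := by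
    rw [le_div_iff₀ hr0] at hn1
    rw [le_div_iff₀ (by positivity)]
    linarith
  have hn2' : ρ / 2 ^ (n + 1) < δ' * κ := by
    rw [div_lt_iff₀ hr0] at hn2
    rw [div_lt_iff₀ (by positivity)]
    linarith
  have hpow : ∀ k, 0 < ρ / 2 ^ k := fun k => by positivity
  have hle : ∀ k, ρ / 2 ^ k ≤ ρ := fun k => div_le_self hρ0.le (one_le_pow₀ (by norm_num))
  have hhalf : ∀ k : ℕ, ρ / 2 ^ (k + 1) = ρ / 2 ^ k / 2 := fun k => by
    rw [pow_succ, ← div_div]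
  let D : ℕ → ℝ := fun k => ∫ z in sq ζ (ρ / 2 ^ k), ‖dz b z‖ ^ 2
  let B : ℕ → ℝ := fun k => ∫ z in sq ζ (ρ / 2 ^ k), ‖dbar b z‖ ^ 2
  let F : ℕ → ℝ := fun k => κ ^ 2 * ∫ z in sq ζ (ρ / 2 ^ k), (px f z) ^ 2
  have hD0 : ∀ k, 0 ≤ D k := fun k => integral_nonneg (fun z => by positivity)
  have hB0 : ∀ k, 0 ≤ B k := fun k => integral_nonneg (fun z => by positivity)
  have hF0 : ∀ k, 0 ≤ F k := fun k => mul_nonneg (by positivity)
    (integral_nonneg (fun z => by positivity))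
  have h1 : ∀ k < n, D (k + 1) ≤ 64 / 65 * D k + B k := by
    intro k _
    have := hole_filling hbs ζ (hpow k)
    rw [← hhalf] at this
    exact this
  have h2 : ∀ k < n, F (k + 1) ≤ 2 * (D k + B k) + 1 / 4 * F k := by
    intro k hk
    set r := ρ / 2 ^ k with hr
    have hr' : 0 < r := hpow k
    let G : ℂ → ℝ := fun z => (Complex.exp (Complex.I * ((κ * z.im : ℝ) : ℂ)) * px b z).re
    have hG : Continuous G := by
      refine Complex.continuous_re.comp ((Complex.continuous_exp.comp ?_).mul (LemmaP_cpx hbs))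
      exact continuous_const.mul (Complex.continuous_ofReal.comp
        (continuous_const.mul Complex.continuous_im))
    have hsl := slice_sq hκ hr' (hfs.of_le (by norm_num)) hG
      (fun z => re_px_bb (P := P) (κ := κ) hSS.smooth z) ζ
    have hGle : ∀ z, (G z) ^ 2 ≤ 2 * (‖dz b z‖ ^ 2 + ‖dbar b z‖ ^ 2) := by
      intro z
      have e1 : |G z| ≤ ‖px b z‖ := by
        refine (Complex.abs_re_le_norm _).trans ?_
        rw [norm_mul, mul_comm Complex.I, Complex.norm_exp_ofReal_mul_I, one_mul]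
      have e2 : px b z = dz b z + dbar b z := by
        unfold dz dbar
        ring
      have e3 : ‖px b z‖ ≤ ‖dz b z‖ + ‖dbar b z‖ := by
        rw [e2]
        exact norm_add_le _ _
      have e4 : (G z) ^ 2 ≤ (‖dz b z‖ + ‖dbar b z‖) ^ 2 := by
        rw [← sq_abs]
        exact pow_le_pow_left₀ (abs_nonneg _) (e1.trans e3) 2
      nlinarith [sq_nonneg (‖dz b z‖ - ‖dbar b z‖)]
    have hGint : ∫ z in sq ζ r, (G z) ^ 2 ≤ 2 * (D k + B k) := by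
      have i1 : IntegrableOn (fun z => ‖dz b z‖ ^ 2) (sq ζ r) := LemmaP_int (hcd.norm.pow 2) ζ r
      have i2 : IntegrableOn (fun z => ‖dbar b z‖ ^ 2) (sq ζ r) := LemmaP_int (hcb.norm.pow 2) ζ r
      have e5 : ∫ z in sq ζ r, (G z) ^ 2 ≤
          ∫ z in sq ζ r, 2 * (‖dz b z‖ ^ 2 + ‖dbar b z‖ ^ 2) :=
        integral_mono (LemmaP_int (hG.pow 2) ζ r) ((i1.add i2).const_mul 2) hGle
      rw [integral_const_mul, integral_add i1 i2] at e5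
      exact e5
    have hκr : 8 ≤ κ * r := by
      have e6 : ρ / 2 ^ n ≤ ρ / 2 ^ k :=
        div_le_div_of_nonneg_left hρ0.le (by positivity)
          (pow_le_pow_right₀ (by norm_num) hk.le)
      have e7 : δ' * κ ≤ r := hn1'.trans e6
      have e8 : κ * (δ' * κ) ≤ κ * r := mul_le_mul_of_nonneg_left e7 hκ.le
      nlinarith
    have h2κ : 2 / (κ * r) ≤ 1 / 4 := by
      rw [div_le_div_iff₀ (by positivity) (by norm_num)]
      linarith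
    have e9 : F (k + 1) = κ ^ 2 * ∫ z in sq ζ (r / 2), (px f z) ^ 2 := by
      show κ ^ 2 * ∫ z in sq ζ (ρ / 2 ^ (k + 1)), (px f z) ^ 2 = _
      rw [hhalf]
    rw [e9]
    have e10 : κ ^ 2 * ∫ z in sq ζ (r / 2), (px f z) ^ 2 ≤
        κ ^ 2 * ((1 / κ ^ 2) * (∫ z in sq ζ r, (G z) ^ 2) +
          (2 / (κ * r)) * ∫ z in sq ζ r, (px f z) ^ 2) :=
      mul_le_mul_of_nonneg_left hsl (by positivity)
    refine e10.trans ?_
    have e11 : κ ^ 2 * ((1 / κ ^ 2) * (∫ z in sq ζ r, (G z) ^ 2) +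
          (2 / (κ * r)) * ∫ z in sq ζ r, (px f z) ^ 2) =
        (∫ z in sq ζ r, (G z) ^ 2) + (2 / (κ * r)) * F k := by
      show _ = (∫ z in sq ζ r, (G z) ^ 2) +
        (2 / (κ * r)) * (κ ^ 2 * ∫ z in sq ζ r, (px f z) ^ 2)
      field_simp
    rw [e11]
    have e12 := mul_le_mul_of_nonneg_right h2κ (hF0 k)
    linarith
  have h3 : ∀ k ≤ n, B k ≤ a * F k + c * (1 / 4) ^ k := by
    intro k _
    set r := ρ / 2 ^ k with hr
    have i1 : IntegrableOn (fun z => (px f z) ^ 2) (sq ζ r) := LemmaP_int (hcf.pow 2) ζ r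
    have i2 : IntegrableOn (fun z => ‖dbar b z‖ ^ 2) (sq ζ r) := LemmaP_int (hcb.norm.pow 2) ζ r
    have e1 : B k ≤ ∫ z in sq ζ r, (2 * (q₁ / κ) ^ 2 * (px f z) ^ 2 +
        (1 / 2) * (Cf q₁ C₇ c₁ * η₀ / R) ^ 2) := by
      refine setIntegral_mono_on i2 ((i1.const_mul _).add (LemmaP_int continuous_const ζ r))
        (LemmaP_open ζ r).measurableSet ?_
      intro z hz
      exact hSS.normSq_dbar_le hc hR (LemmaP_sub hζ (hle k) hz)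
    rw [integral_add (i1.const_mul _) (LemmaP_int continuous_const ζ r), integral_const_mul,
      LemmaP_area ζ (hpow k).le] at e1
    have e2 : 2 * (q₁ / κ) ^ 2 * ∫ z in sq ζ r, (px f z) ^ 2 = a * F k := by
      show _ = a * (κ ^ 2 * ∫ z in sq ζ r, (px f z) ^ 2)
      rw [ha]
      field_simp
    have e3 : (1 / 2) * (Cf q₁ C₇ c₁ * η₀ / R) ^ 2 * (4 * r ^ 2) = c * (1 / 4) ^ k := by
      rw [hcc, hr, hρ]
      have e4 : ((1 : ℝ) / 4) ^ k = 1 / (2 ^ k) ^ 2 := by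
        rw [div_pow, one_pow, ← pow_mul, mul_comm k 2, pow_mul]
        norm_num
      rw [e4]
      field_simp
      ring
    rw [e2, e3] at e1
    exact e1
  obtain ⟨b1, b2⟩ := hbase η₀ P R φ Q hη1 hP3 hR hSS ζ hζ
  have hDz : D 0 ≤ C3 := by
    show ∫ z in sq ζ (ρ / 2 ^ 0), ‖dz b z‖ ^ 2 ≤ C3
    rw [pow_zero, div_one]
    exact b1
  have hFz : F 0 ≤ C3 := by
    show κ ^ 2 * ∫ z in sq ζ (ρ / 2 ^ 0), (px f z) ^ 2 ≤ C3
    rw [pow_zero, div_one]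
    exact b2
  have hdec := seq_decay hD0 hF0 hB0 ha0 k2 hc0 h1 h2 h3 hDz hFz
  have hK : 0 ≤ 1040 * a * (C3 + c) + c := by positivity
  have hsum := sum_sqrt_le hK hB0 hdec
  have hring := rings_le hcb ζ hρ0 n
  have hlast := hN (ρ / 2 ^ (n + 1)) (hpow _) (hle _) hn2'
  refine hring.trans ?_
  rw [← Finset.mul_sum]
  have hs2 : 4 * ∑ k ∈ Finset.range (n + 1),
      Real.sqrt (∫ z in sq ζ (ρ / 2 ^ k), ‖dbar b z‖ ^ 2) ≤ δ / 2 := by
    have e1 : 4 * ∑ k ∈ Finset.range (n + 1), Real.sqrt (B k) ≤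
        4 * (200 * Real.sqrt (1040 * a * (C3 + c) + c)) := by linarith
    refine e1.trans ?_
    linarith
  linarith

end FC34
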