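import Pool.Agent.W_fc1c69_h34.LemmaS0
import Pool.Agent.W_fc1c69_h34.Transport
import Pool.Agent.W_fc1c69_h34.SecondTest
import Pool.Agent.W_fc1c69_h34.Barrier

/-! Lemma S: no interior maximum of `v - g`, `g = -β/r`, for slopes `≥ T₁`. -/

namespace FC34

open Complex MeasureTheory Metric Set

theorem LemmaS_Cv_pos {q₁ l : ℝ} (hq : 0 ≤ q₁) (hl : 0 ≤ l) : 5 ≤ Cv q₁ l := by
  unfold Cv
  nlinarith [sq_nonneg q₁]

/-- Regime 1: the second derivative test. -/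
theorem LemmaS_regime1 {q₁ l Λ β : ℝ} {φ Q : ℂ → ℝ} (hl : 0 ≤ l)
    (h : Loc q₁ l Λ φ Q) {a z : ℂ} (hza : z ≠ a)
    (hball : ball z (‖z - a‖ / 4) ⊆ ball (0 : ℂ) (4 * Λ)) (hqz : 0 < qf φ z)
    (hmax : ∀ x ∈ ball z (‖z - a‖ / 4),
        qf φ x ≤ qf φ z * Real.exp (-β / ‖x - a‖ - -β / ‖z - a‖)) :
    β / ‖z - a‖ ^ 3 ≤ Cv q₁ l := by
  have hr : 0 < ‖z - a‖ := norm_pos_iff.2 (sub_ne_zero.2 hza)
  have hz0 : z ∈ ball z (‖z - a‖ / 4) := mem_ball_self (by positivity)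
  have hz1 := hball hz0
  have hΛ : 1 ≤ Λ := h.hΛ
  have hopen : ball z (‖z - a‖ / 4) ∈ nhds z := ball_mem_nhds _ (by positivity)
  have hpde : ∀ᶠ w in nhds z, lap φ w = - Q w * φ w := by
    filter_upwards [hopen] with w hw
    exact h.pde w (hball hw)
  have hQl : ‖fderiv ℝ Q z‖ ≤ l := by
    refine (h.hQl z hz1).trans ?_
    exact div_le_self hl hΛ
  have hmax' : ∀ᶠ w in nhds z, qf φ w ≤ qf φ z *
      Real.exp ((fun x : ℂ => -β / ‖x - a‖) w - (fun x : ℂ => -β / ‖x - a‖) z) := by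
    filter_upwards [hopen] with w hw
    exact hmax w hw
  have h1 := lap_ge_of_isLocalMax (q₁ := q₁) (G := fun x : ℂ => -β / ‖x - a‖) hl h.smooth hpde
    (h.hQd z hz1) hQl (h.hQ z hz1).1 (h.hQ z hz1).2 hqz (contDiffAt_barrier β hza) hmax'
  rw [lap_barrier β hza, neg_div] at h1
  linarith

/-- LEMMA S (proofs row 213).  `r = |z-a|`, `g' = β/r²`.
Regime 1, `r ≤ g'/(2 Cv)`: `lap_ge_of_isLocalMax` and `lap_barrier`:
`-Cv ≤ -β/r³ = -g'/r ≤ -2Cv`, contradiction (`Cv ≥ 5 > 0`).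
Regime 2, `r > g'/(2Cv)`: `m = g'/r`, `P = g'/2`, `R = 4/√m = 4√(r/g') ≥ 4/√(2Cv) =: c₁`;
`R ≤ r/4` because `r g' ≥ g'²/(2Cv) ≥ 256`; `e = (z-a)/r`; by `barrier_taylor` the hypothesis gives
on `ball z R`: `v(x) - v(z) ≤ 2P s + (m/2)(-2s²+t²) + 6 (g'/r²) R³`, and
`6 (g'/r²) R³ = 384/√(r g') ≤ δ₁`; in particular `≤ 2P s + 9` (`(m/2) R² = 8`).
`|Q - Q(z)| ≤ (l/Λ) R ≤ η₀ P/R` as `l R²/Λ = 16 l r/(g' Λ) ≤ 16 l/g' ≤ η₀ g'/2`.
`SS_of_general` and `noMaxSS q₁ c₁` give the contradiction. -/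
theorem noInteriorMax (q₁ l : ℝ) (hq : 0 ≤ q₁) (hl : 0 ≤ l) : ∃ T₁ : ℝ, 1 ≤ T₁ ∧
    ∀ (Λ : ℝ) (φ Q : ℂ → ℝ), Loc q₁ l Λ φ Q → ∀ (β : ℝ) (a z : ℂ), 0 < β → z ≠ a →
      ‖z - a‖ ≤ Λ → T₁ ≤ β / ‖z - a‖ ^ 2 → ball z (‖z - a‖ / 4) ⊆ ball (0 : ℂ) (4 * Λ) →
      0 < qf φ z →
      (∀ x ∈ ball z (‖z - a‖ / 4),
        qf φ x ≤ qf φ z * Real.exp (-β / ‖x - a‖ - -β / ‖z - a‖)) → False := by
  set C := Cv q₁ l with hC
  have hC5 : 5 ≤ C := LemmaS_Cv_pos hq hl
  have hC0 : 0 < C := by linarith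
  have hsC : 0 < Real.sqrt (2 * C) := Real.sqrt_pos.2 (by linarith)
  obtain ⟨P₀, hP₀, η₀, hη₀, δ₁, hδ₁, hno⟩ := noMaxSS q₁ (4 / Real.sqrt (2 * C)) hq (by positivity)
  set δ : ℝ := min δ₁ 1 with hδ
  have hδ0 : 0 < δ := lt_min hδ₁ one_pos
  have hδ1 : δ ≤ 1 := min_le_right _ _
  have hδδ : δ ≤ δ₁ := min_le_left _ _
  set K : ℝ := 147456 / δ ^ 2 with hK
  have hK0 : 0 < K := by positivity
  refine ⟨max 1 (max (2 * P₀) (max (2 * C * K) (32 * l / η₀))), le_max_left _ _, ?_⟩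
  intro Λ φ Q h β a z hβ hza hrΛ hT hball hqz hmax
  set r := ‖z - a‖ with hr
  have hr0 : 0 < r := norm_pos_iff.2 (sub_ne_zero.2 hza)
  set g := β / r ^ 2 with hg
  have hg1 : 1 ≤ g := (le_max_left _ _).trans hT
  have hg2 : 2 * P₀ ≤ g := (le_max_left _ _).trans ((le_max_right _ _).trans hT)
  have hg3 : 2 * C * K ≤ g :=
    (le_max_left _ _).trans ((le_max_right _ _).trans ((le_max_right _ _).trans hT))
  have hg4 : 32 * l / η₀ ≤ g :=
    (le_max_right _ _).trans ((le_max_right _ _).trans ((le_max_right _ _).trans hT))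
  have hg0 : 0 < g := by linarith
  have hβr3 : β / r ^ 3 = g / r := by rw [hg]; field_simp
  have hβr4 : β / r ^ 4 = g / r ^ 2 := by rw [hg]; field_simp
  -- regime 1 is impossible
  have hreg1 : g / r ≤ C := by
    rw [← hβr3]
    exact LemmaS_regime1 hl h hza hball hqz hmax
  set m := g / r with hm
  have hm0 : 0 < m := by positivity
  have hm2 : m ≤ 2 * C := by linarith
  set R := 4 / Real.sqrt m with hR
  have hsm : 0 < Real.sqrt m := Real.sqrt_pos.2 hm0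
  have hR0 : 0 < R := by positivity
  have hcR : 4 / Real.sqrt (2 * C) ≤ R := by
    rw [hR]
    exact div_le_div_of_nonneg_left (by norm_num) hsm (Real.sqrt_le_sqrt hm2)
  have hmR : m * R ^ 2 = 16 := by
    rw [hR, div_pow, Real.sq_sqrt hm0.le]
    field_simp
    norm_num
  have hgR : g * R ^ 2 = 16 * r := by
    have : g = m * r := by rw [hm]; field_simp
    rw [this]
    linear_combination r * hmR
  have hgr : g ≤ C * r := by
    rw [hm, div_le_iff₀ hr0] at hreg1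
    exact hreg1
  have hrg : K ≤ r * g := by
    have h1 : 2 * C * K ≤ g * g := by nlinarith
    have h2 : g * g ≤ C * r * g := by nlinarith
    have h3 : C * (2 * K) ≤ C * (r * g) := by nlinarith
    have h4 := le_of_mul_le_mul_left h3 hC0
    linarith
  have hRδ : R ≤ δ * r / 96 := by
    have h1 : R ^ 2 ≤ (δ * r / 96) ^ 2 := by
      have h2 : g * R ^ 2 ≤ g * (δ * r / 96) ^ 2 := by
        rw [hgR]
        rw [hK, div_le_iff₀ (by positivity)] at hrg
        have h3 : 147456 * r ≤ (r * g * δ ^ 2) * r := mul_le_mul_of_nonneg_right hrg hr0.le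
        have h4 : g * (δ * r / 96) ^ 2 = (r * g * δ ^ 2) * r / 9216 := by ring
        rw [h4]
        linarith
      exact le_of_mul_le_mul_left h2 hg0
    exact (pow_le_pow_iff_left₀ hR0.le (by positivity) two_ne_zero).1 h1
  have hRr : R ≤ r / 4 := by
    have : δ * r ≤ 1 * r := mul_le_mul_of_nonneg_right hδ1 hr0.le
    linarith
  have hsub : ball z R ⊆ ball z (r / 4) := ball_subset_ball hRr
  have hsub4 : ball z R ⊆ ball (0 : ℂ) (4 * Λ) := hsub.trans hball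
  set e : ℂ := (z - a) / (r : ℂ) with he
  have hrC : (r : ℂ) ≠ 0 := by
    rw [Ne, Complex.ofReal_eq_zero]
    exact hr0.ne'
  have hze : z - a = (r : ℂ) * e := by rw [he]; field_simp
  have hen : ‖e‖ = 1 := by
    rw [he, norm_div, Complex.norm_real, Real.norm_of_nonneg hr0.le, ← hr]
    exact div_self hr0.ne'
  have hee : (starRingEnd ℂ) e * e = 1 := by
    rw [mul_comm, Complex.mul_conj, Complex.normSq_eq_norm_sq, hen]
    norm_num
  -- the main bound
  have hmain : ∀ x ∈ ball z R, qf φ x ≤ qf φ z *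
      Real.exp (2 * (g / 2) * ((starRingEnd ℂ) e * (x - z)).re +
        (m / 2) * (-2 * ((starRingEnd ℂ) e * (x - z)).re ^ 2 +
          ((starRingEnd ℂ) e * (x - z)).im ^ 2) + δ) := by
    intro x hx
    have hxz : ‖x - z‖ ≤ R := by
      rw [mem_ball, dist_eq_norm] at hx
      exact hx.le
    have h1 := barrier_taylor hβ hr0 hen hze (hxz.trans hRr)
    refine (hmax x (hsub hx)).trans ?_
    refine mul_le_mul_of_nonneg_left (Real.exp_le_exp.2 ?_) hqz.le
    refine h1.trans ?_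
    rw [← hg, hβr3, hβr4]
    have h2 : 6 * (g / r ^ 2) * ‖x - z‖ ^ 3 ≤ δ := by
      calc 6 * (g / r ^ 2) * ‖x - z‖ ^ 3 ≤ 6 * (g / r ^ 2) * R ^ 3 := by gcongr
        _ = 6 * (g * R ^ 2) * R / r ^ 2 := by ring
        _ = 96 * R / r := by
          rw [hgR]
          field_simp
          ring
        _ ≤ δ := by
          rw [div_le_iff₀ hr0]
          linarith
    have h3 : 2 * (g / 2) = g := by ring
    rw [h3]
    linarith
  -- the general situation
  have hLip : ∀ x ∈ ball z R, |Q x - Q z| ≤ l / Λ * R := by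
    intro x hx
    have h1 : ‖Q x - Q z‖ ≤ l / Λ * ‖x - z‖ := by
      refine (convex_ball z R).norm_image_sub_le_of_norm_fderiv_le (𝕜 := ℝ) (f := Q)
        (fun y hy => h.hQd y (hsub4 hy)) (fun y hy => h.hQl y (hsub4 hy)) (mem_ball_self hR0) hx
    rw [Real.norm_eq_abs] at h1
    refine h1.trans ?_
    have h2 : ‖x - z‖ ≤ R := by
      rw [mem_ball, dist_eq_norm] at hx
      exact hx.le
    have h3 : 0 ≤ l / Λ := div_nonneg hl (by linarith [h.hΛ])
    exact mul_le_mul_of_nonneg_left h2 h3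
  have hΛ0 : 0 < Λ := by linarith [h.hΛ]
  have hQ0 : ∀ x ∈ ball z R, |Q x - Q z| ≤ η₀ * (g / 2) / R := by
    intro x hx
    refine (hLip x hx).trans ?_
    rw [le_div_iff₀ hR0]
    have h1 : l / Λ * R * R = l * R ^ 2 / Λ := by ring
    rw [h1, div_le_iff₀ hΛ0]
    -- l R² ≤ η₀ g/2 Λ
    have h2 : 32 * l ≤ g * η₀ := by
      rw [div_le_iff₀ hη₀] at hg4
      linarith
    have h3 : l * (g * R ^ 2) ≤ g * (η₀ * (g / 2) * Λ) := by
      rw [hgR]
      have h4 : 32 * l * r ≤ g * η₀ * Λ := by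
        calc 32 * l * r ≤ g * η₀ * r := mul_le_mul_of_nonneg_right h2 hr0.le
          _ ≤ g * η₀ * Λ := mul_le_mul_of_nonneg_left hrΛ (by positivity)
      have h5 : g * η₀ * Λ ≤ g * (g * η₀ * Λ) := by
        have : 0 ≤ g * η₀ * Λ := by positivity
        nlinarith
      nlinarith
    have h6 : g * (l * R ^ 2) ≤ g * (η₀ * (g / 2) * Λ) := by
      calc g * (l * R ^ 2) = l * (g * R ^ 2) := by ring
        _ ≤ _ := h3
    exact le_of_mul_le_mul_left h6 hg0
  have htop : ∀ x ∈ ball z R, qf φ x ≤ qf φ z *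
      Real.exp (2 * (g / 2) * ((starRingEnd ℂ) e * (x - z)).re + 9) := by
    intro x hx
    refine (hmain x hx).trans ?_
    refine mul_le_mul_of_nonneg_left (Real.exp_le_exp.2 ?_) hqz.le
    have hxz : ‖x - z‖ ≤ R := by
      rw [mem_ball, dist_eq_norm] at hx
      exact hx.le
    have h1 : |((starRingEnd ℂ) e * (x - z)).im| ≤ R := by
      refine (Complex.abs_im_le_norm _).trans ?_
      rw [norm_mul, Complex.norm_conj, hen, one_mul]
      exact hxz
    have h2 : ((starRingEnd ℂ) e * (x - z)).im ^ 2 ≤ R ^ 2 := by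
      rw [← sq_abs]
      exact pow_le_pow_left₀ (abs_nonneg _) h1 2
    have h3 : (m / 2) * (-2 * ((starRingEnd ℂ) e * (x - z)).re ^ 2 +
          ((starRingEnd ℂ) e * (x - z)).im ^ 2) ≤ (m / 2) * R ^ 2 := by
      refine mul_le_mul_of_nonneg_left ?_ (by positivity)
      nlinarith [sq_nonneg ((starRingEnd ℂ) e * (x - z)).re]
    have h4 : (m / 2) * R ^ 2 = 8 := by linarith
    linarith
  obtain ⟨hSS, hqf⟩ := SS_of_general (q₁ := q₁) (C₇ := 9) (η₀ := η₀) (P := g / 2) (R := R) (Q := Q)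
    h.smooth (by linarith) hR0 hη₀.le hen hqz (fun x hx => h.hQ x (hsub4 hx)) hQ0
    (fun x hx => h.pde x (hsub4 hx)) htop
  refine hno (g / 2) m R _ _ (by linarith) hm0 hR hcR hSS hqf ?_
  intro w hw
  rw [qf_comp_affine h.smooth _ _ _ hen]
  have hs2 : (1 / Real.sqrt (qf φ z)) ^ 2 = 1 / qf φ z := by
    rw [div_pow, one_pow, Real.sq_sqrt hqz.le]
  have hxw : z + e * w ∈ ball z R := by
    rw [mem_ball, dist_eq_norm] at hw ⊢
    rw [sub_zero] at hw
    rwa [add_sub_cancel_left, norm_mul, hen, one_mul]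
  have hconj : (starRingEnd ℂ) e * (z + e * w - z) = w := by
    rw [add_sub_cancel_left, ← mul_assoc, hee, one_mul]
  have h1 := hmain _ hxw
  rw [hconj] at h1
  rw [hs2, one_div, inv_mul_le_iff₀ hqz]
  refine h1.trans ?_
  refine mul_le_mul_of_nonneg_left (Real.exp_le_exp.2 ?_) hqz.le
  linarith

end FC34
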