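import Pool.Agent.W_fc1c69_h34.Rep
import Pool.Agent.W_fc1c69_h34.Cutoff

/-! Mean value estimate and the holomorphic Gaussian factor. -/

namespace FC34

open Complex MeasureTheory Metric Set

theorem Mean_dbar_mul {u v : ℂ → ℂ} {z : ℂ} (hu : DifferentiableAt ℝ u z)
    (hv : DifferentiableAt ℝ v z) :
    dbar (fun w => u w * v w) z = u z * dbar v z + v z * dbar u z := by
  have h1 : HasFDerivAt (fun w => u w * v w) (u z • fderiv ℝ v z + v z • fderiv ℝ u z) z :=
    hu.hasFDerivAt.mul hv.hasFDerivAt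
  unfold dbar px py
  rw [h1.fderiv]
  simp
  ring

theorem Mean_dbar_hol {G : ℂ → ℂ} {G' z : ℂ} (h : HasDerivAt G G' z) : dbar G z = 0 := by
  have h1 := h.hasFDerivAt.restrictScalars ℝ
  unfold dbar px py
  rw [h1.fderiv]
  simp
  rw [← mul_assoc, Complex.I_mul_I]
  ring

/-- Mean value estimate with a radial cut-off: for `C¹` functions `h`, if `|h| ≤ M` on
`R/8 ≤ |z| < R/4` then `|h(0)| ≤ M + ∫_{ball 0 (R/4)} |∂̄h|/|z|`.
Proof: `χ, g` from `exists_radial_cutoff`; `rep` at `0` for `χ h` and for `χ` itself: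
`1 = (1/π) ∫ g`, and `h(0) = -(1/π)∫ χ ∂̄h/z + (1/π) ∫ h g`, so `|(1/π)∫ h g| ≤ M`. -/
theorem mean_value_le {h : ℂ → ℂ} (hh : ContDiff ℝ 1 h) {R M : ℝ} (hR : 0 < R)
    (hM : ∀ z ∈ ball (0 : ℂ) (R / 4), R / 8 ≤ ‖z‖ → ‖h z‖ ≤ M) :
    ‖h 0‖ ≤ M + ∫ z in ball (0 : ℂ) (R / 4), ‖dbar h z‖ / ‖z‖ := by
  obtain ⟨χ, g, hχ1, hχ0, hχ2, hin, hout, hχc, hg, hg0, hgin, hgout, hdb⟩ :=
    exists_radial_cutoff hR
  set X : ℂ → ℂ := fun w => ((χ w : ℝ) : ℂ) with hX
  have hXC : ContDiff ℝ 1 X := Complex.ofRealCLM.contDiff.comp hχ1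
  have hXc : HasCompactSupport X := hχc.comp_left (g := fun x : ℝ => (x : ℂ)) Complex.ofReal_zero
  have h0in : (0 : ℂ) ∈ closedBall (0 : ℂ) (R / 8) := mem_closedBall_self (by positivity)
  have hX0 : X 0 = 1 := by simp [hX, hin 0 h0in]
  have hg00 : g 0 = 0 := hgin 0 (mem_ball_self (by positivity))
  have hpi : (Real.pi : ℂ) ≠ 0 := by exact_mod_cast Real.pi_ne_zero
  have hgs : HasCompactSupport g := by
    refine HasCompactSupport.of_support_subset_isCompact
      (isCompact_closedBall (0 : ℂ) (R / 4)) ?_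
    intro z hz
    by_contra hz2
    exact hz (hgout z fun h => hz2 (ball_subset_closedBall h))
  have hgI : Integrable g := hg.integrable_of_hasCompactSupport hgs
  have hgi : ∫ z, ((g z : ℝ) : ℂ) = (Real.pi : ℂ) := by
    have h1 := rep hXC hXc 0
    rw [hX0] at h1
    have h2 : (fun z : ℂ => dbar X z / (z - 0)) = fun z => -((g z : ℝ) : ℂ) := by
      funext z
      have h3 : dbar X z = -((g z : ℝ) : ℂ) * z := hdb z
      rw [sub_zero, h3]
      by_cases hz : z = 0
      · subst hz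
        simp [hg00]
      · field_simp
    rw [h2, integral_neg] at h1
    have h4 : (Real.pi : ℂ) * 1 = (Real.pi : ℂ) *
        (-(1 / (Real.pi : ℂ)) * -∫ z, ((g z : ℝ) : ℂ)) := by rw [← h1]
    have h5 : (Real.pi : ℂ) * (-(1 / (Real.pi : ℂ)) * -∫ z, ((g z : ℝ) : ℂ)) =
        ∫ z, ((g z : ℝ) : ℂ) := by
      field_simp
    rw [← h5, ← h4, mul_one]
  have hgr : ∫ z, g z = Real.pi := by
    have h1 : ((∫ z, g z : ℝ) : ℂ) = (Real.pi : ℂ) := by
      rw [← integral_complex_ofReal, hgi]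
    exact_mod_cast h1
  have hdbc : Continuous (dbar h) := by
    have hfc : Continuous (fderiv ℝ h) := hh.continuous_fderiv one_ne_zero
    have hpx : Continuous (px h) := hfc.clm_apply continuous_const
    have hpy : Continuous (py h) := hfc.clm_apply continuous_const
    unfold dbar
    fun_prop
  have hXcont : Continuous X := hXC.continuous
  -- the representation of `h 0`
  have hI1 : Integrable fun z => X z * dbar h z / (z - 0) :=
    integrable_div (hXcont.mul hdbc) hXc.mul_right 0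
  have hI2 : Integrable fun z => ((g z : ℝ) : ℂ) * h z := by
    have h1 : HasCompactSupport fun z => ((g z : ℝ) : ℂ) :=
      hgs.comp_left (g := fun x : ℝ => (x : ℂ)) Complex.ofReal_zero
    exact ((Complex.continuous_ofReal.comp hg).mul
      hh.continuous).integrable_of_hasCompactSupport h1.mul_right
  have hrep : h 0 = -(1 / (Real.pi : ℂ)) * ((∫ z, X z * dbar h z / (z - 0)) -
      ∫ z, ((g z : ℝ) : ℂ) * h z) := by
    have h1 := rep (hXC.mul hh) hXc.mul_right 0
    have h2 : X 0 * h 0 = h 0 := by rw [hX0, one_mul]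
    rw [h2] at h1
    rw [h1, ← integral_sub hI1 hI2]
    congr 1
    refine integral_congr_ae (Filter.Eventually.of_forall fun z => ?_)
    have h3 : dbar (fun w => X w * h w) z = X z * dbar h z + h z * dbar X z :=
      Mean_dbar_mul (hXC.differentiable one_ne_zero z) (hh.differentiable one_ne_zero z)
    have h4 : dbar X z = -((g z : ℝ) : ℂ) * z := hdb z
    show dbar (fun w => X w * h w) z / (z - 0) = X z * dbar h z / (z - 0) - ((g z : ℝ) : ℂ) * h z
    rw [h3, h4, sub_zero]
    by_cases hz : z = 0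
    · subst hz
      simp [hg00]
    · field_simp
      ring
  -- the two estimates
  have hE2 : ‖∫ z, ((g z : ℝ) : ℂ) * h z‖ ≤ M * Real.pi := by
    calc ‖∫ z, ((g z : ℝ) : ℂ) * h z‖ ≤ ∫ z, g z * M := by
          refine norm_integral_le_of_norm_le (hgI.mul_const M)
            (Filter.Eventually.of_forall fun z => ?_)
          rw [norm_mul, Complex.norm_real, Real.norm_of_nonneg (hg0 z)]
          by_cases hz : z ∈ ball (0 : ℂ) (R / 4)
          · by_cases hz2 : z ∈ ball (0 : ℂ) (R / 8)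
            · rw [hgin z hz2, zero_mul, zero_mul]
            · refine mul_le_mul_of_nonneg_left (hM z hz ?_) (hg0 z)
              rw [mem_ball, dist_zero_right, not_lt] at hz2
              exact hz2
          · rw [hgout z hz, zero_mul, zero_mul]
      _ = M * Real.pi := by rw [integral_mul_const, hgr, mul_comm]
  have hfin : IntegrableOn (fun z : ℂ => ‖dbar h z‖ / ‖z‖) (ball (0 : ℂ) (R / 4)) := by
    have h1 := integrableOn_inv_ball 0 (R / 4)
    obtain ⟨C, hC⟩ := (isCompact_closedBall (0 : ℂ) (R / 4)).exists_bound_of_continuousOn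
      hdbc.continuousOn
    have h2 : IntegrableOn (fun z : ℂ => C * (1 / ‖z - 0‖)) (ball (0 : ℂ) (R / 4)) :=
      h1.const_mul C
    refine h2.mono' ?_ ?_
    · exact (hdbc.norm.measurable.div continuous_norm.measurable).aestronglyMeasurable
    · refine (ae_restrict_iff' measurableSet_ball).2 (Filter.Eventually.of_forall fun z hz => ?_)
      rw [sub_zero, norm_div, norm_norm, norm_norm, mul_one_div]
      exact div_le_div_of_nonneg_right (hC z (ball_subset_closedBall hz)) (norm_nonneg _)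
  have hE1 : ‖∫ z, X z * dbar h z / (z - 0)‖ ≤
      ∫ z in ball (0 : ℂ) (R / 4), ‖dbar h z‖ / ‖z‖ := by
    rw [← integral_indicator measurableSet_ball]
    refine norm_integral_le_of_norm_le (hfin.integrable_indicator measurableSet_ball)
      (Filter.Eventually.of_forall fun z => ?_)
    by_cases hz : z ∈ ball (0 : ℂ) (R / 4)
    · rw [Set.indicator_of_mem hz, sub_zero, norm_div, norm_mul]
      refine div_le_div_of_nonneg_right ?_ (norm_nonneg _)
      have h5 : ‖X z‖ ≤ 1 := by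
        rw [hX]
        simp only
        rw [Complex.norm_real, Real.norm_of_nonneg (hχ0 z)]
        exact hχ2 z
      calc ‖X z‖ * ‖dbar h z‖ ≤ 1 * ‖dbar h z‖ :=
            mul_le_mul_of_nonneg_right h5 (norm_nonneg _)
        _ = ‖dbar h z‖ := one_mul _
    · rw [Set.indicator_of_notMem hz]
      have h5 : X z = 0 := by
        rw [hX]
        simp only
        rw [hout z hz, Complex.ofReal_zero]
      rw [h5, zero_mul, zero_div, norm_zero]
  have hI0 : 0 ≤ ∫ z in ball (0 : ℂ) (R / 4), ‖dbar h z‖ / ‖z‖ :=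
    setIntegral_nonneg measurableSet_ball fun z _ => by positivity
  have hpi1 : (1 : ℝ) ≤ Real.pi := by linarith [Real.pi_gt_three]
  rw [hrep, norm_mul, norm_neg, norm_div, norm_one, Complex.norm_real,
    Real.norm_of_nonneg Real.pi_pos.le]
  have h6 := norm_sub_le (∫ z, X z * dbar h z / (z - 0)) (∫ z, ((g z : ℝ) : ℂ) * h z)
  calc 1 / Real.pi * ‖(∫ z, X z * dbar h z / (z - 0)) - ∫ z, ((g z : ℝ) : ℂ) * h z‖
      ≤ 1 / Real.pi * ((∫ z in ball (0 : ℂ) (R / 4), ‖dbar h z‖ / ‖z‖) + M * Real.pi) := by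
        refine mul_le_mul_of_nonneg_left ?_ (by positivity)
        linarith
    _ = 1 / Real.pi * (∫ z in ball (0 : ℂ) (R / 4), ‖dbar h z‖ / ‖z‖) + M := by
        have := Real.pi_ne_zero
        field_simp
    _ ≤ 1 * (∫ z in ball (0 : ℂ) (R / 4), ‖dbar h z‖ / ‖z‖) + M := by
        have h7 : 1 / Real.pi ≤ 1 := by
          rw [div_le_one Real.pi_pos]
          exact hpi1
        have := mul_le_mul_of_nonneg_right h7 hI0
        linarith
    _ = M + ∫ z in ball (0 : ℂ) (R / 4), ‖dbar h z‖ / ‖z‖ := by ring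

/-- Holomorphic Gaussian factor: `|e^{c z²}| = e^{c (x² - y²)}` and `∂̄(b e^{cz²}) = e^{cz²} ∂̄b`. -/
theorem gauss_norm (c : ℝ) (z : ℂ) :
    ‖Complex.exp ((c : ℂ) * z ^ 2)‖ = Real.exp (c * (z.re ^ 2 - z.im ^ 2)) := by
  rw [Complex.norm_exp]
  congr 1
  rw [pow_two, Complex.re_ofReal_mul, Complex.mul_re]
  ring

theorem dbar_mul_gauss {b : ℂ → ℂ} (hb : ContDiff ℝ 1 b) (c : ℝ) (z : ℂ) :
    dbar (fun w => b w * Complex.exp ((c : ℂ) * w ^ 2)) z =
      dbar b z * Complex.exp ((c : ℂ) * z ^ 2) := by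
  have h1 : HasDerivAt (fun w : ℂ => Complex.exp ((c : ℂ) * w ^ 2))
      (Complex.exp ((c : ℂ) * z ^ 2) * ((c : ℂ) * (2 * z))) z := by
    have h2 : HasDerivAt (fun w : ℂ => (c : ℂ) * w ^ 2) ((c : ℂ) * (2 * z)) z := by
      have h3 := (hasDerivAt_pow 2 z).const_mul (c : ℂ)
      simpa using h3
    exact h2.cexp
  have h4 : DifferentiableAt ℝ (fun w : ℂ => Complex.exp ((c : ℂ) * w ^ 2)) z :=
    h1.differentiableAt.restrictScalars ℝ
  rw [Mean_dbar_mul (hb.differentiable one_ne_zero z) h4, Mean_dbar_hol h1, mul_zero, zero_add,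
    mul_comm]

end FC34
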