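import Pool.Agent.W_fc1c69_h34.LemmaP
import Pool.Agent.W_fc1c69_h34.Mean

/-! Normalised no-interior-maximum lemma in the long-scale regime. -/

namespace FC34

open Complex MeasureTheory Metric Set

theorem LemmaS0_cont_dbar {b : ℂ → ℂ} (hb : ContDiff ℝ 1 b) : Continuous (dbar b) := by
  have h1 : Continuous (fderiv ℝ b) := hb.continuous_fderiv (by norm_num)
  have h2 : Continuous (px b) := h1.clm_apply continuous_const
  have h3 : Continuous (py b) := h1.clm_apply continuous_const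
  unfold dbar
  fun_prop

theorem LemmaS0_sq_open (r : ℝ) : IsOpen (sq (0 : ℂ) r) := by
  have h1 : Continuous (fun z : ℂ => |z.re - (0 : ℂ).re|) := by fun_prop
  have h2 : Continuous (fun z : ℂ => |z.im - (0 : ℂ).im|) := by fun_prop
  exact (isOpen_lt h1 continuous_const).inter (isOpen_lt h2 continuous_const)

theorem LemmaS0_ball_sub (r : ℝ) : ball (0 : ℂ) r ⊆ sq (0 : ℂ) r := by
  intro z hz
  rw [mem_ball, dist_zero_right] at hz
  constructor
  · rw [Complex.zero_re, sub_zero]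
    exact lt_of_le_of_lt (Complex.abs_re_le_norm z) hz
  · rw [Complex.zero_im, sub_zero]
    exact lt_of_le_of_lt (Complex.abs_im_le_norm z) hz

theorem LemmaS0_int {b : ℂ → ℂ} (hb : ContDiff ℝ 1 b) (r : ℝ) :
    IntegrableOn (fun z => ‖dbar b z‖ / ‖z - 0‖) (sq (0 : ℂ) r) := by
  have hc := LemmaS0_cont_dbar hb
  obtain ⟨K, hK⟩ := (isCompact_closedBall (0 : ℂ) (r + r)).exists_bound_of_continuousOn
    hc.continuousOn
  have hsub : ∀ z ∈ sq (0 : ℂ) r, ‖dbar b z‖ ≤ K := by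
    intro z hz
    refine hK z ?_
    rw [mem_closedBall, dist_zero_right]
    obtain ⟨h1, h2⟩ := hz
    rw [Complex.zero_re, sub_zero] at h1
    rw [Complex.zero_im, sub_zero] at h2
    exact (Complex.norm_le_abs_re_add_abs_im z).trans (add_le_add h1.le h2.le)
  refine ((integrableOn_inv_sq 0 r).const_mul K).mono' ?_ ?_
  · have h1 : Measurable (fun z : ℂ => ‖dbar b z‖ / ‖z - 0‖) :=
      hc.norm.measurable.div (by fun_prop)
    exact h1.aestronglyMeasurable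
  · refine ae_restrict_of_forall_mem (LemmaS0_sq_open r).measurableSet fun z hz => ?_
    rw [Real.norm_of_nonneg (by positivity), div_eq_mul_one_div]
    exact mul_le_mul_of_nonneg_right (hsub z hz) (by positivity)

theorem LemmaS0_sqrt {x : ℝ} (hx : 0 ≤ x) : Real.sqrt (1 + x) ≤ 1 + x := by
  rw [Real.sqrt_le_left (by linarith)]
  nlinarith

/-- No interior maximum, normalised: with `R = 4/√m ≥ c₁`, the situation (SS) with `C₇ = 9` and the
bound `v ≤ 2Px + (m/2)(-2x²+y²) + δ₁` on `B_R`, `v(0) = 0`, is impossible for large `P`.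
Proof: `h = b e^{(3m/8) z²}`, `|b| ≤ √(1+(κ-P)²) e^{-Px}√q ≤ (1+q₁²/κ²) e^{δ₁/2}
e^{(m/4)(-2x²+y²)}`, so `|h| ≤ (1+q₁²/κ²) e^{δ₁/2} e^{-(m/8)|z|²}`, on `|z| ≥ R/8` this is
`≤ (1+q₁²/κ²) e^{δ₁/2} e^{-1/32}` (`m (R/8)²/8 = 1/32`).  On `ball 0 (R/4)`:
`|e^{(3m/8)z²}| ≤ e^{3/8}`.  `mean_value_le` and `lemmaP` (at `ζ = 0`):
`|h(0)| ≤ (1+q₁²/κ²)e^{δ₁/2}e^{-1/32} + e^{3/8} δ`, but `|h(0)| = |b(0)| ≥ 1 - C/κ`
(as in `lowerSS`). -/
theorem noMaxSS (q₁ c₁ : ℝ) (hq : 0 ≤ q₁) (hc : 0 < c₁) :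
    ∃ P₀ : ℝ, 1 ≤ P₀ ∧ ∃ η₀ : ℝ, 0 < η₀ ∧ ∃ δ₁ : ℝ, 0 < δ₁ ∧
      ∀ (P m R : ℝ) (φ Q : ℂ → ℝ), P₀ ≤ P → 0 < m → R = 4 / Real.sqrt m → c₁ ≤ R →
        SS q₁ 9 η₀ P R φ Q → qf φ 0 = 1 →
        (∀ z ∈ ball (0 : ℂ) R, qf φ z ≤
          Real.exp (2 * P * z.re + (m / 2) * (-2 * z.re ^ 2 + z.im ^ 2) + δ₁)) → False := by
  obtain ⟨P₁, hP₁, η₀, hη₀, hlem⟩ := lemmaP q₁ 9 c₁ (1 / 400) hq hc (by norm_num)
  have hCf : 0 ≤ Cf q₁ 9 c₁ := by
    unfold Cf Cb
    positivity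
  refine ⟨max P₁ (max (200 * (q₁ ^ 2 + 1)) (200 * ((1 + q₁) * Cf q₁ 9 c₁) + 1)),
    hP₁.trans (le_max_left _ _), η₀, hη₀, 1 / 64, by norm_num, ?_⟩
  intro P m R φ Q hP hm hRm hcR h h1 hbound
  have hPP₁ : P₁ ≤ P := (le_max_left _ _).trans hP
  have hPa : 200 * (q₁ ^ 2 + 1) ≤ P := (le_max_left _ _).trans ((le_max_right _ _).trans hP)
  have hPb : 200 * ((1 + q₁) * Cf q₁ 9 c₁) + 1 ≤ P :=
    (le_max_right _ _).trans ((le_max_right _ _).trans hP)
  have hR : 0 < R := h.hR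
  have h0R : (0 : ℂ) ∈ ball (0 : ℂ) R := mem_ball_self hR
  obtain ⟨hQ0, hQ1⟩ := h.hQ 0 h0R
  have hP0 : 0 < P := lt_of_lt_of_le one_pos h.hP
  set κ := kap P (Q 0) with hκ
  have hκP : P ≤ κ := le_kap hP0.le hQ0
  have hκ0 : 0 < κ := lt_of_lt_of_le hP0 hκP
  have hκ1 : 1 ≤ κ := h.hP.trans hκP
  have hdiff : κ - P ≤ q₁ / κ := (kap_sub_le hP0 hQ0).trans (by
    exact div_le_div_of_nonneg_right hQ1 hκ0.le)
  have hmR : m * R ^ 2 = 16 := by
    rw [hRm, div_pow, Real.sq_sqrt hm.le]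
    field_simp
    norm_num
  -- the factor `s`
  have hs2 : (κ - P) ^ 2 ≤ 1 / 200 := by
    have h2 : (κ - P) ^ 2 ≤ (q₁ / κ) ^ 2 :=
      pow_le_pow_left₀ (by linarith) hdiff 2
    refine h2.trans ?_
    rw [div_pow, div_le_iff₀ (by positivity)]
    nlinarith [sq_nonneg q₁, sq_nonneg (κ - 1)]
  have hs : Real.sqrt (1 + (κ - P) ^ 2) ≤ 201 / 200 :=
    (LemmaS0_sqrt (sq_nonneg _)).trans (by linarith)
  -- the function `h`
  have hbC : ContDiff ℝ 1 (bb P κ φ) := (contDiff_bb h.smooth).of_le (by norm_num)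
  set c : ℝ := 3 * m / 8 with hcdef
  have hc0 : 0 < c := by positivity
  have hgC : ContDiff ℝ 1 (fun w : ℂ => Complex.exp ((c : ℂ) * w ^ 2)) := by
    have h2 : ContDiff ℝ 1 (fun w : ℂ => (c : ℂ) * w ^ 2) := by fun_prop
    exact h2.cexp
  have hhC : ContDiff ℝ 1 (fun w => bb P κ φ w * Complex.exp ((c : ℂ) * w ^ 2)) := hbC.mul hgC
  have hM : ∀ z ∈ ball (0 : ℂ) (R / 4), R / 8 ≤ ‖z‖ →
      ‖bb P κ φ z * Complex.exp ((c : ℂ) * z ^ 2)‖ ≤ 201 / 200 * Real.exp (-(3 / 128)) := by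
    intro z hz hz2
    have hzR : z ∈ ball (0 : ℂ) R := ball_subset_ball (by linarith) hz
    rw [norm_mul, gauss_norm]
    have h2 := norm_bb_le' (P := P) (κ := κ) (φ := φ) z
    have h3 : Real.sqrt (qf φ z) ≤
        Real.exp (P * z.re + (m / 4) * (-2 * z.re ^ 2 + z.im ^ 2) + 1 / 128) := by
      rw [Real.sqrt_le_left (Real.exp_pos _).le, ← Real.exp_nat_mul]
      refine (hbound z hzR).trans (Real.exp_le_exp.2 (le_of_eq ?_))
      push_cast
      ring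
    have h4 : Real.exp (-(P * z.re)) * Real.sqrt (qf φ z) ≤
        Real.exp ((m / 4) * (-2 * z.re ^ 2 + z.im ^ 2) + 1 / 128) := by
      refine (mul_le_mul_of_nonneg_left h3 (Real.exp_pos _).le).trans (le_of_eq ?_)
      rw [← Real.exp_add]
      congr 1
      ring
    have h5 : ‖z‖ ^ 2 = z.re ^ 2 + z.im ^ 2 := by
      rw [← Complex.normSq_eq_norm_sq, Complex.normSq_apply]
      ring
    have h6 : (R / 8) ^ 2 ≤ z.re ^ 2 + z.im ^ 2 := by
      rw [← h5]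
      exact pow_le_pow_left₀ (by positivity) hz2 2
    have h7 : m * (z.re ^ 2 + z.im ^ 2) ≥ 1 / 4 := by
      have h8 : m * (R / 8) ^ 2 ≤ m * (z.re ^ 2 + z.im ^ 2) := mul_le_mul_of_nonneg_left h6 hm.le
      have h9 : m * (R / 8) ^ 2 = 1 / 4 := by
        have : m * (R / 8) ^ 2 = m * R ^ 2 / 64 := by ring
        rw [this, hmR]
        norm_num
      linarith
    calc ‖bb P κ φ z‖ * Real.exp (c * (z.re ^ 2 - z.im ^ 2))
        ≤ (Real.sqrt (1 + (κ - P) ^ 2) * (Real.exp (-(P * z.re)) * Real.sqrt (qf φ z))) *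
            Real.exp (c * (z.re ^ 2 - z.im ^ 2)) :=
          mul_le_mul_of_nonneg_right h2 (Real.exp_pos _).le
      _ ≤ (201 / 200 * Real.exp ((m / 4) * (-2 * z.re ^ 2 + z.im ^ 2) + 1 / 128)) *
            Real.exp (c * (z.re ^ 2 - z.im ^ 2)) := by
          refine mul_le_mul_of_nonneg_right ?_ (Real.exp_pos _).le
          exact mul_le_mul hs h4 (by positivity) (by norm_num)
      _ = 201 / 200 * Real.exp ((m / 4) * (-2 * z.re ^ 2 + z.im ^ 2) + 1 / 128 +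
            c * (z.re ^ 2 - z.im ^ 2)) := by
          rw [mul_assoc, ← Real.exp_add]
      _ ≤ 201 / 200 * Real.exp (-(3 / 128)) := by
          refine mul_le_mul_of_nonneg_left (Real.exp_le_exp.2 ?_) (by norm_num)
          rw [hcdef]
          nlinarith
  have hmv := mean_value_le hhC hR hM
  have hh0 : bb P κ φ 0 * Complex.exp ((c : ℂ) * (0 : ℂ) ^ 2) = bb P κ φ 0 := by simp
  rw [hh0] at hmv
  -- the integral
  have hint : ∫ z in ball (0 : ℂ) (R / 4),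
      ‖dbar (fun w => bb P κ φ w * Complex.exp ((c : ℂ) * w ^ 2)) z‖ / ‖z‖ ≤ 8 / 5 * (1 / 400) := by
    have hI := LemmaS0_int hbC (R / 4)
    have hE : Real.exp (3 / 8) ≤ 8 / 5 := by
      have h2 := Real.add_one_le_exp (-(3 / 8) : ℝ)
      rw [Real.exp_neg] at h2
      have h3 : (0 : ℝ) < Real.exp (3 / 8) := Real.exp_pos _
      have h4 : (5 / 8 : ℝ) ≤ (Real.exp (3 / 8))⁻¹ := by linarith
      rw [le_inv_comm₀ (by norm_num) h3] at h4
      linarith
    have hpt : ∀ z ∈ ball (0 : ℂ) (R / 4),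
        ‖dbar (fun w => bb P κ φ w * Complex.exp ((c : ℂ) * w ^ 2)) z‖ / ‖z‖ ≤
          8 / 5 * (‖dbar (bb P κ φ) z‖ / ‖z - 0‖) := by
      intro z hz
      rw [dbar_mul_gauss hbC, norm_mul, gauss_norm, sub_zero]
      have h5 : ‖z‖ ^ 2 = z.re ^ 2 + z.im ^ 2 := by
        rw [← Complex.normSq_eq_norm_sq, Complex.normSq_apply]
        ring
      rw [mem_ball, dist_zero_right] at hz
      have h6 : z.re ^ 2 + z.im ^ 2 ≤ (R / 4) ^ 2 := by
        rw [← h5]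
        exact pow_le_pow_left₀ (norm_nonneg _) hz.le 2
      have h7 : c * (z.re ^ 2 - z.im ^ 2) ≤ 3 / 8 := by
        have h8 : c * (z.re ^ 2 - z.im ^ 2) ≤ c * (R / 4) ^ 2 :=
          mul_le_mul_of_nonneg_left (by nlinarith [sq_nonneg z.im]) hc0.le
        have h9 : c * (R / 4) ^ 2 = 3 / 8 := by
          have : c * (R / 4) ^ 2 = 3 * (m * R ^ 2) / 128 := by rw [hcdef]; ring
          rw [this, hmR]
          norm_num
        linarith
      have h8 : Real.exp (c * (z.re ^ 2 - z.im ^ 2)) ≤ 8 / 5 :=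
        (Real.exp_le_exp.2 h7).trans hE
      rw [← mul_div_assoc, mul_comm (8 / 5 : ℝ)]
      exact div_le_div_of_nonneg_right (mul_le_mul_of_nonneg_left h8 (norm_nonneg _))
        (norm_nonneg _)
    calc ∫ z in ball (0 : ℂ) (R / 4),
          ‖dbar (fun w => bb P κ φ w * Complex.exp ((c : ℂ) * w ^ 2)) z‖ / ‖z‖
        ≤ ∫ z in ball (0 : ℂ) (R / 4), 8 / 5 * (‖dbar (bb P κ φ) z‖ / ‖z - 0‖) := by
          refine integral_mono_of_nonneg (Filter.Eventually.of_forall fun z => by positivity)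
            ((hI.mono_set (LemmaS0_ball_sub _)).const_mul _) ?_
          exact ae_restrict_of_forall_mem measurableSet_ball hpt
      _ = 8 / 5 * ∫ z in ball (0 : ℂ) (R / 4), ‖dbar (bb P κ φ) z‖ / ‖z - 0‖ := by
          rw [integral_const_mul]
      _ ≤ 8 / 5 * ∫ z in sq (0 : ℂ) (R / 4), ‖dbar (bb P κ φ) z‖ / ‖z - 0‖ := by
          refine mul_le_mul_of_nonneg_left ?_ (by norm_num)
          refine setIntegral_mono_set hI (Filter.Eventually.of_forall fun z => by positivity) ?_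
          exact (LemmaS0_ball_sub _).eventuallyLE
      _ ≤ 8 / 5 * (1 / 400) := by
          refine mul_le_mul_of_nonneg_left ?_ (by norm_num)
          exact hlem P R φ Q hPP₁ hcR h 0 (mem_ball_self (by positivity))
  have hlow := h.norm_bb_zero_ge hc hcR h1
  have hCfκ : (1 + q₁) * (Cf q₁ 9 c₁ / κ) ≤ 1 / 200 := by
    rw [← mul_div_assoc, div_le_iff₀ hκ0]
    linarith
  have hexp : Real.exp (-(3 / 128)) ≤ 128 / 131 := by
    have h2 := Real.add_one_le_exp (3 / 128 : ℝ)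
    rw [Real.exp_neg, inv_le_comm₀ (Real.exp_pos _) (by norm_num)]
    linarith
  have hfin : (1 : ℝ) - 1 / 200 ≤ 201 / 200 * (128 / 131) + 8 / 5 * (1 / 400) := by
    have h2 : ‖bb P κ φ 0‖ ≤ 201 / 200 * (128 / 131) + 8 / 5 * (1 / 400) :=
      hmv.trans (add_le_add (mul_le_mul_of_nonneg_left hexp (by norm_num)) hint)
    linarith
  norm_num at hfin

end FC34
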