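import Pool.Agent.W_fc1c69_h34.Chain

/-! The macroscopic bound on the whole surface. -/

namespace FC34

open Complex MeasureTheory Metric Set

variable {M : Type*} [MetricSpace M] {Eig : ℝ → (M → ℝ) → Prop}

/-- The image of `ball 0 (1/2)` under a chart is open. -/
theorem MBAll_isOpen {q₁ l L : ℝ} (C : IsoChart M Eig q₁ l L) :
    IsOpen (C.c '' ball (0 : ℂ) (1 / 2)) := by
  rw [Metric.isOpen_iff]
  rintro _ ⟨u, hu, rfl⟩
  have hu' : ‖u‖ < 1 / 2 := mem_ball_zero_iff.mp hu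
  have hL : 0 < L := lt_of_lt_of_le one_pos C.hL
  have hr : 0 < 1 / 2 - ‖u‖ := by linarith
  have hsub : ball u (1 / 2 - ‖u‖) ⊆ ball (0 : ℂ) (1 / 2) := by
    intro w hw
    rw [mem_ball_zero_iff]
    rw [mem_ball, dist_eq_norm] at hw
    have h1 : ‖w‖ ≤ ‖w - u‖ + ‖u‖ := by
      calc ‖w‖ = ‖(w - u) + u‖ := by rw [sub_add_cancel]
        _ ≤ ‖w - u‖ + ‖u‖ := norm_add_le _ _
    linarith
  refine ⟨(1 / 2 - ‖u‖) / L, div_pos hr hL, ?_⟩
  refine (C.surj u ?_ _ hr (hsub.trans (ball_subset_ball (by norm_num)))).trans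
    (image_mono hsub)
  exact ball_subset_ball (by norm_num) hu

theorem MBAll_cont {ψ : ℂ → ℝ} (h : ContDiff ℝ 3 ψ) : Continuous (qf ψ) := by
  have hf : Continuous (fderiv ℝ ψ) := h.continuous_fderiv (by norm_num)
  have hx : Continuous (px ψ) := hf.clm_apply continuous_const
  have hy : Continuous (py ψ) := hf.clm_apply continuous_const
  exact ((hx.pow 2).add (hy.pow 2)).add (h.continuous.pow 2)

/-- Connectedness: all pairs. The set of points covered by charts `j` with `Chain i j` is open (the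
images of `ball 0 (1/2)` are open, by `surj`), so is the set covered by the other charts, and they
are disjoint by `chain_overlap`, `chain_trans`. -/
theorem chain_all [ConnectedSpace M] (𝒜 : FinAtlas M Eig) {s : ℝ} (hs : 0 < s) (hs' : s ≤ 1 / 8)
    (i j : Fin 𝒜.n) : Chain 𝒜 s i j := by
  by_contra hij
  set U : Set M := ⋃ k : {k : Fin 𝒜.n // Chain 𝒜 s i k}, (𝒜.C k.1).c '' ball (0 : ℂ) (1 / 2)
    with hU
  set W : Set M := ⋃ k : {k : Fin 𝒜.n // ¬ Chain 𝒜 s i k}, (𝒜.C k.1).c '' ball (0 : ℂ) (1 / 2)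
    with hW
  have hUo : IsOpen U := isOpen_iUnion fun k => MBAll_isOpen (𝒜.C k.1)
  have hWo : IsOpen W := isOpen_iUnion fun k => MBAll_isOpen (𝒜.C k.1)
  have hdisj : ∀ p, p ∈ U → p ∈ W → False := by
    intro p hpU hpW
    obtain ⟨k, u, hu, hku⟩ := mem_iUnion.mp hpU
    obtain ⟨k', u', hu', hku'⟩ := mem_iUnion.mp hpW
    exact k'.2 (chain_trans 𝒜 hs hs' k.2
      (chain_overlap 𝒜 hs hs' hu hu' (hku.trans hku'.symm)))
  have hcov : ∀ p, p ∈ U ∨ p ∈ W := by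
    intro p
    obtain ⟨k, u, hu, hku⟩ := 𝒜.cover p
    by_cases hk : Chain 𝒜 s i k
    · exact Or.inl (mem_iUnion.mpr ⟨⟨k, hk⟩, u, hu, hku⟩)
    · exact Or.inr (mem_iUnion.mpr ⟨⟨k, hk⟩, u, hu, hku⟩)
  have hcompl : Uᶜ = W := by
    ext p
    constructor
    · intro hp
      rcases hcov p with h | h
      · exact absurd h hp
      · exact h
    · intro hp hpU
      exact hdisj p hpU hp
  have hclop : IsClopen U := by
    refine ⟨?_, hUo⟩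
    rw [← isOpen_compl_iff, hcompl]
    exact hWo
  have h0 : (0 : ℂ) ∈ ball (0 : ℂ) (1 / 2) := mem_ball_self (by norm_num)
  have hne : U.Nonempty :=
    ⟨(𝒜.C i).c 0, mem_iUnion.mpr ⟨⟨i, chain_self 𝒜 hs hs' i⟩, 0, h0, rfl⟩⟩
  have huniv : U = univ := hclop.eq_univ hne
  refine hdisj ((𝒜.C j).c 0) ?_ (mem_iUnion.mpr ⟨⟨j, hij⟩, 0, h0, rfl⟩)
  rw [huniv]
  exact mem_univ _

/-- MB on the whole surface.  `V` = the maximum of `q` over all charts (`closedBall 0 (3Λ)`), attained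
at `(i₀, y₀)`; `FinAtlas.exists_pt` and `qf_transfer` move the point to some chart `j` at `|y₁| < 0.56Λ`
with `V ≤ L⁴ q_j(y₁)`; then `chain_all`. `V > 0` because `φ` is not identically zero. -/
theorem mb_all [ConnectedSpace M] (𝒜 : FinAtlas M Eig) {s : ℝ} (hs : 0 < s) (hs' : s ≤ 1 / 8) :
    ∃ N : ℝ, 0 ≤ N ∧ ∀ (lam : ℝ) (φ : M → ℝ), 0 < lam → Eig lam φ → (∃ p, φ p ≠ 0) →
      ∀ (ψ Q : Fin 𝒜.n → ℂ → ℝ), (∀ k, IsScaled (𝒜.C k) φ (Lam lam) (ψ k)) →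
      (∀ k, PreLoc 𝒜.q₁ 𝒜.l (Lam lam) (ψ k) (Q k)) →
      ∃ V : ℝ, 0 < V ∧ (∀ k, ∀ w ∈ closedBall (0 : ℂ) (3 * Lam lam), qf (ψ k) w ≤ V) ∧
        ∀ k, ∀ x ∈ closedBall (0 : ℂ) (2.5 * Lam lam),
          ∃ y ∈ closedBall x (s * Lam lam), V ≤ qf (ψ k) y * Real.exp (N * Lam lam) := by
  obtain ⟨p₀⟩ := (inferInstance : Nonempty M)
  obtain ⟨i₀, -⟩ := 𝒜.cover p₀
  have hL : 1 ≤ 𝒜.L := (𝒜.C i₀).hL
  have hch := fun j k => chain_all 𝒜 hs hs' j k (Real.log (𝒜.L ^ 4))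
  choose N₂ hN₂ using hch
  have hN₂le : ∀ j k, N₂ j k ≤ ∑ j, ∑ k, |N₂ j k| := by
    intro j k
    have h1 : |N₂ j k| ≤ ∑ k, |N₂ j k| :=
      Finset.single_le_sum (f := fun k => |N₂ j k|) (fun k _ => abs_nonneg _) (Finset.mem_univ k)
    have h2 : ∑ k, |N₂ j k| ≤ ∑ j, ∑ k, |N₂ j k| :=
      Finset.single_le_sum (f := fun j => ∑ k, |N₂ j k|)
        (fun j _ => Finset.sum_nonneg fun k _ => abs_nonneg _) (Finset.mem_univ j)
    exact (le_abs_self _).trans (h1.trans h2)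
  refine ⟨∑ j, ∑ k, |N₂ j k|,
    Finset.sum_nonneg fun j _ => Finset.sum_nonneg fun k _ => abs_nonneg _, ?_⟩
  intro lam φ hlam hE hφ ψ Q hψ hpre
  have hΛ1 : 1 ≤ Lam lam := le_max_left _ _
  have hΛ : 0 < Lam lam := lt_of_lt_of_le one_pos hΛ1
  have hmax : ∀ k, ∃ y ∈ closedBall (0 : ℂ) (3 * Lam lam),
      ∀ w ∈ closedBall (0 : ℂ) (3 * Lam lam), qf (ψ k) w ≤ qf (ψ k) y := by
    intro k
    obtain ⟨y, hy, hm⟩ := (isCompact_closedBall (0 : ℂ) (3 * Lam lam)).exists_isMaxOn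
      ⟨0, mem_closedBall_self (by positivity)⟩ (MBAll_cont (hpre k).smooth).continuousOn
    exact ⟨y, hy, fun w hw => hm hw⟩
  choose y hy hym using hmax
  obtain ⟨i₁, -, hi₁⟩ := Finset.exists_max_image (Finset.univ : Finset (Fin 𝒜.n))
    (fun k => qf (ψ k) (y k)) ⟨i₀, Finset.mem_univ _⟩
  set V : ℝ := qf (ψ i₁) (y i₁) with hV
  have hVmax : ∀ k, ∀ w ∈ closedBall (0 : ℂ) (3 * Lam lam), qf (ψ k) w ≤ V :=
    fun k w hw => (hym k w hw).trans (hi₁ k (Finset.mem_univ k))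
  have hVpos : 0 < V := by
    obtain ⟨p, hp⟩ := hφ
    obtain ⟨j, x, hx, hxp⟩ := 𝒜.exists_pt hΛ p
    have hx' : ‖x‖ < 0.56 * Lam lam := mem_ball_zero_iff.mp hx
    have hx4 : x ∈ ball (0 : ℂ) (4 * Lam lam) := by
      rw [mem_ball_zero_iff]; linarith
    have hx3 : x ∈ closedBall (0 : ℂ) (3 * Lam lam) := by
      rw [mem_closedBall_zero_iff]; linarith
    have h1 : ψ j x ≠ 0 := by
      rw [(hψ j).2 x hx4, hxp]
      exact hp
    have h2 : 0 < qf (ψ j) x := by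
      unfold qf
      positivity
    exact lt_of_lt_of_le h2 (hVmax j x hx3)
  refine ⟨V, hVpos, hVmax, ?_⟩
  obtain ⟨j, y₁, hy₁, hpt⟩ := 𝒜.exists_pt hΛ ((𝒜.C i₁).pt (Lam lam) (y i₁))
  have hy₁n : ‖y₁‖ < 0.56 * Lam lam := mem_ball_zero_iff.mp hy₁
  have hy₁4 : y₁ ∈ ball (0 : ℂ) (4 * Lam lam) := by
    rw [mem_ball_zero_iff]; linarith
  have hy₁25 : y₁ ∈ closedBall (0 : ℂ) (2.5 * Lam lam) := by
    rw [mem_closedBall_zero_iff]; linarith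
  have hyi4 : y i₁ ∈ ball (0 : ℂ) (4 * Lam lam) := by
    have := mem_closedBall_zero_iff.mp (hy i₁)
    rw [mem_ball_zero_iff]; linarith
  have htr : qf (ψ i₁) (y i₁) ≤ 𝒜.L ^ 4 * qf (ψ j) y₁ :=
    qf_transfer (𝒜.C i₁) (𝒜.C j) hΛ1 (hψ i₁) (hψ j) hyi4 hy₁4 hpt.symm
  have hL4 : 1 ≤ 𝒜.L ^ 4 := one_le_pow₀ hL
  have hlog : 0 ≤ Real.log (𝒜.L ^ 4) := Real.log_nonneg hL4
  have hexp : 𝒜.L ^ 4 ≤ Real.exp (Real.log (𝒜.L ^ 4) * Lam lam) := by
    calc 𝒜.L ^ 4 = Real.exp (Real.log (𝒜.L ^ 4)) :=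
          (Real.exp_log (lt_of_lt_of_le one_pos hL4)).symm
      _ ≤ Real.exp (Real.log (𝒜.L ^ 4) * Lam lam) :=
          Real.exp_le_exp.mpr (le_mul_of_one_le_right hlog hΛ1)
  have hq0 : 0 ≤ qf (ψ j) y₁ := by
    unfold qf
    positivity
  have hstart : V ≤ qf (ψ j) y₁ * Real.exp (Real.log (𝒜.L ^ 4) * Lam lam) := by
    refine htr.trans ?_
    rw [mul_comm]
    exact mul_le_mul_of_nonneg_left hexp hq0
  intro k x hx
  obtain ⟨z, hz, hzV⟩ := hN₂ j k lam φ hlam hE ψ Q hψ hpre V hVpos hVmax ⟨y₁, hy₁25, hstart⟩ x hx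
  refine ⟨z, hz, hzV.trans ?_⟩
  have hqz : 0 ≤ qf (ψ k) z := by
    unfold qf
    positivity
  refine mul_le_mul_of_nonneg_left ?_ hqz
  exact Real.exp_le_exp.mpr (mul_le_mul_of_nonneg_right (hN₂le j k) hΛ.le)

end FC34
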