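import Pool.Agent.W_fc1c69_h34.LemmaS
import Pool.Agent.W_fc1c69_h34.Tops

/-! The macroscopic bound inside one chart (proofs row 215, STEP and CHAIN (a)). -/

namespace FC34

open Complex MeasureTheory Metric Set

theorem MBStep_norm_le {x z : ℂ} {R r : ℝ} (hx : x ∈ closedBall (0 : ℂ) R) (hz : ‖z - x‖ ≤ r) :
    z ∈ closedBall (0 : ℂ) (R + r) := by
  rw [mem_closedBall_zero_iff] at *
  have h1 : z = x + (z - x) := by ring
  calc ‖z‖ = ‖x + (z - x)‖ := by rw [← h1]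
    _ ≤ ‖x‖ + ‖z - x‖ := norm_add_le _ _
    _ ≤ R + r := add_le_add hx hz

/-- STEP.  `β = 6 s (N₁+1) Λ²`, `w = q exp(β/|·-x|)`, `y ∈ closedBall x (2sΛ)` with
`V ≤ q(y) e^{N₁Λ}`; if `|y - x| ≤ sΛ` take `y' = y`. Otherwise suppose `q < V e^{-(6N₁+5)Λ}` on
`closedBall x (sΛ)`. For `|x'-x| ∈ [3sΛ, 4sΛ]`: `w(x') ≤ V e^{β/(3sΛ)} ≤ q(y) e^{N₁Λ + β/(3sΛ)}` and
`β/(2sΛ) - β/(3sΛ) = (N₁+1)Λ`, so `w(x') < w(y)` (`|y-x| ≤ 2sΛ`). For `|x'-x| ∈ [3sΛ/4, sΛ]`: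
`w(x') < V e^{-(6N₁+5)Λ + 4β/(3sΛ)} ≤ q(y) e^{N₁Λ-(6N₁+5)Λ} e^{4β/(3sΛ)}`,
`4β/(3sΛ) - β/(2sΛ) = 5(N₁+1)Λ`. So the maximum of `w` over the annulus `[3sΛ/4, 4sΛ]` is at some `z`
with `sΛ < |z-x| < 3sΛ`; `noInteriorMax` (`β/|z-x|² ≥ (2/3)(N₁+1)/s ≥ T₁`). -/
theorem mb_step (q₁ l s : ℝ) (hq : 0 ≤ q₁) (hl : 0 ≤ l) (hs : 0 < s) (hs' : s ≤ 1 / 8) :
    ∃ N₀ : ℝ, 0 ≤ N₀ ∧ ∀ N₁ : ℝ, N₀ ≤ N₁ → ∀ (Λ : ℝ) (φ Q : ℂ → ℝ), Loc q₁ l Λ φ Q → ∀ V : ℝ,
      0 < V → (∀ w ∈ closedBall (0 : ℂ) (3 * Λ), qf φ w ≤ V) →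
      ∀ x ∈ closedBall (0 : ℂ) (2.5 * Λ),
        (∃ y ∈ closedBall x (2 * s * Λ), V ≤ qf φ y * Real.exp (N₁ * Λ)) →
        ∃ y ∈ closedBall x (s * Λ), V ≤ qf φ y * Real.exp ((6 * N₁ + 5) * Λ) := by
  obtain ⟨T₁, hT₁, hmax⟩ := noInteriorMax q₁ l hq hl
  refine ⟨3 / 2 * s * T₁, by positivity, ?_⟩
  intro N₁ hN₁ Λ φ Q h V hV hVb x hx ⟨y, hy, hyV⟩
  have hΛ : 0 < Λ := lt_of_lt_of_le one_pos h.hΛ
  have hN₁0 : 0 ≤ N₁ := le_trans (by positivity) hN₁
  rw [mem_closedBall, dist_eq_norm] at hy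
  have hsΛ : 0 < s * Λ := by positivity
  have hsΛ8 : s * Λ ≤ Λ / 8 := by nlinarith
  have hqy : 0 < qf φ y := by
    by_contra hcon
    push Not at hcon
    have := mul_nonpos_of_nonpos_of_nonneg hcon (Real.exp_pos (N₁ * Λ)).le
    linarith
  by_cases hyx : ‖y - x‖ ≤ s * Λ
  · refine ⟨y, by rw [mem_closedBall, dist_eq_norm]; exact hyx, hyV.trans ?_⟩
    apply mul_le_mul_of_nonneg_left _ hqy.le
    rw [Real.exp_le_exp]
    apply mul_le_mul_of_nonneg_right _ hΛ.le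
    linarith
  push Not at hyx
  by_contra hcon
  push Not at hcon
  set β : ℝ := 6 * s * (N₁ + 1) * Λ ^ 2 with hβdef
  have hβ : 0 < β := by positivity
  -- the annulus
  let A : Set ℂ := {x' | 3 / 4 * (s * Λ) ≤ ‖x' - x‖ ∧ ‖x' - x‖ ≤ 4 * (s * Λ)}
  have hAc : Continuous (fun x' : ℂ => ‖x' - x‖) := by fun_prop
  have hAcl : IsClosed A :=
    (isClosed_le continuous_const hAc).inter (isClosed_le hAc continuous_const)
  have hAsub : A ⊆ closedBall (0 : ℂ) (3 * Λ) := by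
    intro x' hx'
    have := MBStep_norm_le hx hx'.2
    exact closedBall_subset_closedBall (by linarith) this
  have hAcpt : IsCompact A :=
    (isCompact_closedBall (0 : ℂ) (3 * Λ)).of_isClosed_subset hAcl hAsub
  have hyA : y ∈ A := ⟨by linarith, by linarith⟩
  have hApos : ∀ x' ∈ A, 0 < ‖x' - x‖ := fun x' hx' =>
    lt_of_lt_of_le (by positivity) hx'.1
  have hwc : ContinuousOn (fun x' => qf φ x' * Real.exp (β / ‖x' - x‖)) A := by
    apply ContinuousOn.mul h.continuous_qf.continuousOn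
    apply Real.continuous_exp.comp_continuousOn
    apply ContinuousOn.div continuousOn_const (by fun_prop)
    intro x' hx'
    exact (hApos x' hx').ne'
  obtain ⟨z, hzA, hzmax⟩ := hAcpt.exists_isMaxOn ⟨y, hyA⟩ hwc
  have hzmax' : ∀ x' ∈ A, qf φ x' * Real.exp (β / ‖x' - x‖) ≤ qf φ z * Real.exp (β / ‖z - x‖) :=
    fun x' hx' => hzmax hx'
  have hwy := hzmax' y hyA
  have hzr : 0 < ‖z - x‖ := hApos z hzA
  have hbase : qf φ y * Real.exp (β / (2 * (s * Λ))) ≤ qf φ y * Real.exp (β / ‖y - x‖) := by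
    apply mul_le_mul_of_nonneg_left _ hqy.le
    rw [Real.exp_le_exp]
    exact div_le_div_of_nonneg_left hβ.le (by linarith) (by linarith)
  have hβ1 : β / (s * Λ) = 6 * (N₁ + 1) * Λ := by
    rw [hβdef]; field_simp
  have hβ2 : β / (2 * (s * Λ)) = 3 * (N₁ + 1) * Λ := by
    rw [hβdef]; field_simp; ring
  have hβ3 : β / (3 * (s * Λ)) = 2 * (N₁ + 1) * Λ := by
    rw [hβdef]; field_simp; ring
  have hβ4 : β / (3 / 4 * (s * Λ)) = 8 * (N₁ + 1) * Λ := by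
    rw [hβdef]; field_simp; ring
  have hqz : 0 < qf φ z := by
    by_contra hc
    push Not at hc
    have h1 := mul_nonpos_of_nonpos_of_nonneg hc (Real.exp_pos (β / ‖z - x‖)).le
    have h2 : 0 < qf φ y * Real.exp (β / ‖y - x‖) := mul_pos hqy (Real.exp_pos _)
    linarith
  have hz3 : ‖z - x‖ < 3 * (s * Λ) := by
    by_contra hc
    push Not at hc
    have h1 : qf φ z * Real.exp (β / ‖z - x‖) ≤ V * Real.exp (2 * (N₁ + 1) * Λ) := by
      apply mul_le_mul (hVb z (hAsub hzA)) _ (Real.exp_pos _).le hV.le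
      rw [Real.exp_le_exp, ← hβ3]
      exact div_le_div_of_nonneg_left hβ.le (by positivity) hc
    have h2 : V * Real.exp (2 * (N₁ + 1) * Λ) ≤
        qf φ y * Real.exp (N₁ * Λ) * Real.exp (2 * (N₁ + 1) * Λ) :=
      mul_le_mul_of_nonneg_right hyV (Real.exp_pos _).le
    have h3 : qf φ y * Real.exp (N₁ * Λ) * Real.exp (2 * (N₁ + 1) * Λ) <
        qf φ y * Real.exp (3 * (N₁ + 1) * Λ) := by
      rw [mul_assoc (qf φ y), ← Real.exp_add]
      apply mul_lt_mul_of_pos_left _ hqy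
      rw [Real.exp_lt_exp]
      nlinarith
    rw [hβ2] at hbase
    linarith
  have hz1 : s * Λ < ‖z - x‖ := by
    by_contra hc
    push Not at hc
    have h0 := hcon z (by rw [mem_closedBall, dist_eq_norm]; exact hc)
    have h1 : qf φ z * Real.exp (β / ‖z - x‖) ≤ qf φ z * Real.exp (8 * (N₁ + 1) * Λ) := by
      apply mul_le_mul_of_nonneg_left _ hqz.le
      rw [Real.exp_le_exp, ← hβ4]
      exact div_le_div_of_nonneg_left hβ.le (by positivity) hzA.1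
    have h2 : qf φ z * Real.exp (8 * (N₁ + 1) * Λ) =
        qf φ z * Real.exp ((6 * N₁ + 5) * Λ) * Real.exp ((2 * N₁ + 3) * Λ) := by
      rw [mul_assoc (qf φ z), ← Real.exp_add]
      congr 2
      ring
    have h3 : qf φ z * Real.exp ((6 * N₁ + 5) * Λ) * Real.exp ((2 * N₁ + 3) * Λ) <
        V * Real.exp ((2 * N₁ + 3) * Λ) :=
      mul_lt_mul_of_pos_right h0 (Real.exp_pos _)
    have h4 : V * Real.exp ((2 * N₁ + 3) * Λ) ≤
        qf φ y * Real.exp (N₁ * Λ) * Real.exp ((2 * N₁ + 3) * Λ) :=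
      mul_le_mul_of_nonneg_right hyV (Real.exp_pos _).le
    have h5 : qf φ y * Real.exp (N₁ * Λ) * Real.exp ((2 * N₁ + 3) * Λ) =
        qf φ y * Real.exp (3 * (N₁ + 1) * Λ) := by
      rw [mul_assoc (qf φ y), ← Real.exp_add]
      congr 2
      ring
    rw [hβ2] at hbase
    linarith
  have hball : ball z (‖z - x‖ / 4) ⊆ A := by
    intro x' hx'
    rw [mem_ball, dist_eq_norm] at hx'
    have e1 : ‖z - x‖ - ‖x' - z‖ ≤ ‖x' - x‖ := by
      have := norm_sub_norm_le (z - x) (z - x')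
      rw [sub_sub_sub_cancel_left, norm_sub_rev z x'] at this
      exact this
    have e2 : ‖x' - x‖ ≤ ‖x' - z‖ + ‖z - x‖ := by
      have := norm_add_le (x' - z) (z - x)
      rwa [sub_add_sub_cancel] at this
    exact ⟨by linarith, by linarith⟩
  refine hmax Λ φ Q h β x z hβ ?_ ?_ ?_ ?_ hqz ?_
  · intro hzx
    rw [hzx, sub_self, norm_zero] at hzr
    exact lt_irrefl _ hzr
  · linarith
  · rw [le_div_iff₀ (by positivity)]
    have e1 : ‖z - x‖ ^ 2 ≤ (3 * (s * Λ)) ^ 2 := pow_le_pow_left₀ hzr.le hz3.le 2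
    calc T₁ * ‖z - x‖ ^ 2 ≤ T₁ * (3 * (s * Λ)) ^ 2 :=
          mul_le_mul_of_nonneg_left e1 (by linarith)
      _ = 6 * s * Λ ^ 2 * (3 / 2 * s * T₁) := by ring
      _ ≤ 6 * s * Λ ^ 2 * (N₁ + 1) := by
          apply mul_le_mul_of_nonneg_left _ (by positivity)
          linarith
      _ = β := by rw [hβdef]; ring
  · intro x' hx'
    have h1 := hAsub (hball hx')
    rw [mem_closedBall_zero_iff] at h1
    rw [mem_ball_zero_iff]
    linarith
  · intro x' hx'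
    have hx'A := hball hx'
    have h1 := hzmax' x' hx'A
    calc qf φ x' = (qf φ x' * Real.exp (β / ‖x' - x‖)) * Real.exp (-β / ‖x' - x‖) := by
          rw [mul_assoc, ← Real.exp_add, neg_div, add_neg_cancel, Real.exp_zero, mul_one]
      _ ≤ (qf φ z * Real.exp (β / ‖z - x‖)) * Real.exp (-β / ‖x' - x‖) :=
          mul_le_mul_of_nonneg_right h1 (Real.exp_pos _).le
      _ = _ := by
          rw [mul_assoc, ← Real.exp_add]
          congr 2
          ring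

/-- CHAIN (a): `⌈5/s⌉` steps along the segment. -/
theorem mb_chart (q₁ l s N₁ : ℝ) (hq : 0 ≤ q₁) (hl : 0 ≤ l) (hs : 0 < s) (hs' : s ≤ 1 / 8) :
    ∃ N₂ : ℝ, 0 ≤ N₂ ∧ ∀ (Λ : ℝ) (φ Q : ℂ → ℝ), Loc q₁ l Λ φ Q → ∀ V : ℝ,
      0 < V → (∀ w ∈ closedBall (0 : ℂ) (3 * Λ), qf φ w ≤ V) →
      (∃ y ∈ closedBall (0 : ℂ) (2.5 * Λ), V ≤ qf φ y * Real.exp (N₁ * Λ)) →
      ∀ x ∈ closedBall (0 : ℂ) (2.5 * Λ),
        ∃ y ∈ closedBall x (s * Λ), V ≤ qf φ y * Real.exp (N₂ * Λ) := by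
  obtain ⟨N₀, hN₀, hstep⟩ := mb_step q₁ l s hq hl hs hs'
  let M : ℕ → ℝ := fun k => Nat.rec (max N₁ N₀) (fun _ m => 6 * m + 5) k
  have hM0 : M 0 = max N₁ N₀ := rfl
  have hMs : ∀ k, M (k + 1) = 6 * M k + 5 := fun k => rfl
  have hMN : ∀ k, N₀ ≤ M k := by
    intro k
    induction k with
    | zero => rw [hM0]; exact le_max_right _ _
    | succ k ih => rw [hMs]; linarith
  set n : ℕ := ⌈5 / s⌉₊ with hn
  have hn5 : 5 / s ≤ n := Nat.le_ceil _
  have hnpos : (0 : ℝ) < n := lt_of_lt_of_le (by positivity) hn5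
  refine ⟨M n, hN₀.trans (hMN n), ?_⟩
  intro Λ φ Q h V hV hVb ⟨y₀, hy₀, hy₀V⟩ x hx
  have hΛ : 0 < Λ := lt_of_lt_of_le one_pos h.hΛ
  have hsΛ : 0 < s * Λ := by positivity
  let X : ℕ → ℂ := fun k => y₀ + ((k / n : ℝ) : ℂ) * (x - y₀)
  have hX0 : X 0 = y₀ := by simp [X]
  have hXn : X n = x := by
    have : ((n : ℝ) / (n : ℝ)) = 1 := div_self hnpos.ne'
    simp only [X, this]
    push_cast
    ring
  have hXmem : ∀ k ≤ n, X k ∈ closedBall (0 : ℂ) (2.5 * Λ) := by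
    intro k hk
    have hc := (convex_closedBall (0 : ℂ) (2.5 * Λ)) hy₀ hx
      (a := 1 - (k : ℝ) / n) (b := (k : ℝ) / n)
      (by rw [sub_nonneg, div_le_one hnpos]; exact_mod_cast hk) (by positivity) (by ring)
    have e : X k = (1 - (k : ℝ) / n) • y₀ + ((k : ℝ) / n) • x := by
      simp only [X, Complex.real_smul]
      push_cast
      ring
    rw [e]
    exact hc
  have hXstep : ∀ k, ‖X k - X (k + 1)‖ ≤ s * Λ := by
    intro k
    have e : X k - X (k + 1) = ((-(1 / n : ℝ) : ℝ) : ℂ) * (x - y₀) := by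
      simp only [X]
      push_cast
      ring
    rw [e, norm_mul, Complex.norm_real, Real.norm_eq_abs, abs_neg, abs_of_pos (by positivity)]
    have h5 : ‖x - y₀‖ ≤ 5 * Λ := by
      rw [mem_closedBall_zero_iff] at hx hy₀
      calc ‖x - y₀‖ ≤ ‖x‖ + ‖y₀‖ := norm_sub_le _ _
        _ ≤ 5 * Λ := by linarith
    have h6 : 5 ≤ s * n := by
      rw [div_le_iff₀ hs] at hn5
      linarith
    rw [one_div, inv_mul_le_iff₀ hnpos]
    nlinarith
  have hP : ∀ k ≤ n, ∃ y ∈ closedBall (X k) (s * Λ), V ≤ qf φ y * Real.exp (M k * Λ) := by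
    intro k
    induction k with
    | zero =>
      intro _
      refine ⟨y₀, by rw [hX0]; exact mem_closedBall_self hsΛ.le, hy₀V.trans ?_⟩
      apply mul_le_mul_of_nonneg_left _ (qf_nonneg φ y₀)
      rw [Real.exp_le_exp, hM0]
      exact mul_le_mul_of_nonneg_right (le_max_left _ _) hΛ.le
    | succ k ih =>
      intro hk
      obtain ⟨y, hy, hyV⟩ := ih (by omega)
      have := hstep (M k) (hMN k) Λ φ Q h V hV hVb (X (k + 1)) (hXmem _ hk) ⟨y, ?_, hyV⟩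
      · rw [hMs]
        exact this
      · rw [mem_closedBall, dist_eq_norm] at hy ⊢
        have e2 : ‖y - X (k + 1)‖ ≤ ‖y - X k‖ + ‖X k - X (k + 1)‖ := by
          have := norm_add_le (y - X k) (X k - X (k + 1))
          rwa [sub_add_sub_cancel] at this
        have := hXstep k
        linarith
  have := hP n le_rfl
  rwa [hXn] at this

end FC34
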