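import Pool.Agent.W_fc1c69_h34.Ident

/-! Pointwise bounds in the situation (SS) (proofs row 213). -/

namespace FC34

open Complex MeasureTheory Metric Set

variable {q₁ C₇ η₀ P R c₁ : ℝ} {φ Q : ℂ → ℝ}

theorem Pointwise_q (h : SS q₁ C₇ η₀ P R φ Q) : 0 ≤ Q 0 ∧ Q 0 ≤ q₁ :=
  h.hQ 0 (mem_ball_self h.hR)

theorem Pointwise_kap (h : SS q₁ C₇ η₀ P R φ Q) : 1 ≤ kap P (Q 0) ∧ P ≤ kap P (Q 0) ∧
    0 ≤ kap P (Q 0) - P ∧ kap P (Q 0) - P ≤ q₁ / kap P (Q 0) ∧ kap P (Q 0) - P ≤ q₁ := by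
  obtain ⟨h0, h1⟩ := Pointwise_q h
  have hP := h.hP
  have h2 : P ≤ kap P (Q 0) := le_kap (by linarith) h0
  have h3 : 1 ≤ kap P (Q 0) := hP.trans h2
  have h4 := kap_sub_le (P := P) (Q0 := Q 0) (by linarith) h0
  have h5 : Q 0 / kap P (Q 0) ≤ q₁ / kap P (Q 0) :=
    div_le_div_of_nonneg_right h1 (by linarith)
  have h6 : q₁ / kap P (Q 0) ≤ q₁ := div_le_self (h0.trans h1) h3
  exact ⟨h3, h2, by linarith, by linarith, by linarith⟩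

theorem Pointwise_e (h : SS q₁ C₇ η₀ P R φ Q) {z : ℂ} (hz : z ∈ ball (0 : ℂ) R) :
    Real.exp (-(P * z.re)) * Real.sqrt (qf φ z) ≤ Real.exp (C₇ / 2) := by
  have h1 : Real.sqrt (qf φ z) ≤ Real.exp (P * z.re + C₇ / 2) := by
    rw [Real.sqrt_le_left (Real.exp_pos _).le, ← Real.exp_nat_mul]
    refine (h.top z hz).trans (le_of_eq ?_)
    congr 1
    push_cast
    ring
  calc Real.exp (-(P * z.re)) * Real.sqrt (qf φ z)
      ≤ Real.exp (-(P * z.re)) * Real.exp (P * z.re + C₇ / 2) :=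
        mul_le_mul_of_nonneg_left h1 (Real.exp_pos _).le
    _ = Real.exp (C₇ / 2) := by
        rw [← Real.exp_add]
        congr 1
        ring

theorem Pointwise_Cb (h : SS q₁ C₇ η₀ P R φ Q) : 0 < Cb q₁ C₇ := by
  obtain ⟨h0, h1⟩ := Pointwise_q h
  unfold Cb
  have : 0 ≤ q₁ := h0.trans h1
  positivity

theorem Pointwise_Cf (h : SS q₁ C₇ η₀ P R φ Q) (hc : 0 < c₁) : Cb q₁ C₇ ≤ Cf q₁ C₇ c₁ := by
  have h1 := Pointwise_Cb h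
  have h2 : 0 < 8 / c₁ := by positivity
  unfold Cf
  nlinarith

theorem Pointwise_norm_exp (t : ℝ) : ‖Complex.exp (Complex.I * ((t : ℝ) : ℂ))‖ = 1 := by
  rw [mul_comm]
  exact Complex.norm_exp_ofReal_mul_I t

theorem Pointwise_norm_exp' (t : ℝ) : ‖Complex.exp (-(Complex.I * ((t : ℝ) : ℂ)))‖ = 1 := by
  have h1 : -(Complex.I * ((t : ℝ) : ℂ)) = Complex.I * ((-t : ℝ) : ℂ) := by
    push_cast
    ring
  rw [h1]
  exact Pointwise_norm_exp (-t)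

theorem Pointwise_mem {R : ℝ} {z : ℂ} (hz : z ∈ ball (0 : ℂ) (7 / 8 * R)) (hR : 0 < R) :
    z ∈ ball (0 : ℂ) R :=
  ball_subset_ball (by linarith) hz

theorem Pointwise_deriv {f : ℂ → ℝ} (hf : Differentiable ℝ f) (z : ℂ) (s : ℝ) :
    HasDerivAt (fun s : ℝ => f (z + s)) (px f (z + s)) s := by
  have h1 : HasDerivAt (fun s : ℝ => z + (s : ℂ)) 1 s :=
    ((hasDerivAt_id s).ofReal_comp).const_add z
  exact (hf (z + s)).hasFDerivAt.comp_hasDerivAt s h1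

/-- `|b| ≤ C_b` on `B_R`.  From `norm_bb_le`, `q ≤ e^{2Px+C₇}` and `0 ≤ κ-P ≤ Q₀/κ ≤ q₁`. -/
theorem SS.norm_bb_le (h : SS q₁ C₇ η₀ P R φ Q) {z : ℂ} (hz : z ∈ ball (0 : ℂ) R) :
    ‖bb P (kap P (Q 0)) φ z‖ ≤ Cb q₁ C₇ := by
  obtain ⟨-, -, h1, -, h2⟩ := Pointwise_kap h
  refine (_root_.FC34.norm_bb_le z).trans ?_
  rw [abs_of_nonneg h1]
  unfold Cb
  exact mul_le_mul (by linarith) (Pointwise_e h hz) (by positivity) (by linarith)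

/-- `|f| ≤ C_b` on `B_R`. -/
theorem SS.abs_ff_le_Cb (h : SS q₁ C₇ η₀ P R φ Q) {z : ℂ} (hz : z ∈ ball (0 : ℂ) R) :
    |ff P φ z| ≤ Cb q₁ C₇ := by
  obtain ⟨h0, h1⟩ := Pointwise_q h
  refine ((_root_.FC34.abs_ff_le z).trans (Pointwise_e h hz)).trans ?_
  unfold Cb
  have h2 := Real.exp_pos (C₇ / 2)
  have h3 : 0 ≤ q₁ := h0.trans h1
  nlinarith

/-- `|f| ≤ C_f/κ` on `B_{7R/8}`.  Proof: on the segment from `z - R/8` to `z` (inside `B_R`),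
`(e^{κs} f)' = e^{κs} Re(e^{iκy} b)` is bounded by `C_b e^{κs}`, so
`|f(z)| ≤ e^{-κR/8} C_b + C_b/κ`, and `e^{-t} ≤ 1/t`, `R ≥ c₁`. -/
theorem SS.abs_ff_le (h : SS q₁ C₇ η₀ P R φ Q) (hc : 0 < c₁) (hR : c₁ ≤ R) {z : ℂ}
    (hz : z ∈ ball (0 : ℂ) (7 / 8 * R)) :
    |ff P φ z| ≤ Cf q₁ C₇ c₁ / kap P (Q 0) := by
  obtain ⟨hk1, -, -, -, -⟩ := Pointwise_kap h
  have hRp := h.hR
  set κ := kap P (Q 0) with hκ
  have hkp : 0 < κ := by linarith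
  have hC := Pointwise_Cb h
  have hz1 : ‖z‖ < 7 / 8 * R := by simpa using hz
  have hmem : ∀ s ∈ Icc (-(R / 8)) (0 : ℝ), z + (s : ℂ) ∈ ball (0 : ℂ) R := by
    intro s hs
    rw [mem_ball_zero_iff]
    have h1 : ‖(s : ℂ)‖ ≤ R / 8 := by
      rw [Complex.norm_real, Real.norm_eq_abs, abs_of_nonpos hs.2]
      linarith [hs.1]
    have h2 := norm_add_le z (s : ℂ)
    linarith
  have hf : Differentiable ℝ (ff P φ) := (contDiff_ff h.smooth).differentiable (by norm_num)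
  -- the function `E s = e^{κ s} f (z + s)`
  have hE : ∀ s : ℝ, HasDerivAt (fun s : ℝ => Real.exp (κ * s) * ff P φ (z + s))
      (Real.exp (κ * s) * (px (ff P φ) (z + s) + κ * ff P φ (z + s))) s := by
    intro s
    have h1 : HasDerivAt (fun s : ℝ => Real.exp (κ * s)) (Real.exp (κ * s) * κ) s := by
      have h2 : HasDerivAt (fun s : ℝ => κ * s) κ s := by
        simpa using (hasDerivAt_id s).const_mul κ
      exact h2.exp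
    refine (h1.mul (Pointwise_deriv hf z s)).congr_deriv ?_
    ring
  have hG : ∀ s : ℝ, HasDerivAt (fun s : ℝ => Cb q₁ C₇ / κ * Real.exp (κ * s))
      (Cb q₁ C₇ * Real.exp (κ * s)) s := by
    intro s
    have h2 : HasDerivAt (fun s : ℝ => κ * s) κ s := by
      simpa using (hasDerivAt_id s).const_mul κ
    refine (h2.exp.const_mul (Cb q₁ C₇ / κ)).congr_deriv ?_
    field_simp
  have hb : ∀ s ∈ Icc (-(R / 8)) (0 : ℝ),
      |px (ff P φ) (z + s) + κ * ff P φ (z + s)| ≤ Cb q₁ C₇ := by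
    intro s hs
    rw [re_bb h.smooth]
    refine (Complex.abs_re_le_norm _).trans ?_
    rw [norm_mul, Pointwise_norm_exp, one_mul]
    exact h.norm_bb_le (hmem s hs)
  have key : ∀ σ : ℝ, |σ| = 1 → σ * (Real.exp (κ * -(R / 8)) * ff P φ (z + ((-(R / 8) : ℝ) : ℂ))) +
      Cb q₁ C₇ / κ * Real.exp (κ * -(R / 8)) ≤ σ * (Real.exp (κ * 0) * ff P φ (z + ((0 : ℝ) : ℂ))) +
      Cb q₁ C₇ / κ * Real.exp (κ * 0) := by
    intro σ hσ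
    have hd : ∀ s : ℝ, HasDerivAt (fun s : ℝ => σ * (Real.exp (κ * s) * ff P φ (z + s)) +
        Cb q₁ C₇ / κ * Real.exp (κ * s)) (σ * (Real.exp (κ * s) *
          (px (ff P φ) (z + s) + κ * ff P φ (z + s))) + Cb q₁ C₇ * Real.exp (κ * s)) s :=
      fun s => ((hE s).const_mul σ).add (hG s)
    have hm : MonotoneOn (fun s : ℝ => σ * (Real.exp (κ * s) * ff P φ (z + s)) +
        Cb q₁ C₇ / κ * Real.exp (κ * s)) (Icc (-(R / 8)) 0) := by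
      refine monotoneOn_of_deriv_nonneg (convex_Icc _ _)
        (fun s _ => (hd s).continuousAt.continuousWithinAt)
        (fun s _ => (hd s).differentiableAt.differentiableWithinAt) ?_
      intro s hs
      rw [interior_Icc] at hs
      rw [(hd s).deriv]
      have h1 := hb s (Ioo_subset_Icc_self hs)
      have h2 : -(Cb q₁ C₇) ≤ σ * (px (ff P φ) (z + s) + κ * ff P φ (z + s)) := by
        have h3 : |σ * (px (ff P φ) (z + s) + κ * ff P φ (z + s))| ≤ Cb q₁ C₇ := by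
          rw [abs_mul, hσ, one_mul]
          exact h1
        exact (abs_le.1 h3).1
      have h3 := Real.exp_pos (κ * s)
      nlinarith
    exact hm ⟨le_rfl, by linarith⟩ ⟨by linarith, le_rfl⟩ (by linarith)
  have hl : |ff P φ (z + ((-(R / 8) : ℝ) : ℂ))| ≤ Cb q₁ C₇ :=
    h.abs_ff_le_Cb (hmem _ ⟨le_rfl, by linarith⟩)
  have hexp : Real.exp (κ * -(R / 8)) ≤ 8 / c₁ / κ := by
    have h1 : Real.exp (κ * -(R / 8)) * (κ * (R / 8)) ≤ 1 := by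
      have h2 : κ * (R / 8) ≤ Real.exp (κ * (R / 8)) := by
        have := Real.add_one_le_exp (κ * (R / 8))
        linarith
      have h3 : Real.exp (κ * -(R / 8)) * Real.exp (κ * (R / 8)) = 1 := by
        rw [← Real.exp_add]
        have : κ * -(R / 8) + κ * (R / 8) = 0 := by ring
        rw [this, Real.exp_zero]
      calc Real.exp (κ * -(R / 8)) * (κ * (R / 8)) ≤
          Real.exp (κ * -(R / 8)) * Real.exp (κ * (R / 8)) :=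
            mul_le_mul_of_nonneg_left h2 (Real.exp_pos _).le
        _ = 1 := h3
    rw [div_div, le_div_iff₀ (by positivity)]
    have h4 := Real.exp_pos (κ * -(R / 8))
    have h5 : Real.exp (κ * -(R / 8)) * (c₁ * κ) ≤ Real.exp (κ * -(R / 8)) * (R * κ) :=
      mul_le_mul_of_nonneg_left (mul_le_mul_of_nonneg_right hR hkp.le) h4.le
    nlinarith
  have hl2 : |Real.exp (κ * -(R / 8)) * ff P φ (z + ((-(R / 8) : ℝ) : ℂ))| ≤
      8 / c₁ / κ * Cb q₁ C₇ := by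
    rw [abs_mul, abs_of_pos (Real.exp_pos _)]
    exact mul_le_mul hexp hl (abs_nonneg _) (by positivity)
  have hz0 : z + ((0 : ℝ) : ℂ) = z := by simp
  have hfin : Cf q₁ C₇ c₁ / κ = Cb q₁ C₇ / κ + 8 / c₁ / κ * Cb q₁ C₇ := by
    unfold Cf
    ring
  have hpos : 0 ≤ Cb q₁ C₇ / κ * Real.exp (κ * -(R / 8)) := by positivity
  have k1 := key 1 (by simp)
  have k2 := key (-1) (by simp)
  rw [hz0, mul_zero, Real.exp_zero] at k1 k2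
  obtain ⟨l1, l2⟩ := abs_le.1 hl2
  rw [abs_le, hfin]
  constructor
  · nlinarith
  · nlinarith

/-- `|f_x| ≤ 2 C_f` on `B_{7R/8}` (from identity (2)). -/
theorem SS.abs_px_ff_le (h : SS q₁ C₇ η₀ P R φ Q) (hc : 0 < c₁) (hR : c₁ ≤ R) {z : ℂ}
    (hz : z ∈ ball (0 : ℂ) (7 / 8 * R)) :
    |px (ff P φ) z| ≤ 2 * Cf q₁ C₇ c₁ := by
  obtain ⟨hk1, -, -, -, -⟩ := Pointwise_kap h
  have hkp : 0 < kap P (Q 0) := by linarith
  have h1 : |px (ff P φ) z + kap P (Q 0) * ff P φ z| ≤ Cb q₁ C₇ := by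
    rw [re_bb h.smooth]
    refine (Complex.abs_re_le_norm _).trans ?_
    rw [norm_mul, Pointwise_norm_exp, one_mul]
    exact h.norm_bb_le (Pointwise_mem hz h.hR)
  have h2 : |kap P (Q 0) * ff P φ z| ≤ Cf q₁ C₇ c₁ := by
    rw [abs_mul, abs_of_pos hkp]
    have h3 := h.abs_ff_le hc hR hz
    rw [le_div_iff₀ hkp] at h3
    linarith
  have h4 := Pointwise_Cf h hc
  have h5 : px (ff P φ) z = (px (ff P φ) z + kap P (Q 0) * ff P φ z) -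
      kap P (Q 0) * ff P φ z := by ring
  rw [h5]
  refine (abs_sub _ _).trans ?_
  linarith

/-- `|∂̄b| ≤ C_f (2q₁/κ + η₀/R)` on `B_{7R/8}`. -/
theorem SS.norm_dbar_le (h : SS q₁ C₇ η₀ P R φ Q) (hc : 0 < c₁) (hR : c₁ ≤ R) {z : ℂ}
    (hz : z ∈ ball (0 : ℂ) (7 / 8 * R)) :
    ‖dbar (bb P (kap P (Q 0)) φ) z‖ ≤ Cf q₁ C₇ c₁ * (2 * q₁ / kap P (Q 0) + η₀ / R) := by
  obtain ⟨hk1, hk2, hk3, hk4, hk5⟩ := Pointwise_kap h
  obtain ⟨h0, h0'⟩ := Pointwise_q h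
  have hkp : 0 < kap P (Q 0) := by linarith
  have hzR := Pointwise_mem hz h.hR
  have hRp := h.hR
  have hη := h.hη
  have hP := h.hP
  have hCf : 0 < Cf q₁ C₇ c₁ := (Pointwise_Cb h).trans_le (Pointwise_Cf h hc)
  rw [dbar_bb h.smooth (kap_sq h0) (h.pde z hzR), norm_mul, Pointwise_norm_exp', one_mul,
    Complex.norm_real, Real.norm_eq_abs]
  refine (abs_add_le _ _).trans ?_
  have h1 : |(kap P (Q 0) - P) * px (ff P φ) z| ≤ q₁ / kap P (Q 0) * (2 * Cf q₁ C₇ c₁) := by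
    rw [abs_mul, abs_of_nonneg hk3]
    exact mul_le_mul hk4 (h.abs_px_ff_le hc hR hz) (abs_nonneg _) (hk3.trans hk4)
  have h2 : |1 / 2 * (Q 0 - Q z) * ff P φ z| ≤ η₀ / R * Cf q₁ C₇ c₁ := by
    have h3 : |Q 0 - Q z| ≤ η₀ * P / R := by
      rw [abs_sub_comm]
      exact h.hQ0 z hzR
    have h4 := h.abs_ff_le hc hR hz
    rw [abs_mul, abs_mul, abs_of_pos (by norm_num : (0 : ℝ) < 1 / 2)]
    have h5 : |Q 0 - Q z| * |ff P φ z| ≤ η₀ * P / R * (Cf q₁ C₇ c₁ / kap P (Q 0)) :=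
      mul_le_mul h3 h4 (abs_nonneg _) (by positivity)
    have h6 : η₀ * P / R * (Cf q₁ C₇ c₁ / kap P (Q 0)) ≤ η₀ / R * Cf q₁ C₇ c₁ := by
      have h7 : η₀ * P / R * (Cf q₁ C₇ c₁ / kap P (Q 0)) =
          η₀ / R * Cf q₁ C₇ c₁ * (P / kap P (Q 0)) := by ring
      rw [h7]
      refine mul_le_of_le_one_right (by positivity) ?_
      rw [div_le_one hkp]
      exact hk2
    have h8 : 0 ≤ η₀ / R * Cf q₁ C₇ c₁ := by positivity
    calc 1 / 2 * |Q 0 - Q z| * |ff P φ z| = 1 / 2 * (|Q 0 - Q z| * |ff P φ z|) := by ring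
      _ ≤ 1 / 2 * (η₀ / R * Cf q₁ C₇ c₁) := by
          exact mul_le_mul_of_nonneg_left (h5.trans h6) (by norm_num)
      _ ≤ η₀ / R * Cf q₁ C₇ c₁ := by linarith
  calc |(kap P (Q 0) - P) * px (ff P φ) z| + |1 / 2 * (Q 0 - Q z) * ff P φ z|
      ≤ q₁ / kap P (Q 0) * (2 * Cf q₁ C₇ c₁) + η₀ / R * Cf q₁ C₇ c₁ := add_le_add h1 h2
    _ = Cf q₁ C₇ c₁ * (2 * q₁ / kap P (Q 0) + η₀ / R) := by ring

/-- `|∂̄b|² ≤ 2 (q₁/κ)² f_x² + (1/2) (C_f η₀/R)²` on `B_{7R/8}` (from identity (1),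
`κ - P ≤ q₁/κ`, `|Q-Q₀||f| ≤ (η₀ P/R)(C_f/κ) ≤ C_f η₀/R`, `(a+b)² ≤ 2a² + 2b²`). -/
theorem SS.normSq_dbar_le (h : SS q₁ C₇ η₀ P R φ Q) (hc : 0 < c₁) (hR : c₁ ≤ R) {z : ℂ}
    (hz : z ∈ ball (0 : ℂ) (7 / 8 * R)) :
    ‖dbar (bb P (kap P (Q 0)) φ) z‖ ^ 2 ≤
      2 * (q₁ / kap P (Q 0)) ^ 2 * (px (ff P φ) z) ^ 2 + (1 / 2) * (Cf q₁ C₇ c₁ * η₀ / R) ^ 2 := by
  obtain ⟨hk1, hk2, hk3, hk4, hk5⟩ := Pointwise_kap h
  obtain ⟨h0, h0'⟩ := Pointwise_q h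
  have hkp : 0 < kap P (Q 0) := by linarith
  have hzR := Pointwise_mem hz h.hR
  have hRp := h.hR
  have hη := h.hη
  have hP := h.hP
  have hCf : 0 < Cf q₁ C₇ c₁ := (Pointwise_Cb h).trans_le (Pointwise_Cf h hc)
  rw [dbar_bb h.smooth (kap_sq h0) (h.pde z hzR), norm_mul, Pointwise_norm_exp', one_mul,
    Complex.norm_real, Real.norm_eq_abs, sq_abs]
  have h2 : |(Q 0 - Q z) * ff P φ z| ≤ Cf q₁ C₇ c₁ * η₀ / R := by
    have h3 : |Q 0 - Q z| ≤ η₀ * P / R := by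
      rw [abs_sub_comm]
      exact h.hQ0 z hzR
    have h4 := h.abs_ff_le hc hR hz
    rw [abs_mul]
    have h5 : |Q 0 - Q z| * |ff P φ z| ≤ η₀ * P / R * (Cf q₁ C₇ c₁ / kap P (Q 0)) :=
      mul_le_mul h3 h4 (abs_nonneg _) (by positivity)
    have h6 : η₀ * P / R * (Cf q₁ C₇ c₁ / kap P (Q 0)) ≤ Cf q₁ C₇ c₁ * η₀ / R := by
      have h7 : η₀ * P / R * (Cf q₁ C₇ c₁ / kap P (Q 0)) =
          Cf q₁ C₇ c₁ * η₀ / R * (P / kap P (Q 0)) := by ring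
      rw [h7]
      refine mul_le_of_le_one_right (by positivity) ?_
      rw [div_le_one hkp]
      exact hk2
    exact h5.trans h6
  have h3 : ((Q 0 - Q z) * ff P φ z) ^ 2 ≤ (Cf q₁ C₇ c₁ * η₀ / R) ^ 2 := by
    rw [← sq_abs]
    exact pow_le_pow_left₀ (abs_nonneg _) h2 2
  have h4 : (kap P (Q 0) - P) ^ 2 ≤ (q₁ / kap P (Q 0)) ^ 2 := pow_le_pow_left₀ hk3 hk4 2
  have h5 : (kap P (Q 0) - P) ^ 2 * (px (ff P φ) z) ^ 2 ≤
      (q₁ / kap P (Q 0)) ^ 2 * (px (ff P φ) z) ^ 2 :=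
    mul_le_mul_of_nonneg_right h4 (sq_nonneg _)
  have h6 : ((kap P (Q 0) - P) * px (ff P φ) z + 1 / 2 * (Q 0 - Q z) * ff P φ z) ^ 2 ≤
      2 * ((kap P (Q 0) - P) ^ 2 * (px (ff P φ) z) ^ 2) +
        1 / 2 * ((Q 0 - Q z) * ff P φ z) ^ 2 := by
    nlinarith [sq_nonneg ((kap P (Q 0) - P) * px (ff P φ) z - 1 / 2 * (Q 0 - Q z) * ff P φ z)]
  calc ((kap P (Q 0) - P) * px (ff P φ) z + 1 / 2 * (Q 0 - Q z) * ff P φ z) ^ 2
      ≤ 2 * ((kap P (Q 0) - P) ^ 2 * (px (ff P φ) z) ^ 2) +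
        1 / 2 * ((Q 0 - Q z) * ff P φ z) ^ 2 := h6
    _ ≤ 2 * ((q₁ / kap P (Q 0)) ^ 2 * (px (ff P φ) z) ^ 2) +
        1 / 2 * (Cf q₁ C₇ c₁ * η₀ / R) ^ 2 := by linarith
    _ = 2 * (q₁ / kap P (Q 0)) ^ 2 * (px (ff P φ) z) ^ 2 +
        1 / 2 * (Cf q₁ C₇ c₁ * η₀ / R) ^ 2 := by ring

/-- `|b(0)| ≥ 1 - (1+q₁) C_f/κ` if `q(0) = 1`.  Proof: `t = |φ(0)| = |f(0)| ≤ C_f/κ`,
`|∇φ(0)| = √(1 - t²) ≥ 1 - t`, `|b(0)| ≥ |∇φ(0)| - (κ-P) t` and `κ - P ≤ q₁/κ ≤ q₁`. -/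
theorem SS.norm_bb_zero_ge (h : SS q₁ C₇ η₀ P R φ Q) (hc : 0 < c₁) (hR : c₁ ≤ R)
    (h1 : qf φ 0 = 1) :
    1 - (1 + q₁) * (Cf q₁ C₇ c₁ / kap P (Q 0)) ≤ ‖bb P (kap P (Q 0)) φ 0‖ := by
  obtain ⟨hk1, hk2, hk3, hk4, hk5⟩ := Pointwise_kap h
  have hRp := h.hR
  have h0m : (0 : ℂ) ∈ ball (0 : ℂ) (7 / 8 * R) := mem_ball_self (by linarith)
  have hf0 : ff P φ 0 = φ 0 := by simp [ff]
  have ht : |φ 0| ≤ Cf q₁ C₇ c₁ / kap P (Q 0) := by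
    rw [← hf0]
    exact h.abs_ff_le hc hR h0m
  have hq : (px φ 0) ^ 2 + (py φ 0) ^ 2 + (φ 0) ^ 2 = 1 := h1
  have ht1 : |φ 0| ≤ 1 := by
    rw [← sq_le_one_iff_abs_le_one]
    nlinarith [sq_nonneg (px φ 0), sq_nonneg (py φ 0)]
  have hb : bb P (kap P (Q 0)) φ 0 = ((px φ 0 : ℝ) : ℂ) - Complex.I * ((py φ 0 : ℝ) : ℂ) +
      (((kap P (Q 0) - P) * φ 0 : ℝ) : ℂ) := by
    simp [bb]
  have hn : 1 - |φ 0| ≤ ‖((px φ 0 : ℝ) : ℂ) - Complex.I * ((py φ 0 : ℝ) : ℂ)‖ := by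
    have h3 : ‖((px φ 0 : ℝ) : ℂ) - Complex.I * ((py φ 0 : ℝ) : ℂ)‖ ^ 2 =
        (px φ 0) ^ 2 + (py φ 0) ^ 2 := by
      rw [← Complex.normSq_eq_norm_sq, Complex.normSq_apply]
      simp
      ring
    refine abs_le_of_sq_le_sq' ?_ (norm_nonneg _) |>.2
    rw [h3]
    have h4 := sq_abs (φ 0)
    have h5 := abs_nonneg (φ 0)
    nlinarith
  have h5 : ‖(((kap P (Q 0) - P) * φ 0 : ℝ) : ℂ)‖ ≤ q₁ * |φ 0| := by
    rw [Complex.norm_real, Real.norm_eq_abs, abs_mul, abs_of_nonneg hk3]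
    exact mul_le_mul_of_nonneg_right hk5 (abs_nonneg _)
  have h6 : ‖((px φ 0 : ℝ) : ℂ) - Complex.I * ((py φ 0 : ℝ) : ℂ)‖ -
      ‖(((kap P (Q 0) - P) * φ 0 : ℝ) : ℂ)‖ ≤ ‖bb P (kap P (Q 0)) φ 0‖ := by
    rw [hb]
    have := norm_sub_norm_le (((px φ 0 : ℝ) : ℂ) - Complex.I * ((py φ 0 : ℝ) : ℂ))
      (-(((kap P (Q 0) - P) * φ 0 : ℝ) : ℂ))
    rwa [norm_neg, sub_neg_eq_add] at this
  have hq1 : 0 ≤ q₁ := (Pointwise_q h).1.trans (Pointwise_q h).2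
  nlinarith

end FC34
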